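import Mathlib
import Pool.Agent.Lib.MP_95e7ec_an.AvgDefs
import Pool.Agent.Lib.MP_95e7ec_an.KqDefs

/-!
# The closed orbits of most of the turned fields: definitions

The theorem (helper93): there is an absolute constant `K` such that for every planar polynomial field
`X` of degree at most `n` and every `0 < ε ≤ 1` the set of the angles `a` in `(0,2π)` such that the
turned field `e^{ia} X` has more than `K n¹¹ / ε³` closed orbits has outer measure at most `ε`.

Here: the field in logarithmic polar coordinates, the level functions, zones.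
-/

set_option autoImplicit false

open Set Filter Topology MeasureTheory
open scoped ContDiff ENNReal

namespace Pool.Agent.Lib.MP_95e7ec_an

/-- the field `v` multiplied by the conjugate of `z` (complex multiplication) -/
def wf (v : ℝ × ℝ → ℝ × ℝ) (z : ℝ × ℝ) : ℝ × ℝ :=
  (z.1 * (v z).1 + z.2 * (v z).2, z.1 * (v z).2 - z.2 * (v z).1)

/-- the field `v` in the logarithmic polar coordinates, up to a positive factor -/
noncomputable def cf (v : ℝ × ℝ → ℝ × ℝ) (p : ℝ × ℝ) : ℝ × ℝ := wf v (cyl p)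

/-- the first partial derivative -/
noncomputable def d1 (f : ℝ × ℝ → ℝ) (p : ℝ × ℝ) : ℝ := fderiv ℝ f p (1, 0)

/-- the second partial derivative -/
noncomputable def d2 (f : ℝ × ℝ → ℝ) (p : ℝ × ℝ) : ℝ := fderiv ℝ f p (0, 1)

/-- the imaginary part of `e^{ic} Φ` -/
noncomputable def lev (Φ : ℝ × ℝ → ℝ × ℝ) (c : ℝ) (p : ℝ × ℝ) : ℝ := (turn c Φ p).2

/-- On the interval `I` of the first coordinate the field `Φ` has no zero, and the level curves
`lev Φ c = 0`, `c ∈ G`, have slope less than `m`. -/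
structure Zone (Φ : ℝ × ℝ → ℝ × ℝ) (m : ℝ) (G I : Set ℝ) : Prop where
  conn : I.OrdConnected
  ne : ∀ p : ℝ × ℝ, p.1 ∈ I → Φ p ≠ 0
  slope : ∀ c ∈ G, ∀ p : ℝ × ℝ, p.1 ∈ I → lev Φ c p = 0 →
    |d1 (lev Φ c) p| < m * |d2 (lev Φ c) p|

/-- `C` is a closed orbit of the turned field, with positive winding number on the cylinder, and
with its first coordinate in `I` -/
def PosOrb (Φ : ℝ × ℝ → ℝ × ℝ) (I : Set ℝ) (a : ℝ) (C : Set (ℝ × ℝ)) : Prop :=
  ∃ (σ : ℝ → ℝ × ℝ) (T : ℝ) (k : ℤ), 0 < k ∧ CylSol (turn a Φ) σ T k ∧ (∀ t, (σ t).1 ∈ I) ∧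
    C = Set.range fun t => cyl (σ t)

/-- the value of a polynomial at a point of the plane -/
noncomputable def ev (F : MvPolynomial (Fin 2) ℝ) (z : ℝ × ℝ) : ℝ :=
  MvPolynomial.eval ![z.1, z.2] F

/-- the radial derivative `x ∂_x + y ∂_y` -/
noncomputable def Drho (F : MvPolynomial (Fin 2) ℝ) : MvPolynomial (Fin 2) ℝ :=
  MvPolynomial.X 0 * MvPolynomial.pderiv 0 F + MvPolynomial.X 1 * MvPolynomial.pderiv 1 F

/-- the angular derivative `x ∂_y - y ∂_x` -/
noncomputable def Dth (F : MvPolynomial (Fin 2) ℝ) : MvPolynomial (Fin 2) ℝ :=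
  MvPolynomial.X 0 * MvPolynomial.pderiv 1 F - MvPolynomial.X 1 * MvPolynomial.pderiv 0 F

/-- the real part of `X z̄`, `X = (P,Q)` -/
noncomputable def wre (P Q : MvPolynomial (Fin 2) ℝ) : MvPolynomial (Fin 2) ℝ :=
  MvPolynomial.X 0 * P + MvPolynomial.X 1 * Q

/-- the imaginary part of `X z̄`, `X = (P,Q)` -/
noncomputable def wim (P Q : MvPolynomial (Fin 2) ℝ) : MvPolynomial (Fin 2) ℝ :=
  MvPolynomial.X 0 * Q - MvPolynomial.X 1 * P

/-- `Im (W̄ (W_ρ + m W_θ))`, `W = X z̄` -/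
noncomputable def Kpol (P Q : MvPolynomial (Fin 2) ℝ) (m : ℝ) : MvPolynomial (Fin 2) ℝ :=
  wre P Q * (Drho (wim P Q) + MvPolynomial.C m * Dth (wim P Q)) -
    wim P Q * (Drho (wre P Q) + MvPolynomial.C m * Dth (wre P Q))

/-- the binary form with the coefficients `β` at `(cos c, sin c)` -/
noncomputable def bform {B : ℕ} (β : Fin (B + 1) → ℝ) (c : ℝ) : ℝ :=
  ∑ j : Fin (B + 1), β j * (Real.cos c ^ (B - (j : ℕ)) * Real.sin c ^ (j : ℕ))

end Pool.Agent.Lib.MP_95e7ec_an
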