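import Mathlib
import Pool.Agent.Lib.MP_95e7ec_an.Rq.Defs
import Pool.Agent.Lib.MP_95e7ec_an.Zeros

/-!
# Rq, Chain: the derivatives of a polynomial in logarithmic polar coordinates
-/

set_option autoImplicit false

open Set Filter Topology MeasureTheory
open scoped ContDiff ENNReal

namespace Pool.Agent.Lib.MP_95e7ec_an

theorem contDiff_cyl {k : WithTop ℕ∞} : ContDiff ℝ k cyl := by
  unfold cyl
  exact ((Real.contDiff_exp.comp contDiff_fst).mul (Real.contDiff_cos.comp contDiff_snd)).prodMk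
    ((Real.contDiff_exp.comp contDiff_fst).mul (Real.contDiff_sin.comp contDiff_snd))

theorem cyl_add_period (p : ℝ × ℝ) : cyl (p + (0, 2 * Real.pi)) = cyl p := by
  simp [cyl, Real.cos_add_two_pi, Real.sin_add_two_pi]

theorem contDiff_ev_cyl (F : MvPolynomial (Fin 2) ℝ) {k : WithTop ℕ∞} :
    ContDiff ℝ k fun p => ev F (cyl p) :=
  (contDiff_eval F).comp contDiff_cyl

private theorem chain_hasFDerivAt {x y : ℝ × ℝ → ℝ} {x' y' : ℝ × ℝ →L[ℝ] ℝ} {p : ℝ × ℝ}
    (hx : HasFDerivAt x x' p) (hy : HasFDerivAt y y' p) (F : MvPolynomial (Fin 2) ℝ) :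
    HasFDerivAt (fun q => MvPolynomial.eval ![x q, y q] F)
      (MvPolynomial.eval ![x p, y p] (MvPolynomial.pderiv 0 F) • x' +
        MvPolynomial.eval ![x p, y p] (MvPolynomial.pderiv 1 F) • y') p := by
  induction F using MvPolynomial.induction_on with
  | C a =>
    have h := hasFDerivAt_const (𝕜 := ℝ) a p
    convert h using 1
    · funext q
      simp
    · simp
  | add F G hF hG =>
    have e : (fun q => MvPolynomial.eval ![x q, y q] (F + G)) =
        fun q => MvPolynomial.eval ![x q, y q] F + MvPolynomial.eval ![x q, y q] G := by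
      funext q
      simp
    rw [e]
    refine (hF.fun_add hG).congr_fderiv ?_
    simp only [map_add]
    module
  | mul_X F i hF =>
    have key : ∀ (w : ℝ × ℝ → ℝ) (w' : ℝ × ℝ →L[ℝ] ℝ), HasFDerivAt w w' p →
        HasFDerivAt (fun q => MvPolynomial.eval ![x q, y q] F * w q)
          (MvPolynomial.eval ![x p, y p] F • w' + w p •
            (MvPolynomial.eval ![x p, y p] (MvPolynomial.pderiv 0 F) • x' +
              MvPolynomial.eval ![x p, y p] (MvPolynomial.pderiv 1 F) • y')) p := by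
      intro w w' hw
      exact hF.mul hw
    fin_cases i
    · have e : (fun q => MvPolynomial.eval ![x q, y q] (F * MvPolynomial.X 0)) =
          fun q => MvPolynomial.eval ![x q, y q] F * x q := by
        funext q
        simp
      show HasFDerivAt (fun q => MvPolynomial.eval ![x q, y q] (F * MvPolynomial.X 0)) _ p
      rw [e]
      refine (key x x' hx).congr_fderiv ?_
      have e0 : MvPolynomial.eval ![x p, y p] (MvPolynomial.pderiv 0 (F * MvPolynomial.X 0)) =
          MvPolynomial.eval ![x p, y p] (MvPolynomial.pderiv 0 F) * x p +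
            MvPolynomial.eval ![x p, y p] F := by
        simp
        ring
      have e1 : MvPolynomial.eval ![x p, y p] (MvPolynomial.pderiv 1 (F * MvPolynomial.X 0)) =
          MvPolynomial.eval ![x p, y p] (MvPolynomial.pderiv 1 F) * x p := by
        rw [MvPolynomial.pderiv_mul, MvPolynomial.pderiv_X_of_ne (by decide : (0 : Fin 2) ≠ 1)]
        simp
      show _ = MvPolynomial.eval ![x p, y p] (MvPolynomial.pderiv 0 (F * MvPolynomial.X 0)) • x' +
        MvPolynomial.eval ![x p, y p] (MvPolynomial.pderiv 1 (F * MvPolynomial.X 0)) • y'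
      rw [e0, e1]
      module
    · have e : (fun q => MvPolynomial.eval ![x q, y q] (F * MvPolynomial.X 1)) =
          fun q => MvPolynomial.eval ![x q, y q] F * y q := by
        funext q
        simp
      show HasFDerivAt (fun q => MvPolynomial.eval ![x q, y q] (F * MvPolynomial.X 1)) _ p
      rw [e]
      refine (key y y' hy).congr_fderiv ?_
      have e0 : MvPolynomial.eval ![x p, y p] (MvPolynomial.pderiv 1 (F * MvPolynomial.X 1)) =
          MvPolynomial.eval ![x p, y p] (MvPolynomial.pderiv 1 F) * y p +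
            MvPolynomial.eval ![x p, y p] F := by
        simp
        ring
      have e1 : MvPolynomial.eval ![x p, y p] (MvPolynomial.pderiv 0 (F * MvPolynomial.X 1)) =
          MvPolynomial.eval ![x p, y p] (MvPolynomial.pderiv 0 F) * y p := by
        rw [MvPolynomial.pderiv_mul, MvPolynomial.pderiv_X_of_ne (by decide : (1 : Fin 2) ≠ 0)]
        simp
      show _ = MvPolynomial.eval ![x p, y p] (MvPolynomial.pderiv 0 (F * MvPolynomial.X 1)) • x' +
        MvPolynomial.eval ![x p, y p] (MvPolynomial.pderiv 1 (F * MvPolynomial.X 1)) • y'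
      rw [e0, e1]
      module

private theorem chain_cyl1 (p : ℝ × ℝ) : HasFDerivAt (fun q : ℝ × ℝ => (cyl q).1)
    ((Real.exp p.1 * Real.cos p.2) • ContinuousLinearMap.fst ℝ ℝ ℝ -
      (Real.exp p.1 * Real.sin p.2) • ContinuousLinearMap.snd ℝ ℝ ℝ) p := by
  have h1 : HasFDerivAt (fun q : ℝ × ℝ => Real.exp q.1)
      (Real.exp p.1 • ContinuousLinearMap.fst ℝ ℝ ℝ) p :=
    (Real.hasDerivAt_exp p.1).comp_hasFDerivAt p hasFDerivAt_fst
  have h2 : HasFDerivAt (fun q : ℝ × ℝ => Real.cos q.2)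
      ((-Real.sin p.2) • ContinuousLinearMap.snd ℝ ℝ ℝ) p :=
    (Real.hasDerivAt_cos p.2).comp_hasFDerivAt p hasFDerivAt_snd
  refine (h1.fun_mul h2).congr_fderiv ?_
  module

private theorem chain_cyl2 (p : ℝ × ℝ) : HasFDerivAt (fun q : ℝ × ℝ => (cyl q).2)
    ((Real.exp p.1 * Real.sin p.2) • ContinuousLinearMap.fst ℝ ℝ ℝ +
      (Real.exp p.1 * Real.cos p.2) • ContinuousLinearMap.snd ℝ ℝ ℝ) p := by
  have h1 : HasFDerivAt (fun q : ℝ × ℝ => Real.exp q.1)
      (Real.exp p.1 • ContinuousLinearMap.fst ℝ ℝ ℝ) p :=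
    (Real.hasDerivAt_exp p.1).comp_hasFDerivAt p hasFDerivAt_fst
  have h2 : HasFDerivAt (fun q : ℝ × ℝ => Real.sin q.2)
      ((Real.cos p.2) • ContinuousLinearMap.snd ℝ ℝ ℝ) p :=
    (Real.hasDerivAt_sin p.2).comp_hasFDerivAt p hasFDerivAt_snd
  refine (h1.fun_mul h2).congr_fderiv ?_
  module

private theorem chain_fderiv (F : MvPolynomial (Fin 2) ℝ) (p : ℝ × ℝ) :
    fderiv ℝ (fun q => ev F (cyl q)) p =
      ev (MvPolynomial.pderiv 0 F) (cyl p) •
        ((Real.exp p.1 * Real.cos p.2) • ContinuousLinearMap.fst ℝ ℝ ℝ -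
          (Real.exp p.1 * Real.sin p.2) • ContinuousLinearMap.snd ℝ ℝ ℝ) +
      ev (MvPolynomial.pderiv 1 F) (cyl p) •
        ((Real.exp p.1 * Real.sin p.2) • ContinuousLinearMap.fst ℝ ℝ ℝ +
          (Real.exp p.1 * Real.cos p.2) • ContinuousLinearMap.snd ℝ ℝ ℝ) :=
  (chain_hasFDerivAt (chain_cyl1 p) (chain_cyl2 p) F).fderiv

/-- chain rule -/
theorem d1_ev_cyl (F : MvPolynomial (Fin 2) ℝ) (p : ℝ × ℝ) :
    d1 (fun q => ev F (cyl q)) p = ev (Drho F) (cyl p) := by
  unfold d1
  rw [chain_fderiv]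
  simp only [ev, Drho, cyl, add_apply, sub_apply,
    smul_apply, ContinuousLinearMap.coe_fst', ContinuousLinearMap.coe_snd',
    smul_eq_mul, map_add, map_mul, MvPolynomial.eval_X, Matrix.cons_val_zero, Matrix.cons_val_one,
    Fin.isValue]
  ring

theorem d2_ev_cyl (F : MvPolynomial (Fin 2) ℝ) (p : ℝ × ℝ) :
    d2 (fun q => ev F (cyl q)) p = ev (Dth F) (cyl p) := by
  unfold d2
  rw [chain_fderiv]
  simp only [ev, Dth, cyl, add_apply, sub_apply,
    smul_apply, ContinuousLinearMap.coe_fst', ContinuousLinearMap.coe_snd',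
    smul_eq_mul, map_sub, map_mul, MvPolynomial.eval_X, Matrix.cons_val_zero, Matrix.cons_val_one,
    Fin.isValue]
  ring

theorem ev_wre (P Q : MvPolynomial (Fin 2) ℝ) (z : ℝ × ℝ) : ev (wre P Q) z = (wf (vf P Q) z).1 := by
  simp [ev, wre, wf, vf]

theorem ev_wim (P Q : MvPolynomial (Fin 2) ℝ) (z : ℝ × ℝ) : ev (wim P Q) z = (wf (vf P Q) z).2 := by
  simp [ev, wim, wf, vf]

theorem contDiff_cf (P Q : MvPolynomial (Fin 2) ℝ) {k : WithTop ℕ∞} :
    ContDiff ℝ k (cf (vf P Q)) := by
  have h : cf (vf P Q) = fun p => (ev (wre P Q) (cyl p), ev (wim P Q) (cyl p)) := by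
    funext p
    unfold cf
    rw [ev_wre, ev_wim]
  rw [h]
  exact (contDiff_ev_cyl _).prodMk (contDiff_ev_cyl _)

theorem cf_period (v : ℝ × ℝ → ℝ × ℝ) (p : ℝ × ℝ) :
    cf v (p + (0, 2 * Real.pi)) = cf v p := by
  unfold cf
  rw [cyl_add_period]

theorem lev_cf (P Q : MvPolynomial (Fin 2) ℝ) (c : ℝ) (p : ℝ × ℝ) :
    lev (cf (vf P Q)) c p =
      Real.sin c * ev (wre P Q) (cyl p) + Real.cos c * ev (wim P Q) (cyl p) := by
  rw [ev_wre, ev_wim]
  rfl

private theorem chain_fderiv_lev (P Q : MvPolynomial (Fin 2) ℝ) (c : ℝ) (p : ℝ × ℝ) :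
    fderiv ℝ (lev (cf (vf P Q)) c) p =
      Real.sin c • fderiv ℝ (fun q => ev (wre P Q) (cyl q)) p +
        Real.cos c • fderiv ℝ (fun q => ev (wim P Q) (cyl q)) p := by
  have h : lev (cf (vf P Q)) c = fun p =>
      Real.sin c * ev (wre P Q) (cyl p) + Real.cos c * ev (wim P Q) (cyl p) := by
    funext q
    exact lev_cf P Q c q
  have h1 : DifferentiableAt ℝ (fun q => ev (wre P Q) (cyl q)) p :=
    ((contDiff_ev_cyl (wre P Q) (k := 1)).differentiable (by simp)) p
  have h2 : DifferentiableAt ℝ (fun q => ev (wim P Q) (cyl q)) p :=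
    ((contDiff_ev_cyl (wim P Q) (k := 1)).differentiable (by simp)) p
  rw [h]
  have h3 := ((h1.hasFDerivAt.const_mul (Real.sin c)).add (h2.hasFDerivAt.const_mul (Real.cos c)))
  exact h3.fderiv

/-- At a point of the level curve where the slope is exactly `m` one of the polynomials
`Kpol P Q (± m)` vanishes. Proof: `lev = 0` and `d1 lev + μ d2 lev = 0` (`μ = ± m`) are two linear equations for
`(sin c, cos c) ≠ 0`, the determinant is `Kpol P Q μ`. -/
theorem kpol_eq_zero (P Q : MvPolynomial (Fin 2) ℝ) {c m : ℝ} {p : ℝ × ℝ}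
    (h0 : lev (cf (vf P Q)) c p = 0)
    (h : |d1 (lev (cf (vf P Q)) c) p| = m * |d2 (lev (cf (vf P Q)) c) p|) :
    ev (Kpol P Q m) (cyl p) = 0 ∨ ev (Kpol P Q (-m)) (cyl p) = 0 := by
  have e1 : d1 (lev (cf (vf P Q)) c) p =
      Real.sin c * ev (Drho (wre P Q)) (cyl p) + Real.cos c * ev (Drho (wim P Q)) (cyl p) := by
    rw [← d1_ev_cyl, ← d1_ev_cyl]
    unfold d1
    rw [chain_fderiv_lev]
    simp
  have e2 : d2 (lev (cf (vf P Q)) c) p =
      Real.sin c * ev (Dth (wre P Q)) (cyl p) + Real.cos c * ev (Dth (wim P Q)) (cyl p) := by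
    rw [← d2_ev_cyl, ← d2_ev_cyl]
    unfold d2
    rw [chain_fderiv_lev]
    simp
  have key : ∀ μ : ℝ, d1 (lev (cf (vf P Q)) c) p + μ * d2 (lev (cf (vf P Q)) c) p = 0 →
      ev (Kpol P Q μ) (cyl p) = 0 := by
    intro μ hμ
    rw [e1, e2] at hμ
    rw [lev_cf] at h0
    have hsc := Real.sin_sq_add_cos_sq c
    have hK : ev (Kpol P Q μ) (cyl p) =
        ev (wre P Q) (cyl p) * (ev (Drho (wim P Q)) (cyl p) + μ * ev (Dth (wim P Q)) (cyl p)) -
        ev (wim P Q) (cyl p) * (ev (Drho (wre P Q)) (cyl p) + μ * ev (Dth (wre P Q)) (cyl p)) := by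
      simp [ev, Kpol]
    rw [hK]
    generalize ev (wre P Q) (cyl p) = W1 at *
    generalize ev (wim P Q) (cyl p) = W2 at *
    generalize ev (Drho (wre P Q)) (cyl p) = A1 at *
    generalize ev (Drho (wim P Q)) (cyl p) = A2 at *
    generalize ev (Dth (wre P Q)) (cyl p) = B1 at *
    generalize ev (Dth (wim P Q)) (cyl p) = B2 at *
    generalize Real.sin c = S at *
    generalize Real.cos c = C at *
    have hS : S * (W1 * (A2 + μ * B2) - W2 * (A1 + μ * B1)) = 0 := by
      linear_combination (A2 + μ * B2) * h0 - W2 * hμ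
    have hC : C * (W1 * (A2 + μ * B2) - W2 * (A1 + μ * B1)) = 0 := by
      linear_combination W1 * hμ - (A1 + μ * B1) * h0
    linear_combination S * hS + C * hC - (W1 * (A2 + μ * B2) - W2 * (A1 + μ * B1)) * hsc
  rcases abs_cases (d1 (lev (cf (vf P Q)) c) p) with ⟨ha, -⟩ | ⟨ha, -⟩ <;>
  rcases abs_cases (d2 (lev (cf (vf P Q)) c) p) with ⟨hb, -⟩ | ⟨hb, -⟩ <;>
  rw [ha, hb] at h
  · right
    apply key
    linarith
  · left
    apply key
    linarith
  · left
    apply key
    linarith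
  · right
    apply key
    linarith

private theorem chain_degree_X_pderiv (F : MvPolynomial (Fin 2) ℝ) (i j : Fin 2) :
    (MvPolynomial.X i * MvPolynomial.pderiv j F).totalDegree ≤ F.totalDegree := by
  rw [F.as_sum, map_sum, Finset.mul_sum, ← F.as_sum]
  apply MvPolynomial.totalDegree_finsetSum_le
  intro s hs
  rw [MvPolynomial.pderiv_monomial]
  by_cases h0 : s j = 0
  · rw [h0]
    simp
  · have h1 : (MvPolynomial.X i * MvPolynomial.monomial (s - Finsupp.single j 1)
        (MvPolynomial.coeff s F * ((s j : ℕ) : ℝ))) =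
        MvPolynomial.monomial (Finsupp.single i 1 + (s - Finsupp.single j 1))
          (MvPolynomial.coeff s F * ((s j : ℕ) : ℝ)) := by
      rw [MvPolynomial.X, MvPolynomial.monomial_mul, one_mul]
    rw [h1]
    refine (MvPolynomial.totalDegree_monomial_le _ _).trans ?_
    show ((Finsupp.single i 1 + (s - Finsupp.single j 1)).sum fun _ e => e) ≤ _
    have h2 : (s.sum fun _ e => e) ≤ F.totalDegree := MvPolynomial.le_totalDegree hs
    have h3 : ∀ t : Fin 2 →₀ ℕ, (t.sum fun _ e => e) = t 0 + t 1 := by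
      intro t
      rw [Finsupp.sum_fintype _ _ (fun _ => rfl), Fin.sum_univ_two]
    rw [h3] at h2 ⊢
    have h4 : (Finsupp.single i 1 : Fin 2 →₀ ℕ) 0 + (Finsupp.single i 1 : Fin 2 →₀ ℕ) 1 = 1 := by
      fin_cases i <;> simp
    have h5 : (s - Finsupp.single j 1 : Fin 2 →₀ ℕ) 0 + (s - Finsupp.single j 1 : Fin 2 →₀ ℕ) 1 + 1
        = s 0 + s 1 := by
      fin_cases j
      · simp at h0 ⊢
        omega
      · simp at h0 ⊢
        omega
    rw [Finsupp.add_apply, Finsupp.add_apply]
    omega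

private theorem chain_degree_Drho (F : MvPolynomial (Fin 2) ℝ) :
    (Drho F).totalDegree ≤ F.totalDegree :=
  (MvPolynomial.totalDegree_add _ _).trans
    (max_le (chain_degree_X_pderiv F 0 0) (chain_degree_X_pderiv F 1 1))

private theorem chain_degree_Dth (F : MvPolynomial (Fin 2) ℝ) :
    (Dth F).totalDegree ≤ F.totalDegree :=
  (MvPolynomial.totalDegree_sub _ _).trans
    (max_le (chain_degree_X_pderiv F 0 1) (chain_degree_X_pderiv F 1 0))

private theorem chain_degree_X_mul {n : ℕ} {F : MvPolynomial (Fin 2) ℝ} (hF : F.totalDegree ≤ n)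
    (i : Fin 2) : (MvPolynomial.X i * F).totalDegree ≤ n + 1 := by
  refine (MvPolynomial.totalDegree_mul _ _).trans ?_
  rw [MvPolynomial.totalDegree_X]
  omega

theorem totalDegree_wre {n : ℕ} {P Q : MvPolynomial (Fin 2) ℝ} (hP : P.totalDegree ≤ n)
    (hQ : Q.totalDegree ≤ n) : (wre P Q).totalDegree ≤ n + 1 :=
  (MvPolynomial.totalDegree_add _ _).trans
    (max_le (chain_degree_X_mul hP 0) (chain_degree_X_mul hQ 1))

theorem totalDegree_wim {n : ℕ} {P Q : MvPolynomial (Fin 2) ℝ} (hP : P.totalDegree ≤ n)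
    (hQ : Q.totalDegree ≤ n) : (wim P Q).totalDegree ≤ n + 1 :=
  (MvPolynomial.totalDegree_sub _ _).trans
    (max_le (chain_degree_X_mul hQ 0) (chain_degree_X_mul hP 1))

theorem totalDegree_kpol {n : ℕ} {P Q : MvPolynomial (Fin 2) ℝ} (hP : P.totalDegree ≤ n)
    (hQ : Q.totalDegree ≤ n) (m : ℝ) : (Kpol P Q m).totalDegree ≤ 2 * (n + 1) := by
  have h : ∀ F : MvPolynomial (Fin 2) ℝ, F.totalDegree ≤ n + 1 →
      (Drho F + MvPolynomial.C m * Dth F).totalDegree ≤ n + 1 := by
    intro F hF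
    refine (MvPolynomial.totalDegree_add _ _).trans (max_le ((chain_degree_Drho F).trans hF) ?_)
    refine (MvPolynomial.totalDegree_mul _ _).trans ?_
    rw [MvPolynomial.totalDegree_C, zero_add]
    exact (chain_degree_Dth F).trans hF
  have h1 := totalDegree_wre hP hQ
  have h2 := totalDegree_wim hP hQ
  unfold Kpol
  refine (MvPolynomial.totalDegree_sub _ _).trans (max_le ?_ ?_)
  · refine (MvPolynomial.totalDegree_mul _ _).trans ?_
    have := h _ h2
    omega
  · refine (MvPolynomial.totalDegree_mul _ _).trans ?_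
    have := h _ h1
    omega

end Pool.Agent.Lib.MP_95e7ec_an
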