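import Mathlib
import Pool.Agent.Lib.MP_95e7ec_an.Rq.Defs

/-!
# Rq, Density: a good level in every interval
-/

set_option autoImplicit false

open Set Filter Topology MeasureTheory
open scoped ContDiff ENNReal

namespace Pool.Agent.Lib.MP_95e7ec_an

private theorem Density_sin_sub (a b : ℝ) :
    |Real.sin (a - b)| ≤ |Real.sin a| + |Real.sin b| := by
  rw [Real.sin_sub]
  have h1 : |Real.sin a * Real.cos b| ≤ |Real.sin a| := by
    rw [abs_mul]
    exact mul_le_of_le_one_right (abs_nonneg _) (Real.abs_cos_le_one b)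
  have h2 : |Real.cos a * Real.sin b| ≤ |Real.sin b| := by
    rw [abs_mul]
    exact mul_le_of_le_one_left (abs_nonneg _) (Real.abs_cos_le_one a)
  exact (abs_sub _ _).trans (add_le_add h1 h2)

/-- Proof. Consider the points `c_j = x + j t/(K+1)`, `j = 0, ..., K`, `K = S.card`. For each `φ ∈ S` at
most one `j` has `|sin (c_j - φ)| < η = t/(4(K+1))`: for two of them `|sin (c_j - c_j')| ≤ 2η`
(sine of a difference), and `|c_j - c_j'| ≤ t ≤ 1`, so `|sin (c_j - c_j')| ≥ (2/π) |c_j - c_j'|`
(`Real.mul_le_sin`), i.e. `|c_j - c_j'| ≤ π η < t/(K+1)`. So one of the `K+1` points is good for all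
`φ` (pigeonhole). -/
theorem exists_good (S : Finset ℝ) {t : ℝ} (ht : 0 < t) (ht1 : t ≤ 1) (x : ℝ) :
    ∃ c : ℝ, x ≤ c ∧ c ≤ x + t ∧ ∀ φ ∈ S, t / (4 * (S.card + 1)) ≤ |Real.sin (c - φ)| := by
  classical
  set K : ℕ := S.card with hK
  have hK1 : (0 : ℝ) < (K : ℝ) + 1 := by positivity
  set q : ℝ := t / ((K : ℝ) + 1) with hq
  have hqpos : 0 < q := div_pos ht hK1
  have hqK : q * ((K : ℝ) + 1) = t := div_mul_cancel₀ _ hK1.ne'
  have hη : t / (4 * ((K : ℝ) + 1)) = q / 4 := by rw [hq]; field_simp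
  rw [hη]
  set c : ℕ → ℝ := fun j => x + j * q with hc
  by_contra hcon
  push Not at hcon
  have hbad : ∀ j ∈ Finset.range (K + 1), ∃ φ ∈ S, |Real.sin (c j - φ)| < q / 4 := by
    intro j hj
    have hj' : (j : ℝ) ≤ K := by
      exact_mod_cast Nat.lt_succ_iff.1 (Finset.mem_range.1 hj)
    apply hcon (c j)
    · simp only [hc]
      have : 0 ≤ (j : ℝ) * q := by positivity
      linarith
    · simp only [hc]
      have : (j : ℝ) * q ≤ ((K : ℝ) + 1) * q := by
        apply mul_le_mul_of_nonneg_right _ hqpos.le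
        linarith
      nlinarith
  choose! Φ hΦ using hbad
  obtain ⟨i, hi, j, hj, hij, hΦij⟩ := Finset.exists_ne_map_eq_of_card_lt_of_maps_to
    (s := Finset.range (K + 1)) (t := S) (by rw [Finset.card_range]; omega)
    (f := Φ) (fun j hj => (hΦ j hj).1)
  -- the two points `c i`, `c j`
  have key : ∀ i ∈ Finset.range (K + 1), ∀ j ∈ Finset.range (K + 1), i < j → Φ i = Φ j →
      False := by
    intro i hi j hj hij hΦij
    have h1 := (hΦ i hi).2
    have h2 := (hΦ j hj).2
    rw [hΦij] at h1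
    have h3 : |Real.sin (c j - c i)| < q / 2 := by
      have h4 := Density_sin_sub (c j - Φ j) (c i - Φ j)
      rw [sub_sub_sub_cancel_right] at h4
      linarith
    have hd : c j - c i = ((j : ℝ) - i) * q := by simp only [hc]; ring
    have hji : (1 : ℝ) ≤ (j : ℝ) - i := by
      have : (i : ℝ) + 1 ≤ j := by exact_mod_cast hij
      linarith
    have hjK : (j : ℝ) - i ≤ (K : ℝ) + 1 := by
      have h5 : (j : ℝ) ≤ K := by exact_mod_cast Nat.lt_succ_iff.1 (Finset.mem_range.1 hj)
      have h6 : (0 : ℝ) ≤ i := Nat.cast_nonneg i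
      linarith
    have hlow : q ≤ c j - c i := by
      rw [hd]; nlinarith
    have hup : c j - c i ≤ 1 := by
      rw [hd]
      have : ((j : ℝ) - i) * q ≤ ((K : ℝ) + 1) * q := mul_le_mul_of_nonneg_right hjK hqpos.le
      nlinarith
    have hpi := Real.pi_gt_three
    have hpi2 := Real.pi_lt_four
    have hs : 2 / Real.pi * (c j - c i) ≤ Real.sin (c j - c i) :=
      Real.mul_le_sin (by linarith) (by linarith)
    have h7 : 1 / 2 ≤ 2 / Real.pi := by
      rw [div_le_div_iff₀ (by norm_num) Real.pi_pos]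
      linarith
    have h8 : q / 2 ≤ 2 / Real.pi * (c j - c i) := by
      have : 1 / 2 * q ≤ 2 / Real.pi * (c j - c i) :=
        mul_le_mul h7 hlow hqpos.le (by positivity)
      linarith
    have h9 := (le_abs_self (Real.sin (c j - c i)))
    linarith
  rcases lt_or_gt_of_ne hij with h | h
  · exact key i hi j hj h hΦij
  · exact key j hj i hi h hΦij.symm

end Pool.Agent.Lib.MP_95e7ec_an
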