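import Mathlib
import Pool.Agent.Lib.MP_95e7ec_an.Rq.Defs

/-!
# Rq, Newton: the sizes of the roots of polynomials with coefficients of known size
-/

set_option autoImplicit false

open Set Filter Topology MeasureTheory
open scoped ContDiff ENNReal

namespace Pool.Agent.Lib.MP_95e7ec_an

/-- the class of a root: an index `k` whose term is nearly maximal, and a smaller index `l` whose term
is nearly as large -/
private def NewtonCl {A : ℕ} (b : Fin (A + 1) → ℝ) (k : Fin (A + 1)) (x : ℝ) : Prop :=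
  0 < |b k| * Real.exp ((k : ℕ) * x) ∧
  (∀ i : Fin (A + 1), |b i| * Real.exp ((i : ℕ) * x) ≤
    (A + 1) * (|b k| * Real.exp ((k : ℕ) * x))) ∧
  ∃ l : Fin (A + 1), l < k ∧
    |b k| * Real.exp ((k : ℕ) * x) ≤ (A + 1) * (|b l| * Real.exp ((l : ℕ) * x))

private theorem newton_exists_class {A : ℕ} (b : Fin (A + 1) → ℝ) (hne : ∃ k, b k ≠ 0) {x : ℝ}
    (hx : ∑ k : Fin (A + 1), b k * Real.exp ((k : ℕ) * x) = 0) : ∃ k, NewtonCl b k x := by
  classical
  set E : Fin (A + 1) → ℝ := fun i => |b i| * Real.exp ((i : ℕ) * x) with hE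
  have hE0 : ∀ i, 0 ≤ E i := fun i => mul_nonneg (abs_nonneg _) (Real.exp_pos _).le
  have hA : (0 : ℝ) ≤ A := Nat.cast_nonneg A
  obtain ⟨m, -, hm⟩ := Finset.exists_max_image Finset.univ E Finset.univ_nonempty
  have hm' : ∀ i, E i ≤ E m := fun i => hm i (Finset.mem_univ i)
  have hpos : 0 < E m := by
    obtain ⟨k, hk⟩ := hne
    exact lt_of_lt_of_le (mul_pos (abs_pos.2 hk) (Real.exp_pos _)) (hm' k)
  have hsum : E m ≤ ∑ l ∈ Finset.univ.erase m, E l := by
    have h1 : b m * Real.exp ((m : ℕ) * x) =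
        -∑ l ∈ Finset.univ.erase m, b l * Real.exp ((l : ℕ) * x) := by
      have h2 := Finset.add_sum_erase Finset.univ (fun l : Fin (A + 1) =>
        b l * Real.exp ((l : ℕ) * x)) (Finset.mem_univ m)
      linarith
    have h3 : E m = |b m * Real.exp ((m : ℕ) * x)| := by
      rw [abs_mul, abs_of_pos (Real.exp_pos _)]
    rw [h3, h1, abs_neg]
    refine (Finset.abs_sum_le_sum_abs _ _).trans (Finset.sum_le_sum fun l _ => ?_)
    rw [abs_mul, abs_of_pos (Real.exp_pos _)]
  have hl : ∃ l, l ≠ m ∧ E m ≤ (A + 1) * E l := by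
    by_contra hcon
    push Not at hcon
    have h1 : ∑ l ∈ Finset.univ.erase m, ((A : ℝ) + 1) * E l ≤
        ∑ l ∈ Finset.univ.erase m, E m :=
      Finset.sum_le_sum fun l hl => (hcon l (Finset.ne_of_mem_erase hl)).le
    rw [← Finset.mul_sum, Finset.sum_const, Finset.card_erase_of_mem (Finset.mem_univ m),
      Finset.card_univ, Fintype.card_fin, Nat.add_sub_cancel, nsmul_eq_mul] at h1
    have h2 : ((A : ℝ) + 1) * E m ≤ (A + 1) * ∑ l ∈ Finset.univ.erase m, E l :=
      mul_le_mul_of_nonneg_left hsum (by linarith)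
    nlinarith
  obtain ⟨l, hlm, hl⟩ := hl
  rcases lt_or_gt_of_ne hlm with h | h
  · refine ⟨m, hpos, fun i => ?_, l, h, hl⟩
    have h1 := hm' i
    have h2 : E m ≤ (A + 1) * E m := by nlinarith
    exact h1.trans h2
  · have hlpos : 0 < E l := by
      by_contra hc
      have h0 : E l = 0 := le_antisymm (not_lt.1 hc) (hE0 l)
      rw [h0, mul_zero] at hl
      linarith
    refine ⟨l, hlpos, fun i => (hm' i).trans hl, m, h, ?_⟩
    have h1 := hm' l
    have h2 : E m ≤ (A + 1) * E m := by nlinarith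
    exact h1.trans h2

private theorem newton_class_diam {A : ℕ} {b b' : Fin (A + 1) → ℝ} {L : ℝ}
    (h1 : ∀ k, |b k| ≤ Real.exp L * |b' k|) (h2 : ∀ k, |b' k| ≤ Real.exp L * |b k|)
    {k : Fin (A + 1)} {x x' : ℝ} (hx : NewtonCl b k x) (hx' : NewtonCl b' k x') (hle : x ≤ x') :
    x' - x ≤ 2 * (Real.log (A + 1) + L) := by
  obtain ⟨hk, hmax, -⟩ := hx
  obtain ⟨hk', -, l, hlk, hl⟩ := hx'
  have hA : (0 : ℝ) < (A : ℝ) + 1 := by positivity
  have hbk : 0 < |b k| := pos_of_mul_pos_left hk (Real.exp_pos _).le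
  have hbk' : 0 < |b' k| := pos_of_mul_pos_left hk' (Real.exp_pos _).le
  have hi := hmax l
  have hL : 0 < Real.exp L := Real.exp_pos L
  -- the difference of the indices
  obtain ⟨d, hd⟩ : ∃ d : ℕ, (k : ℕ) = (l : ℕ) + d := ⟨(k : ℕ) - l, by have := Fin.lt_def.1 hlk; omega⟩
  have hd1 : 1 ≤ d := by
    have := Fin.lt_def.1 hlk
    omega
  have e1 : Real.exp ((k : ℕ) * x) = Real.exp ((l : ℕ) * x) * Real.exp (d * x) := by
    rw [← Real.exp_add, hd]; push_cast; ring_nf
  have e2 : Real.exp ((k : ℕ) * x') = Real.exp ((l : ℕ) * x') * Real.exp (d * x') := by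
    rw [← Real.exp_add, hd]; push_cast; ring_nf
  have f1 : |b l| ≤ (A + 1) * (|b k| * Real.exp (d * x)) := by
    rw [e1] at hi
    have h3 : Real.exp ((l : ℕ) * x) * |b l| ≤
        Real.exp ((l : ℕ) * x) * ((A + 1) * (|b k| * Real.exp (d * x))) := by linarith
    exact le_of_mul_le_mul_left h3 (Real.exp_pos _)
  have f2 : |b' k| * Real.exp (d * x') ≤ (A + 1) * |b' l| := by
    rw [e2] at hl
    have h3 : Real.exp ((l : ℕ) * x') * (|b' k| * Real.exp (d * x')) ≤
        Real.exp ((l : ℕ) * x') * ((A + 1) * |b' l|) := by linarith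
    exact le_of_mul_le_mul_left h3 (Real.exp_pos _)
  have f3 : |b' k| * Real.exp (d * x') ≤
      |b' k| * (((A + 1) * Real.exp L) ^ 2 * Real.exp (d * x)) := by
    calc |b' k| * Real.exp (d * x') ≤ (A + 1) * |b' l| := f2
      _ ≤ (A + 1) * (Real.exp L * |b l|) := mul_le_mul_of_nonneg_left (h2 l) hA.le
      _ ≤ (A + 1) * (Real.exp L * ((A + 1) * (|b k| * Real.exp (d * x)))) := by
          refine mul_le_mul_of_nonneg_left (mul_le_mul_of_nonneg_left f1 hL.le) hA.le
      _ ≤ (A + 1) * (Real.exp L * ((A + 1) * ((Real.exp L * |b' k|) * Real.exp (d * x)))) := by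
          refine mul_le_mul_of_nonneg_left (mul_le_mul_of_nonneg_left
            (mul_le_mul_of_nonneg_left (mul_le_mul_of_nonneg_right (h1 k) (Real.exp_pos _).le)
              hA.le) hL.le) hA.le
      _ = |b' k| * (((A + 1) * Real.exp L) ^ 2 * Real.exp (d * x)) := by ring
  have f4 : Real.exp (d * x') ≤ ((A + 1) * Real.exp L) ^ 2 * Real.exp (d * x) :=
    le_of_mul_le_mul_left f3 hbk'
  have f5 : ((A + 1) * Real.exp L) ^ 2 = Real.exp (2 * (Real.log (A + 1) + L)) := by
    rw [show (2 : ℝ) * (Real.log (A + 1) + L) = Real.log (A + 1) + L + (Real.log (A + 1) + L) by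
      ring, Real.exp_add, Real.exp_add, Real.exp_log hA, sq]
  rw [f5, ← Real.exp_add, Real.exp_le_exp] at f4
  have hd1' : (1 : ℝ) ≤ d := by exact_mod_cast hd1
  nlinarith

/-- Proof. Put `M₀ = log (A+1)`. If `∑ b c k e^{kx} = 0`, not all `b c k` zero, let `m` be an index with the
largest `|b c m| e^{mx}`; then `|b c m| e^{mx} ≤ ∑_{k≠m} |b c k| e^{kx}`, so there is `l ≠ m` with
`|b c l| e^{lx} ≥ |b c m| e^{mx} / (A+1) > 0`. Let `k = max l m` (so `1 ≤ k`) and call `x` of class `k`.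
If `(c,x)`, `(c',x')` are both of class `k`, `x ≤ x'`, and `l' < k` is the other index of `(c',x')`, then
`(k-l') x' ≤ M₀ + log |b c' l'| - log |b c' k|` and `(k-l') x ≥ -M₀ + log |b c l'| - log |b c k|` (the last
holds also if `b c l' = 0` in the form of products; by `hvar` it is not), so `x' - x ≤ 2 M₀ + 2 L`.
So every class `1 ≤ k ≤ A` has diameter at most `2 (M₀ + L)`; take for `U` one point of every nonempty
class. -/
theorem newton_radii {A : ℕ} (G : Set ℝ) (b : ℝ → Fin (A + 1) → ℝ) {L : ℝ} (hL : 0 ≤ L)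
    (hvar : ∀ c ∈ G, ∀ c' ∈ G, ∀ k, |b c k| ≤ Real.exp L * |b c' k|)
    (hne : ∀ c ∈ G, ∃ k, b c k ≠ 0) :
    ∃ U : Finset ℝ, U.card ≤ A ∧ ∀ c ∈ G, ∀ x : ℝ,
      ∑ k : Fin (A + 1), b c k * Real.exp ((k : ℕ) * x) = 0 →
        ∃ u ∈ U, |x - u| ≤ 2 * (Real.log (A + 1) + L) := by
  classical
  let S : Finset (Fin (A + 1)) := Finset.univ.filter fun k => ∃ c ∈ G, ∃ x, NewtonCl (b c) k x
  have hch : ∀ k : Fin (A + 1), ∃ u : ℝ, k ∈ S → ∃ c ∈ G, NewtonCl (b c) k u := by
    intro k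
    by_cases hk : k ∈ S
    · obtain ⟨c, hc, x, hx⟩ := (Finset.mem_filter.1 hk).2
      exact ⟨x, fun _ => ⟨c, hc, hx⟩⟩
    · exact ⟨0, fun h => absurd h hk⟩
  choose u hu using hch
  refine ⟨S.image u, ?_, ?_⟩
  · refine Finset.card_image_le.trans ?_
    have hsub : S ⊆ Finset.univ.erase (0 : Fin (A + 1)) := by
      intro k hk
      obtain ⟨c, hc, x, hx⟩ := (Finset.mem_filter.1 hk).2
      obtain ⟨-, -, l, hl, -⟩ := hx
      rw [Finset.mem_erase]
      refine ⟨?_, Finset.mem_univ _⟩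
      rintro rfl
      exact absurd hl (Fin.not_lt_zero l)
    refine (Finset.card_le_card hsub).trans ?_
    rw [Finset.card_erase_of_mem (Finset.mem_univ _), Finset.card_univ, Fintype.card_fin,
      Nat.add_sub_cancel]
  · intro c hc x hx
    obtain ⟨k, hk⟩ := newton_exists_class (b c) (hne c hc) hx
    have hkS : k ∈ S := Finset.mem_filter.2 ⟨Finset.mem_univ _, c, hc, x, hk⟩
    obtain ⟨c', hc', hk'⟩ := hu k hkS
    refine ⟨u k, Finset.mem_image_of_mem u hkS, ?_⟩
    rcases le_total x (u k) with h | h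
    · have h1 := newton_class_diam (fun i => hvar c hc c' hc' i) (fun i => hvar c' hc' c hc i)
        hk hk' h
      rw [abs_sub_comm, abs_of_nonneg (sub_nonneg.2 h)]
      exact h1
    · have h1 := newton_class_diam (fun i => hvar c' hc' c hc i) (fun i => hvar c hc c' hc' i)
        hk' hk h
      rw [abs_of_nonneg (sub_nonneg.2 h)]
      exact h1

end Pool.Agent.Lib.MP_95e7ec_an
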