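import Mathlib
import Pool.Agent.Lib.MP_95e7ec_an.Rq.Defs
import Pool.Agent.Lib.MP_95e7ec_an.Rq.Newton
import Pool.Agent.Lib.MP_95e7ec_an.Zeros

/-!
# Rq, RayRad: the zeros of the level functions on the ray
-/

set_option autoImplicit false

open Set Filter Topology MeasureTheory
open scoped ContDiff ENNReal

namespace Pool.Agent.Lib.MP_95e7ec_an

private theorem ray_expand {d : ℕ} {F : MvPolynomial (Fin 2) ℝ} (hF : F.totalDegree ≤ d) :
    ∃ f : ℕ → ℝ, ∀ s : ℝ, ev F (cyl (s, 0)) =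
      ∑ k : Fin (d + 1), f k * Real.exp ((k : ℕ) * s) := by
  set p : Polynomial ℝ := MvPolynomial.aeval ![Polynomial.X, (0 : Polynomial ℝ)] F with hp
  have hdeg : p.natDegree ≤ d := by
    have h := MvPolynomial.aeval_natDegree_le F hF ![Polynomial.X, (0 : Polynomial ℝ)] (n := 1)
      (by
        intro i
        fin_cases i
        · exact Polynomial.natDegree_X_le
        · simp)
    simpa using h
  refine ⟨fun k => p.coeff k, fun s => ?_⟩
  have h1 : ev F (cyl (s, 0)) = p.eval (Real.exp s) := by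
    have h2 : p.eval (Real.exp s) = MvPolynomial.eval ![Real.exp s, 0] F := by
      rw [hp, MvPolynomial.aeval_def, ← Polynomial.coe_evalRingHom, MvPolynomial.hom_eval₂]
      unfold MvPolynomial.eval
      have e1 : (Polynomial.evalRingHom (Real.exp s)).comp (algebraMap ℝ (Polynomial ℝ)) =
          RingHom.id ℝ := by
        ext x
        simp
      have e2 : (fun i => (Polynomial.evalRingHom (Real.exp s)) (![Polynomial.X, 0] i)) =
          ![Real.exp s, 0] := by
        funext i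
        fin_cases i <;> simp
      rw [e1]
      rw [e2]
      rfl
    rw [h2]
    unfold ev cyl
    simp
  rw [h1, Polynomial.eval_eq_sum_range' (Nat.lt_succ_of_le hdeg), Finset.sum_range]
  refine Finset.sum_congr rfl fun k _ => ?_
  rw [Real.exp_nat_mul]

/-- Proof. `cyl (s,0) = (e^s, 0)` and `ev G (x,0) = ∑_{k≤d} g_k x^k`, `ev F (x,0) = ∑_{k≤d} f_k x^k`
(`totalDegree ≤ d`). So `sin c ev G + cos c ev F = ∑ b c k e^{ks}`, `b c k = g_k sin c + f_k cos c =
ρ_k sin (c - φ_k)` with `ρ_k = √(f_k²+g_k²)`; `S` is the set of the `φ_k` with `ρ_k ≠ 0`. For good `c`, `c'`: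
`|b c k| ≤ ρ_k ≤ (1/η) |b c' k|`, and some `b c k ≠ 0` because some `ρ_k ≠ 0` (`hne`). Apply
`newton_radii` with `L = log (1/η)`. -/
theorem ray_radii {d : ℕ} {F G : MvPolynomial (Fin 2) ℝ} (hF : F.totalDegree ≤ d)
    (hG : G.totalDegree ≤ d) (hne : ∃ s : ℝ, ev G (cyl (s, 0)) ≠ 0 ∨ ev F (cyl (s, 0)) ≠ 0) :
    ∃ S : Finset ℝ, S.card ≤ d + 1 ∧ ∀ η : ℝ, 0 < η → η ≤ 1 →
      ∃ U : Finset ℝ, U.card ≤ d ∧ ∀ c : ℝ, (∀ φ ∈ S, η ≤ |Real.sin (c - φ)|) →
        ∀ s : ℝ, Real.sin c * ev G (cyl (s, 0)) + Real.cos c * ev F (cyl (s, 0)) = 0 →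
          ∃ u ∈ U, |s - u| ≤ 2 * (Real.log (d + 1) + Real.log (1 / η)) := by
  classical
  obtain ⟨f, hf⟩ := ray_expand hF
  obtain ⟨g, hg⟩ := ray_expand hG
  set z : Fin (d + 1) → ℂ := fun k => ⟨g k, -f k⟩ with hz
  set b : ℝ → Fin (d + 1) → ℝ := fun c k => Real.sin c * g k + Real.cos c * f k with hb
  have hbz : ∀ c k, b c k = ‖z k‖ * Real.sin (c - (z k).arg) := by
    intro c k
    have h1 : ‖z k‖ * Real.cos (z k).arg = g k := Complex.norm_mul_cos_arg (z k)
    have h2 : ‖z k‖ * Real.sin (z k).arg = -f k := Complex.norm_mul_sin_arg (z k)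
    have h3 : ‖z k‖ * Real.sin (c - (z k).arg) =
        Real.sin c * (‖z k‖ * Real.cos (z k).arg) - Real.cos c * (‖z k‖ * Real.sin (z k).arg) := by
      rw [Real.sin_sub]
      ring
    rw [h3, h1, h2, hb]
    ring
  set S : Finset ℝ := (Finset.univ.filter fun k : Fin (d + 1) => z k ≠ 0).image
    fun k => (z k).arg with hS
  refine ⟨S, ?_, fun η hη hη1 => ?_⟩
  · refine Finset.card_image_le.trans ((Finset.card_filter_le _ _).trans ?_)
    rw [Finset.card_univ, Fintype.card_fin]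
  have hL : 0 ≤ Real.log (1 / η) := Real.log_nonneg (by rw [le_div_iff₀ hη]; linarith)
  have hexp : Real.exp (Real.log (1 / η)) = 1 / η := Real.exp_log (by positivity)
  have hgood : ∀ c : ℝ, (∀ φ ∈ S, η ≤ |Real.sin (c - φ)|) → ∀ k, ‖z k‖ * η ≤ |b c k| := by
    intro c hc k
    rw [hbz, abs_mul, abs_of_nonneg (norm_nonneg _)]
    rcases eq_or_ne (z k) 0 with h0 | h0
    · rw [h0, norm_zero, zero_mul, zero_mul]
    · refine mul_le_mul_of_nonneg_left (hc _ ?_) (norm_nonneg _)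
      rw [hS]
      exact Finset.mem_image_of_mem _ (Finset.mem_filter.2 ⟨Finset.mem_univ k, h0⟩)
  have hle : ∀ c k, |b c k| ≤ ‖z k‖ := by
    intro c k
    rw [hbz, abs_mul, abs_of_nonneg (norm_nonneg _)]
    have := mul_le_mul_of_nonneg_left (Real.abs_sin_le_one (c - (z k).arg)) (norm_nonneg (z k))
    linarith
  have hk0 : ∃ k, z k ≠ 0 := by
    by_contra hcon
    push Not at hcon
    have h1 : ∀ k : Fin (d + 1), g k = 0 := fun k => by
      have := congrArg Complex.re (hcon k)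
      simpa [hz] using this
    have h2 : ∀ k : Fin (d + 1), f k = 0 := fun k => by
      have := congrArg Complex.im (hcon k)
      simpa [hz] using this
    obtain ⟨s, hs⟩ := hne
    rw [hg, hf] at hs
    rcases hs with hs | hs
    · exact hs (Finset.sum_eq_zero fun k _ => by rw [h1 k, zero_mul])
    · exact hs (Finset.sum_eq_zero fun k _ => by rw [h2 k, zero_mul])
  obtain ⟨U, hU, hU2⟩ := newton_radii {c : ℝ | ∀ φ ∈ S, η ≤ |Real.sin (c - φ)|} b hL
    (fun c _ c' hc' k => by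
      rw [hexp]
      have h1 := hgood c' hc' k
      have h2 := hle c k
      rw [div_mul_eq_mul_div, one_mul, le_div_iff₀ hη]
      exact (mul_le_mul_of_nonneg_right h2 hη.le).trans h1)
    (fun c hc => by
      obtain ⟨k, hk⟩ := hk0
      refine ⟨k, fun h0 => ?_⟩
      have h1 := hgood c hc k
      rw [h0, abs_zero] at h1
      have h2 : 0 < ‖z k‖ * η := mul_pos (norm_pos_iff.2 hk) hη
      linarith)
  refine ⟨U, hU, fun c hc s hs => hU2 c hc s ?_⟩
  rw [hg, hf, Finset.mul_sum, Finset.mul_sum, ← Finset.sum_add_distrib] at hs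
  rw [← hs]
  refine Finset.sum_congr rfl fun k _ => ?_
  rw [hb]
  ring

end Pool.Agent.Lib.MP_95e7ec_an
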