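import Mathlib
import Pool.Agent.Lib.MP_95e7ec_an.Rq.Defs
import Pool.Agent.Lib.MP_95e7ec_an.Rq.Chain

/-!
# Rq, Slope: the choice of the slope
-/

set_option autoImplicit false

open Set Filter Topology MeasureTheory
open scoped ContDiff ENNReal

namespace Pool.Agent.Lib.MP_95e7ec_an

/-- a polynomial with `P R' = R P'`, `R(0) = 0`, `P(0) ≠ 0` is zero -/
theorem slope_poly {P R : Polynomial ℝ} (h : P * Polynomial.derivative R = R * Polynomial.derivative P)
    (hR : R.eval 0 = 0) (hP : P.eval 0 ≠ 0) : R = 0 := by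
  by_contra hne
  have hroot : R.IsRoot 0 := hR
  have hPne : P ≠ 0 := by
    rintro rfl
    exact hP (by simp)
  have hdR : Polynomial.derivative R ≠ 0 := by
    intro h0
    have h1 := (Polynomial.derivative_eq_zero.1 h0)
    rw [Polynomial.eq_C_of_natDegree_eq_zero h1] at hR hne
    rw [Polynomial.eval_C] at hR
    rw [hR] at hne
    exact hne (by simp)
  have hprod : P * Polynomial.derivative R ≠ 0 := mul_ne_zero hPne hdR
  have hprod' : R * Polynomial.derivative P ≠ 0 := by rw [← h]; exact hprod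
  have e1 := Polynomial.rootMultiplicity_mul (x := (0 : ℝ)) hprod
  have e2 := Polynomial.rootMultiplicity_mul (x := (0 : ℝ)) hprod'
  rw [h, e2, Polynomial.derivative_rootMultiplicity_of_root hroot,
    Polynomial.rootMultiplicity_eq_zero (p := P) hP] at e1
  have hpos : 0 < R.rootMultiplicity 0 := (Polynomial.rootMultiplicity_pos hne).2 hroot
  omega

/-- a polynomial of the plane restricted to the line `z0 + t d` -/
noncomputable def slopeL (z0 d : ℝ × ℝ) : MvPolynomial (Fin 2) ℝ →ₐ[ℝ] Polynomial ℝ :=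
  MvPolynomial.aeval ![Polynomial.C z0.1 + Polynomial.C d.1 * Polynomial.X,
    Polynomial.C z0.2 + Polynomial.C d.2 * Polynomial.X]

theorem slopeL_X0 (z0 d : ℝ × ℝ) :
    slopeL z0 d (MvPolynomial.X 0) = Polynomial.C z0.1 + Polynomial.C d.1 * Polynomial.X := by
  simp [slopeL]

theorem slopeL_X1 (z0 d : ℝ × ℝ) :
    slopeL z0 d (MvPolynomial.X 1) = Polynomial.C z0.2 + Polynomial.C d.2 * Polynomial.X := by
  simp [slopeL]

theorem slopeL_eval (z0 d : ℝ × ℝ) (F : MvPolynomial (Fin 2) ℝ) (t : ℝ) :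
    (slopeL z0 d F).eval t = ev F (z0.1 + d.1 * t, z0.2 + d.2 * t) := by
  induction F using MvPolynomial.induction_on with
  | C a => simp [slopeL, ev]
  | add p q hp hq =>
    rw [map_add, Polynomial.eval_add, hp, hq]
    simp [ev]
  | mul_X p i hp =>
    rw [map_mul, Polynomial.eval_mul, hp]
    fin_cases i
    · simp [slopeL_X0, ev]
    · simp [slopeL_X1, ev]

theorem slopeL_derivative (z0 d : ℝ × ℝ) (F : MvPolynomial (Fin 2) ℝ) :
    Polynomial.derivative (slopeL z0 d F) =
      Polynomial.C d.1 * slopeL z0 d (MvPolynomial.pderiv 0 F) +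
        Polynomial.C d.2 * slopeL z0 d (MvPolynomial.pderiv 1 F) := by
  induction F using MvPolynomial.induction_on with
  | C a => simp [slopeL]
  | add p q hp hq =>
    simp only [map_add, hp, hq]
    ring
  | mul_X p i hp =>
    rw [map_mul, Polynomial.derivative_mul, hp]
    fin_cases i
    · simp only [Fin.zero_eta, Derivation.leibniz, smul_eq_mul, map_add, map_mul, slopeL_X0,
        MvPolynomial.pderiv_X_self, MvPolynomial.pderiv_X_of_ne (show (0 : Fin 2) ≠ 1 by decide)]
      simp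
      ring
    · simp only [Fin.mk_one, Derivation.leibniz, smul_eq_mul, map_add, map_mul, slopeL_X1,
        MvPolynomial.pderiv_X_self, MvPolynomial.pderiv_X_of_ne (show (1 : Fin 2) ≠ 0 by decide)]
      simp
      ring

theorem slope_ev_smul (c : ℝ) (F : MvPolynomial (Fin 2) ℝ) (z : ℝ × ℝ) :
    ev (MvPolynomial.C c * F) z = c * ev F z := by
  simp [ev]

/-- Two polynomials `u`, `v` with proportional gradients: if a combination vanishes at a point
where the other one does not, it vanishes everywhere. -/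
theorem slope_main {u v : MvPolynomial (Fin 2) ℝ}
    (h0 : u * MvPolynomial.pderiv 0 v = v * MvPolynomial.pderiv 0 u)
    (h1 : u * MvPolynomial.pderiv 1 v = v * MvPolynomial.pderiv 1 u) {z0 : ℝ × ℝ}
    (hv : ev v z0 = 0) (hu : ev u z0 ≠ 0) (z : ℝ × ℝ) : ev v z = 0 := by
  set d : ℝ × ℝ := (z.1 - z0.1, z.2 - z0.2) with hd
  have key : slopeL z0 d v = 0 := by
    refine slope_poly (P := slopeL z0 d u) ?_ ?_ ?_
    · rw [slopeL_derivative, slopeL_derivative]
      have e0 := congrArg (slopeL z0 d) h0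
      have e1 := congrArg (slopeL z0 d) h1
      rw [map_mul, map_mul] at e0 e1
      linear_combination Polynomial.C d.1 * e0 + Polynomial.C d.2 * e1
    · rw [slopeL_eval]
      simpa using hv
    · rw [slopeL_eval]
      simpa using hu
  have h2 := slopeL_eval z0 d v 1
  rw [key] at h2
  simp only [Polynomial.eval_zero, hd, mul_one, add_sub_cancel] at h2
  exact h2.symm

/-- Proof. `Kpol P Q m = A + m B` with `A = wre Drho wim - wim Drho wre`, `B` the same with `Dth`. If for both
`m = m1, m2` one of `Kpol (± m)` is zero then two different `μ` have `A + μ B = 0`, so `A = B = 0`. Let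
`z0 ≠ 0` be a point with `wf (vf P Q) z0 ≠ 0` (`hne`; move it a little if `z0 = 0`: not needed, `wf` is `0` at `0`),
and choose `c₀` with `(turn c₀ (wf (vf P Q)) z0).2 = 0`; then `(turn c₀ (wf ..) z0).1 ≠ 0`. Near `z0` the
quotient `q = (turn c₀ wf).2 / (turn c₀ wf).1` is differentiable, and `A = B = 0` says that its derivatives
in the directions `z` and `i z` vanish (determinants are invariant under `turn c₀`), so `q` is
constant in a ball (`Convex.is_const_of_fderivWithin_eq_zero` or the like), `q = 0`. A polynomial which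
vanishes in a ball is `0` (analytic, `AnalyticOnNhd.eq_of_eventuallyEq`, or `MvPolynomial.funext_set`). -/
theorem choose_slope {P Q : MvPolynomial (Fin 2) ℝ} (hne : ∃ z, wf (vf P Q) z ≠ 0) {m1 m2 : ℝ}
    (h1 : 0 < m1) (h12 : m1 < m2) :
    (∃ c₀ : ℝ, ∀ z, (turn c₀ (wf (vf P Q)) z).2 = 0) ∨
      ∃ m : ℝ, (m = m1 ∨ m = m2) ∧ Kpol P Q m ≠ 0 ∧ Kpol P Q (-m) ≠ 0 := by
  by_contra hcon
  push Not at hcon
  obtain ⟨hc, hk⟩ := hcon
  have k1 : ∃ μ : ℝ, |μ| = m1 ∧ Kpol P Q μ = 0 := by
    by_cases h : Kpol P Q m1 = 0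
    · exact ⟨m1, abs_of_pos h1, h⟩
    · exact ⟨-m1, by rw [abs_neg, abs_of_pos h1], hk m1 (Or.inl rfl) h⟩
  have k2 : ∃ μ : ℝ, |μ| = m2 ∧ Kpol P Q μ = 0 := by
    by_cases h : Kpol P Q m2 = 0
    · exact ⟨m2, abs_of_pos (h1.trans h12), h⟩
    · exact ⟨-m2, by rw [abs_neg, abs_of_pos (h1.trans h12)], hk m2 (Or.inr rfl) h⟩
  obtain ⟨μ1, hμ1, hK1⟩ := k1
  obtain ⟨μ2, hμ2, hK2⟩ := k2
  have hμ : μ1 - μ2 ≠ 0 := by
    intro h
    have : μ1 = μ2 := by linarith
    rw [this, hμ2] at hμ1
    linarith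
  have hB : wre P Q * Dth (wim P Q) - wim P Q * Dth (wre P Q) = 0 := by
    have e : MvPolynomial.C (μ1 - μ2) * (wre P Q * Dth (wim P Q) - wim P Q * Dth (wre P Q)) = 0 := by
      rw [MvPolynomial.C_sub]
      have := congrArg₂ (· - ·) hK1 hK2
      simp only [Kpol, sub_zero] at this
      linear_combination this
    rcases mul_eq_zero.1 e with h | h
    · exact absurd ((MvPolynomial.C_eq_zero).1 h) hμ
    · exact h
  have hA : wre P Q * Drho (wim P Q) - wim P Q * Drho (wre P Q) = 0 := by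
    have := hK1
    rw [Kpol] at this
    linear_combination this - MvPolynomial.C μ1 * hB
  have hX : (MvPolynomial.X 0 ^ 2 + MvPolynomial.X 1 ^ 2 : MvPolynomial (Fin 2) ℝ) ≠ 0 := by
    intro h
    have := congrArg (fun F => ev F (1, 0)) h
    simp [ev] at this
  have g0 : wre P Q * MvPolynomial.pderiv 0 (wim P Q) =
      wim P Q * MvPolynomial.pderiv 0 (wre P Q) := by
    have e : (MvPolynomial.X 0 ^ 2 + MvPolynomial.X 1 ^ 2 : MvPolynomial (Fin 2) ℝ) *
        (wre P Q * MvPolynomial.pderiv 0 (wim P Q) - wim P Q * MvPolynomial.pderiv 0 (wre P Q)) =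
        0 := by
      rw [Drho, Drho] at hA
      rw [Dth, Dth] at hB
      linear_combination MvPolynomial.X 0 * hA - MvPolynomial.X 1 * hB
    rcases mul_eq_zero.1 e with h | h
    · exact absurd h hX
    · exact sub_eq_zero.1 h
  have g1 : wre P Q * MvPolynomial.pderiv 1 (wim P Q) =
      wim P Q * MvPolynomial.pderiv 1 (wre P Q) := by
    have e : (MvPolynomial.X 0 ^ 2 + MvPolynomial.X 1 ^ 2 : MvPolynomial (Fin 2) ℝ) *
        (wre P Q * MvPolynomial.pderiv 1 (wim P Q) - wim P Q * MvPolynomial.pderiv 1 (wre P Q)) =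
        0 := by
      rw [Drho, Drho] at hA
      rw [Dth, Dth] at hB
      linear_combination MvPolynomial.X 1 * hA + MvPolynomial.X 0 * hB
    rcases mul_eq_zero.1 e with h | h
    · exact absurd h hX
    · exact sub_eq_zero.1 h
  obtain ⟨z0, hz0⟩ := hne
  set W := wf (vf P Q) z0 with hW
  set φ := Complex.arg (⟨W.1, W.2⟩ : ℂ) with hφ
  set r := ‖(⟨W.1, W.2⟩ : ℂ)‖ with hr
  have hc1 : r * Real.cos φ = W.1 := Complex.norm_mul_cos_arg (⟨W.1, W.2⟩ : ℂ)
  have hs1 : r * Real.sin φ = W.2 := Complex.norm_mul_sin_arg (⟨W.1, W.2⟩ : ℂ)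
  have hr0 : r ≠ 0 := by
    intro h
    apply hz0
    rw [h, zero_mul] at hc1 hs1
    exact Prod.ext hc1.symm hs1.symm
  obtain ⟨z, hz⟩ := hc (-φ)
  apply hz
  set u := MvPolynomial.C (Real.cos φ) * wre P Q + MvPolynomial.C (Real.sin φ) * wim P Q with hu
  set v := MvPolynomial.C (Real.cos φ) * wim P Q + MvPolynomial.C (-Real.sin φ) * wre P Q with hv
  have evu : ∀ z, ev u z = Real.cos φ * (wf (vf P Q) z).1 + Real.sin φ * (wf (vf P Q) z).2 := by
    intro z
    rw [← ev_wre, ← ev_wim, hu]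
    simp [ev]
  have evv : ∀ z, ev v z = Real.cos φ * (wf (vf P Q) z).2 + -Real.sin φ * (wf (vf P Q) z).1 := by
    intro z
    rw [← ev_wre, ← ev_wim, hv]
    simp [ev]
  have hcs := Real.sin_sq_add_cos_sq φ
  have hmain := slope_main (u := u) (v := v) (z0 := z0) ?_ ?_ ?_ ?_ z
  · rw [evv] at hmain
    simp only [turn, Real.sin_neg, Real.cos_neg]
    linarith
  · simp only [hu, hv, map_add, MvPolynomial.pderiv_C_mul]
    linear_combination (MvPolynomial.C (Real.cos φ) * MvPolynomial.C (Real.cos φ) -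
      MvPolynomial.C (Real.sin φ) * MvPolynomial.C (-Real.sin φ)) * g0
  · simp only [hu, hv, map_add, MvPolynomial.pderiv_C_mul]
    linear_combination (MvPolynomial.C (Real.cos φ) * MvPolynomial.C (Real.cos φ) -
      MvPolynomial.C (Real.sin φ) * MvPolynomial.C (-Real.sin φ)) * g1
  · rw [evv, ← hW, ← hc1, ← hs1]
    ring
  · rw [evu, ← hW, ← hc1, ← hs1]
    have : Real.cos φ * (r * Real.cos φ) + Real.sin φ * (r * Real.sin φ) = r := by
      linear_combination r * hcs
    rw [this]
    exact hr0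

end Pool.Agent.Lib.MP_95e7ec_an
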