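import Mathlib
import Pool.Agent.Lib.MP_95e7ec_an.Rq.Defs

/-!
# Rq, FormVar: the variation of a binary form
-/

set_option autoImplicit false

open Set Filter Topology MeasureTheory
open scoped ContDiff ENNReal

namespace Pool.Agent.Lib.MP_95e7ec_an

/-- the squared modulus of `sin c - τ cos c` -/
private theorem fv_normSq (τ : ℂ) (c : ℝ) :
    ‖(Real.sin c : ℂ) - τ * (Real.cos c : ℂ)‖ ^ 2 =
      (Real.sin c - τ.re * Real.cos c) ^ 2 + (τ.im * Real.cos c) ^ 2 := by
  rw [Complex.sq_norm, Complex.normSq_apply]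
  simp only [Complex.sub_re, Complex.sub_im, Complex.mul_re, Complex.mul_im, Complex.ofReal_re,
    Complex.ofReal_im]
  ring

/-- the angle to be avoided -/
private noncomputable def fvAng (τ : ℂ) : ℝ :=
  if τ.im ^ 2 ≤ 1 + τ.re ^ 2 then Real.arctan τ.re else Real.pi / 2

private theorem fv_up (τ : ℂ) (c : ℝ) :
    ‖(Real.sin c : ℂ) - τ * (Real.cos c : ℂ)‖ ^ 2 ≤ 1 + τ.re ^ 2 + τ.im ^ 2 := by
  rw [fv_normSq]
  have h := Real.sin_sq_add_cos_sq c
  have h1 : (Real.sin c - τ.re * Real.cos c) ^ 2 ≤ 1 + τ.re ^ 2 := by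
    have : (1 + τ.re ^ 2) * (Real.sin c ^ 2 + Real.cos c ^ 2) -
        (Real.sin c - τ.re * Real.cos c) ^ 2 = (Real.cos c + τ.re * Real.sin c) ^ 2 := by ring
    rw [h] at this
    nlinarith [sq_nonneg (Real.cos c + τ.re * Real.sin c)]
  have h2 : (τ.im * Real.cos c) ^ 2 ≤ τ.im ^ 2 := by
    rw [mul_pow]
    have : Real.cos c ^ 2 ≤ 1 := by nlinarith [sq_nonneg (Real.sin c)]
    nlinarith [sq_nonneg τ.im]
  linarith

private theorem fv_low (τ : ℂ) {η c : ℝ} (hη : 0 < η)
    (hc : η ≤ |Real.sin (c - fvAng τ)|) :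
    (η / 2) ^ 2 * (1 + τ.re ^ 2 + τ.im ^ 2) ≤
      ‖(Real.sin c : ℂ) - τ * (Real.cos c : ℂ)‖ ^ 2 := by
  rw [fv_normSq]
  have hs : η ^ 2 ≤ Real.sin (c - fvAng τ) ^ 2 := by
    rw [← sq_abs (Real.sin (c - fvAng τ))]
    exact pow_le_pow_left₀ hη.le hc 2
  unfold fvAng at hs
  split_ifs at hs with hcase
  · have h1 : (1 + τ.re ^ 2) * Real.sin (c - Real.arctan τ.re) ^ 2 =
        (Real.sin c - τ.re * Real.cos c) ^ 2 := by
      have hpos : (0 : ℝ) < 1 + τ.re ^ 2 := by positivity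
      have hsq : Real.sqrt (1 + τ.re ^ 2) ^ 2 = 1 + τ.re ^ 2 := Real.sq_sqrt hpos.le
      have hne : Real.sqrt (1 + τ.re ^ 2) ≠ 0 := (Real.sqrt_pos.mpr hpos).ne'
      rw [Real.sin_sub, Real.cos_arctan, Real.sin_arctan]
      field_simp
      rw [hsq]
    have h2 : (1 + τ.re ^ 2) * η ^ 2 ≤ (Real.sin c - τ.re * Real.cos c) ^ 2 := by
      rw [← h1]
      exact mul_le_mul_of_nonneg_left hs (by positivity)
    nlinarith [sq_nonneg (τ.im * Real.cos c), sq_nonneg η, mul_nonneg (sq_nonneg η)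
      (sub_nonneg.mpr hcase)]
  · have h1 : Real.sin (c - Real.pi / 2) ^ 2 = Real.cos c ^ 2 := by
      rw [Real.sin_sub_pi_div_two]
      ring
    rw [h1] at hs
    have h2 : τ.im ^ 2 * η ^ 2 ≤ (τ.im * Real.cos c) ^ 2 := by
      rw [mul_pow]
      exact mul_le_mul_of_nonneg_left hs (sq_nonneg _)
    push Not at hcase
    nlinarith [sq_nonneg (Real.sin c - τ.re * Real.cos c), sq_nonneg η, mul_nonneg (sq_nonneg η)
      (sub_nonneg.mpr hcase.le)]

private theorem fv_factor (τ : ℂ) {η c c' : ℝ} (hη : 0 < η)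
    (hc' : η ≤ |Real.sin (c' - fvAng τ)|) :
    ‖(Real.sin c : ℂ) - τ * (Real.cos c : ℂ)‖ ≤
      2 / η * ‖(Real.sin c' : ℂ) - τ * (Real.cos c' : ℂ)‖ := by
  apply le_of_sq_le_sq _ (by positivity)
  have h1 := fv_up τ c
  have h2 := fv_low τ hη hc'
  rw [mul_pow]
  have h3 : (2 / η) ^ 2 * (η / 2) ^ 2 = 1 := by
    field_simp
  calc ‖(Real.sin c : ℂ) - τ * (Real.cos c : ℂ)‖ ^ 2 ≤ 1 + τ.re ^ 2 + τ.im ^ 2 := h1
    _ = (2 / η) ^ 2 * ((η / 2) ^ 2 * (1 + τ.re ^ 2 + τ.im ^ 2)) := by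
      rw [← mul_assoc, h3, one_mul]
    _ ≤ _ := mul_le_mul_of_nonneg_left h2 (by positivity)

private theorem fv_ne (τ : ℂ) {η c : ℝ} (hη : 0 < η)
    (hc : η ≤ |Real.sin (c - fvAng τ)|) : (Real.sin c : ℂ) - τ * (Real.cos c : ℂ) ≠ 0 := by
  intro h
  have h1 := fv_low τ hη hc
  rw [h, norm_zero] at h1
  have : 0 < (η / 2) ^ 2 * (1 + τ.re ^ 2 + τ.im ^ 2) := by positivity
  linarith

private theorem fv_prod {K : ℝ} (hK : 0 ≤ K) (f g : ℂ → ℝ) (m : Multiset ℂ)
    (hf : ∀ τ ∈ m, 0 ≤ f τ) (h : ∀ τ ∈ m, f τ ≤ K * g τ) (hg : ∀ τ ∈ m, 0 ≤ g τ) :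
    (m.map f).prod ≤ K ^ Multiset.card m * (m.map g).prod := by
  induction m using Multiset.induction_on with
  | empty => simp
  | cons a m ih =>
    rw [Multiset.map_cons, Multiset.prod_cons, Multiset.map_cons, Multiset.prod_cons,
      Multiset.card_cons, pow_succ]
    have h1 := ih (fun τ hτ => hf τ (Multiset.mem_cons_of_mem hτ))
      (fun τ hτ => h τ (Multiset.mem_cons_of_mem hτ))
      (fun τ hτ => hg τ (Multiset.mem_cons_of_mem hτ))
    have h2 := h a (Multiset.mem_cons_self a m)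
    have h3 := hf a (Multiset.mem_cons_self a m)
    have h4 : 0 ≤ (m.map f).prod := by
      apply Multiset.prod_nonneg
      intro x hx
      obtain ⟨τ, hτ, rfl⟩ := Multiset.mem_map.mp hx
      exact hf τ (Multiset.mem_cons_of_mem hτ)
    calc f a * (m.map f).prod ≤ (K * g a) * (K ^ Multiset.card m * (m.map g).prod) :=
          mul_le_mul h2 h1 h4 (mul_nonneg hK (hg a (Multiset.mem_cons_self a m)))
      _ = _ := by ring

/-- the polynomial of the form -/
private noncomputable def fvPol {B : ℕ} (β : Fin (B + 1) → ℝ) : Polynomial ℂ :=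
  ∑ j : Fin (B + 1), Polynomial.C (β j : ℂ) * Polynomial.X ^ (j : ℕ)

private theorem fv_coeff {B : ℕ} (β : Fin (B + 1) → ℝ) (j : Fin (B + 1)) :
    (fvPol β).coeff j = (β j : ℂ) := by
  unfold fvPol
  rw [Polynomial.finsetSum_coeff, Finset.sum_eq_single j]
  · rw [Polynomial.coeff_C_mul_X_pow, if_pos rfl]
  · intro i _ hij
    rw [Polynomial.coeff_C_mul_X_pow, if_neg]
    intro h
    exact hij (Fin.ext h.symm)
  · simp

private theorem fv_deg {B : ℕ} (β : Fin (B + 1) → ℝ) : (fvPol β).natDegree ≤ B := by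
  unfold fvPol
  apply Polynomial.natDegree_sum_le_of_forall_le
  intro j _
  exact (Polynomial.natDegree_C_mul_X_pow_le _ _).trans (by omega)

private theorem fv_form {B : ℕ} (β : Fin (B + 1) → ℝ) {c : ℝ} (hc : Real.cos c ≠ 0) :
    ((bform β c : ℝ) : ℂ) = (fvPol β).leadingCoeff *
      (Real.cos c : ℂ) ^ (B - Multiset.card (fvPol β).roots) *
      ((fvPol β).roots.map fun τ => (Real.sin c : ℂ) - τ * (Real.cos c : ℂ)).prod := by
  have hc' : (Real.cos c : ℂ) ≠ 0 := by exact_mod_cast hc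
  have hcard : Multiset.card (fvPol β).roots ≤ B := by
    rw [IsAlgClosed.card_roots_eq_natDegree]
    exact fv_deg β
  have h1 : ((bform β c : ℝ) : ℂ) = (Real.cos c : ℂ) ^ B *
      (fvPol β).eval ((Real.sin c : ℂ) / (Real.cos c : ℂ)) := by
    unfold bform fvPol
    rw [Polynomial.eval_finsetSum, Finset.mul_sum]
    push_cast
    apply Finset.sum_congr rfl
    intro j _
    rw [Polynomial.eval_mul, Polynomial.eval_C, Polynomial.eval_pow, Polynomial.eval_X, div_pow]
    have hj : (Complex.cos (c : ℂ)) ^ B = Complex.cos (c : ℂ) ^ (B - (j : ℕ)) *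
        Complex.cos (c : ℂ) ^ (j : ℕ) := by
      rw [← pow_add]
      congr 1
      omega
    have hc2 : Complex.cos (c : ℂ) ≠ 0 := by
      rw [← Complex.ofReal_cos]
      exact hc'
    rw [hj]
    field_simp
  have h2 : ∀ m : Multiset ℂ, (m.map fun τ => (Real.sin c : ℂ) / (Real.cos c : ℂ) - τ).prod *
      (Real.cos c : ℂ) ^ Multiset.card m =
      (m.map fun τ => (Real.sin c : ℂ) - τ * (Real.cos c : ℂ)).prod := by
    intro m
    induction m using Multiset.induction_on with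
    | empty => simp
    | cons a m ih =>
      rw [Multiset.map_cons, Multiset.prod_cons, Multiset.map_cons, Multiset.prod_cons,
        Multiset.card_cons, pow_succ, ← ih]
      field_simp
  rw [h1, (IsAlgClosed.splits (fvPol β)).eval_eq_prod_roots, ← h2]
  have h3 : (Real.cos c : ℂ) ^ B = (Real.cos c : ℂ) ^ (B - Multiset.card (fvPol β).roots) *
      (Real.cos c : ℂ) ^ Multiset.card (fvPol β).roots := by
    rw [← pow_add, Nat.sub_add_cancel hcard]
  rw [h3]
  ring

/-- Proof. Let `e` be the largest index with `β e ≠ 0`, `q(T) = ∑ β_j T^j` as a complex polynomial,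
`q = β_e ∏_{l<e} (T - τ_l)` (`Polynomial` roots over `ℂ`). Then
`bform β c = β_e (cos c)^(B-e) ∏_{l<e} (sin c - τ_l cos c)` for all `c` with `cos c ≠ 0` (divide by
`(cos c)^B`; only such `c` are needed). For `τ = x+iy` put `ρ = √(1+|τ|²)`; then
`|sin c - τ cos c|² = (sin c - x cos c)² + y² cos² c ≤ ρ²`, and `≥ (η/2)² ρ²` as soon as
`|sin (c - φ)| ≥ η`, where `φ = arctan x` if `1 + x² ≥ y²` (then
`(sin c - x cos c)² = (1+x²) sin² (c-φ)`), and `φ = π/2` if `y² > 1+x²` (`cos² c = sin² (c-π/2)`).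
The finite set `S` consists of `π/2` and these `φ_l`. Each of the `B` factors varies by at most the
factor `2/η`. -/
theorem form_variation {B : ℕ} (β : Fin (B + 1) → ℝ) (hβ : β ≠ 0) :
    ∃ S : Finset ℝ, S.card ≤ B + 1 ∧ ∀ η : ℝ, 0 < η → η ≤ 1 →
      ∀ c c' : ℝ, (∀ φ ∈ S, η ≤ |Real.sin (c - φ)|) → (∀ φ ∈ S, η ≤ |Real.sin (c' - φ)|) →
        bform β c ≠ 0 ∧ |bform β c| ≤ (2 / η) ^ B * |bform β c'| := by
  classical
  have hq : fvPol β ≠ 0 := by
    intro h
    apply hβ
    funext j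
    have h1 := fv_coeff β j
    rw [h, Polynomial.coeff_zero] at h1
    have h2 : β j = 0 := by exact_mod_cast h1.symm
    rw [h2]
    rfl
  have hcard : Multiset.card (fvPol β).roots ≤ B := by
    rw [IsAlgClosed.card_roots_eq_natDegree]
    exact fv_deg β
  refine ⟨insert (Real.pi / 2) ((fvPol β).roots.toFinset.image fvAng), ?_, ?_⟩
  · refine (Finset.card_insert_le _ _).trans ?_
    have h1 : ((fvPol β).roots.toFinset.image fvAng).card ≤ Multiset.card (fvPol β).roots :=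
      Finset.card_image_le.trans (Multiset.toFinset_card_le _)
    omega
  intro η hη hη1 c c' hc hc'
  have hcos : ∀ x : ℝ, (∀ φ ∈ insert (Real.pi / 2) ((fvPol β).roots.toFinset.image fvAng),
      η ≤ |Real.sin (x - φ)|) → η ≤ |Real.cos x| := by
    intro x hx
    have h1 := hx _ (Finset.mem_insert_self _ _)
    rwa [Real.sin_sub_pi_div_two, abs_neg] at h1
  have hroot : ∀ x : ℝ, (∀ φ ∈ insert (Real.pi / 2) ((fvPol β).roots.toFinset.image fvAng),
      η ≤ |Real.sin (x - φ)|) → ∀ τ ∈ (fvPol β).roots, η ≤ |Real.sin (x - fvAng τ)| := by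
    intro x hx τ hτ
    apply hx
    apply Finset.mem_insert_of_mem
    apply Finset.mem_image_of_mem
    exact Multiset.mem_toFinset.mpr hτ
  have hc0 : Real.cos c ≠ 0 := by
    intro h
    have h1 := hcos c hc
    rw [h, abs_zero] at h1
    linarith
  have hc0' : Real.cos c' ≠ 0 := by
    intro h
    have h1 := hcos c' hc'
    rw [h, abs_zero] at h1
    linarith
  have hf := fv_form β hc0
  have hf' := fv_form β hc0'
  have hlc : (fvPol β).leadingCoeff ≠ 0 := Polynomial.leadingCoeff_ne_zero.mpr hq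
  constructor
  · intro h
    rw [h, Complex.ofReal_zero] at hf
    have h1 : (Real.cos c : ℂ) ≠ 0 := by exact_mod_cast hc0
    rcases mul_eq_zero.mp hf.symm with h2 | h2
    · rcases mul_eq_zero.mp h2 with h3 | h3
      · exact hlc h3
      · exact pow_ne_zero _ h1 h3
    · rw [Multiset.prod_eq_zero_iff, Multiset.mem_map] at h2
      obtain ⟨τ, hτ, h3⟩ := h2
      exact fv_ne τ hη (hroot c hc τ hτ) h3
  have hnorm : ∀ x : ℝ, ((bform β x : ℝ) : ℂ) = (fvPol β).leadingCoeff *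
      (Real.cos x : ℂ) ^ (B - Multiset.card (fvPol β).roots) *
      ((fvPol β).roots.map fun τ => (Real.sin x : ℂ) - τ * (Real.cos x : ℂ)).prod →
      |bform β x| = ‖(fvPol β).leadingCoeff‖ *
        |Real.cos x| ^ (B - Multiset.card (fvPol β).roots) *
        ((fvPol β).roots.map fun τ => ‖(Real.sin x : ℂ) - τ * (Real.cos x : ℂ)‖).prod := by
    intro x hx
    have h1 := congrArg norm hx
    rw [Complex.norm_real, Real.norm_eq_abs, norm_mul, norm_mul, norm_pow, Complex.norm_real,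
      Real.norm_eq_abs] at h1
    rw [h1]
    congr 1
    have h2 := map_multiset_prod (normHom : ℂ →*₀ ℝ)
      ((fvPol β).roots.map fun τ => (Real.sin x : ℂ) - τ * (Real.cos x : ℂ))
    rw [Multiset.map_map] at h2
    exact h2
  rw [hnorm c hf, hnorm c' hf']
  have hP := fv_prod (K := 2 / η) (by positivity)
    (fun τ => ‖(Real.sin c : ℂ) - τ * (Real.cos c : ℂ)‖)
    (fun τ => ‖(Real.sin c' : ℂ) - τ * (Real.cos c' : ℂ)‖) (fvPol β).roots
    (fun τ _ => norm_nonneg _) (fun τ hτ => fv_factor τ hη (hroot c' hc' τ hτ))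
    (fun τ _ => norm_nonneg _)
  have hC : |Real.cos c| ^ (B - Multiset.card (fvPol β).roots) ≤
      (2 / η) ^ (B - Multiset.card (fvPol β).roots) *
        |Real.cos c'| ^ (B - Multiset.card (fvPol β).roots) := by
    rw [← mul_pow]
    apply pow_le_pow_left₀ (abs_nonneg _)
    have h1 := Real.abs_cos_le_one c
    have h2 := hcos c' hc'
    have h3 : 1 ≤ 2 / η * |Real.cos c'| := by
      calc (1 : ℝ) ≤ 2 := by norm_num
        _ = 2 / η * η := by field_simp
        _ ≤ _ := mul_le_mul_of_nonneg_left h2 (by positivity)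
    linarith
  have hpp : (2 / η) ^ B = (2 / η) ^ (B - Multiset.card (fvPol β).roots) *
      (2 / η) ^ Multiset.card (fvPol β).roots := by
    rw [← pow_add, Nat.sub_add_cancel hcard]
  have hn : 0 ≤ ((fvPol β).roots.map fun τ =>
      ‖(Real.sin c : ℂ) - τ * (Real.cos c : ℂ)‖).prod := by
    apply Multiset.prod_nonneg
    intro x hx
    obtain ⟨τ, -, rfl⟩ := Multiset.mem_map.mp hx
    exact norm_nonneg _
  calc ‖(fvPol β).leadingCoeff‖ * |Real.cos c| ^ (B - Multiset.card (fvPol β).roots) *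
        ((fvPol β).roots.map fun τ => ‖(Real.sin c : ℂ) - τ * (Real.cos c : ℂ)‖).prod
      ≤ ‖(fvPol β).leadingCoeff‖ * ((2 / η) ^ (B - Multiset.card (fvPol β).roots) *
        |Real.cos c'| ^ (B - Multiset.card (fvPol β).roots)) *
        ((2 / η) ^ Multiset.card (fvPol β).roots * ((fvPol β).roots.map fun τ =>
          ‖(Real.sin c' : ℂ) - τ * (Real.cos c' : ℂ)‖).prod) :=
        mul_le_mul (mul_le_mul_of_nonneg_left hC (norm_nonneg _)) hP hn (by positivity)
    _ = _ := by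
      rw [hpp]
      ring

end Pool.Agent.Lib.MP_95e7ec_an
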