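import Mathlib
import Pool.Agent.Lib.MP_95e7ec_an.Rq.Defs

/-!
# Rq, RelPoly: the relation between the level and the radius at the special points
-/

set_option autoImplicit false

open Set Filter Topology MeasureTheory
open scoped ContDiff ENNReal

namespace Pool.Agent.Lib.MP_95e7ec_an

section RelPolyAux

open MvPolynomial Module

/-- Number of monomials of degree at most `t` in two variables. -/
private def RelPoly_Dm (t : ℕ) : ℕ := ∑ k ∈ Finset.range (t + 1), (k + 1)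

private theorem RelPoly_two_Dm (t : ℕ) : 2 * RelPoly_Dm t = (t + 1) * (t + 2) := by
  induction t with
  | zero => simp [RelPoly_Dm]
  | succ t ih =>
    unfold RelPoly_Dm at ih ⊢
    rw [Finset.sum_range_succ, mul_add, ih]; ring

private theorem RelPoly_card (t : ℕ) :
    Nat.card {n : Fin 2 →₀ ℕ | (n.sum fun _ e => e) ≤ t} = RelPoly_Dm t := by
  classical
  have e : {n : Fin 2 →₀ ℕ | (n.sum fun _ e => e) ≤ t} ≃ {p : ℕ × ℕ | p.1 + p.2 ≤ t} := by
    refine Equiv.subtypeEquiv (Finsupp.equivFunOnFinite.trans (finTwoArrowEquiv ℕ)) ?_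
    intro n
    simp [Finsupp.sum_fintype, Fin.sum_univ_two]
  rw [Nat.card_congr e]
  have h2 : {p : ℕ × ℕ | p.1 + p.2 ≤ t}
      = ((Finset.range (t + 1)).biUnion (fun k => Finset.HasAntidiagonal.antidiagonal k) :
        Finset (ℕ × ℕ)) := by
    ext p
    simp only [Set.mem_ofPred_eq, Finset.coe_biUnion, Set.mem_iUnion, Finset.mem_coe,
      Finset.HasAntidiagonal.mem_antidiagonal, Finset.mem_range]
    constructor
    · intro h; exact ⟨p.1 + p.2, by omega, rfl⟩
    · rintro ⟨k, hk, h⟩; omega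
  rw [h2, Nat.card_coe_set_eq, Set.ncard_coe_finset, Finset.card_biUnion]
  · simp [RelPoly_Dm, Finset.Nat.card_antidiagonal]
  · intro i _ j _ hij
    rw [Function.onFun, Finset.disjoint_left]
    intro p hp1 hp2
    rw [Finset.HasAntidiagonal.mem_antidiagonal] at hp1 hp2
    exact hij (by omega)

private noncomputable abbrev RelPoly_V (t : ℕ) : Submodule ℝ (MvPolynomial (Fin 2) ℝ) :=
  restrictTotalDegree (Fin 2) ℝ t

private theorem RelPoly_finite (t : ℕ) :
    Finite {n : Fin 2 →₀ ℕ | (n.sum fun _ e => e) ≤ t} := by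
  have h := RelPoly_card t
  refine Nat.finite_of_card_ne_zero ?_
  rw [h]
  have := RelPoly_two_Dm t
  intro h0
  rw [h0] at this
  simp at this

private theorem RelPoly_finrank (t : ℕ) : finrank ℝ (RelPoly_V t) = RelPoly_Dm t := by
  have := RelPoly_finite t
  have h := Module.finrank_eq_nat_card_basis
    (basisRestrictSupport ℝ {n : Fin 2 →₀ ℕ | (n.sum fun _ e => e) ≤ t})
  rw [← RelPoly_card]
  exact h

private theorem RelPoly_mem {t : ℕ} {p : MvPolynomial (Fin 2) ℝ} :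
    p ∈ RelPoly_V t ↔ p.totalDegree ≤ t :=
  mem_restrictTotalDegree _ _ _

private theorem RelPoly_fin (t : ℕ) : Module.Finite ℝ (RelPoly_V t) := by
  have := RelPoly_finite t
  exact Module.Finite.of_basis
    (basisRestrictSupport ℝ {n : Fin 2 →₀ ℕ | (n.sum fun _ e => e) ≤ t})

private theorem RelPoly_deg {d : ℕ} {F G : MvPolynomial (Fin 2) ℝ}
    (hF : F.totalDegree ≤ d) (hG : G.totalDegree ≤ d) {i j : ℕ} (hi : i ≤ 8 * d ^ 2)
    (hj : j ≤ 8 * d) :
    ((X 0 ^ 2 + X 1 ^ 2) ^ i * (G ^ (8 * d - j) * (-F) ^ j)).totalDegree ≤ 24 * d ^ 2 := by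
  have h1 : (X 0 ^ 2 + X 1 ^ 2 : MvPolynomial (Fin 2) ℝ).totalDegree ≤ 2 := by
    refine (totalDegree_add _ _).trans ?_
    rw [totalDegree_X_pow, totalDegree_X_pow]
    simp
  have h2 : ((X 0 ^ 2 + X 1 ^ 2 : MvPolynomial (Fin 2) ℝ) ^ i).totalDegree ≤ i * 2 :=
    (totalDegree_pow _ _).trans (Nat.mul_le_mul_left _ h1)
  have h3 : (G ^ (8 * d - j)).totalDegree ≤ (8 * d - j) * d :=
    (totalDegree_pow _ _).trans (Nat.mul_le_mul_left _ hG)
  have h4 : ((-F) ^ j).totalDegree ≤ j * d := by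
    refine (totalDegree_pow _ _).trans (Nat.mul_le_mul_left _ ?_)
    rw [totalDegree_neg]
    exact hF
  have h5 := totalDegree_mul ((X 0 ^ 2 + X 1 ^ 2 : MvPolynomial (Fin 2) ℝ) ^ i)
    (G ^ (8 * d - j) * (-F) ^ j)
  have h6 := totalDegree_mul (G ^ (8 * d - j)) ((-F) ^ j)
  have h7 : (8 * d - j) * d + j * d = 8 * d ^ 2 := by
    rw [← add_mul, Nat.sub_add_cancel hj]; ring
  omega

end RelPolyAux

/-- Proof. Linear algebra. `N = 24 d²`. The linear map `(r, H) ↦ ∑ r_ij ... - K H` from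
`(Fin (8d²+1) → Fin (8d+1) → ℝ) × {polynomials of total degree ≤ N - k}` (`k = totalDegree K ≤ 2d`) to
the polynomials of total degree `≤ N` is not injective: the difference of the dimensions
`C(N+2,2) - C(N-k+2,2) = k (2N+3-k)/2 ≤ d (48 d² + 3) < (8d²+1)(8d+1)`. In the kernel `r ≠ 0`, as
`K H = 0` implies `H = 0`. (Dimension of `MvPolynomial.restrictTotalDegree (Fin 2) ℝ N`: it is
`C(N+2,2)`; see also the dimension count in Lib/MP_60829e_nt/Bezout.lean.) -/
theorem exists_relation {d : ℕ} (hd : 1 ≤ d) {K F G : MvPolynomial (Fin 2) ℝ} (hK : K ≠ 0)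
    (hKd : K.totalDegree ≤ 2 * d) (hF : F.totalDegree ≤ d) (hG : G.totalDegree ≤ d) :
    ∃ r : Fin (8 * d ^ 2 + 1) → Fin (8 * d + 1) → ℝ, (∃ i j, r i j ≠ 0) ∧
      K ∣ ∑ i : Fin (8 * d ^ 2 + 1), ∑ j : Fin (8 * d + 1), MvPolynomial.C (r i j) *
        ((MvPolynomial.X 0 ^ 2 + MvPolynomial.X 1 ^ 2) ^ (i : ℕ) *
          (G ^ (8 * d - (j : ℕ)) * (-F) ^ (j : ℕ))) := by
  classical
  let T : Fin (8 * d ^ 2 + 1) → Fin (8 * d + 1) → MvPolynomial (Fin 2) ℝ := fun i j =>
    (MvPolynomial.X 0 ^ 2 + MvPolynomial.X 1 ^ 2) ^ (i : ℕ) *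
      (G ^ (8 * d - (j : ℕ)) * (-F) ^ (j : ℕ))
  have hT : ∀ i j, T i j ∈ RelPoly_V (24 * d ^ 2) := fun i j =>
    RelPoly_mem.2 (RelPoly_deg hF hG (Nat.lt_succ_iff.1 i.2) (Nat.lt_succ_iff.1 j.2))
  have hkN : K.totalDegree ≤ 24 * d ^ 2 := by nlinarith
  obtain ⟨M, hM⟩ := Nat.exists_eq_add_of_le hkN
  have hKH : ∀ H ∈ RelPoly_V M, K * H ∈ RelPoly_V (24 * d ^ 2) := by
    intro H hH
    rw [RelPoly_mem] at hH ⊢
    have := MvPolynomial.totalDegree_mul K H
    omega
  let Φ : ((Fin (8 * d ^ 2 + 1) → Fin (8 * d + 1) → ℝ) × RelPoly_V M) →ₗ[ℝ]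
      RelPoly_V (24 * d ^ 2) :=
    { toFun := fun p => ⟨(∑ i, ∑ j, p.1 i j • T i j) - K * (p.2 : MvPolynomial (Fin 2) ℝ),
        Submodule.sub_mem _ (Submodule.sum_mem _ fun i _ => Submodule.sum_mem _ fun j _ =>
          Submodule.smul_mem _ _ (hT i j)) (hKH _ p.2.2)⟩
      map_add' := fun p q => by
        apply Subtype.ext
        simp only [Prod.fst_add, Prod.snd_add, Pi.add_apply, add_smul, Finset.sum_add_distrib,
          Submodule.coe_add, mul_add]
        ring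
      map_smul' := fun c p => by
        apply Subtype.ext
        simp only [Prod.smul_fst, Prod.smul_snd, Pi.smul_apply, smul_eq_mul, RingHom.id_apply,
          Submodule.coe_smul, smul_sub, Finset.smul_sum, smul_smul, mul_smul_comm] }
  have := RelPoly_fin M
  have := RelPoly_fin (24 * d ^ 2)
  have hdim : Module.finrank ℝ (RelPoly_V (24 * d ^ 2)) <
      Module.finrank ℝ ((Fin (8 * d ^ 2 + 1) → Fin (8 * d + 1) → ℝ) × RelPoly_V M) := by
    rw [Module.finrank_prod, RelPoly_finrank, RelPoly_finrank, Module.finrank_pi_fintype]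
    simp only [Module.finrank_fintype_fun_eq_card, Fintype.card_fin, Finset.sum_const,
      Finset.card_univ, smul_eq_mul]
    have e1 := RelPoly_two_Dm (24 * d ^ 2)
    have e2 := RelPoly_two_Dm M
    set k := K.totalDegree with hk
    have e3 : (24 * d ^ 2 + 1) * (24 * d ^ 2 + 2) =
        (M + 1) * (M + 2) + k * (2 * M + k + 3) := by
      rw [hM]; ring
    have e4 : k * (2 * M + k + 3) ≤ 2 * d * (2 * (24 * d ^ 2) + 3) :=
      Nat.mul_le_mul hKd (by omega)
    have e5 : 2 * d * (2 * (24 * d ^ 2) + 3) < 2 * ((8 * d ^ 2 + 1) * (8 * d + 1)) := by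
      nlinarith [Nat.zero_le (d ^ 3), Nat.zero_le (d ^ 2)]
    omega
  have hker := LinearMap.ker_ne_bot_of_finrank_lt (f := Φ) hdim
  obtain ⟨p, hp, hp0⟩ := (Submodule.ne_bot_iff _).1 hker
  have h1 : (∑ i, ∑ j, p.1 i j • T i j) - K * (p.2 : MvPolynomial (Fin 2) ℝ) = 0 :=
    congrArg Subtype.val (LinearMap.mem_ker.1 hp)
  refine ⟨p.1, ?_, (p.2 : MvPolynomial (Fin 2) ℝ), ?_⟩
  · by_contra hno
    push Not at hno
    apply hp0
    have h2 : K * (p.2 : MvPolynomial (Fin 2) ℝ) = 0 := by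
      simp only [hno, zero_smul, Finset.sum_const_zero, zero_sub, neg_eq_zero] at h1
      exact h1
    have h3 : (p.2 : MvPolynomial (Fin 2) ℝ) = 0 := (mul_eq_zero.1 h2).resolve_left hK
    ext1
    · funext i j; exact hno i j
    · exact Subtype.ext h3
  · rw [← sub_eq_zero, ← h1]
    congr 1
    refine Finset.sum_congr rfl fun i _ => Finset.sum_congr rfl fun j _ => ?_
    rw [MvPolynomial.smul_eq_C_mul]

end Pool.Agent.Lib.MP_95e7ec_an
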