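import Mathlib
import Pool.Agent.Lib.MP_95e7ec_an.Rq.Defs
import Pool.Agent.Lib.MP_95e7ec_an.Rq.RelPoly
import Pool.Agent.Lib.MP_95e7ec_an.Rq.FormVar
import Pool.Agent.Lib.MP_95e7ec_an.Rq.Newton

/-!
# Rq, SpecRad: the radii of the special points
-/

set_option autoImplicit false

open Set Filter Topology MeasureTheory
open scoped ContDiff ENNReal

namespace Pool.Agent.Lib.MP_95e7ec_an

/-- Proof. `A = 8d²`, `B = 8d`; `r` from `exists_relation` (with `F`, `G`). For every `i` with `r i ≠ 0` let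
`S_i` be the set of `form_variation` for `β = r i`, and `S` the union. Let `z = cyl p` be a point with
`sin c G(z) + cos c F(z) = 0`, `K z = 0`, and `F(z), G(z)` not both `0`: then
`(G(z), -F(z)) = λ (cos c, sin c)` with `λ = G cos c - F sin c ≠ 0`. As `K` divides the relation,
`0 = ∑ r_ij (|z|²)^i G^(B-j) (-F)^j = λ^B ∑_i bform (r i) c (|z|²)^i`, and `|z|² = e^{2 p.1}`. Apply
`newton_radii` to the set of the good levels, `b c i = bform (r i) c`, `x = 2 p.1`,
`L = B log (2/η)` (`(2/η)^B = exp L`; for `r i = 0` everything is `0`), and halve the points of `U`. -/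
theorem special_radii {d : ℕ} (hd : 1 ≤ d) {K F G : MvPolynomial (Fin 2) ℝ} (hK : K ≠ 0)
    (hKd : K.totalDegree ≤ 2 * d) (hF : F.totalDegree ≤ d) (hG : G.totalDegree ≤ d) :
    ∃ S : Finset ℝ, S.card ≤ (8 * d ^ 2 + 1) * (8 * d + 1) ∧ ∀ η : ℝ, 0 < η → η ≤ 1 →
      ∃ U : Finset ℝ, U.card ≤ 8 * d ^ 2 ∧ ∀ c : ℝ, (∀ φ ∈ S, η ≤ |Real.sin (c - φ)|) →
        ∀ p : ℝ × ℝ, Real.sin c * ev G (cyl p) + Real.cos c * ev F (cyl p) = 0 →
          ev K (cyl p) = 0 → (ev G (cyl p) ≠ 0 ∨ ev F (cyl p) ≠ 0) →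
            ∃ u ∈ U, |p.1 - u| ≤ Real.log (8 * d ^ 2 + 1) + 8 * d * Real.log (2 / η) := by
  classical
  obtain ⟨r, ⟨i₀, j₀, hr₀⟩, hdvd⟩ := exists_relation hd hK hKd hF hG
  have hch : ∀ i : Fin (8 * d ^ 2 + 1), ∃ S : Finset ℝ, S.card ≤ 8 * d + 1 ∧
      (r i ≠ 0 → ∀ η : ℝ, 0 < η → η ≤ 1 →
      ∀ c c' : ℝ, (∀ φ ∈ S, η ≤ |Real.sin (c - φ)|) → (∀ φ ∈ S, η ≤ |Real.sin (c' - φ)|) →
        bform (r i) c ≠ 0 ∧ |bform (r i) c| ≤ (2 / η) ^ (8 * d) * |bform (r i) c'|) := by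
    intro i
    by_cases hi : r i = 0
    · exact ⟨∅, by simp, fun h => absurd hi h⟩
    · obtain ⟨S, hS, h⟩ := form_variation (r i) hi
      exact ⟨S, hS, fun _ => h⟩
  choose Sf hSc hSv using hch
  refine ⟨Finset.univ.biUnion Sf, ?_, ?_⟩
  · refine Finset.card_biUnion_le.trans ?_
    refine (Finset.sum_le_sum fun i _ => hSc i).trans ?_
    rw [Finset.sum_const, Finset.card_univ, Fintype.card_fin, smul_eq_mul]
  intro η hη hη1
  have h2η : (1 : ℝ) ≤ 2 / η := by
    rw [le_div_iff₀ hη]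
    linarith
  have hLnn : (0 : ℝ) ≤ ((8 * d : ℕ) : ℝ) * Real.log (2 / η) :=
    mul_nonneg (Nat.cast_nonneg _) (Real.log_nonneg h2η)
  have hexp : Real.exp (((8 * d : ℕ) : ℝ) * Real.log (2 / η)) = (2 / η) ^ (8 * d) := by
    rw [Real.exp_nat_mul, Real.exp_log (by positivity)]
  have hgood : ∀ c ∈ {c : ℝ | ∀ φ ∈ Finset.univ.biUnion Sf, η ≤ |Real.sin (c - φ)|},
      ∀ i, ∀ φ ∈ Sf i, η ≤ |Real.sin (c - φ)| := by
    intro c hc i φ hφ
    exact hc φ (Finset.mem_biUnion.2 ⟨i, Finset.mem_univ i, hφ⟩)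
  have hzero : ∀ i, r i = 0 → ∀ c, bform (r i) c = 0 := by
    intro i hi c
    unfold bform
    refine Finset.sum_eq_zero fun j _ => ?_
    rw [hi]
    simp
  obtain ⟨U, hUc, hU⟩ := newton_radii (A := 8 * d ^ 2)
    {c : ℝ | ∀ φ ∈ Finset.univ.biUnion Sf, η ≤ |Real.sin (c - φ)|}
    (fun c i => bform (r i) c) hLnn
    (by
      intro c hc c' hc' i
      by_cases hi : r i = 0
      · simp only [hzero i hi, abs_zero, mul_zero, le_refl]
      · rw [hexp]
        exact (hSv i hi η hη hη1 c c' (hgood c hc i) (hgood c' hc' i)).2)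
    (by
      intro c hc
      refine ⟨i₀, ?_⟩
      have hi : r i₀ ≠ 0 := by
        intro h
        apply hr₀
        rw [h]
        rfl
      exact (hSv i₀ hi η hη hη1 c c (hgood c hc i₀) (hgood c hc i₀)).1)
  refine ⟨U.image (fun u => u / 2), Finset.card_image_le.trans hUc, ?_⟩
  intro c hc p hlev hKz hne
  set g := ev G (cyl p) with hg
  set f := ev F (cyl p) with hf
  set l := g * Real.cos c - f * Real.sin c with hl
  have hcs := Real.sin_sq_add_cos_sq c
  have hgl : g = l * Real.cos c := by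
    rw [hl]
    linear_combination (-g) * hcs + Real.sin c * hlev
  have hfl : -f = l * Real.sin c := by
    rw [hl]
    linear_combination f * hcs - Real.cos c * hlev
  have hl0 : l ≠ 0 := by
    intro h
    rw [h, zero_mul] at hgl hfl
    rcases hne with h1 | h1
    · exact h1 hgl
    · exact h1 (neg_eq_zero.1 hfl)
  obtain ⟨H, hH⟩ := hdvd
  have hev := congrArg (MvPolynomial.eval ![(cyl p).1, (cyl p).2]) hH
  rw [map_mul] at hev
  have hKz' : MvPolynomial.eval ![(cyl p).1, (cyl p).2] K = 0 := hKz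
  rw [hKz', zero_mul, map_sum] at hev
  have hnorm : (cyl p).1 ^ 2 + (cyl p).2 ^ 2 = Real.exp (2 * p.1) := by
    have h1 := Real.sin_sq_add_cos_sq p.2
    simp only [cyl]
    rw [mul_comm 2 p.1, mul_two, Real.exp_add]
    linear_combination (Real.exp p.1 * Real.exp p.1) * h1
  have hsum : ∑ i : Fin (8 * d ^ 2 + 1), bform (r i) c * Real.exp ((i : ℕ) * (2 * p.1)) = 0 := by
    have hterm : ∀ i : Fin (8 * d ^ 2 + 1),
        MvPolynomial.eval ![(cyl p).1, (cyl p).2] (∑ j : Fin (8 * d + 1),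
          MvPolynomial.C (r i j) * ((MvPolynomial.X 0 ^ 2 + MvPolynomial.X 1 ^ 2) ^ (i : ℕ) *
          (G ^ (8 * d - (j : ℕ)) * (-F) ^ (j : ℕ)))) =
        l ^ (8 * d) * (bform (r i) c * Real.exp ((i : ℕ) * (2 * p.1))) := by
      intro i
      rw [map_sum]
      unfold bform
      rw [Finset.sum_mul, Finset.mul_sum]
      refine Finset.sum_congr rfl fun j _ => ?_
      simp only [map_mul, map_pow, map_add, map_neg, MvPolynomial.eval_C, MvPolynomial.eval_X,
        Matrix.cons_val_zero, Matrix.cons_val_one]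
      have e1 : MvPolynomial.eval ![(cyl p).1, (cyl p).2] G = l * Real.cos c := hgl
      have e2 : -MvPolynomial.eval ![(cyl p).1, (cyl p).2] F = l * Real.sin c := hfl
      have e3 : (cyl p).1 ^ 2 + (cyl p).2 ^ 2 = Real.exp (2 * p.1) := hnorm
      rw [e1, e2, e3, Real.exp_nat_mul]
      have e4 : l ^ (8 * d) = l ^ (8 * d - (j : ℕ)) * l ^ (j : ℕ) := by
        rw [← pow_add, Nat.sub_add_cancel (Nat.lt_succ_iff.1 j.2)]
      rw [e4, mul_pow, mul_pow]
      ring
    rw [Finset.sum_congr rfl fun i _ => hterm i, ← Finset.mul_sum] at hev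
    exact (mul_eq_zero.1 hev).resolve_left (pow_ne_zero _ hl0)
  obtain ⟨u, hu, hbound⟩ := hU c hc (2 * p.1) hsum
  refine ⟨u / 2, Finset.mem_image_of_mem _ hu, ?_⟩
  have h3 : p.1 - u / 2 = (2 * p.1 - u) / 2 := by ring
  rw [h3, abs_div, abs_of_pos (by norm_num : (0 : ℝ) < 2)]
  push_cast at hbound
  linarith

end Pool.Agent.Lib.MP_95e7ec_an
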