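import Mathlib
import Pool.Agent.Lib.MP_95e7ec_an.Rq.Defs

/-!
# Rq, Steep: a steep point of a level curve reaches the ray
-/

set_option autoImplicit false

open Set Filter Topology MeasureTheory
open scoped ContDiff ENNReal

namespace Pool.Agent.Lib.MP_95e7ec_an

/-- the derivative of `f` along a line with slope `c` -/
private lemma Steep_hasDerivAt {f : ℝ × ℝ → ℝ} (hf : ContDiff ℝ 1 f) (s y c : ℝ) :
    HasDerivAt (fun η : ℝ => f (s + c * η, y + η)) (c * d1 f (s, y) + d2 f (s, y)) 0 := by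
  have hg : HasDerivAt (fun η : ℝ => ((s + c * η, y + η) : ℝ × ℝ)) (c, 1) 0 := by
    have h1 : HasDerivAt (fun η : ℝ => s + c * η) c 0 := by
      simpa using ((hasDerivAt_id (0 : ℝ)).const_mul c).const_add s
    have h2 : HasDerivAt (fun η : ℝ => y + η) 1 0 := by
      simpa using (hasDerivAt_id (0 : ℝ)).const_add y
    exact h1.prodMk h2
  have hfd : HasFDerivAt f (fderiv ℝ f (s, y)) (s + c * 0, y + 0) := by
    have : ((s + c * 0, y + 0) : ℝ × ℝ) = (s, y) := by simp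
    rw [this]
    exact (hf.differentiable one_ne_zero _).hasFDerivAt
  have h := hfd.comp_hasDerivAt (0 : ℝ) hg
  have e : (fderiv ℝ f (s, y)) (c, 1) = c * d1 f (s, y) + d2 f (s, y) := by
    have : ((c, 1) : ℝ × ℝ) = c • ((1 : ℝ), (0 : ℝ)) + ((0 : ℝ), (1 : ℝ)) := by
      ext <;> simp
    rw [this, map_add, map_smul]
    simp [d1, d2]
  rw [e] at h
  exact h

/-- a zero slightly above, case `0 < d1` -/
private lemma Steep_step_pos {f : ℝ × ℝ → ℝ} (hf : ContDiff ℝ 1 f) {κ s y : ℝ} (hκ : 0 < κ)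
    (h0 : f (s, y) = 0) (hd : |d2 f (s, y)| < κ * d1 f (s, y)) :
    ∀ᶠ η : ℝ in 𝓝[>] 0, ∃ s', |s' - s| ≤ κ * η ∧ f (s', y + η) = 0 := by
  have hp := Steep_hasDerivAt hf s y κ
  have hq := (Steep_hasDerivAt hf s y (-κ)).neg
  have hb := abs_lt.mp hd
  have e1 : ∀ᶠ x : ℝ in 𝓝 (0 : ℝ), SignType.sign (f (s + κ * x, y + x)) =
      SignType.sign (x - 0) := by
    refine eventually_nhdsWithin_sign_eq_of_deriv_pos (f := fun η : ℝ => f (s + κ * η, y + η)) ?_ ?_
    · rw [hp.deriv]; linarith [hb.1]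
    · simp [h0]
  have e2 : ∀ᶠ x : ℝ in 𝓝 (0 : ℝ), SignType.sign (-f (s + (-κ) * x, y + x)) =
      SignType.sign (x - 0) := by
    refine eventually_nhdsWithin_sign_eq_of_deriv_pos
      (f := fun η : ℝ => -f (s + (-κ) * η, y + η)) ?_ ?_
    · have : deriv (fun η : ℝ => -f (s + (-κ) * η, y + η)) 0 =
          -((-κ) * d1 f (s, y) + d2 f (s, y)) := hq.deriv
      rw [this]; linarith [hb.2]
    · simp [h0]
  have e1' := e1.filter_mono (nhdsWithin_le_nhds (s := Ioi 0))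
  have e2' := e2.filter_mono (nhdsWithin_le_nhds (s := Ioi 0))
  filter_upwards [e1', e2', self_mem_nhdsWithin] with η h1 h2 hη
  have hη0 : (0 : ℝ) < η := hη
  have hs : SignType.sign (η - 0) = 1 := by
    rw [sub_zero]; exact sign_pos hη0
  rw [hs] at h1 h2
  have p1 : 0 < f (s + κ * η, y + η) := sign_eq_one_iff.mp h1
  have p2 : 0 < -f (s + (-κ) * η, y + η) := sign_eq_one_iff.mp h2
  have hle : s - κ * η ≤ s + κ * η := by nlinarith
  have hc : ContinuousOn (fun t : ℝ => f (t, y + η)) (Icc (s - κ * η) (s + κ * η)) :=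
    (hf.continuous.comp (by fun_prop)).continuousOn
  have hivt := intermediate_value_Icc hle hc
  have hmem : (0 : ℝ) ∈ Icc ((fun t : ℝ => f (t, y + η)) (s - κ * η))
      ((fun t : ℝ => f (t, y + η)) (s + κ * η)) := by
    constructor
    · have : s + (-κ) * η = s - κ * η := by ring
      rw [this] at p2
      show f (s - κ * η, y + η) ≤ 0
      linarith
    · exact p1.le
  obtain ⟨s', hs', hz⟩ := hivt hmem
  refine ⟨s', ?_, hz⟩
  rw [abs_le]
  constructor <;> linarith [hs'.1, hs'.2]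

/-- a zero slightly above -/
private lemma Steep_step {f : ℝ × ℝ → ℝ} (hf : ContDiff ℝ 1 f) {κ s y : ℝ} (hκ : 0 < κ)
    (h0 : f (s, y) = 0) (hd : |d2 f (s, y)| < κ * |d1 f (s, y)|) :
    ∀ᶠ η : ℝ in 𝓝[>] 0, ∃ s', |s' - s| ≤ κ * η ∧ f (s', y + η) = 0 := by
  rcases le_total 0 (d1 f (s, y)) with h | h
  · rw [abs_of_nonneg h] at hd
    exact Steep_step_pos hf hκ h0 hd
  · have hn1 : d1 (fun p => -f p) (s, y) = -d1 f (s, y) := by
      unfold d1
      rw [fderiv_fun_neg]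
      simp
    have hn2 : d2 (fun p => -f p) (s, y) = -d2 f (s, y) := by
      unfold d2
      rw [fderiv_fun_neg]
      simp
    have hd' : |d2 (fun p => -f p) (s, y)| < κ * d1 (fun p => -f p) (s, y) := by
      rw [hn1, hn2, abs_neg]
      rwa [abs_of_nonpos h] at hd
    have := Steep_step_pos (f := fun p => -f p) hf.neg hκ (by simp [h0]) hd'
    filter_upwards [this] with η hη
    obtain ⟨s', hs', hz⟩ := hη
    exact ⟨s', hs', by simpa using hz⟩

/-- Proof. Suppose `m |d2 f p0| ≤ |d1 f p0|`, so `<` by `hsp`. Let `κ = 1/m` and let `S` be the set of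
the `h ∈ [0, 2π]` for which there is `s` with `|s - p0.1| ≤ κ h`, `f (s, p0.2 + h) = 0` and
`m |d2 f| ≤ |d1 f|` at `(s, p0.2 + h)` (then `<` by `hsp`, as `κ h ≤ 2π/m`). `S` contains `0`, is closed
(compactness), and is open to the right: at such a point `d1 f ≠ 0`, and `f (s ± κ η, p0.2+h+η)`
has for small `η > 0` the sign of `± d1 f` (first order expansion, `|d2 f| < κ |d1 f|`), so there is a zero
`(s', p0.2+h+η)` with `|s'-s| ≤ κ η` (intermediate value theorem), where `m |d2 f| < |d1 f|` still holds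
(continuity). So `S = [0,2π]` (`IsClosed.mem_of_ge_of_forall_exists_gt` or
`IsClosed.Icc_subset_of_forall_exists_gt`). Take `h` such that
`p0.2 + h = 2πk` (`k = ⌈p0.2/(2π)⌉`): contradiction with `hray`. -/
theorem not_steep {f : ℝ × ℝ → ℝ} (hf : ContDiff ℝ 1 f) {m : ℝ} (hm : 0 < m) {p0 : ℝ × ℝ}
    (h0 : f p0 = 0)
    (hsp : ∀ p : ℝ × ℝ, |p.1 - p0.1| ≤ 2 * Real.pi / m → f p = 0 →
      |d1 f p| ≠ m * |d2 f p|)
    (hray : ∀ (s : ℝ) (k : ℤ), |s - p0.1| ≤ 2 * Real.pi / m → f (s, 2 * Real.pi * k) ≠ 0) :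
    |d1 f p0| < m * |d2 f p0| := by
  by_contra hcon
  push Not at hcon
  have hpi : 0 < Real.pi := Real.pi_pos
  have hfc : Continuous f := hf.continuous
  have hd1 : Continuous (d1 f) := by
    unfold d1
    exact (hf.continuous_fderiv one_ne_zero).clm_apply continuous_const
  have hd2 : Continuous (d2 f) := by
    unfold d2
    exact (hf.continuous_fderiv one_ne_zero).clm_apply continuous_const
  obtain ⟨κ, hκ⟩ : ∃ κ : ℝ, κ = 1 / m := ⟨_, rfl⟩
  have hκ0 : 0 < κ := by rw [hκ]; positivity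
  have hκm : κ * m = 1 := by rw [hκ]; field_simp
  have hκpi : κ * (2 * Real.pi) = 2 * Real.pi / m := by rw [hκ]; ring
  let K : Set (ℝ × ℝ) := {q | q.1 ∈ Icc (0 : ℝ) (2 * Real.pi) ∧ |q.2 - p0.1| ≤ κ * q.1 ∧
    f (q.2, p0.2 + q.1) = 0 ∧
    m * |d2 f (q.2, p0.2 + q.1)| ≤ |d1 f (q.2, p0.2 + q.1)|}
  have hmap : Continuous (fun q : ℝ × ℝ => ((q.2, p0.2 + q.1) : ℝ × ℝ)) := by fun_prop
  have hKcl : IsClosed K := by
    have c1 : IsClosed {q : ℝ × ℝ | q.1 ∈ Icc (0 : ℝ) (2 * Real.pi)} :=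
      isClosed_Icc.preimage continuous_fst
    have c2 : IsClosed {q : ℝ × ℝ | |q.2 - p0.1| ≤ κ * q.1} :=
      isClosed_le (by fun_prop) (by fun_prop)
    have c3 : IsClosed {q : ℝ × ℝ | f (q.2, p0.2 + q.1) = 0} :=
      isClosed_eq (hfc.comp hmap) continuous_const
    have c4 : IsClosed {q : ℝ × ℝ | m * |d2 f (q.2, p0.2 + q.1)| ≤ |d1 f (q.2, p0.2 + q.1)|} :=
      isClosed_le (continuous_const.mul (hd2.comp hmap).abs) (hd1.comp hmap).abs
    exact c1.inter (c2.inter (c3.inter c4))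
  have hKsub : K ⊆ Icc (0 : ℝ) (2 * Real.pi) ×ˢ
      Icc (p0.1 - κ * (2 * Real.pi)) (p0.1 + κ * (2 * Real.pi)) := by
    rintro ⟨h, s⟩ ⟨hh, hs, -, -⟩
    refine ⟨hh, ?_⟩
    have h1 : κ * h ≤ κ * (2 * Real.pi) := mul_le_mul_of_nonneg_left hh.2 hκ0.le
    have h2 := abs_le.mp (le_trans hs h1)
    constructor
    · show p0.1 - κ * (2 * Real.pi) ≤ s
      linarith [h2.1]
    · show s ≤ p0.1 + κ * (2 * Real.pi)
      linarith [h2.2]
  have hKc : IsCompact K := (isCompact_Icc.prod isCompact_Icc).of_isClosed_subset hKcl hKsub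
  let S : Set ℝ := Prod.fst '' K
  have hScl : IsClosed S := (hKc.image continuous_fst).isClosed
  have h0S : (0 : ℝ) ∈ S := by
    refine ⟨(0, p0.1), ⟨⟨le_rfl, by positivity⟩, by simp, ?_, ?_⟩, rfl⟩
    · simpa using h0
    · simpa using hcon
  have hsub : Icc (0 : ℝ) (2 * Real.pi) ⊆ S := by
    have hcl : IsClosed (S ∩ Icc (0 : ℝ) (2 * Real.pi)) := hScl.inter isClosed_Icc
    refine hcl.Icc_subset_of_forall_exists_gt h0S ?_
    rintro h ⟨⟨⟨h', s⟩, ⟨hh, hs, hz, hle⟩, rfl⟩, hh2⟩ y hy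
    simp only at hh hs hz hle hh2 hy ⊢
    have hh1 : h' ∈ Icc (0 : ℝ) (2 * Real.pi) := hh
    have hsb : |s - p0.1| ≤ 2 * Real.pi / m := by
      rw [← hκpi]
      exact le_trans hs (mul_le_mul_of_nonneg_left hh1.2 hκ0.le)
    have hlt : m * |d2 f (s, p0.2 + h')| < |d1 f (s, p0.2 + h')| :=
      lt_of_le_of_ne hle (fun he => hsp (s, p0.2 + h') hsb hz he.symm)
    have hlt' : |d2 f (s, p0.2 + h')| < κ * |d1 f (s, p0.2 + h')| := by
      have := mul_lt_mul_of_pos_left hlt hκ0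
      rwa [← mul_assoc, hκm, one_mul] at this
    have hst := Steep_step hf hκ0 hz hlt'
    have hopen : IsOpen {p : ℝ × ℝ | m * |d2 f p| < |d1 f p|} :=
      isOpen_lt (continuous_const.mul hd2.abs) hd1.abs
    obtain ⟨ε, hε, hball⟩ := Metric.isOpen_iff.mp hopen (s, p0.2 + h') hlt
    have hsmall : ∀ᶠ η : ℝ in 𝓝[>] 0, η < min (min ε (ε / κ)) (min (y - h') (2 * Real.pi - h')) := by
      have : (0 : ℝ) < min (min ε (ε / κ)) (min (y - h') (2 * Real.pi - h')) := by
        have h1 : 0 < y - h' := by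
          have := mem_Ioi.mp hy
          linarith
        have h2 : 0 < 2 * Real.pi - h' := by linarith [hh2.2]
        exact lt_min (lt_min hε (div_pos hε hκ0)) (lt_min h1 h2)
      exact (Iio_mem_nhds this |> fun h => nhdsWithin_le_nhds h)
    have hall := (hst.and hsmall).and (self_mem_nhdsWithin : Ioi (0 : ℝ) ∈ 𝓝[>] (0 : ℝ))
    obtain ⟨η, ⟨⟨s', hs', hz'⟩, hη⟩, hη0⟩ := hall.exists
    have hη0' : (0 : ℝ) < η := hη0
    have hη1 : η < ε := lt_of_lt_of_le hη (le_trans (min_le_left _ _) (min_le_left _ _))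
    have hη2 : η < ε / κ := lt_of_lt_of_le hη (le_trans (min_le_left _ _) (min_le_right _ _))
    have hη3 : η < y - h' := lt_of_lt_of_le hη (le_trans (min_le_right _ _) (min_le_left _ _))
    have hη4 : η < 2 * Real.pi - h' :=
      lt_of_lt_of_le hη (le_trans (min_le_right _ _) (min_le_right _ _))
    have hκη : κ * η < ε := by
      have := mul_lt_mul_of_pos_left hη2 hκ0
      rwa [mul_div_cancel₀ _ hκ0.ne'] at this
    refine ⟨h' + η, ⟨(h' + η, s'), ⟨⟨by linarith [hh1.1], by linarith⟩, ?_, ?_, ?_⟩, rfl⟩,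
      ⟨by linarith, by linarith⟩⟩
    · show |s' - p0.1| ≤ κ * (h' + η)
      have : s' - p0.1 = (s' - s) + (s - p0.1) := by ring
      rw [this]
      refine le_trans (abs_add_le _ _) ?_
      have hs2 : |s - p0.1| ≤ κ * h' := hs
      linarith
    · show f (s', p0.2 + (h' + η)) = 0
      rw [← add_assoc]
      exact hz'
    · show m * |d2 f (s', p0.2 + (h' + η))| ≤ |d1 f (s', p0.2 + (h' + η))|
      rw [← add_assoc]
      have : ((s', p0.2 + h' + η) : ℝ × ℝ) ∈ Metric.ball ((s, p0.2 + h') : ℝ × ℝ) ε := by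
        rw [Metric.mem_ball, Prod.dist_eq]
        refine max_lt ?_ ?_
        · show dist s' s < ε
          rw [Real.dist_eq]
          exact lt_of_le_of_lt hs' hκη
        · show dist (p0.2 + h' + η) (p0.2 + h') < ε
          rw [Real.dist_eq, add_sub_cancel_left, abs_of_pos hη0']
          exact hη1
      exact (hball this).le
  -- the ray
  set k : ℤ := ⌈p0.2 / (2 * Real.pi)⌉ with hk
  have hk1 : p0.2 ≤ 2 * Real.pi * k := by
    have := Int.le_ceil (p0.2 / (2 * Real.pi))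
    rw [div_le_iff₀ (by positivity)] at this
    linarith
  have hk2 : 2 * Real.pi * k ≤ p0.2 + 2 * Real.pi := by
    have := (Int.ceil_lt_add_one (p0.2 / (2 * Real.pi))).le
    have h3 : (k : ℝ) * (2 * Real.pi) ≤ (p0.2 / (2 * Real.pi) + 1) * (2 * Real.pi) :=
      mul_le_mul_of_nonneg_right this (by positivity)
    have h4 : (p0.2 / (2 * Real.pi) + 1) * (2 * Real.pi) = p0.2 + 2 * Real.pi := by
      field_simp
    linarith
  have hmem : (2 * Real.pi * k - p0.2) ∈ Icc (0 : ℝ) (2 * Real.pi) :=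
    ⟨by linarith, by linarith⟩
  obtain ⟨⟨h', s⟩, ⟨hh, hs, hz, -⟩, he⟩ := hsub hmem
  simp only at hh hs hz he
  have hsb : |s - p0.1| ≤ 2 * Real.pi / m := by
    rw [← hκpi]
    exact le_trans hs (mul_le_mul_of_nonneg_left hh.2 hκ0.le)
  apply hray s k hsb
  have : p0.2 + h' = 2 * Real.pi * k := by rw [he]; ring
  rw [← this]
  exact hz

end Pool.Agent.Lib.MP_95e7ec_an
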