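import Mathlib
import Pool.Agent.Lib.MP_95e7ec_an.Rq.Defs
import Pool.Agent.Lib.MP_95e7ec_an.Rq.Chain
import Pool.Agent.Lib.MP_95e7ec_an.Rq.SpecRad
import Pool.Agent.Lib.MP_95e7ec_an.Rq.RayRad
import Pool.Agent.Lib.MP_95e7ec_an.Rq.Slope
import Pool.Agent.Lib.MP_95e7ec_an.Rq.Steep
import Pool.Agent.Lib.MP_95e7ec_an.Rq.Density
import Pool.Agent.Lib.MP_95e7ec_an.Zeros

/-!
# Rq, ZoneData: the exceptional radii
-/

set_option autoImplicit false

open Set Filter Topology MeasureTheory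
open scoped ContDiff ENNReal

namespace Pool.Agent.Lib.MP_95e7ec_an

/-- the data of the zones: a finite set `U` of exceptional centres, a radius `D`, a slope `m`, a set `G` of
good levels -/
structure ZData (n : ℕ) (Φ : ℝ × ℝ → ℝ × ℝ) (t m D : ℝ) (G : Set ℝ) (U : Finset ℝ) : Prop where
  m_le : m ≤ Real.tan (2 * t)
  dense : ∀ x : ℝ, ∃ c ∈ G, x ≤ c ∧ c ≤ x + t
  card : U.card ≤ 70 * n ^ 2
  D_nonneg : 0 ≤ D
  D_le : D ≤ 200 * n ^ 2 / t
  ne : ∀ p : ℝ × ℝ, (∀ u ∈ U, D < |p.1 - u|) → Φ p ≠ 0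
  slope : ∀ c ∈ G, ∀ p : ℝ × ℝ, (∀ u ∈ U, D < |p.1 - u|) → lev Φ c p = 0 →
    |d1 (lev Φ c) p| < m * |d2 (lev Φ c) p|

theorem wf_eq_zero {v : ℝ × ℝ → ℝ × ℝ} {z : ℝ × ℝ} (hz : z ≠ 0) (h : wf v z = 0) : v z = 0 := by
  have h1 : z.1 * (v z).1 + z.2 * (v z).2 = 0 := congrArg Prod.fst h
  have h2 : z.1 * (v z).2 - z.2 * (v z).1 = 0 := congrArg Prod.snd h
  have hn : z.1 ^ 2 + z.2 ^ 2 ≠ 0 := by
    intro h0
    apply hz
    have e1 : z.1 ^ 2 = 0 := by nlinarith [sq_nonneg z.1, sq_nonneg z.2]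
    have e2 : z.2 ^ 2 = 0 := by nlinarith [sq_nonneg z.1, sq_nonneg z.2]
    exact Prod.ext (pow_eq_zero_iff two_ne_zero |>.1 e1) (pow_eq_zero_iff two_ne_zero |>.1 e2)
  have e1 : (z.1 ^ 2 + z.2 ^ 2) * (v z).1 = 0 := by linear_combination z.1 * h1 - z.2 * h2
  have e2 : (z.1 ^ 2 + z.2 ^ 2) * (v z).2 = 0 := by linear_combination z.2 * h1 + z.1 * h2
  exact Prod.ext ((mul_eq_zero.1 e1).resolve_left hn) ((mul_eq_zero.1 e2).resolve_left hn)

theorem nm_cyl (p : ℝ × ℝ) : nm (cyl p) = Real.exp p.1 := by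
  have h : (Real.exp p.1 * Real.cos p.2) ^ 2 + (Real.exp p.1 * Real.sin p.2) ^ 2 =
      Real.exp p.1 ^ 2 := by
    linear_combination Real.exp p.1 ^ 2 * Real.sin_sq_add_cos_sq p.2
  simp only [nm, cyl]
  rw [h, Real.sqrt_sq (Real.exp_pos _).le]

theorem cyl_ne_zero (p : ℝ × ℝ) : cyl p ≠ 0 := by
  intro h
  have h1 := nm_cyl p
  rw [h] at h1
  have : nm (0 : ℝ × ℝ) = 0 := by simp [nm]
  rw [this] at h1
  exact (Real.exp_pos _).ne h1

theorem cyl_two_pi_int (s : ℝ) (k : ℤ) : cyl (s, 2 * Real.pi * k) = cyl (s, 0) := by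
  simp only [cyl]
  have e : 2 * Real.pi * (k : ℝ) = 0 + (k : ℝ) * (2 * Real.pi) := by ring
  rw [e, Real.cos_add_int_mul_two_pi, Real.sin_add_int_mul_two_pi]

theorem cyl_ray_injective : Function.Injective fun s : ℝ => cyl (s, 0) := by
  intro s s' h
  have h1 := congrArg nm h
  simp only [nm_cyl] at h1
  exact Real.exp_injective h1

/-- the estimate of the radii -/
theorem radii_le {n : ℕ} (hn : 1 ≤ n) {t : ℝ} (ht : 0 < t) (ht1 : t ≤ 1 / 20) {k : ℝ} (hk0 : 0 ≤ k)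
    (hk : k ≤ 2 * ((8 * ((n : ℝ) + 1) ^ 2 + 1) * (8 * ((n : ℝ) + 1) + 1)) + ((n : ℝ) + 1) + 1)
    {m : ℝ} (hm : t ≤ m) :
    max (Real.log (8 * ((n : ℝ) + 1) ^ 2 + 1) +
        8 * ((n : ℝ) + 1) * Real.log (2 / (t / (4 * (k + 1)))))
      (2 * (Real.log ((n : ℝ) + 1 + 1) + Real.log (1 / (t / (4 * (k + 1)))))) +
      2 * Real.pi / m ≤ 200 * (n : ℝ) ^ 2 / t := by
  have hn' : (1 : ℝ) ≤ n := by exact_mod_cast hn
  set d : ℝ := (n : ℝ) + 1 with hd
  have hd2 : 2 ≤ d := by linarith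
  have hdn : d ≤ 2 * n := by linarith
  have hd3 : 0 < d ^ 3 := by positivity
  have hk1 : 8 * (k + 1) ≤ 2 ^ 11 * d ^ 3 := by
    have e1 : 4 ≤ d ^ 2 := by nlinarith
    have e2 : 4 * d ≤ d ^ 3 := by nlinarith
    have e3 : 2 * d ^ 2 ≤ d ^ 3 := by nlinarith
    nlinarith
  have hη : (0 : ℝ) < t / (4 * (k + 1)) := by positivity
  have hpos1 : 0 < 2 / (t / (4 * (k + 1))) := by positivity
  have hlog : Real.log (2 / (t / (4 * (k + 1)))) ≤ 8 + 3 * d + 1 / t := by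
    have e1 : 2 / (t / (4 * (k + 1))) = 8 * (k + 1) * (1 / t) := by field_simp; ring
    have e2 : 2 / (t / (4 * (k + 1))) ≤ 2 ^ 11 * d ^ 3 * (1 / t) := by
      rw [e1]
      exact mul_le_mul_of_nonneg_right hk1 (by positivity)
    have e3 := Real.log_le_log hpos1 e2
    have e4 : Real.log (2 ^ 11 * d ^ 3 * (1 / t)) =
        11 * Real.log 2 + 3 * Real.log d + Real.log (1 / t) := by
      rw [Real.log_mul (by positivity) (by positivity), Real.log_mul (by positivity) (by positivity),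
        Real.log_pow, Real.log_pow]
      norm_num
    have e5 := Real.log_two_lt_d9
    have e6 := Real.log_le_sub_one_of_pos (show 0 < d by linarith)
    have e7 := Real.log_le_sub_one_of_pos (show 0 < 1 / t by positivity)
    rw [e4] at e3
    linarith
  have hlog2 : Real.log (1 / (t / (4 * (k + 1)))) ≤ 8 + 3 * d + 1 / t := by
    refine (Real.log_le_log (by positivity) ?_).trans hlog
    exact div_le_div_of_nonneg_right (by norm_num) hη.le
  have hl1 : Real.log (8 * d ^ 2 + 1) ≤ 8 * d ^ 2 := by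
    have := Real.log_le_sub_one_of_pos (show 0 < 8 * d ^ 2 + 1 by positivity)
    linarith
  have hl2 : Real.log (d + 1) ≤ d := by
    have := Real.log_le_sub_one_of_pos (show 0 < d + 1 by positivity)
    linarith
  have ht20 : 20 ≤ 1 / t := by
    rw [le_div_iff₀ ht]; linarith
  have hpi : 2 * Real.pi / m ≤ 7 * (1 / t) := by
    have h1 : 2 * Real.pi / m ≤ 2 * Real.pi / t :=
      div_le_div_of_nonneg_left (by positivity) ht hm
    have h2 : 2 * Real.pi / t = 2 * Real.pi * (1 / t) := by ring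
    have h3 : 2 * Real.pi ≤ 7 := by linarith [Real.pi_lt_d2]
    rw [h2] at h1
    exact h1.trans (mul_le_mul_of_nonneg_right h3 (by positivity))
  set T : ℝ := 1 / t with hT
  have hfin : 200 * (n : ℝ) ^ 2 / t = 200 * (n : ℝ) ^ 2 * T := by rw [hT]; ring
  rw [hfin]
  have hn2 : (n : ℝ) ≤ (n : ℝ) ^ 2 := by nlinarith
  have hnT : (n : ℝ) * T ≤ (n : ℝ) ^ 2 * T := mul_le_mul_of_nonneg_right hn2 (by linarith)
  have hn2T : (n : ℝ) ^ 2 * 20 ≤ (n : ℝ) ^ 2 * T := mul_le_mul_of_nonneg_left ht20 (by positivity)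
  have hT1 : T ≤ (n : ℝ) ^ 2 * T := by nlinarith
  have hmax : max (Real.log (8 * d ^ 2 + 1) + 8 * d * Real.log (2 / (t / (4 * (k + 1)))))
      (2 * (Real.log (d + 1) + Real.log (1 / (t / (4 * (k + 1)))))) ≤ 100 * ((n : ℝ) ^ 2 * T) := by
    refine max_le ?_ ?_
    · have h1 : 8 * d * Real.log (2 / (t / (4 * (k + 1)))) ≤ 8 * d * (8 + 3 * d + T) :=
        mul_le_mul_of_nonneg_left hlog (by linarith)
      have h2 : 8 * d * (8 + 3 * d + T) ≤ 16 * n * (8 + 6 * n + T) := by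
        have h3 : 8 * d ≤ 16 * n := by linarith
        have h4 : 8 + 3 * d + T ≤ 8 + 6 * n + T := by linarith
        exact mul_le_mul h3 h4 (by positivity) (by positivity)
      have h5 : 8 * d ^ 2 ≤ 32 * (n : ℝ) ^ 2 := by nlinarith
      nlinarith
    · nlinarith
  linarith

/-- Proof. `m1 = tan t`, `m2 = tan (2t)`, `choose_slope`; `d = n+1`. The finite set `S` is the union of the
sets of `special_radii` for `K = Kpol P Q m` and `Kpol P Q (-m)` (`F = wim`, `G = wre`), and of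
`ray_radii`: `S.card ≤ 2 (8d²+1)(8d+1) + d+1 ≤ 165 d³`; `η = t/(4 (S.card+1))`,
`G = {c | ∀ φ ∈ S, η ≤ |sin (c - φ)|}` (`exists_good`). `U` is the union of the corresponding `U`s and of the
set of the `log (nm z)`, `z` a zero of `vf P Q` (`exists_finset_zeros`): `U.card ≤ 16 d² + d + n² ≤ 70 n²`
(`d ≤ 2n`). `D = M + 2π/m`, `M = max` of the two radii; `m ≥ tan t ≥ t`. `log (2/η) ≤ log (1400 d³/t)
≤ 8 + 3d + 1/t` etc. gives `D ≤ 200 n²/t`. Then `slope` is `not_steep` for `f = lev Φ c`: a point with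
`|p'.1 - p.1| ≤ 2π/m` has distance `> M` from `U`, so it is not special (`kpol_eq_zero`,
`special_radii`; `wre, wim` are not both `0` there as `wf ≠ 0`), and the ray is excluded by
`ray_radii` (`cyl (s, 2πk) = cyl (s, 0)`). `hne` of `ray_radii`: otherwise `vf P Q` would vanish at all
points of the ray, against `exists_finset_zeros`. -/
theorem zone_data {n : ℕ} (hn : 1 ≤ n) {P Q : MvPolynomial (Fin 2) ℝ} (hP : P.totalDegree ≤ n)
    (hQ : Q.totalDegree ≤ n) (hPQ : IsRelPrime P Q) {t : ℝ} (ht : 0 < t) (ht1 : t ≤ 1 / 20) :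
    (∃ c₀ : ℝ, ∀ z, (turn c₀ (wf (vf P Q)) z).2 = 0) ∨
      ∃ (m D : ℝ) (G : Set ℝ) (U : Finset ℝ), ZData n (cf (vf P Q)) t m D G U := by
  classical
  obtain ⟨Z, hZc, hZ⟩ := exists_finset_zeros P Q hPQ hP hQ
  have hwf0 : ∀ p : ℝ × ℝ, wf (vf P Q) (cyl p) = 0 → cyl p ∈ Z := fun p h =>
    (hZ _).1 (wf_eq_zero (cyl_ne_zero p) h)
  have hray : ∃ s : ℝ, wf (vf P Q) (cyl (s, 0)) ≠ 0 := by
    by_contra hcon
    push Not at hcon
    have h1 : (Set.range fun s : ℝ => cyl (s, 0)) ⊆ (Z : Set (ℝ × ℝ)) := by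
      rintro _ ⟨s, rfl⟩
      exact hwf0 _ (hcon s)
    exact Set.infinite_range_of_injective cyl_ray_injective (Z.finite_toSet.subset h1)
  have htan1 : 0 < Real.tan t := Real.tan_pos_of_pos_of_lt_pi_div_two ht
    (by linarith [Real.pi_gt_three])
  have htan12 : Real.tan t < Real.tan (2 * t) := Real.tan_lt_tan_of_nonneg_of_lt_pi_div_two ht.le
    (by linarith [Real.pi_gt_three]) (by linarith)
  have htt : t ≤ Real.tan t := (Real.lt_tan ht (by linarith [Real.pi_gt_three])).le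
  obtain ⟨s₀, hs₀⟩ := hray
  rcases choose_slope (P := P) (Q := Q) ⟨_, hs₀⟩ htan1 htan12 with h | ⟨m, hm, hK1, hK2⟩
  · exact Or.inl h
  right
  have htm : t ≤ m := by rcases hm with rfl | rfl <;> linarith
  have hm0 : 0 < m := ht.trans_le htm
  have hm2 : m ≤ Real.tan (2 * t) := by rcases hm with rfl | rfl <;> linarith
  have hd : 1 ≤ n + 1 := by omega
  have hF := totalDegree_wim hP hQ
  have hG := totalDegree_wre hP hQ
  obtain ⟨S₁, hS₁, h₁⟩ := special_radii hd hK1 (totalDegree_kpol hP hQ m) hF hG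
  obtain ⟨S₂, hS₂, h₂⟩ := special_radii hd hK2 (totalDegree_kpol hP hQ (-m)) hF hG
  obtain ⟨S₃, hS₃, h₃⟩ := ray_radii hF hG ⟨s₀, by
    rw [ev_wre, ev_wim]
    by_contra hcon
    push Not at hcon
    exact hs₀ (Prod.ext hcon.1 hcon.2)⟩
  set S := S₁ ∪ S₂ ∪ S₃ with hS
  set η : ℝ := t / (4 * ((S.card : ℝ) + 1)) with hη
  have hη0 : 0 < η := by positivity
  have hη1 : η ≤ 1 := by
    rw [hη, div_le_one (by positivity)]
    have : (0 : ℝ) ≤ S.card := by positivity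
    linarith
  obtain ⟨U₁, hU₁, k₁⟩ := h₁ η hη0 hη1
  obtain ⟨U₂, hU₂, k₂⟩ := h₂ η hη0 hη1
  obtain ⟨U₃, hU₃, k₃⟩ := h₃ η hη0 hη1
  set U₄ : Finset ℝ := Z.image fun z => Real.log (nm z) with hU₄
  have hU₄c : U₄.card ≤ n ^ 2 := Finset.card_image_le.trans hZc
  set U := U₁ ∪ U₂ ∪ U₃ ∪ U₄ with hU
  set R₁ : ℝ := Real.log (8 * ((n : ℝ) + 1) ^ 2 + 1) + 8 * ((n : ℝ) + 1) * Real.log (2 / η) with hR₁
  set R₂ : ℝ := 2 * (Real.log ((n : ℝ) + 1 + 1) + Real.log (1 / η)) with hR₂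
  have hScard : (S.card : ℝ) ≤ 2 * ((8 * ((n : ℝ) + 1) ^ 2 + 1) * (8 * ((n : ℝ) + 1) + 1)) +
      ((n : ℝ) + 1) + 1 := by
    have h4 : S.card ≤ S₁.card + S₂.card + S₃.card :=
      (Finset.card_union_le _ _).trans (Nat.add_le_add_right (Finset.card_union_le _ _) _)
    have h5 : S.card ≤ 2 * ((8 * (n + 1) ^ 2 + 1) * (8 * (n + 1) + 1)) + (n + 1) + 1 := by
      refine h4.trans ?_
      omega
    exact_mod_cast h5
  have hD := radii_le hn ht ht1 (k := (S.card : ℝ)) (by positivity) hScard htm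
  rw [← hη, ← hR₁, ← hR₂] at hD
  have hM0 : 0 ≤ max R₁ R₂ := by
    refine le_max_of_le_left ?_
    have e1 : 0 ≤ Real.log (8 * ((n : ℝ) + 1) ^ 2 + 1) := Real.log_nonneg (by
      have : (0 : ℝ) ≤ 8 * ((n : ℝ) + 1) ^ 2 := by positivity
      linarith)
    have e2 : 0 ≤ Real.log (2 / η) := Real.log_nonneg (by
      rw [le_div_iff₀ hη0]; linarith)
    positivity
  have hpm : 0 < 2 * Real.pi / m := by positivity
  -- off the exceptional radii the field has no zero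
  have hne : ∀ p p' : ℝ × ℝ, (∀ u ∈ U, max R₁ R₂ + 2 * Real.pi / m < |p.1 - u|) →
      |p'.1 - p.1| ≤ 2 * Real.pi / m → wf (vf P Q) (cyl p') ≠ 0 := by
    intro p p' hp hp' h0
    have h4 := hwf0 p' h0
    have h5 : p'.1 ∈ U := by
      rw [hU, Finset.mem_union]
      right
      rw [hU₄, Finset.mem_image]
      exact ⟨_, h4, by rw [nm_cyl, Real.log_exp]⟩
    have h6 := hp _ h5
    rw [abs_sub_comm] at h6
    linarith
  have hfar : ∀ (p : ℝ × ℝ) (s u r : ℝ), (∀ u ∈ U, max R₁ R₂ + 2 * Real.pi / m < |p.1 - u|) →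
      u ∈ U → |s - p.1| ≤ 2 * Real.pi / m → r ≤ max R₁ R₂ → ¬ |s - u| ≤ r := by
    intro p s u r hp hu hs hr hcon
    have h4 := hp u hu
    have h5 : |p.1 - u| ≤ |s - p.1| + |s - u| := by
      have e : p.1 - u = -(s - p.1) + (s - u) := by ring
      rw [e]
      refine (abs_add_le _ _).trans ?_
      rw [abs_neg]
    linarith
  refine ⟨m, max R₁ R₂ + 2 * Real.pi / m, {c | ∀ φ ∈ S, η ≤ |Real.sin (c - φ)|}, U, ?_⟩
  refine ⟨hm2, ?_, ?_, by linarith, hD, ?_, ?_⟩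
  · intro x
    obtain ⟨c, hc1, hc2, hc3⟩ := exists_good S ht (by linarith) x
    exact ⟨c, hc3, hc1, hc2⟩
  · have h4 : U.card ≤ U₁.card + U₂.card + U₃.card + U₄.card := by
      refine (Finset.card_union_le _ _).trans (Nat.add_le_add_right ?_ _)
      refine (Finset.card_union_le _ _).trans (Nat.add_le_add_right ?_ _)
      exact Finset.card_union_le _ _
    have h5 : 16 * (n + 1) ^ 2 + (n + 1) + n ^ 2 ≤ 70 * n ^ 2 := by nlinarith
    omega
  · intro p hp
    exact hne p p hp (by rw [sub_self, abs_zero]; exact hpm.le)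
  · intro c hc p hp h0
    have hcd : ContDiff ℝ 1 (lev (cf (vf P Q)) c) := by
      have h4 := contDiff_cf P Q (k := 1)
      have h5 : lev (cf (vf P Q)) c = fun p => Real.sin c * (cf (vf P Q) p).1 +
          Real.cos c * (cf (vf P Q) p).2 := rfl
      rw [h5]
      exact (contDiff_const.mul (contDiff_fst.comp h4)).add
        (contDiff_const.mul (contDiff_snd.comp h4))
    refine not_steep hcd hm0 h0 ?_ ?_
    · intro p' hp' h0' heq
      have hnz := hne p p' hp hp'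
      have hor : ev (wre P Q) (cyl p') ≠ 0 ∨ ev (wim P Q) (cyl p') ≠ 0 := by
        rw [ev_wre, ev_wim]
        by_contra hcon
        push Not at hcon
        exact hnz (Prod.ext hcon.1 hcon.2)
      have hl := h0'
      rw [lev_cf] at hl
      rcases kpol_eq_zero P Q h0' heq with h | h
      · obtain ⟨u, hu, hle⟩ := k₁ c (fun φ hφ => hc φ (by rw [hS]; simp [hφ])) p' hl h hor
        refine hfar p p'.1 u R₁ hp (by rw [hU]; simp [hu]) hp' (le_max_left _ _) ?_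
        rw [hR₁]
        push_cast at hle
        exact hle
      · obtain ⟨u, hu, hle⟩ := k₂ c (fun φ hφ => hc φ (by rw [hS]; simp [hφ])) p' hl h hor
        refine hfar p p'.1 u R₁ hp (by rw [hU]; simp [hu]) hp' (le_max_left _ _) ?_
        rw [hR₁]
        push_cast at hle
        exact hle
    · intro s k hs hzero
      rw [lev_cf, cyl_two_pi_int] at hzero
      obtain ⟨u, hu, hle⟩ := k₃ c (fun φ hφ => hc φ (by rw [hS]; simp [hφ])) s hzero
      refine hfar p s u R₂ hp (by rw [hU]; simp [hu]) hs (le_max_right _ _) ?_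
      rw [hR₂]
      push_cast at hle
      exact hle

end Pool.Agent.Lib.MP_95e7ec_an
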