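import Mathlib
import Pool.Agent.Lib.MP_95e7ec_an.Rq.Defs

/-!
# Rq, LevelCurve: a level curve without steep points is a graph
-/

set_option autoImplicit false

open Set Filter Topology MeasureTheory
open scoped ContDiff ENNReal

namespace Pool.Agent.Lib.MP_95e7ec_an

/-- uniqueness of the zero solution of a linear equation -/
private theorem LevelCurve_lin {y c : ℝ → ℝ} {a b t0 : ℝ} (ht0 : t0 ∈ Icc a b)
    (hc : ContinuousOn c (Icc a b))
    (hy : ∀ s ∈ Icc a b, HasDerivWithinAt y (c s * y s) (Icc a b) s) (h0 : y t0 = 0) :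
    ∀ s ∈ Icc a b, y s = 0 := by
  obtain ⟨C, hC⟩ := isCompact_Icc.exists_bound_of_continuousOn hc
  have hyc : ContinuousOn y (Icc a b) := fun s hs => (hy s hs).continuousWithinAt
  have hlip : ∀ t ∈ Icc a b, LipschitzOnWith (Real.toNNReal C) (fun x : ℝ => c t * x) univ := by
    intro t ht
    apply LipschitzWith.lipschitzOnWith
    apply LipschitzWith.of_dist_le_mul
    intro x x'
    rw [Real.dist_eq, Real.dist_eq, ← mul_sub, abs_mul]
    refine mul_le_mul_of_nonneg_right ?_ (abs_nonneg _)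
    exact (hC t ht).trans (Real.le_coe_toNNReal C)
  intro s hs
  rcases le_total t0 s with hts | hts
  · have hsub : Icc t0 b ⊆ Icc a b := Icc_subset_Icc_left ht0.1
    have key := ODE_solution_unique_of_mem_Icc_right (v := fun t x => c t * x) (s := fun _ => univ)
      (K := Real.toNNReal C) (f := y) (g := fun _ => (0 : ℝ)) (a := t0) (b := b)
      (fun t ht => hlip t (hsub (Ico_subset_Icc_self ht))) (hyc.mono hsub)
      (fun t ht => (hy t (hsub (Ico_subset_Icc_self ht))).mono_of_mem_nhdsWithin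
        (Icc_mem_nhdsGE_of_mem ⟨ht0.1.trans ht.1, ht.2⟩))
      (fun _ _ => mem_univ _) continuousOn_const
      (fun t _ => by simpa using (hasDerivWithinAt_const t (Ici t) (0 : ℝ)))
      (fun _ _ => mem_univ _) h0
    exact key ⟨hts, hs.2⟩
  · have hsub : Icc a t0 ⊆ Icc a b := Icc_subset_Icc_right ht0.2
    have key := ODE_solution_unique_of_mem_Icc_left (v := fun t x => c t * x) (s := fun _ => univ)
      (K := Real.toNNReal C) (f := y) (g := fun _ => (0 : ℝ)) (a := a) (b := t0)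
      (fun t ht => hlip t (hsub (Ioc_subset_Icc_self ht))) (hyc.mono hsub)
      (fun t ht => (hy t (hsub (Ioc_subset_Icc_self ht))).mono_of_mem_nhdsWithin
        (Icc_mem_nhdsLE_of_mem ⟨ht.1, ht.2.trans ht0.2⟩))
      (fun _ _ => mem_univ _) continuousOn_const
      (fun t _ => by simpa using (hasDerivWithinAt_const t (Iic t) (0 : ℝ)))
      (fun _ _ => mem_univ _) h0
    exact key ⟨hs.1, hts⟩

private theorem LevelCurve_fderiv_per {f : ℝ × ℝ → ℝ}
    (hper : ∀ p : ℝ × ℝ, f (p + (0, 2 * Real.pi)) = f p) (p : ℝ × ℝ) :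
    fderiv ℝ f (p + (0, 2 * Real.pi)) = fderiv ℝ f p := by
  rw [← fderiv_comp_add_right]
  congr 1
  funext x
  exact hper x

/-- global existence for a bounded, locally Lipschitz, right hand side -/
private theorem LevelCurve_exists {g : ℝ × ℝ → ℝ} {s1 s2 M : ℝ} (hM : 0 ≤ M)
    (hg : ∀ p : ℝ × ℝ, p.1 ∈ Icc s1 s2 → ContDiffAt ℝ 1 g p)
    (hb : ∀ p : ℝ × ℝ, p.1 ∈ Icc s1 s2 → |g p| ≤ M) {p0 : ℝ × ℝ} (hp0 : p0.1 ∈ Icc s1 s2) :
    ∃ ℓ : ℝ → ℝ, ℓ p0.1 = p0.2 ∧ ∀ s ∈ Icc s1 s2,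
      HasDerivWithinAt ℓ (g (s, ℓ s)) (Icc s1 s2) s := by
  have hs : s1 ≤ s2 := hp0.1.trans hp0.2
  set A : ℝ := M * (s2 - s1) with hA
  have hA0 : 0 ≤ A := mul_nonneg hM (by linarith)
  set Q : Set (ℝ × ℝ) := Icc s1 s2 ×ˢ Icc (p0.2 - A) (p0.2 + A) with hQ
  have hQc : IsCompact Q := isCompact_Icc.prod isCompact_Icc
  have hfd : ContinuousOn (fun p => fderiv ℝ g p) Q := by
    intro p hp
    exact ((hg p hp.1).continuousAt_fderiv (by simp)).continuousWithinAt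
  obtain ⟨K, hK⟩ := hQc.exists_bound_of_continuousOn hfd
  have hpl : IsPicardLindelof (fun s θ => g (s, θ)) (⟨p0.1, hp0⟩ : Icc s1 s2) p0.2
      (Real.toNNReal A) 0 (Real.toNNReal M) (Real.toNNReal K) := by
    have hball : Metric.closedBall p0.2 (Real.toNNReal A : ℝ) = Icc (p0.2 - A) (p0.2 + A) := by
      rw [Real.closedBall_eq_Icc, Real.coe_toNNReal _ hA0]
    refine ⟨?_, ?_, ?_, ?_⟩
    · intro t ht
      rw [hball]
      refine Convex.lipschitzOnWith_of_nnnorm_hasDerivWithin_le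
        (f' := fun θ => fderiv ℝ g (t, θ) (0, 1)) (convex_Icc _ _) ?_ ?_
      · intro θ hθ
        have h1 : HasFDerivAt g (fderiv ℝ g (t, θ)) (t, θ) :=
          ((hg (t, θ) ht).differentiableAt (by simp)).hasFDerivAt
        have h2 : HasDerivAt (fun θ : ℝ => ((t, θ) : ℝ × ℝ)) ((0 : ℝ), (1 : ℝ)) θ :=
          (hasDerivAt_const θ t).prodMk (hasDerivAt_id θ)
        exact (h1.comp_hasDerivAt θ h2).hasDerivWithinAt
      · intro θ hθ
        have h3 := hK (t, θ) ⟨ht, hθ⟩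
        have h4 : ‖fderiv ℝ g (t, θ) (0, 1)‖ ≤ K := by
          refine ((fderiv ℝ g (t, θ)).le_opNorm _).trans ?_
          have h5 : ‖((0 : ℝ), (1 : ℝ))‖ = 1 := by simp [Prod.norm_def]
          rw [h5, mul_one]
          exact h3
        rw [← NNReal.coe_le_coe, coe_nnnorm]
        exact h4.trans (Real.le_coe_toNNReal K)
    · intro x _ t ht
      have h1 : ContinuousAt g (t, x) := (hg (t, x) ht).continuousAt
      have h2 : ContinuousAt (fun s : ℝ => ((s, x) : ℝ × ℝ)) t := by fun_prop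
      exact (ContinuousAt.comp (f := fun s : ℝ => ((s, x) : ℝ × ℝ)) h1 h2).continuousWithinAt
    · intro t ht x _
      rw [Real.norm_eq_abs, Real.coe_toNNReal _ hM]
      exact hb (t, x) ht
    · rw [Real.coe_toNNReal _ hM, Real.coe_toNNReal _ hA0]
      simp only [NNReal.coe_zero, sub_zero]
      rw [hA]
      refine mul_le_mul_of_nonneg_left (max_le ?_ ?_) hM
      · show s2 - p0.1 ≤ s2 - s1
        linarith [hp0.1]
      · show p0.1 - s1 ≤ s2 - s1
        linarith [hp0.2]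
  obtain ⟨ℓ, h1, h2⟩ := hpl.exists_eq_forall_mem_Icc_hasDerivWithinAt₀
  exact ⟨ℓ, h1, h2⟩

/-- Proof. The function `g (s,θ) = -(d1 f · d2 f)/((d2 f)² + f²)` is `C¹` near the strip
`Icc s1 s2 ×ˢ univ` (the denominator is not `0` there: where `f = 0` we have `d2 f ≠ 0` by `hns`) and
`2π`-periodic in `θ`, hence bounded and Lipschitz in `θ` on the strip (compactness of
`Icc s1 s2 ×ˢ Icc 0 (2π + something)`; to avoid the open neighbourhood one may use
`ContDiffOn.exists_lipschitzOnWith` on compact convex sets as in `cyl_unique`, KqGraph.lean).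
Picard-Lindelöf (`IsPicardLindelof`, large radius) gives `ℓ` on `Icc s1 s2` with `ℓ' = g (s, ℓ s)`,
`ℓ p0.1 = p0.2`. Then `y s = f (s, ℓ s)` has the derivative
`d1 f + d2 f * g = d1 f * f²/((d2 f)²+f²)`, so `|y'| ≤ K |y|` on `Icc s1 s2` and `y = 0` (Gronwall or
ODE uniqueness, on both sides of `p0.1`). So `f (s, ℓ s) = 0` and `ℓ' s = -d1 f / d2 f`. -/
theorem level_curve {f : ℝ × ℝ → ℝ} (hf : ContDiff ℝ 2 f)
    (hper : ∀ p : ℝ × ℝ, f (p + (0, 2 * Real.pi)) = f p) {m s1 s2 : ℝ} (hs : s1 ≤ s2)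
    (hns : ∀ p : ℝ × ℝ, p.1 ∈ Set.Icc s1 s2 → f p = 0 → |d1 f p| < m * |d2 f p|)
    {p0 : ℝ × ℝ} (hp0 : p0.1 ∈ Set.Icc s1 s2) (h0 : f p0 = 0) :
    ∃ ℓ ℓ' : ℝ → ℝ, ℓ p0.1 = p0.2 ∧ ∀ s ∈ Set.Icc s1 s2, f (s, ℓ s) = 0 ∧ |ℓ' s| < m ∧
      HasDerivWithinAt ℓ (ℓ' s) (Set.Icc s1 s2) s := by
  have hfd : ContDiff ℝ 1 (fderiv ℝ f) := hf.fderiv_right (by norm_num)
  have hd1 : ContDiff ℝ 1 (d1 f) := by
    unfold d1
    exact hfd.clm_apply contDiff_const
  have hd2 : ContDiff ℝ 1 (d2 f) := by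
    unfold d2
    exact hfd.clm_apply contDiff_const
  have hf1 : ContDiff ℝ 1 f := hf.of_le (by norm_num)
  have hd2ne : ∀ p : ℝ × ℝ, p.1 ∈ Icc s1 s2 → f p = 0 → d2 f p ≠ 0 := by
    intro p hp h1 h2
    have h3 := hns p hp h1
    rw [h2, abs_zero, mul_zero] at h3
    exact absurd (abs_nonneg _) (not_le.2 h3)
  have hden : ∀ p : ℝ × ℝ, p.1 ∈ Icc s1 s2 → 0 < d2 f p ^ 2 + f p ^ 2 := by
    intro p hp
    by_cases h1 : f p = 0
    · have h2 := hd2ne p hp h1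
      have h3 : 0 < d2 f p ^ 2 := by positivity
      nlinarith [sq_nonneg (f p)]
    · have h3 : 0 < f p ^ 2 := by positivity
      nlinarith [sq_nonneg (d2 f p)]
  set g : ℝ × ℝ → ℝ := fun p => -(d1 f p * d2 f p) / (d2 f p ^ 2 + f p ^ 2) with hg
  have hgc : ∀ p : ℝ × ℝ, p.1 ∈ Icc s1 s2 → ContDiffAt ℝ 1 g p := by
    intro p hp
    refine ContDiffAt.div ?_ ?_ (hden p hp).ne'
    · exact ((hd1.mul hd2).neg).contDiffAt
    · exact ((hd2.pow 2).add (hf1.pow 2)).contDiffAt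
  have hgper : ∀ p : ℝ × ℝ, g (p + (0, 2 * Real.pi)) = g p := by
    intro p
    simp only [hg, d1, d2, LevelCurve_fderiv_per hper p, hper p]
  obtain ⟨M, hM⟩ := (isCompact_Icc.prod (isCompact_Icc (a := (0 : ℝ)) (b := 2 * Real.pi))
    |>.exists_bound_of_continuousOn (s := Icc s1 s2 ×ˢ Icc (0 : ℝ) (2 * Real.pi)) (f := g)
    (fun p hp => (hgc p hp.1).continuousAt.continuousWithinAt))
  have hbound : ∀ p : ℝ × ℝ, p.1 ∈ Icc s1 s2 → |g p| ≤ max M 0 := by
    intro p hp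
    have hP : Function.Periodic (fun θ : ℝ => g (p.1, θ)) (2 * Real.pi) := by
      intro θ
      have h1 := hgper (p.1, θ)
      simpa using h1
    obtain ⟨y, hy, hy2⟩ := hP.exists_mem_Ico₀ Real.two_pi_pos p.2
    have h3 : g p = g (p.1, y) := hy2
    rw [h3]
    exact (hM (p.1, y) ⟨hp, Ico_subset_Icc_self hy⟩).trans (le_max_left _ _)
  obtain ⟨ℓ, hℓ0, hℓ⟩ := LevelCurve_exists (le_max_right M 0) hgc hbound hp0
  have hℓc : ContinuousOn ℓ (Icc s1 s2) := fun s hs => (hℓ s hs).continuousWithinAt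
  have hpair : ContinuousOn (fun s => ((s, ℓ s) : ℝ × ℝ)) (Icc s1 s2) :=
    continuousOn_id.prodMk hℓc
  -- the derivative of `f` along the curve
  have hy : ∀ s ∈ Icc s1 s2, HasDerivWithinAt (fun s => f (s, ℓ s))
      ((d1 f (s, ℓ s) * f (s, ℓ s) / (d2 f (s, ℓ s) ^ 2 + f (s, ℓ s) ^ 2)) * f (s, ℓ s))
      (Icc s1 s2) s := by
    intro s hs
    have h1 : HasFDerivAt f (fderiv ℝ f (s, ℓ s)) (s, ℓ s) :=
      (hf1.differentiable one_ne_zero _).hasFDerivAt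
    have h2 : HasDerivWithinAt (fun s => ((s, ℓ s) : ℝ × ℝ)) ((1 : ℝ), g (s, ℓ s))
        (Icc s1 s2) s := (hasDerivWithinAt_id s _).prodMk (hℓ s hs)
    have h3 := h1.comp_hasDerivWithinAt s h2
    refine h3.congr_deriv ?_
    have h4 : (((1 : ℝ), g (s, ℓ s)) : ℝ × ℝ) =
        (1 : ℝ) • ((1 : ℝ), (0 : ℝ)) + g (s, ℓ s) • ((0 : ℝ), (1 : ℝ)) := by
      simp
    rw [h4, map_add, map_smul, map_smul]
    have h5 := hden (s, ℓ s) hs
    change (1 : ℝ) • d1 f (s, ℓ s) + g (s, ℓ s) • d2 f (s, ℓ s) = _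
    simp only [hg, smul_eq_mul]
    field_simp
    ring
  have hcoef : ContinuousOn (fun s => d1 f (s, ℓ s) * f (s, ℓ s) /
      (d2 f (s, ℓ s) ^ 2 + f (s, ℓ s) ^ 2)) (Icc s1 s2) := by
    have hc1 : ContinuousOn (fun s => d1 f (s, ℓ s)) (Icc s1 s2) :=
      hd1.continuous.comp_continuousOn hpair
    have hc2 : ContinuousOn (fun s => d2 f (s, ℓ s)) (Icc s1 s2) :=
      hd2.continuous.comp_continuousOn hpair
    have hc3 : ContinuousOn (fun s => f (s, ℓ s)) (Icc s1 s2) :=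
      hf1.continuous.comp_continuousOn hpair
    exact (hc1.mul hc3).div ((hc2.pow 2).add (hc3.pow 2)) fun s hs => (hden (s, ℓ s) hs).ne'
  have hz : ∀ s ∈ Icc s1 s2, f (s, ℓ s) = 0 := by
    apply LevelCurve_lin hp0 hcoef hy
    show f (p0.1, ℓ p0.1) = 0
    rw [hℓ0]
    exact h0
  refine ⟨ℓ, fun s => g (s, ℓ s), hℓ0, fun s hs => ⟨hz s hs, ?_, hℓ s hs⟩⟩
  have h1 := hns (s, ℓ s) hs (hz s hs)
  have h2 := hd2ne (s, ℓ s) hs (hz s hs)
  have h3 : 0 < |d2 f (s, ℓ s)| := abs_pos.2 h2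
  simp only [hg, hz s hs]
  have h4 : -(d1 f (s, ℓ s) * d2 f (s, ℓ s)) / (d2 f (s, ℓ s) ^ 2 + 0 ^ 2) =
      -(d1 f (s, ℓ s)) / d2 f (s, ℓ s) := by
    field_simp
    ring
  rw [h4, abs_div, abs_neg, div_lt_iff₀ h3]
  exact h1

end Pool.Agent.Lib.MP_95e7ec_an
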