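import Mathlib
import Pool.Agent.Lib.MP_95e7ec_an.Rq.Defs
import Pool.Agent.Lib.MP_95e7ec_an.Rb.SumMeas

/-!
# Rq, NearMeas: measurability of the number of the large closed orbits near a point
-/

set_option autoImplicit false

open Set Filter Topology MeasureTheory
open scoped ContDiff ENNReal

namespace Pool.Agent.Lib.MP_95e7ec_an

private theorem nearMeas_cont {D : ℕ} {μ : Pr D} (F : Fam μ Set.univ) :
    Continuous fun p : F.J × unitInterval => at' (F.Z p.1) p.2 := by
  have h1 : Continuous fun s : F.J => F.Z s := F.Z_cont.domRestrict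
  have h2 : Continuous fun p : (A × A) × unitInterval => at' p.1 p.2 := by
    unfold at'
    fun_prop
  exact h2.comp ((h1.comp continuous_fst).prodMk continuous_snd)

/-- Proof as `starInd_measurable` (Rb/StarFam.lean): the set of the `s ∈ F.J` with `IsNear q L R (F.orb s)` is
relatively closed in the open set `F.J` (compactness of `unitInterval` and continuity of `Z`). -/
theorem nearInd_measurable {D : ℕ} {μ : Pr D} (q : ℝ × ℝ) (L R : ℝ) (F : Fam μ Set.univ) :
    ∃ g : ℝ → ℝ≥0∞, Measurable g ∧ ∀ s ∈ F.J, nearInd q L R (F.orb s) = g s := by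
  classical
  have hc := nearMeas_cont F
  set C1 : Set (F.J × unitInterval) := {p | nm (at' (F.Z p.1) p.2 - q) ≤ R} with hC1
  have hC1c : IsClosed C1 :=
    isClosed_le (continuous_nm.comp (hc.sub continuous_const)) continuous_const
  set C2 : Set (F.J × (unitInterval × unitInterval)) :=
    {p | L ≤ nm (at' (F.Z p.1) p.2.1 - at' (F.Z p.1) p.2.2)} with hC2
  have hC2c : IsClosed C2 := by
    refine isClosed_le continuous_const (continuous_nm.comp (Continuous.sub ?_ ?_))
    · exact hc.comp (continuous_fst.prodMk (continuous_fst.comp continuous_snd))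
    · exact hc.comp (continuous_fst.prodMk (continuous_snd.comp continuous_snd))
  have hS1 : IsClosed (Prod.fst '' C1) := isClosedMap_fst_of_compactSpace _ hC1c
  have hS2 : IsClosed (Prod.fst '' C2) := isClosedMap_fst_of_compactSpace _ hC2c
  set S : Set ℝ := Subtype.val '' ((Prod.fst '' C1) ∩ (Prod.fst '' C2)) with hS
  have hSm : MeasurableSet S :=
    F.isOpen_J.measurableSet.subtype_image (hS1.inter hS2).measurableSet
  refine ⟨S.indicator fun _ => 1, measurable_const.indicator hSm, fun s hs => ?_⟩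
  have h3 : s ∈ S ↔ IsNear q L R (F.orb s) := by
    constructor
    · rintro ⟨s', ⟨⟨p, hp, hps⟩, ⟨p', hp', hps'⟩⟩, rfl⟩
      subst hps
      refine ⟨⟨_, ⟨p.2, rfl⟩, hp⟩, _, ⟨p'.2.1, rfl⟩, _, ⟨p'.2.2, rfl⟩, ?_⟩
      have h4 : L ≤ nm (at' (F.Z p'.1) p'.2.1 - at' (F.Z p'.1) p'.2.2) := hp'
      rw [hps'] at h4
      exact h4
    · rintro ⟨⟨_, ⟨t, rfl⟩, h4⟩, _, ⟨t1, rfl⟩, _, ⟨t2, rfl⟩, h5⟩
      exact ⟨⟨s, hs⟩, ⟨⟨(⟨s, hs⟩, t), h4, rfl⟩, ⟨(⟨s, hs⟩, (t1, t2)), h5, rfl⟩⟩, rfl⟩
  unfold nearInd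
  by_cases h : s ∈ S
  · rw [if_pos (h3.1 h), Set.indicator_of_mem h]
  · rw [if_neg (fun h4 => h (h3.2 h4)), Set.indicator_of_notMem h]

theorem aemeasurable_near {D : ℕ} (μ : Pr D) (q : ℝ × ℝ) (L R : ℝ) :
    AEMeasurable (setSum (nearInd q L R) (vfc μ) Set.univ)
      (volume.restrict (Set.Ioo 0 Real.pi)) :=
  setSum_aemeasurable μ isOpen_univ fun F => nearInd_measurable q L R F

end Pool.Agent.Lib.MP_95e7ec_an
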