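import Mathlib
import Pool.Agent.Lib.MP_95e7ec_an.Rq.Defs
import Pool.Agent.Lib.MP_95e7ec_an.Rq.LevelCurve
import Pool.Agent.Lib.MP_95e7ec_an.KqWind

/-!
# Rq, Barrier: the flow crosses a level curve in one direction only
-/

set_option autoImplicit false

open Set Filter Topology MeasureTheory
open scoped ContDiff ENNReal

namespace Pool.Agent.Lib.MP_95e7ec_an

private theorem Barrier_bar {θ θ' : ℝ → ℝ} (hd : ∀ t, HasDerivAt θ (θ' t) t) {c : ℝ} (h0 : θ 0 ≤ c)
    (hb : ∀ t, θ t = c → θ' t < 0) {t : ℝ} (ht : 0 ≤ t) : θ t ≤ c := by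
  refine image_le_of_deriv_right_lt_deriv_boundary (f := θ) (f' := θ') (a := 0) (b := t)
    (B := fun _ => c) (B' := fun _ => 0)
    (fun x _ => (hd x).continuousAt.continuousWithinAt) (fun x _ => (hd x).hasDerivWithinAt)
    h0 (fun x => hasDerivAt_const x c) (fun x _ hx => hb x hx) ⟨ht, le_rfl⟩

private theorem Barrier_iter {σ : ℝ → ℝ × ℝ} {T : ℝ} {k : ℤ}
    (h : ∀ t, σ (t + T) = σ t + ((0 : ℝ), 2 * Real.pi * (k : ℝ))) (n : ℕ) :
    σ (n * T) = σ 0 + ((0 : ℝ), n * (2 * Real.pi * (k : ℝ))) := by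
  induction n with
  | zero => simp
  | succ n ih =>
    have h1 : ((n + 1 : ℕ) : ℝ) * T = n * T + T := by push_cast; ring
    rw [h1, h, ih]
    ext
    · simp
    · simp only [Prod.snd_add]
      push_cast
      ring

private theorem Barrier_per {F : ℝ × ℝ → ℝ × ℝ}
    (hper : ∀ p : ℝ × ℝ, F (p + (0, 2 * Real.pi)) = F p) (n : ℕ) (s θ : ℝ) :
    F (s, θ + n * (2 * Real.pi)) = F (s, θ) := by
  induction n with
  | zero => simp
  | succ n ih =>
    rw [← ih, ← hper (s, θ + n * (2 * Real.pi))]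
    congr 1
    ext
    · simp
    · simp only [Prod.mk_add_mk]
      push_cast
      ring

/-- the field at a point of the level curve -/
private theorem Barrier_turn {Φ : ℝ × ℝ → ℝ × ℝ} {a c : ℝ} {q : ℝ × ℝ} (h : lev Φ c q = 0) :
    turn a Φ q = ((turn c Φ q).1 * Real.cos (c - a), -((turn c Φ q).1 * Real.sin (c - a))) := by
  simp only [lev, turn] at h ⊢
  rw [Real.cos_sub, Real.sin_sub]
  have h1 := Real.cos_sq_add_sin_sq c
  ext
  · simp only
    linear_combination (-(Real.cos a * (Φ q).1) + Real.sin a * (Φ q).2) * h1 +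
      (Real.cos a * Real.sin c - Real.sin a * Real.cos c) * h
  · simp only
    linear_combination (-(Real.sin a * (Φ q).1) - Real.cos a * (Φ q).2) * h1 +
      (Real.cos a * Real.cos c + Real.sin a * Real.sin c) * h

private theorem Barrier_ne {Φ : ℝ × ℝ → ℝ × ℝ} {c : ℝ} {q : ℝ × ℝ} (h : lev Φ c q = 0)
    (hne : Φ q ≠ 0) : (turn c Φ q).1 ≠ 0 := by
  intro h1
  apply hne
  simp only [lev, turn] at h h1
  have h2 := Real.cos_sq_add_sin_sq c
  ext
  · simp only [Prod.fst_zero]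
    linear_combination (-(Φ q).1) * h2 + Real.cos c * h1 + Real.sin c * h
  · simp only [Prod.snd_zero]
    linear_combination (-(Φ q).2) * h2 - Real.sin c * h1 + Real.cos c * h

/-- Proof. Suppose `lev Φ c p = 0` and `0 ≤ (turn c Φ p).1`; it is `> 0` because `Φ p ≠ 0`. Let
`[s1,s2]` be the smallest interval which contains `p.1` and all the `(σ t).1` (compact: `(σ t).1` is
`T`-periodic and continuous); it is contained in `I` (`Zone.conn`, `Set.OrdConnected.out`). Let `ℓ` be the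
level curve through `p` (`level_curve` for `f = lev Φ c`). On it `(turn c Φ (s, ℓ s)).1` is continuous
and nonzero, so positive; call it `r`. Then `Φ = e^{-ic} r`, `turn a Φ = r (cos (c-a), -sin (c-a))`
there, and the same at `(s, ℓ s + 2πi)` by `hper`. The function `u t = (σ t).2 - ℓ ((σ t).1)` has at
the points with `u t = 2πi` the derivative `r (-sin (c-a) - ℓ' cos (c-a)) < 0`
(`HasDerivWithinAt.comp_hasDerivAt`), and `u (t+T) = u t + 2πk` with `k > 0`: contradiction exactly as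
in `cyl_wind_le` (KqWind.lean, copy `kqw_bar`, `kqw_iter`). -/
theorem zone_barrier {Φ : ℝ × ℝ → ℝ × ℝ} (hΦ : ContDiff ℝ 2 Φ)
    (hper : ∀ p : ℝ × ℝ, Φ (p + (0, 2 * Real.pi)) = Φ p) {m : ℝ} {G I : Set ℝ}
    (hZ : Zone Φ m G I) {a c : ℝ} (hc : c ∈ G) (hs : 0 < Real.sin (c - a))
    (hcs : m * |Real.cos (c - a)| ≤ Real.sin (c - a)) {σ : ℝ → ℝ × ℝ} {T : ℝ} {k : ℤ}
    (hk : 0 < k) (hσ : CylSol (turn a Φ) σ T k) (hI : ∀ t, (σ t).1 ∈ I) {p : ℝ × ℝ}
    (hp : p.1 ∈ I) (h0 : lev Φ c p = 0) : (turn c Φ p).1 < 0 := by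
  by_contra hneg
  push Not at hneg
  obtain ⟨hT, hd, hpd, -⟩ := hσ
  have hpi := Real.pi_pos
  have hpos : 0 < (turn c Φ p).1 :=
    lt_of_le_of_ne hneg (Ne.symm (Barrier_ne h0 (hZ.ne p hp)))
  -- the interval
  have hσc : Continuous σ := continuous_iff_continuousAt.2 fun t => (hd t).continuousAt
  have hfc : Continuous fun t => (σ t).1 := continuous_fst.comp hσc
  have hfp : Function.Periodic (fun t => (σ t).1) T := by
    intro t
    simp [hpd t]
  have hK : IsCompact (insert p.1 (range fun t => (σ t).1)) :=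
    (hfp.compact_of_continuous hT.ne' hfc).insert _
  have hKn : (insert p.1 (range fun t => (σ t).1)).Nonempty := ⟨p.1, mem_insert _ _⟩
  have hKI : insert p.1 (range fun t => (σ t).1) ⊆ I := by
    intro x hx
    rcases hx with rfl | ⟨t, rfl⟩
    · exact hp
    · exact hI t
  obtain ⟨s1, hs1, hs1'⟩ := hK.exists_isLeast hKn
  obtain ⟨s2, hs2, hs2'⟩ := hK.exists_isGreatest hKn
  have hpI : p.1 ∈ Icc s1 s2 := ⟨hs1' (mem_insert _ _), hs2' (mem_insert _ _)⟩
  have hσI : ∀ t, (σ t).1 ∈ Icc s1 s2 := fun t =>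
    ⟨hs1' (mem_insert_of_mem _ ⟨t, rfl⟩), hs2' (mem_insert_of_mem _ ⟨t, rfl⟩)⟩
  have hsub : Icc s1 s2 ⊆ I := hZ.conn.out (hKI hs1) (hKI hs2)
  have hs12 : s1 ≤ s2 := hpI.1.trans hpI.2
  -- the level curve
  have hlev : ContDiff ℝ 2 (lev Φ c) := by
    unfold lev turn
    have h1 : ContDiff ℝ 2 fun p => (Φ p).1 := contDiff_fst.comp hΦ
    have h2 : ContDiff ℝ 2 fun p => (Φ p).2 := contDiff_snd.comp hΦ
    exact (contDiff_const.mul h1).add (contDiff_const.mul h2)
  have hlper : ∀ p : ℝ × ℝ, lev Φ c (p + (0, 2 * Real.pi)) = lev Φ c p := by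
    intro q
    simp only [lev, turn, hper q]
  obtain ⟨ℓ, ℓ', hℓp, hℓ⟩ := level_curve hlev hlper hs12
    (fun q hq h => hZ.slope c hc q (hsub hq) h) hpI h0
  have hℓc : ContinuousOn ℓ (Icc s1 s2) := fun s hs => (hℓ s hs).2.2.continuousWithinAt
  -- the radial component on the level curve
  have hr : ∀ s ∈ Icc s1 s2, 0 < (turn c Φ (s, ℓ s)).1 := by
    have hrc : ContinuousOn (fun s => (turn c Φ (s, ℓ s)).1) (Icc s1 s2) := by
      have h1 : Continuous fun q => (turn c Φ q).1 := by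
        unfold turn
        have h1 : Continuous fun p => (Φ p).1 := continuous_fst.comp hΦ.continuous
        have h2 : Continuous fun p => (Φ p).2 := continuous_snd.comp hΦ.continuous
        exact (continuous_const.mul h1).sub (continuous_const.mul h2)
      exact h1.comp_continuousOn (continuousOn_id.prodMk hℓc)
    intro s hs
    by_contra hle
    push Not at hle
    have hpv : 0 < (turn c Φ (p.1, ℓ p.1)).1 := by
      rw [hℓp]
      exact hpos
    obtain ⟨x, hx, hx0⟩ := isPreconnected_Icc.intermediate_value hs hpI hrc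
      ⟨hle, hpv.le⟩
    exact Barrier_ne (hℓ x hx).1 (hZ.ne _ (hsub hx)) hx0
  -- the function u
  have hu : ∀ t, HasDerivAt (fun t => (σ t).2 - ℓ ((σ t).1))
      ((turn a Φ (σ t)).2 - ℓ' ((σ t).1) * (turn a Φ (σ t)).1) t := by
    intro t
    have h1 : HasDerivAt (fun t => (σ t).1) (turn a Φ (σ t)).1 t := (hd t).fst
    have h2 : HasDerivAt (fun t => (σ t).2) (turn a Φ (σ t)).2 t := (hd t).snd
    have h3 := (hℓ _ (hσI t)).2.2.comp_hasDerivAt t h1 (Eventually.of_forall hσI)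
    exact h2.sub h3
  obtain ⟨i, hi⟩ := exists_nat_ge (((σ 0).2 - ℓ ((σ 0).1)) / (2 * Real.pi))
  rw [div_le_iff₀ (by positivity)] at hi
  have hb : ∀ t, (fun t => (σ t).2 - ℓ ((σ t).1)) t = i * (2 * Real.pi) →
      (turn a Φ (σ t)).2 - ℓ' ((σ t).1) * (turn a Φ (σ t)).1 < 0 := by
    intro t ht
    simp only at ht
    have e : σ t = ((σ t).1, ℓ ((σ t).1) + i * (2 * Real.pi)) := by
      ext
      · rfl
      · simp only
        linarith
    have htp : ∀ q : ℝ × ℝ, turn a Φ (q + (0, 2 * Real.pi)) = turn a Φ q := by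
      intro q
      simp only [turn, hper q]
    have e2 : turn a Φ (σ t) = turn a Φ ((σ t).1, ℓ ((σ t).1)) := by
      conv_lhs => rw [e]
      exact Barrier_per htp i _ _
    obtain ⟨h1, h2, -⟩ := hℓ _ (hσI t)
    have h3 := hr _ (hσI t)
    rw [e2, Barrier_turn h1]
    set r := (turn c Φ ((σ t).1, ℓ ((σ t).1))).1
    have h4 : -(ℓ' ((σ t).1) * Real.cos (c - a)) ≤ |ℓ' ((σ t).1)| * |Real.cos (c - a)| := by
      rw [← abs_mul]
      exact neg_le_abs _
    have h5 : 0 < Real.sin (c - a) + ℓ' ((σ t).1) * Real.cos (c - a) := by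
      rcases eq_or_ne (Real.cos (c - a)) 0 with h6 | h6
      · rw [h6, mul_zero, add_zero]
        exact hs
      · have h7 := mul_lt_mul_of_pos_right h2 (abs_pos.2 h6)
        linarith
    have h6 := mul_pos h3 h5
    simp only
    nlinarith [h6]
  obtain ⟨n, hn⟩ := exists_nat_gt ((i * (2 * Real.pi) - ((σ 0).2 - ℓ ((σ 0).1))) / (2 * Real.pi))
  rw [div_lt_iff₀ (by positivity)] at hn
  have hb2 := Barrier_bar hu (c := i * (2 * Real.pi)) (by linarith) hb
    (t := n * T) (by positivity)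
  simp only [Barrier_iter hpd, Prod.fst_add, Prod.snd_add, add_zero] at hb2
  have hk1 : (1 : ℝ) ≤ k := by exact_mod_cast hk
  have : (n : ℝ) * (2 * Real.pi) ≤ n * (2 * Real.pi * k) := by
    apply mul_le_mul_of_nonneg_left _ (Nat.cast_nonneg n)
    nlinarith
  linarith

end Pool.Agent.Lib.MP_95e7ec_an
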