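import Mathlib
import Pool.Agent.Lib.MP_95e7ec_an.Rq.Defs
import Pool.Agent.Lib.MP_95e7ec_an.Rq.Barrier
import Pool.Agent.Lib.MP_95e7ec_an.AvgBasic

/-!
# Rq, Arc: the direction of the turned field in a zone
-/

set_option autoImplicit false

open Set Filter Topology MeasureTheory
open scoped ContDiff ENNReal

namespace Pool.Agent.Lib.MP_95e7ec_an

/-- the level function at the angle `a + c` in the coordinates turned by `a` -/
private theorem rqa_lev_add (Φ : ℝ × ℝ → ℝ × ℝ) (a c : ℝ) (p : ℝ × ℝ) :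
    lev Φ (a + c) p = Real.sin c * (turn a Φ p).1 + Real.cos c * (turn a Φ p).2 := by
  unfold lev turn
  simp only
  rw [Real.sin_add, Real.cos_add]
  ring

/-- the first component at the angle `a + c` in the coordinates turned by `a` -/
private theorem rqa_fst_add (Φ : ℝ × ℝ → ℝ × ℝ) (a c : ℝ) (p : ℝ × ℝ) :
    (turn (a + c) Φ p).1 = Real.cos c * (turn a Φ p).1 - Real.sin c * (turn a Φ p).2 := by
  unfold turn
  simp only
  rw [Real.sin_add, Real.cos_add]
  ring

/-- the tangent comparison: `m cos α ≤ sin α` for `2 t ≤ α ≤ 3 t` -/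
private theorem rqa_tan {m t α : ℝ} (ht : 0 < t) (ht1 : t ≤ 1 / 20) (hm : m ≤ Real.tan (2 * t))
    (h1 : 2 * t ≤ α) (h2 : α ≤ 3 * t) : m * Real.cos α ≤ Real.sin α := by
  have hpi := Real.pi_gt_three
  have hc2 : 0 < Real.cos (2 * t) := Real.cos_pos_of_mem_Ioo ⟨by linarith, by linarith⟩
  have hca : 0 < Real.cos α := Real.cos_pos_of_mem_Ioo ⟨by linarith, by linarith⟩
  have hsd : 0 ≤ Real.sin (α - 2 * t) :=
    Real.sin_nonneg_of_nonneg_of_le_pi (by linarith) (by linarith)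
  have h3 : m * Real.cos α ≤ Real.tan (2 * t) * Real.cos α :=
    mul_le_mul_of_nonneg_right hm hca.le
  refine h3.trans ?_
  rw [Real.tan_eq_sin_div_cos, div_mul_eq_mul_div, div_le_iff₀ hc2]
  rw [Real.sin_sub] at hsd
  linarith

/-- Proof. Choose `c₁ ∈ G ∩ [a+2t, a+3t]`, `c₂ ∈ G ∩ [a+π-3t, a+π-2t]` (`hG`). For both
`m |cos (c-a)| ≤ sin (c-a)`, because `tan (2t) ≥ m` (`Real.tan_lt_tan_of_lt_of_lt_pi_div_two`, or
`sin (c-a) cos (2t) ≥ sin (2t) |cos (c-a)|`, which is the sine addition formula). So by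
`zone_barrier`: at the points with first coordinate in `I`, `lev Φ c = 0` implies `(turn c Φ p).1 < 0` for
`c = c₁, c₂`. Put `U = {lev Φ c₁ > 0} ∪ {lev Φ c₂ < 0}`, `V = {lev Φ c₁ < 0} ∩ {lev Φ c₂ > 0}`: disjoint
open sets which cover the strip `{p | p.1 ∈ I}`: if `lev Φ c₁ p ≤ 0`, `lev Φ c₂ p ≥ 0` and one is `0`, use
`lev Φ c₂ = cos (c₂-c₁) lev Φ c₁ + sin (c₂-c₁) (turn c₁ Φ).1` (and the same with `1`, `2` exchanged) and
`sin (c₂-c₁) > 0`. The strip is preconnected (`I ×ˢ univ`). It has a point of `U`: since `k > 0` there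
is a time with `(turn a Φ (σ t)).2 > 0` (otherwise `(σ t).2` would be nonincreasing), and with
`c₁ = a+α`, `c₂ = a+π-β`: `lev Φ c₁ = cos α (turn a Φ).2 + sin α (turn a Φ).1`,
`lev Φ c₂ = -cos β (turn a Φ).2 + sin β (turn a Φ).1`; according to the sign of `(turn a Φ).1` the point is
in `U`. So the whole strip is in `U`. Finally if `(turn a Φ p).2 ≤ -sin (3t) nm (Φ p)` then
`lev Φ c₁ p ≤ 0 ≤ lev Φ c₂ p`: as `nm (turn a Φ p) = nm (Φ p)`, writing `(x,y) = turn a Φ p`, `y ≤ -sin(3t) r`,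
`|x| ≤ cos(3t) r` we have `cos α y + sin α x ≤ (-cos α sin 3t + sin α cos 3t) r ≤ 0`. -/
theorem zone_arc {Φ : ℝ × ℝ → ℝ × ℝ} (hΦ : ContDiff ℝ 2 Φ)
    (hper : ∀ p : ℝ × ℝ, Φ (p + (0, 2 * Real.pi)) = Φ p) {m t : ℝ} (ht : 0 < t)
    (ht1 : t ≤ 1 / 20) (hm : m ≤ Real.tan (2 * t)) {G I : Set ℝ}
    (hG : ∀ x : ℝ, ∃ c ∈ G, x ≤ c ∧ c ≤ x + t) (hZ : Zone Φ m G I) {a : ℝ} {C : Set (ℝ × ℝ)}
    (hC : PosOrb Φ I a C) {p : ℝ × ℝ} (hp : p.1 ∈ I) :
    -(Real.sin (3 * t) * nm (Φ p)) < (turn a Φ p).2 := by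
  have hpi := Real.pi_gt_three
  obtain ⟨c1, hc1G, hc1a, hc1b⟩ := hG (a + 2 * t)
  obtain ⟨c2, hc2G, hc2a, hc2b⟩ := hG (a + Real.pi - 3 * t)
  obtain ⟨α, hα⟩ : ∃ α, c1 = a + α := ⟨c1 - a, by ring⟩
  obtain ⟨β, hβ⟩ : ∃ β, c2 = a + (Real.pi - β) := ⟨a + Real.pi - c2, by ring⟩
  subst hα hβ
  have ha1 : 2 * t ≤ α := by linarith
  have ha2 : α ≤ 3 * t := by linarith
  have hb1 : 2 * t ≤ β := by linarith
  have hb2 : β ≤ 3 * t := by linarith
  have hca : 0 < Real.cos α := Real.cos_pos_of_mem_Ioo ⟨by linarith, by linarith⟩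
  have hcb : 0 < Real.cos β := Real.cos_pos_of_mem_Ioo ⟨by linarith, by linarith⟩
  have hsa : 0 < Real.sin α := Real.sin_pos_of_pos_of_lt_pi (by linarith) (by linarith)
  have hsb : 0 < Real.sin β := Real.sin_pos_of_pos_of_lt_pi (by linarith) (by linarith)
  have hsab : 0 < Real.sin (α + β) := Real.sin_pos_of_pos_of_lt_pi (by linarith) (by linarith)
  obtain ⟨σ, T, k, hk, hσ, hI, -⟩ := hC
  have hl1 : ∀ q : ℝ × ℝ, lev Φ (a + α) q =
      Real.sin α * (turn a Φ q).1 + Real.cos α * (turn a Φ q).2 := rqa_lev_add Φ a α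
  have hl2 : ∀ q : ℝ × ℝ, lev Φ (a + (Real.pi - β)) q =
      Real.sin β * (turn a Φ q).1 - Real.cos β * (turn a Φ q).2 := by
    intro q
    rw [rqa_lev_add, Real.sin_pi_sub, Real.cos_pi_sub]
    ring
  have hf1 : ∀ q : ℝ × ℝ, (turn (a + α) Φ q).1 =
      Real.cos α * (turn a Φ q).1 - Real.sin α * (turn a Φ q).2 := rqa_fst_add Φ a α
  have hf2 : ∀ q : ℝ × ℝ, (turn (a + (Real.pi - β)) Φ q).1 =
      -(Real.cos β * (turn a Φ q).1) - Real.sin β * (turn a Φ q).2 := by
    intro q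
    rw [rqa_fst_add, Real.sin_pi_sub, Real.cos_pi_sub]
    ring
  have hbar1 : ∀ q : ℝ × ℝ, q.1 ∈ I → lev Φ (a + α) q = 0 → (turn (a + α) Φ q).1 < 0 := by
    intro q hq h0
    refine zone_barrier hΦ hper hZ (a := a) hc1G ?_ ?_ hk hσ hI hq h0
    · rw [add_sub_cancel_left]
      exact hsa
    · rw [add_sub_cancel_left, abs_of_pos hca]
      exact rqa_tan ht ht1 hm ha1 ha2
  have hbar2 : ∀ q : ℝ × ℝ, q.1 ∈ I → lev Φ (a + (Real.pi - β)) q = 0 →
      (turn (a + (Real.pi - β)) Φ q).1 < 0 := by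
    intro q hq h0
    refine zone_barrier hΦ hper hZ (a := a) hc2G ?_ ?_ hk hσ hI hq h0
    · rw [add_sub_cancel_left, Real.sin_pi_sub]
      exact hsb
    · rw [add_sub_cancel_left, Real.sin_pi_sub, Real.cos_pi_sub, abs_neg, abs_of_pos hcb]
      exact rqa_tan ht ht1 hm hb1 hb2
  have hct : ∀ c : ℝ, Continuous (lev Φ c) := by
    intro c
    exact (contDiff_turn hΦ c).continuous.snd
  have hUo : IsOpen ({q : ℝ × ℝ | 0 < lev Φ (a + α) q} ∪
      {q : ℝ × ℝ | lev Φ (a + (Real.pi - β)) q < 0}) :=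
    (isOpen_lt continuous_const (hct _)).union (isOpen_lt (hct _) continuous_const)
  have hVo : IsOpen ({q : ℝ × ℝ | lev Φ (a + α) q < 0} ∩
      {q : ℝ × ℝ | 0 < lev Φ (a + (Real.pi - β)) q}) :=
    (isOpen_lt (hct _) continuous_const).inter (isOpen_lt continuous_const (hct _))
  have hsin : Real.sin (α + β) = Real.sin α * Real.cos β + Real.cos α * Real.sin β :=
    Real.sin_add α β
  have hcov : (I ×ˢ (univ : Set ℝ)) ⊆ ({q : ℝ × ℝ | 0 < lev Φ (a + α) q} ∪
      {q : ℝ × ℝ | lev Φ (a + (Real.pi - β)) q < 0}) ∪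
      ({q : ℝ × ℝ | lev Φ (a + α) q < 0} ∩
        {q : ℝ × ℝ | 0 < lev Φ (a + (Real.pi - β)) q}) := by
    intro q hq
    have hqI : q.1 ∈ I := hq.1
    by_cases h1 : 0 < lev Φ (a + α) q
    · exact Or.inl (Or.inl h1)
    by_cases h2 : lev Φ (a + (Real.pi - β)) q < 0
    · exact Or.inl (Or.inr h2)
    push Not at h1 h2
    refine Or.inr ⟨?_, ?_⟩
    · rcases h1.lt_or_eq with h3 | h3
      · exact h3
      · exfalso
        have h4 := hbar1 q hqI h3
        rw [hl1] at h3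
        rw [hl2] at h2
        rw [hf1] at h4
        -- `y = - tan α x`
        have hss := Real.sin_sq_add_cos_sq α
        have h5 : Real.sin β * (turn a Φ q).1 - Real.cos β * (turn a Φ q).2 =
            Real.sin (α + β) *
              (Real.cos α * (turn a Φ q).1 - Real.sin α * (turn a Φ q).2) -
            Real.cos (α + β) *
              (Real.sin α * (turn a Φ q).1 + Real.cos α * (turn a Φ q).2) := by
          rw [hsin, Real.cos_add]
          linear_combination (-Real.sin β * (turn a Φ q).1 + Real.cos β * (turn a Φ q).2) * hss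
        rw [h5, h3] at h2
        nlinarith
    · rcases h2.lt_or_eq with h3 | h3
      · exact h3
      · exfalso
        have h4 := hbar2 q hqI h3.symm
        rw [hl2] at h3
        rw [hl1] at h1
        rw [hf2] at h4
        have hss := Real.sin_sq_add_cos_sq β
        have h5 : Real.sin α * (turn a Φ q).1 + Real.cos α * (turn a Φ q).2 =
            -Real.sin (α + β) *
              (-(Real.cos β * (turn a Φ q).1) - Real.sin β * (turn a Φ q).2) -
            Real.cos (α + β) *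
              (Real.sin β * (turn a Φ q).1 - Real.cos β * (turn a Φ q).2) := by
          rw [hsin, Real.cos_add]
          linear_combination (-Real.sin α * (turn a Φ q).1 - Real.cos α * (turn a Φ q).2) * hss
        rw [h5, ← h3] at h1
        nlinarith
  have hpre : IsPreconnected (I ×ˢ (univ : Set ℝ)) :=
    hZ.conn.isPreconnected.prod isPreconnected_univ
  -- a point of the orbit in the first open set
  have hex : ∃ s, 0 < (turn a Φ (σ s)).2 := by
    by_contra hcon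
    push Not at hcon
    obtain ⟨hT, hder, hperσ, -⟩ := hσ
    have hd2 : ∀ s, HasDerivAt (fun s => (σ s).2) (turn a Φ (σ s)).2 s := fun s =>
      (hasFDerivAt_snd (𝕜 := ℝ) (p := σ s)).comp_hasDerivAt s (hder s)
    have hanti : Antitone (fun s => (σ s).2) := by
      refine antitone_of_deriv_nonpos (fun s => (hd2 s).differentiableAt) fun s => ?_
      rw [(hd2 s).deriv]
      exact hcon s
    have h1 : (σ (0 + T)).2 ≤ (σ 0).2 := hanti (by linarith)
    rw [hperσ 0] at h1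
    have hk' : (0 : ℝ) < (k : ℝ) := by exact_mod_cast hk
    have h2 : (σ 0 + ((0 : ℝ), 2 * Real.pi * (k : ℝ))).2 = (σ 0).2 + 2 * Real.pi * (k : ℝ) := rfl
    rw [h2] at h1
    nlinarith [mul_pos Real.pi_pos hk']
  obtain ⟨s0, hs0⟩ := hex
  have hsU : ((I ×ˢ (univ : Set ℝ)) ∩ ({q : ℝ × ℝ | 0 < lev Φ (a + α) q} ∪
      {q : ℝ × ℝ | lev Φ (a + (Real.pi - β)) q < 0})).Nonempty := by
    refine ⟨σ s0, ⟨hI s0, mem_univ _⟩, ?_⟩
    rcases le_or_gt 0 (turn a Φ (σ s0)).1 with h1 | h1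
    · left
      show 0 < lev Φ (a + α) (σ s0)
      rw [hl1]
      have h2 := mul_nonneg hsa.le h1
      have h3 := mul_pos hca hs0
      linarith
    · right
      show lev Φ (a + (Real.pi - β)) (σ s0) < 0
      rw [hl2]
      have h2 := mul_pos hcb hs0
      have h3 := mul_pos_of_neg_of_neg (neg_neg_of_pos hsb) h1
      nlinarith
  by_contra hcon
  push Not at hcon
  -- the point `p` is in the second open set
  have hr : 0 < nm (Φ p) := nm_pos (hZ.ne p hp)
  have hr2 : (turn a Φ p).1 ^ 2 + (turn a Φ p).2 ^ 2 = nm (Φ p) ^ 2 := by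
    rw [← nm_turn a Φ p, nm_sq]
  have hs3 : 0 < Real.sin (3 * t) := Real.sin_pos_of_pos_of_lt_pi (by linarith) (by linarith)
  have hc3 : 0 < Real.cos (3 * t) := Real.cos_pos_of_mem_Ioo ⟨by linarith, by linarith⟩
  have hss3 := Real.sin_sq_add_cos_sq (3 * t)
  have hy2 : (Real.sin (3 * t) * nm (Φ p)) ^ 2 ≤ (turn a Φ p).2 ^ 2 := by
    have h1 : 0 ≤ Real.sin (3 * t) * nm (Φ p) := by positivity
    nlinarith
  have hx2 : (turn a Φ p).1 ^ 2 ≤ (Real.cos (3 * t) * nm (Φ p)) ^ 2 := by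
    have h1 : (Real.cos (3 * t) * nm (Φ p)) ^ 2 =
        nm (Φ p) ^ 2 - (Real.sin (3 * t) * nm (Φ p)) ^ 2 := by
      linear_combination (nm (Φ p) ^ 2) * hss3
    rw [h1]
    linarith
  have hxa := abs_le_of_sq_le_sq' hx2 (by positivity)
  have hpV : ((I ×ˢ (univ : Set ℝ)) ∩ ({q : ℝ × ℝ | lev Φ (a + α) q < 0} ∩
      {q : ℝ × ℝ | 0 < lev Φ (a + (Real.pi - β)) q})).Nonempty := by
    refine ⟨p, ⟨hp, mem_univ _⟩, ?_⟩
    have hmem := hcov (show p ∈ I ×ˢ (univ : Set ℝ) from ⟨hp, mem_univ _⟩)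
    rcases hmem with hU | hV
    · exfalso
      rcases hU with hU | hU
      · have h1 : 0 < lev Φ (a + α) p := hU
        rw [hl1] at h1
        have h2 : Real.sin α * (turn a Φ p).1 ≤ Real.sin α * (Real.cos (3 * t) * nm (Φ p)) :=
          mul_le_mul_of_nonneg_left hxa.2 hsa.le
        have h3 : Real.cos α * (turn a Φ p).2 ≤ Real.cos α * -(Real.sin (3 * t) * nm (Φ p)) :=
          mul_le_mul_of_nonneg_left hcon hca.le
        have h4 : 0 ≤ Real.sin (3 * t - α) :=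
          Real.sin_nonneg_of_nonneg_of_le_pi (by linarith) (by linarith)
        rw [Real.sin_sub] at h4
        nlinarith [mul_nonneg h4 hr.le]
      · have h1 : lev Φ (a + (Real.pi - β)) p < 0 := hU
        rw [hl2] at h1
        have h2 : Real.sin β * -(Real.cos (3 * t) * nm (Φ p)) ≤ Real.sin β * (turn a Φ p).1 :=
          mul_le_mul_of_nonneg_left hxa.1 hsb.le
        have h3 : Real.cos β * (turn a Φ p).2 ≤ Real.cos β * -(Real.sin (3 * t) * nm (Φ p)) :=
          mul_le_mul_of_nonneg_left hcon hcb.le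
        have h4 : 0 ≤ Real.sin (3 * t - β) :=
          Real.sin_nonneg_of_nonneg_of_le_pi (by linarith) (by linarith)
        rw [Real.sin_sub] at h4
        nlinarith [mul_nonneg h4 hr.le]
    · exact hV
  obtain ⟨q, -, hqU, hqV⟩ := hpre _ _ hUo hVo hcov hsU hpV
  rcases hqU with h1 | h1
  · exact lt_asymm (show 0 < lev Φ (a + α) q from h1) hqV.1
  · exact lt_asymm (show lev Φ (a + (Real.pi - β)) q < 0 from h1) hqV.2

end Pool.Agent.Lib.MP_95e7ec_an
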