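import Mathlib
import Pool.Agent.Lib.MP_95e7ec_an.Rq.Defs
import Pool.Agent.Lib.MP_95e7ec_an.Rq.Arc

/-!
# Rq, BadSet: the measure of the bad angles of a zone
-/

set_option autoImplicit false

open Set Filter Topology MeasureTheory
open scoped ContDiff ENNReal

namespace Pool.Agent.Lib.MP_95e7ec_an

private theorem BadSet_trig {t : ℝ} (ht : 0 < t) (ht1 : t ≤ 1 / 20) {δ x y r : ℝ}
    (hδ : 4 * t ≤ δ) (hδ' : δ ≤ Real.pi - 6 * t) (hr : 0 ≤ r) (hxy : x ^ 2 + y ^ 2 = r ^ 2)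
    (hx : 0 ≤ x) (hy : |y| ≤ Real.sin t * r) :
    Real.sin (3 * t) * r ≤ Real.sin δ * x - |Real.cos δ| * |y| := by
  have hpi := Real.pi_gt_three
  have hct : 0 ≤ Real.cos t := Real.cos_nonneg_of_mem_Icc ⟨by linarith, by linarith⟩
  have hst : 0 ≤ Real.sin t := Real.sin_nonneg_of_nonneg_of_le_pi ht.le (by linarith)
  have hsd : 0 ≤ Real.sin δ := Real.sin_nonneg_of_nonneg_of_le_pi (by linarith) (by linarith)
  have hx1 : Real.cos t * r ≤ x := by
    have h1 : y ^ 2 ≤ (Real.sin t * r) ^ 2 := by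
      rw [← sq_abs y]
      exact pow_le_pow_left₀ (abs_nonneg y) hy 2
    have h2 := Real.sin_sq_add_cos_sq t
    have h3 : (Real.cos t * r) ^ 2 ≤ x ^ 2 := by nlinarith
    exact (pow_le_pow_iff_left₀ (mul_nonneg hct hr) hx two_ne_zero).mp h3
  have h1 : Real.sin δ * (Real.cos t * r) ≤ Real.sin δ * x := mul_le_mul_of_nonneg_left hx1 hsd
  have h2 : |Real.cos δ| * |y| ≤ |Real.cos δ| * (Real.sin t * r) :=
    mul_le_mul_of_nonneg_left hy (abs_nonneg _)
  have h3 : Real.sin (3 * t) ≤ Real.sin δ * Real.cos t - |Real.cos δ| * Real.sin t := by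
    rcases le_total δ (Real.pi / 2) with hd | hd
    · have hc : 0 ≤ Real.cos δ := Real.cos_nonneg_of_mem_Icc ⟨by linarith, hd⟩
      rw [abs_of_nonneg hc, ← Real.sin_sub]
      exact Real.sin_le_sin_of_le_of_le_pi_div_two (by linarith) (by linarith) (by linarith)
    · have hc : Real.cos δ ≤ 0 := Real.cos_nonpos_of_pi_div_two_le_of_le hd (by linarith)
      rw [abs_of_nonpos hc]
      have h4 : Real.sin δ * Real.cos t - -Real.cos δ * Real.sin t =
          Real.sin (Real.pi - (δ + t)) := by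
        rw [Real.sin_pi_sub, Real.sin_add]
        ring
      rw [h4]
      exact Real.sin_le_sin_of_le_of_le_pi_div_two (by linarith) (by linarith) (by linarith)
  have h4 := mul_le_mul_of_nonneg_right h3 hr
  nlinarith

private theorem BadSet_measure {t : ℝ} (ht : 0 < t) {S : Set ℝ} (hS : S ⊆ Set.Ioo 0 Real.pi)
    (h : ∀ a ∈ S, ∀ a' ∈ S, a < a' → a' - a < 4 * t ∨ Real.pi - 6 * t < a' - a) :
    volume S ≤ ENNReal.ofReal (20 * t) := by
  rcases S.eq_empty_or_nonempty with rfl | ⟨a₀, ha₀⟩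
  · simp
  · have hsub : S ⊆ (Set.Ioo (a₀ - 4 * t) (a₀ + 4 * t) ∪ Set.Ioo 0 (6 * t)) ∪
        Set.Ioo (Real.pi - 6 * t) Real.pi := by
      intro a ha
      have h0 := hS ha
      have h1 := hS ha₀
      rcases lt_trichotomy a a₀ with hlt | heq | hgt
      · rcases h a ha a₀ ha₀ hlt with h2 | h2
        · exact Or.inl (Or.inl ⟨by linarith, by linarith⟩)
        · exact Or.inl (Or.inr ⟨h0.1, by linarith [h1.2]⟩)
      · exact Or.inl (Or.inl ⟨by linarith, by linarith⟩)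
      · rcases h a₀ ha₀ a ha hgt with h2 | h2
        · exact Or.inl (Or.inl ⟨by linarith, by linarith⟩)
        · exact Or.inr ⟨by linarith [h1.1], h0.2⟩
    calc volume S ≤ volume ((Set.Ioo (a₀ - 4 * t) (a₀ + 4 * t) ∪ Set.Ioo 0 (6 * t)) ∪
          Set.Ioo (Real.pi - 6 * t) Real.pi) := measure_mono hsub
      _ ≤ volume (Set.Ioo (a₀ - 4 * t) (a₀ + 4 * t)) + volume (Set.Ioo 0 (6 * t)) +
          volume (Set.Ioo (Real.pi - 6 * t) Real.pi) :=
          (measure_union_le _ _).trans (add_le_add (measure_union_le _ _) le_rfl)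
      _ = ENNReal.ofReal (20 * t) := by
          rw [Real.volume_Ioo, Real.volume_Ioo, Real.volume_Ioo,
            ← ENNReal.ofReal_add (by linarith) (by linarith),
            ← ENNReal.ofReal_add (by linarith) (by linarith)]
          congr 1
          ring

private theorem BadSet_shift (Φ : ℝ × ℝ → ℝ × ℝ) (p : ℝ × ℝ) (a b : ℝ) :
    (turn b Φ p).2 = Real.sin (b - a) * (turn a Φ p).1 + Real.cos (b - a) * (turn a Φ p).2 := by
  unfold turn
  simp only
  rw [Real.sin_sub, Real.cos_sub]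
  have h := Real.sin_sq_add_cos_sq a
  linear_combination (-(Real.sin b * (Φ p).1 + Real.cos b * (Φ p).2)) * h

private theorem BadSet_nm (Φ : ℝ × ℝ → ℝ × ℝ) (p : ℝ × ℝ) (a : ℝ) :
    0 ≤ nm (Φ p) ∧ (turn a Φ p).1 ^ 2 + (turn a Φ p).2 ^ 2 = nm (Φ p) ^ 2 := by
  refine ⟨Real.sqrt_nonneg _, ?_⟩
  unfold nm
  rw [Real.sq_sqrt (by positivity)]
  unfold turn
  simp only
  have h := Real.sin_sq_add_cos_sq a
  linear_combination ((Φ p).1 ^ 2 + (Φ p).2 ^ 2) * h

/-- Proof. Split the set into two parts: the witness `p` has `(turn a Φ p).1 ≥ 0` (lower part) or `≤ 0`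
(upper part). LOWER PART: let `a < a'` be two of its elements (`p`, `p'` the witnesses), use only the
witness `p'` of `a'` and `zone_arc` for `a'` and for `a` at the point `p'`. Write
`turn a' Φ p' = r (cos w, sin w)`, `r = nm (Φ p') > 0`; `zone_arc` for `a'` gives `-3t < w` and the
choice gives `w < t` (`|w| ≤ π/2` by the sign of the cosine). Then `turn a Φ p' = r (cos (w-δ), sin (w-δ))`,
`δ = a' - a ∈ (0,π)`, and `zone_arc` for `a` says `sin (w-δ) > -sin 3t`, so `w - δ > -3t` or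
`w - δ < -π + 3t`: so `δ < 4t` or `δ > π - 6t`. Hence for a fixed element `a₀` the lower part is
contained in `(a₀-4t, a₀+4t) ∪ (0,6t) ∪ (π-6t,π)`: measure at most `20t`. The upper part: the same with
`w ∈ (π-t, π+3t)`; or apply the lower part to the field reflected by `θ ↦ -θ`. -/
theorem bad_measure {Φ : ℝ × ℝ → ℝ × ℝ} (hΦ : ContDiff ℝ 2 Φ)
    (hper : ∀ p : ℝ × ℝ, Φ (p + (0, 2 * Real.pi)) = Φ p) {m t : ℝ} (ht : 0 < t)
    (ht1 : t ≤ 1 / 20) (hm : m ≤ Real.tan (2 * t)) {G I : Set ℝ}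
    (hG : ∀ x : ℝ, ∃ c ∈ G, x ≤ c ∧ c ≤ x + t) (hZ : Zone Φ m G I) :
    volume {a : ℝ | a ∈ Set.Ioo 0 Real.pi ∧ (∃ C : Set (ℝ × ℝ), PosOrb Φ I a C) ∧
      ∃ p : ℝ × ℝ, p.1 ∈ I ∧ |(turn a Φ p).2| < Real.sin t * nm (Φ p)} ≤
      ENNReal.ofReal (40 * t) := by
  set L : Set ℝ := {a : ℝ | a ∈ Set.Ioo 0 Real.pi ∧ (∃ C : Set (ℝ × ℝ), PosOrb Φ I a C) ∧
    ∃ p : ℝ × ℝ, p.1 ∈ I ∧ |(turn a Φ p).2| < Real.sin t * nm (Φ p) ∧ 0 ≤ (turn a Φ p).1} with hLdef
  set U : Set ℝ := {a : ℝ | a ∈ Set.Ioo 0 Real.pi ∧ (∃ C : Set (ℝ × ℝ), PosOrb Φ I a C) ∧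
    ∃ p : ℝ × ℝ, p.1 ∈ I ∧ |(turn a Φ p).2| < Real.sin t * nm (Φ p) ∧ (turn a Φ p).1 ≤ 0} with hUdef
  have hsub : {a : ℝ | a ∈ Set.Ioo 0 Real.pi ∧ (∃ C : Set (ℝ × ℝ), PosOrb Φ I a C) ∧
      ∃ p : ℝ × ℝ, p.1 ∈ I ∧ |(turn a Φ p).2| < Real.sin t * nm (Φ p)} ⊆ L ∪ U := by
    rintro a ⟨ha, hC, p, hp, hlt⟩
    rcases le_total 0 (turn a Φ p).1 with h | h
    · exact Or.inl ⟨ha, hC, p, hp, hlt, h⟩
    · exact Or.inr ⟨ha, hC, p, hp, hlt, h⟩
  have hL : volume L ≤ ENNReal.ofReal (20 * t) := by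
    refine BadSet_measure ht (fun a ha => ha.1) fun a ha a' ha' haa => ?_
    by_contra hcon
    push Not at hcon
    obtain ⟨-, -, p, hp, hlt, hx⟩ := ha'
    obtain ⟨-, ⟨C, hC⟩, -⟩ := ha
    have hz := zone_arc hΦ hper ht ht1 hm hG hZ hC hp
    obtain ⟨hr, hxy⟩ := BadSet_nm Φ p a'
    have h1 := BadSet_trig ht ht1 hcon.1 hcon.2 hr hxy hx hlt.le
    have h2 := BadSet_shift Φ p a' a
    have h3 : Real.sin (a - a') = -Real.sin (a' - a) := by
      rw [← Real.sin_neg]; congr 1; ring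
    have h4 : Real.cos (a - a') = Real.cos (a' - a) := by
      rw [← Real.cos_neg]; congr 1; ring
    rw [h3, h4] at h2
    have h5 : Real.cos (a' - a) * (turn a' Φ p).2 ≤ |Real.cos (a' - a)| * |(turn a' Φ p).2| := by
      rw [← abs_mul]
      exact le_abs_self _
    linarith
  have hU : volume U ≤ ENNReal.ofReal (20 * t) := by
    refine BadSet_measure ht (fun a ha => ha.1) fun a ha a' ha' haa => ?_
    by_contra hcon
    push Not at hcon
    obtain ⟨-, -, p, hp, hlt, hx⟩ := ha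
    obtain ⟨-, ⟨C, hC⟩, -⟩ := ha'
    have hz := zone_arc hΦ hper ht ht1 hm hG hZ hC hp
    obtain ⟨hr, hxy⟩ := BadSet_nm Φ p a
    have h1 := BadSet_trig (x := -(turn a Φ p).1) ht ht1 hcon.1 hcon.2 hr
      (by rw [neg_sq]; exact hxy) (by linarith) hlt.le
    have h2 := BadSet_shift Φ p a a'
    have h5 : Real.cos (a' - a) * (turn a Φ p).2 ≤ |Real.cos (a' - a)| * |(turn a Φ p).2| := by
      rw [← abs_mul]
      exact le_abs_self _
    linarith
  calc volume _ ≤ volume (L ∪ U) := measure_mono hsub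
    _ ≤ volume L + volume U := measure_union_le _ _
    _ ≤ ENNReal.ofReal (20 * t) + ENNReal.ofReal (20 * t) := add_le_add hL hU
    _ = ENNReal.ofReal (40 * t) := by
      rw [← ENNReal.ofReal_add (by linarith) (by linarith)]
      congr 1
      ring

end Pool.Agent.Lib.MP_95e7ec_an
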