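import Mathlib
import Pool.Agent.Lib.MP_95e7ec_an.Rq.Defs
import Pool.Agent.Lib.MP_95e7ec_an.Rq.ZoneData

/-!
# Rq, Comp: the zones
-/

set_option autoImplicit false

open Set Filter Topology MeasureTheory
open scoped ContDiff ENNReal

namespace Pool.Agent.Lib.MP_95e7ec_an

/-- the zone number `k`: the radii outside the exceptional intervals with exactly `k` centres below -/
def zoneI (U : Finset ℝ) (D : ℝ) (k : ℕ) : Set ℝ :=
  {s | (∀ u ∈ U, D < |s - u|) ∧ (U.filter (· < s)).card = k}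

/-- Proof. `OrdConnected`: let `s < s'` be in the zone, `x ∈ [s, s']`. The sets `{u < s} ⊆ {u < s'}` have the same
cardinality, so they are equal. If `u ∈ U`, `|x - u| ≤ D`: if `u < s` then `u + D < s ≤ x`; otherwise `u ≥ s`
and `u ≥ s'`, so `x ≤ s' < u - D`. Contradiction. And `{u < s} ⊆ {u < x} ⊆ {u < s'}`. -/
theorem zone_zoneI {n : ℕ} {Φ : ℝ × ℝ → ℝ × ℝ} {t m D : ℝ} {G : Set ℝ} {U : Finset ℝ}
    (h : ZData n Φ t m D G U) (k : ℕ) : Zone Φ m G (zoneI U D k) := by
  refine ⟨⟨?_⟩, fun p hp => h.ne p hp.1, fun c hc p hp h0 => h.slope c hc p hp.1 h0⟩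
  intro s hs s' hs' x hx
  obtain ⟨hs1, hs2⟩ := hs
  obtain ⟨hs1', hs2'⟩ := hs'
  have hss : s ≤ s' := hx.1.trans hx.2
  have hsub : U.filter (· < s) ⊆ U.filter (· < s') := by
    intro u hu
    rw [Finset.mem_filter] at hu ⊢
    exact ⟨hu.1, lt_of_lt_of_le hu.2 hss⟩
  have heq : U.filter (· < s) = U.filter (· < s') :=
    Finset.eq_of_subset_of_card_le hsub (by rw [hs2, hs2'])
  refine ⟨fun u hu => ?_, ?_⟩
  · by_cases hus : u < s
    · have h1 := hs1 u hu
      rw [abs_of_pos (by linarith)] at h1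
      rw [abs_of_pos (by linarith [hx.1])]
      linarith [hx.1]
    · have h2 : ¬ u < s' := by
        intro h3
        have h4 : u ∈ U.filter (· < s') := Finset.mem_filter.2 ⟨hu, h3⟩
        rw [← heq, Finset.mem_filter] at h4
        exact hus h4.2
      have h1 := hs1' u hu
      have h3 := not_lt.1 h2
      rw [abs_of_nonpos (by linarith)] at h1
      rw [abs_of_nonpos (by linarith [hx.2])]
      linarith [hx.2]
  · have h1 : U.filter (· < s) ⊆ U.filter (· < x) := by
      intro u hu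
      rw [Finset.mem_filter] at hu ⊢
      exact ⟨hu.1, lt_of_lt_of_le hu.2 hx.1⟩
    have h2 : U.filter (· < x) ⊆ U.filter (· < s') := by
      intro u hu
      rw [Finset.mem_filter] at hu ⊢
      exact ⟨hu.1, lt_of_lt_of_le hu.2 hx.2⟩
    have h3 := Finset.card_le_card h1
    have h4 := Finset.card_le_card h2
    rw [hs2] at h3
    rw [hs2'] at h4
    exact le_antisymm h4 h3

private theorem Comp_lev_neg (Φ : ℝ × ℝ → ℝ × ℝ) (c : ℝ) :
    lev (fun p => -Φ p) c = fun p => -lev Φ c p := by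
  funext p
  simp only [lev, turn, Prod.fst_neg, Prod.snd_neg]
  ring

/-- the same for the opposite field -/
theorem ZData.neg {n : ℕ} {Φ : ℝ × ℝ → ℝ × ℝ} {t m D : ℝ} {G : Set ℝ} {U : Finset ℝ}
    (h : ZData n Φ t m D G U) : ZData n (fun p => -Φ p) t m D G U := by
  refine ⟨h.m_le, h.dense, h.card, h.D_nonneg, h.D_le, fun p hp => neg_ne_zero.2 (h.ne p hp),
    fun c hc p hp h0 => ?_⟩
  rw [Comp_lev_neg] at h0 ⊢
  have h1 := h.slope c hc p hp (neg_eq_zero.1 h0)
  have e1 : d1 (fun p => -lev Φ c p) p = -d1 (lev Φ c) p := by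
    unfold d1
    rw [fderiv_fun_neg]
    rfl
  have e2 : d2 (fun p => -lev Φ c p) p = -d2 (lev Φ c) p := by
    unfold d2
    rw [fderiv_fun_neg]
    rfl
  rw [e1, e2, abs_neg, abs_neg]
  exact h1

private theorem Comp_lt {U : Finset ℝ} {D : ℝ} (hD : 0 ≤ D) {r : ℝ → ℝ} (hr : Continuous r)
    (h : ∀ x, ∀ u ∈ U, D < |r x - u|) {u : ℝ} (hu : u ∈ U) (x y : ℝ) (hx : u < r x) :
    u < r y := by
  by_contra hcon
  have h1 : u ∈ Icc (r y) (r x) := ⟨not_lt.1 hcon, hx.le⟩
  have h2 : IsPreconnected (range r) := isPreconnected_range hr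
  have h3 : u ∈ range r :=
    h2.ordConnected.out (mem_range_self y) (mem_range_self x) h1
  obtain ⟨z, hz⟩ := h3
  have h4 := h z u hu
  rw [hz, sub_self, abs_zero] at h4
  linarith

/-- A connected set of radii outside of the exceptional intervals is in one zone. Proof: the function
`s ↦ (U.filter (· < s)).card` is locally constant on the open set `{s | ∀ u ∈ U, D < |s - u|}`; or
directly: for `s < s'` in `range r` with `u ∈ U`, `s ≤ u < s'` the intermediate value theorem gives a point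
of the range equal to `u`, at distance `0 ≤ D`. -/
theorem exists_zoneI {U : Finset ℝ} {D : ℝ} (hD : 0 ≤ D) {r : ℝ → ℝ} (hr : Continuous r)
    (h : ∀ x, ∀ u ∈ U, D < |r x - u|) : ∃ k ≤ U.card, ∀ x, r x ∈ zoneI U D k := by
  refine ⟨(U.filter (· < r 0)).card, Finset.card_filter_le _ _, fun x => ⟨h x, ?_⟩⟩
  congr 1
  ext u
  rw [Finset.mem_filter, Finset.mem_filter]
  exact ⟨fun hu => ⟨hu.1, Comp_lt hD hr h hu.1 x 0 hu.2⟩,
    fun hu => ⟨hu.1, Comp_lt hD hr h hu.1 0 x hu.2⟩⟩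

end Pool.Agent.Lib.MP_95e7ec_an
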