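import Mathlib
import Pool.Agent.Lib.MP_95e7ec_an.Rq.Defs
import Pool.Agent.Lib.MP_95e7ec_an.Rq.Comp
import Pool.Agent.Lib.MP_95e7ec_an.KqLift
import Pool.Agent.Lib.MP_95e7ec_an.KqWind
import Pool.Agent.Lib.MP_95e7ec_an.Orbits

/-!
# Rq, Lift: a closed orbit outside of the exceptional annuli
-/

set_option autoImplicit false

open Set Filter Topology MeasureTheory
open scoped ContDiff ENNReal

namespace Pool.Agent.Lib.MP_95e7ec_an

/-- `cf v` is the field `v` on the cylinder -/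
theorem cylField_cf (v : ℝ × ℝ → ℝ × ℝ) : CylField v (cf v) fun s => Real.exp (-2 * s) := by
  refine ⟨by fun_prop, fun s => Real.exp_pos _, fun p => ?_⟩
  have hE : Real.exp (-2 * p.1) * Real.exp p.1 * Real.exp p.1 = 1 := by
    rw [← Real.exp_add, ← Real.exp_add]
    rw [show -2 * p.1 + p.1 + p.1 = 0 by ring, Real.exp_zero]
  have h4 := Real.sin_sq_add_cos_sq p.2
  unfold cf wf
  ext
  · simp only [Prod.smul_fst, smul_eq_mul]
    have e : (cyl p).1 = Real.exp p.1 * Real.cos p.2 := rfl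
    have e' : (cyl p).2 = Real.exp p.1 * Real.sin p.2 := rfl
    rw [e, e']
    linear_combination (-(v (cyl p)).1) * hE -
      (Real.exp (-2 * p.1) * Real.exp p.1 * Real.exp p.1 * (v (cyl p)).1) * h4
  · simp only [Prod.smul_snd, smul_eq_mul]
    have e : (cyl p).1 = Real.exp p.1 * Real.cos p.2 := rfl
    have e' : (cyl p).2 = Real.exp p.1 * Real.sin p.2 := rfl
    rw [e, e']
    linear_combination (-(v (cyl p)).2) * hE -
      (Real.exp (-2 * p.1) * Real.exp p.1 * Real.exp p.1 * (v (cyl p)).2) * h4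

theorem turn_cf (a : ℝ) (v : ℝ × ℝ → ℝ × ℝ) : turn a (cf v) = cf (turn a v) := by
  funext p
  unfold cf wf turn
  ext
  · simp only
    ring
  · simp only
    ring

/-- a closed solution with winding number `0` inside a zone is impossible; proof as `cyl_no_zero`
(KqWind.lean), with the convex set `{p | p.1 ∈ I}` -/
theorem zone_no_zero {F : ℝ × ℝ → ℝ × ℝ} (hF : ContDiff ℝ 1 F) {I : Set ℝ} (hI : I.OrdConnected)
    (hne : ∀ p : ℝ × ℝ, p.1 ∈ I → F p ≠ 0) {σ : ℝ → ℝ × ℝ} {T : ℝ} (h : CylSol F σ T 0)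
    (hs : ∀ t, (σ t).1 ∈ I) : False := by
  obtain ⟨hT, hd, hper, hnc⟩ := h
  have hC : IsClosedOrbit F (Set.range σ) := by
    refine ⟨σ, T, hT, hd, fun t => ?_, hnc, rfl⟩
    rw [hper t]
    simp
  obtain ⟨z, hz, hz0⟩ := exists_zero_in_hull hF hC
  have hconv : Convex ℝ {p : ℝ × ℝ | p.1 ∈ I} := by
    have h1 : Convex ℝ I := hI.convex
    exact h1.is_linear_preimage (IsLinearMap.mk (f := (Prod.fst : ℝ × ℝ → ℝ))
      (fun _ _ => rfl) (fun _ _ => rfl))
  have hsub : Set.range σ ⊆ {p : ℝ × ℝ | p.1 ∈ I} := by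
    rintro _ ⟨t, rfl⟩
    exact hs t
  exact hne z (convexHull_min hsub hconv hz) hz0

private theorem lift_nm_cyl (p : ℝ × ℝ) : nm (cyl p) = Real.exp p.1 := by
  unfold nm cyl
  simp only
  rw [show (Real.exp p.1 * Real.cos p.2) ^ 2 + (Real.exp p.1 * Real.sin p.2) ^ 2 =
    Real.exp p.1 ^ 2 * (Real.sin p.2 ^ 2 + Real.cos p.2 ^ 2) by ring, Real.sin_sq_add_cos_sq,
    mul_one, Real.sqrt_sq (Real.exp_pos _).le]

private theorem lift_turn_neg (a : ℝ) (F : ℝ × ℝ → ℝ × ℝ) :
    turn a (fun p => -F p) = fun p => -turn a F p := by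
  funext p
  unfold turn
  ext
  · simp only [Prod.fst_neg, Prod.snd_neg]
    ring
  · simp only [Prod.fst_neg, Prod.snd_neg]
    ring

private theorem lift_contDiff_turn {v : ℝ × ℝ → ℝ × ℝ} (hv : ContDiff ℝ 1 v) (a : ℝ) :
    ContDiff ℝ 1 (turn a v) := by
  have h1 : ContDiff ℝ 1 fun z => (v z).1 := contDiff_fst.comp hv
  have h2 : ContDiff ℝ 1 fun z => (v z).2 := contDiff_snd.comp hv
  unfold turn
  exact ((contDiff_const.mul h1).sub (contDiff_const.mul h2)).prodMk
    ((contDiff_const.mul h1).add (contDiff_const.mul h2))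

private theorem lift_turn_zero {a : ℝ} {v : ℝ × ℝ → ℝ × ℝ} {z : ℝ × ℝ} (h : turn a v z = 0) :
    v z = 0 := by
  unfold turn at h
  have e1 := congrArg Prod.fst h
  have e2 := congrArg Prod.snd h
  simp only [Prod.fst_zero, Prod.snd_zero] at e1 e2
  have h4 := Real.sin_sq_add_cos_sq a
  ext
  · simp only [Prod.fst_zero]
    linear_combination Real.cos a * e1 + Real.sin a * e2 - (v z).1 * h4
  · simp only [Prod.snd_zero]
    linear_combination Real.cos a * e2 - Real.sin a * e1 - (v z).2 * h4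

/-- Proof. `0 ∉ C` as `v 0 = 0`. Lift `C` by `cyl_lift` (for `turn a v`, with `CylField.turn`). `r t = (σ t).1` is
`log (nm (cyl (σ t)))`, so `exists_zoneI` applies. `k ≠ 0` by `zone_no_zero` (`turn a Φ` has the same
zeros as `Φ`). If `k > 0` take the left alternative; if `k < 0` reverse the time:
`σ' t = σ (-t)` solves the equation of `-(turn a Φ) = turn a (-Φ)` and has winding number `-k`. -/
theorem orbit_in_zone {n : ℕ} {v : ℝ × ℝ → ℝ × ℝ} (hv : ContDiff ℝ 1 v) (h0 : v 0 = 0)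
    (hcf : ContDiff ℝ 1 (cf v)) {t m D : ℝ} {G : Set ℝ} {U : Finset ℝ}
    (h : ZData n (cf v) t m D G U) {a : ℝ} {C : Set (ℝ × ℝ)} (hC : IsClosedOrbit (turn a v) C)
    (hout : ∀ z ∈ C, ∀ u ∈ U, D < |Real.log (nm z) - u|) :
    ∃ k ≤ U.card, PosOrb (cf v) (zoneI U D k) a C ∨
      PosOrb (fun p => -cf v p) (zoneI U D k) a C := by
  have hvt : ContDiff ℝ 1 (turn a v) := lift_contDiff_turn hv a
  have hFt : ContDiff ℝ 1 (turn a (cf v)) := lift_contDiff_turn hcf a
  have h0C : (0 : ℝ × ℝ) ∉ C := by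
    intro hcon
    refine hC.ne_zero_of_contDiff hvt hcon ?_
    unfold turn
    rw [h0]
    simp
  obtain ⟨σ, T, k, hσ, rfl⟩ := cyl_lift ((cylField_cf v).turn a) hvt.continuous hFt.continuous
    hC h0C
  have hσc : Continuous σ := continuous_iff_continuousAt.2 fun x => (hσ.2.1 x).continuousAt
  obtain ⟨j, hj, hjz⟩ := exists_zoneI (U := U) (D := D) h.D_nonneg (r := fun x => (σ x).1)
    (continuous_fst.comp hσc) (by
      intro x u hu
      have h1 := hout _ ⟨x, rfl⟩ u hu
      simp only [lift_nm_cyl, Real.log_exp] at h1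
      exact h1)
  have hzone := zone_zoneI h j
  refine ⟨j, hj, ?_⟩
  rcases lt_trichotomy k 0 with hk | hk | hk
  · right
    refine ⟨fun x => σ (-x), T, -k, by omega, ⟨hσ.1, fun x => ?_, fun x => ?_, ?_⟩,
      fun x => hjz (-x), ?_⟩
    · have e1 := hσ.2.1 (-x)
      have e2 := HasDerivAt.scomp x e1 (hasDerivAt_neg x)
      rw [lift_turn_neg]
      refine e2.congr_deriv ?_
      simp
    · have e1 := hσ.2.2.1 (-(x + T))
      rw [show -(x + T) + T = -x by ring] at e1
      simp only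
      rw [e1]
      ext
      · simp
      · simp
    · obtain ⟨x, y, hxy⟩ := hσ.2.2.2
      exact ⟨-x, -y, by simpa using hxy⟩
    · ext z
      constructor
      · rintro ⟨x, rfl⟩
        exact ⟨-x, by simp⟩
      · rintro ⟨x, rfl⟩
        exact ⟨-x, rfl⟩
  · exfalso
    subst hk
    exact zone_no_zero hFt hzone.conn (fun p hp hcon => hzone.ne p hp (lift_turn_zero hcon)) hσ hjz
  · left
    exact ⟨σ, T, k, hk, hσ, hjz, rfl⟩

end Pool.Agent.Lib.MP_95e7ec_an
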