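import Mathlib
import Pool.Agent.Lib.MP_95e7ec_an.Rq.Defs
import Pool.Agent.Lib.MP_95e7ec_an.Rq.Lift
import Pool.Agent.Lib.MP_95e7ec_an.Rq.BadSet

/-!
# Rq, Dicho: for most angles a closed orbit is star-shaped or meets an exceptional annulus
-/

set_option autoImplicit false

open Set Filter Topology MeasureTheory
open scoped ContDiff ENNReal

namespace Pool.Agent.Lib.MP_95e7ec_an

theorem nm_turn' (a : ℝ) (v : ℝ × ℝ → ℝ × ℝ) (z : ℝ × ℝ) : nm (turn a v z) = nm (v z) := by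
  unfold nm turn
  congr 1
  simp only
  linear_combination ((v z).1 ^ 2 + (v z).2 ^ 2) * Real.sin_sq_add_cos_sq a

theorem nm_wf (v : ℝ × ℝ → ℝ × ℝ) (z : ℝ × ℝ) : nm (wf v z) = nm z * nm (v z) := by
  unfold nm wf
  rw [← Real.sqrt_mul (by positivity)]
  congr 1
  simp only
  ring

/-- the set of the angles near to `c` modulo `π` -/
private theorem dicho_sin (c t : ℝ) (ht : 0 < t) (ht1 : t ≤ 1 / 20) :
    ∃ B : Set ℝ, volume B ≤ ENNReal.ofReal (20 * t) ∧ ∀ a ∈ Set.Ioo 0 Real.pi, a ∉ B →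
      Real.sin t ≤ |Real.sin (a - c)| := by
  have hpi := Real.pi_pos
  have hpi3 := Real.pi_gt_three
  set k : ℤ := ⌊c / Real.pi⌋ with hk
  set c₁ : ℝ := c - k * Real.pi with hc₁
  have h1 : 0 ≤ c₁ := by
    have := Int.floor_le (c / Real.pi)
    rw [← hk, le_div_iff₀ hpi] at this
    rw [hc₁]
    linarith
  have h2 : c₁ < Real.pi := by
    have := Int.lt_floor_add_one (c / Real.pi)
    rw [← hk, div_lt_iff₀ hpi] at this
    rw [hc₁]
    linarith
  refine ⟨Set.Ioo (c₁ - t) (c₁ + t) ∪ Set.Ioo (Real.pi - t) Real.pi ∪ Set.Ioo 0 t, ?_, ?_⟩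
  · refine (measure_union_le _ _).trans ?_
    refine (add_le_add (measure_union_le _ _) le_rfl).trans ?_
    rw [Real.volume_Ioo, Real.volume_Ioo, Real.volume_Ioo, ← ENNReal.ofReal_add (by linarith)
      (by linarith), ← ENNReal.ofReal_add (by linarith) (by linarith)]
    exact ENNReal.ofReal_le_ofReal (by linarith)
  · intro a ha haB
    have hB1 : a ∉ Set.Ioo (c₁ - t) (c₁ + t) := fun h => haB (Or.inl (Or.inl h))
    have hB2 : a ∉ Set.Ioo (Real.pi - t) Real.pi := fun h => haB (Or.inl (Or.inr h))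
    have hB3 : a ∉ Set.Ioo 0 t := fun h => haB (Or.inr h)
    have ha2 : a ≤ Real.pi - t := by
      by_contra hcon
      exact hB2 ⟨not_le.1 hcon, ha.2⟩
    have ha3 : t ≤ a := by
      by_contra hcon
      exact hB3 ⟨ha.1, not_le.1 hcon⟩
    set y : ℝ := a - c₁ with hy
    have hsin : |Real.sin (a - c)| = |Real.sin y| := by
      have e : y = (a - c) + k * Real.pi := by rw [hy, hc₁]; ring
      rw [e, Real.sin_add_int_mul_pi, abs_mul, abs_zpow, abs_neg, abs_one, one_zpow, one_mul]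
    have hty : t ≤ |y| := by
      by_contra hcon
      have h3 := abs_lt.1 (not_le.1 hcon)
      exact hB1 ⟨by linarith [h3.1], by linarith [h3.2]⟩
    have hyt : |y| ≤ Real.pi - t := by
      rw [abs_le]
      constructor
      · rw [hy]; linarith
      · rw [hy]; linarith
    rw [hsin, Real.abs_sin_eq_sin_abs_of_abs_le_pi (by linarith)]
    rcases le_total |y| (Real.pi / 2) with h | h
    · exact Real.sin_le_sin_of_le_of_le_pi_div_two (by linarith) h hty
    · rw [← Real.sin_pi_sub |y|]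
      exact Real.sin_le_sin_of_le_of_le_pi_div_two (by linarith) (by linarith) (by linarith)

private theorem dicho_det2 (a : ℝ) (v : ℝ × ℝ → ℝ × ℝ) (z : ℝ × ℝ) :
    det2 z (turn a v z) = (turn a (wf v) z).2 := by
  unfold det2 turn wf
  simp only
  ring

/-- the trivial case. Proof: `(turn c₀ (wf v) z).2 = 0` gives
`wf v z = r (cos c₀, -sin c₀)`, so `det2 z (turn a v z) = (wf (turn a v) z).2 = (turn a (wf v) z).2 =
r sin (a - c₀)`, and `|r| = nm z * nm (v z)`. The set of the `a ∈ (0,π)` with `|sin (a - c₀)| < sin t` is contained in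
the union of at most two intervals of length `2t` (it is `{a | |a - c₀ - kπ| < t, k ∈ ℤ}`; only two
consecutive `k` matter up to the length `2t` each). -/
theorem dicho_trivial {v : ℝ × ℝ → ℝ × ℝ} {c₀ : ℝ}
    (h : ∀ z, (turn c₀ (wf v) z).2 = 0) {t : ℝ} (ht : 0 < t) (ht1 : t ≤ 1 / 20) :
    ∃ B : Set ℝ, volume B ≤ ENNReal.ofReal (20 * t) ∧ ∀ a ∈ Set.Ioo 0 Real.pi, a ∉ B →
      ∀ z, Real.sin t * nm z * nm (turn a v z) ≤ |det2 z (turn a v z)| := by
  obtain ⟨B, hB, hB2⟩ := dicho_sin c₀ t ht ht1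
  refine ⟨B, hB, fun a ha haB z => ?_⟩
  have h1 := hB2 a ha haB
  have h2 : Real.sin c₀ * (wf v z).1 + Real.cos c₀ * (wf v z).2 = 0 := h z
  set r : ℝ := Real.cos c₀ * (wf v z).1 - Real.sin c₀ * (wf v z).2 with hr
  have h4 := Real.sin_sq_add_cos_sq c₀
  have e1 : (wf v z).1 = r * Real.cos c₀ := by
    rw [hr]
    linear_combination (Real.sin c₀) * h2 - (wf v z).1 * h4
  have e2 : (wf v z).2 = -(r * Real.sin c₀) := by
    rw [hr]
    linear_combination (Real.cos c₀) * h2 - (wf v z).2 * h4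
  have h5 : det2 z (turn a v z) = r * Real.sin (a - c₀) := by
    rw [dicho_det2]
    have e3 : (turn a (wf v) z).2 = Real.sin a * (wf v z).1 + Real.cos a * (wf v z).2 := rfl
    rw [e3, e1, e2, Real.sin_sub]
    ring
  have h6 : nm z * nm (v z) = |r| := by
    rw [← nm_wf]
    unfold nm
    rw [e1, e2, show (r * Real.cos c₀) ^ 2 + (-(r * Real.sin c₀)) ^ 2 = r ^ 2 by
      linear_combination r ^ 2 * h4, Real.sqrt_sq_eq_abs]
  rw [h5, abs_mul, nm_turn', mul_assoc, h6, mul_comm]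
  exact mul_le_mul_of_nonneg_left h1 (abs_nonneg _)

/-- the bad set of a zone -/
private def badS (Φ : ℝ × ℝ → ℝ × ℝ) (t : ℝ) (I : Set ℝ) : Set ℝ :=
  {a : ℝ | a ∈ Set.Ioo 0 Real.pi ∧ (∃ C : Set (ℝ × ℝ), PosOrb Φ I a C) ∧
      ∃ p : ℝ × ℝ, p.1 ∈ I ∧ |(turn a Φ p).2| < Real.sin t * nm (Φ p)}

/-- **The dichotomy.** Proof. `zone_data`. In the trivial case `dicho_trivial` (`U = ∅`). Otherwise let `B` be the union
over `k ≤ U.card` of the two bad sets of `bad_measure` for `Φ = cf (vf P Q)` and for `-Φ` (`ZData.neg`,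
`zone_zoneI`): measure at most `(70n²+1) · 2 · 40 t ≤ 6000 n² t`. If `a ∉ B` and `C` has no point with
`|log (nm z) - u| ≤ D`, apply `orbit_in_zone`; for `z ∈ C`, `z = cyl (σ s)`, and if
`|det2 z (turn a v z)| < sin t nm z nm (turn a v z)`, i.e.
`|(turn a Φ p).2| < sin t nm (Φ p)` at `p = σ s` (`nm_turn'`, `nm_wf`; the same for `-Φ`), then
`a ∈ B`. -/
theorem dichotomy {n : ℕ} (hn : 1 ≤ n) {P Q : MvPolynomial (Fin 2) ℝ} (hP : P.totalDegree ≤ n)
    (hQ : Q.totalDegree ≤ n) (hPQ : IsRelPrime P Q) (h0 : vf P Q 0 = 0) {t : ℝ} (ht : 0 < t)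
    (ht1 : t ≤ 1 / 20) :
    ∃ (B : Set ℝ) (U : Finset ℝ) (D : ℝ), volume B ≤ ENNReal.ofReal (6000 * n ^ 2 * t) ∧
      U.card ≤ 70 * n ^ 2 ∧ 0 ≤ D ∧ D ≤ 200 * n ^ 2 / t ∧
      ∀ a ∈ Set.Ioo 0 Real.pi, a ∉ B → ∀ C, IsClosedOrbit (turn a (vf P Q)) C →
        (∀ z ∈ C, Real.sin t * nm z * nm (turn a (vf P Q) z) ≤ |det2 z (turn a (vf P Q) z)|) ∨
          ∃ u ∈ U, ∃ z ∈ C, |Real.log (nm z) - u| ≤ D := by
  have hn1 : (1 : ℝ) ≤ n := by exact_mod_cast hn
  have hn2 : (1 : ℝ) ≤ (n : ℝ) ^ 2 := by nlinarith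
  rcases zone_data hn hP hQ hPQ ht ht1 with ⟨c₀, h⟩ | ⟨m, D, G, U, hZ⟩
  · obtain ⟨B, hB, hB2⟩ := dicho_trivial h ht ht1
    refine ⟨B, ∅, 0, hB.trans (ENNReal.ofReal_le_ofReal ?_), by simp, le_rfl, by positivity,
      fun a ha haB C _ => Or.inl fun z _ => hB2 a ha haB z⟩
    nlinarith
  · set Φ : ℝ × ℝ → ℝ × ℝ := cf (vf P Q) with hΦ
    have hc2 : ContDiff ℝ 2 Φ := contDiff_cf P Q
    have hc2' : ContDiff ℝ 2 (fun p => -Φ p) := hc2.neg
    have hper : ∀ p : ℝ × ℝ, Φ (p + (0, 2 * Real.pi)) = Φ p := fun p => cf_period _ p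
    have hper' : ∀ p : ℝ × ℝ, (fun p => -Φ p) (p + (0, 2 * Real.pi)) = (fun p => -Φ p) p :=
      fun p => by simp only [hper p]
    have hb1 : ∀ k, volume (badS Φ t (zoneI U D k)) ≤ ENNReal.ofReal (40 * t) := fun k =>
      bad_measure hc2 hper ht ht1 hZ.m_le hZ.dense (zone_zoneI hZ k)
    have hb2 : ∀ k, volume (badS (fun p => -Φ p) t (zoneI U D k)) ≤ ENNReal.ofReal (40 * t) :=
      fun k => bad_measure hc2' hper' ht ht1 hZ.m_le hZ.dense (zone_zoneI hZ.neg k)
    refine ⟨⋃ k ∈ Finset.range (U.card + 1), (badS Φ t (zoneI U D k) ∪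
      badS (fun p => -Φ p) t (zoneI U D k)), U, D, ?_, hZ.card, hZ.D_nonneg, hZ.D_le, ?_⟩
    · refine (measure_biUnion_finset_le _ _).trans ?_
      have h1 : ∀ k ∈ Finset.range (U.card + 1), volume (badS Φ t (zoneI U D k) ∪
          badS (fun p => -Φ p) t (zoneI U D k)) ≤ ENNReal.ofReal (80 * t) := by
        intro k _
        refine (measure_union_le _ _).trans ((add_le_add (hb1 k) (hb2 k)).trans ?_)
        rw [← ENNReal.ofReal_add (by positivity) (by positivity)]
        exact ENNReal.ofReal_le_ofReal (by linarith)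
      refine (Finset.sum_le_sum h1).trans ?_
      rw [Finset.sum_const, Finset.card_range, nsmul_eq_mul, ← ENNReal.ofReal_natCast,
        ← ENNReal.ofReal_mul (by positivity)]
      refine ENNReal.ofReal_le_ofReal ?_
      have h2 : (U.card : ℝ) ≤ 70 * (n : ℝ) ^ 2 := by exact_mod_cast hZ.card
      push_cast
      have h3 : ((U.card : ℝ) + 1) * 80 ≤ 6000 * (n : ℝ) ^ 2 := by linarith
      calc ((U.card : ℝ) + 1) * (80 * t) = (((U.card : ℝ) + 1) * 80) * t := by ring
        _ ≤ 6000 * (n : ℝ) ^ 2 * t := mul_le_mul_of_nonneg_right h3 ht.le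
    · intro a ha haB C hC
      by_cases hout : ∀ z ∈ C, ∀ u ∈ U, D < |Real.log (nm z) - u|
      · left
        obtain ⟨k, hk, hpos⟩ := orbit_in_zone ((contDiff_vf P Q)) h0 (contDiff_cf P Q) hZ hC hout
        have hkr : k ∈ Finset.range (U.card + 1) := Finset.mem_range.2 (by omega)
        have hB1 : a ∉ badS Φ t (zoneI U D k) := fun hcon =>
          haB (Set.mem_biUnion hkr (Or.inl hcon))
        have hB2 : a ∉ badS (fun p => -Φ p) t (zoneI U D k) := fun hcon =>
          haB (Set.mem_biUnion hkr (Or.inr hcon))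
        have key : ∀ p : ℝ × ℝ, (turn a Φ p).2 = det2 (cyl p) (turn a (vf P Q) (cyl p)) := by
          intro p
          rw [dicho_det2]
          rfl
        have key2 : ∀ p : ℝ × ℝ, nm (Φ p) = nm (cyl p) * nm (turn a (vf P Q) (cyl p)) := by
          intro p
          rw [nm_turn', ← nm_wf]
          rfl
        rcases hpos with hpos | hpos
        · obtain ⟨σ, T, j, hj, hσ, hσI, hCσ⟩ := id hpos
          intro z hz
          rw [hCσ] at hz
          obtain ⟨s, rfl⟩ := hz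
          by_contra hcon
          refine hB1 ⟨ha, ⟨C, hpos⟩, σ s, hσI s, ?_⟩
          rw [key, key2, ← mul_assoc]
          exact not_le.1 hcon
        · obtain ⟨σ, T, j, hj, hσ, hσI, hCσ⟩ := id hpos
          intro z hz
          rw [hCσ] at hz
          obtain ⟨s, rfl⟩ := hz
          by_contra hcon
          refine hB2 ⟨ha, ⟨C, hpos⟩, σ s, hσI s, ?_⟩
          have e1 : (turn a (fun p => -Φ p) (σ s)).2 = -(turn a Φ (σ s)).2 := by
            unfold turn
            simp only [Prod.fst_neg, Prod.snd_neg]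
            ring
          have e2 : nm ((fun p => -Φ p) (σ s)) = nm (Φ (σ s)) := by
            unfold nm
            simp only [Prod.fst_neg, Prod.snd_neg, neg_sq]
          rw [e1, e2, abs_neg, key, key2, ← mul_assoc]
          exact not_le.1 hcon
      · right
        push Not at hout
        obtain ⟨z, hz, u, hu, h⟩ := hout
        exact ⟨u, hu, z, hz, h⟩

end Pool.Agent.Lib.MP_95e7ec_an
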