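import Mathlib
import Pool.Agent.Lib.MP_95e7ec_an.Rq.Defs
import Pool.Agent.Lib.MP_95e7ec_an.Rq.Dicho
import Pool.Agent.Lib.MP_95e7ec_an.Rb.Defs
import Pool.Agent.Lib.MP_95e7ec_an.Affine

/-!
# Rq, Shift: the dichotomy about any zero of the field
-/

set_option autoImplicit false

open Set Filter Topology MeasureTheory
open scoped ContDiff ENNReal

namespace Pool.Agent.Lib.MP_95e7ec_an

/-- the translated polynomial -/
noncomputable def shiftP (q : ℝ × ℝ) (F : MvPolynomial (Fin 2) ℝ) : MvPolynomial (Fin 2) ℝ :=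
  MvPolynomial.bind₁ ![MvPolynomial.X 0 + MvPolynomial.C q.1, MvPolynomial.X 1 + MvPolynomial.C q.2] F

private theorem shift_eval (q z : ℝ × ℝ) (F : MvPolynomial (Fin 2) ℝ) :
    MvPolynomial.eval ![z.1, z.2] (shiftP q F) = MvPolynomial.eval ![(z + q).1, (z + q).2] F := by
  unfold shiftP
  rw [← MvPolynomial.coe_aeval_eq_eval, ← MvPolynomial.coe_aeval_eq_eval]
  simp only [RingHom.coe_coe]
  rw [MvPolynomial.aeval_bind₁]
  congr 2
  funext i
  fin_cases i <;> simp

theorem vf_shiftP (q : ℝ × ℝ) (P Q : MvPolynomial (Fin 2) ℝ) (z : ℝ × ℝ) :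
    vf (shiftP q P) (shiftP q Q) z = vf P Q (z + q) := by
  unfold vf
  rw [shift_eval, shift_eval]

theorem totalDegree_shiftP (q : ℝ × ℝ) (F : MvPolynomial (Fin 2) ℝ) :
    (shiftP q F).totalDegree ≤ F.totalDegree := by
  unfold shiftP
  rw [MvPolynomial.bind₁, MvPolynomial.aeval_def, MvPolynomial.eval₂_eq]
  refine (MvPolynomial.totalDegree_finsetSum _ _).trans (Finset.sup_le fun d hd => ?_)
  refine (MvPolynomial.totalDegree_mul _ _).trans ?_
  have h1 : ((algebraMap ℝ (MvPolynomial (Fin 2) ℝ)) (MvPolynomial.coeff d F)).totalDegree = 0 := by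
    rw [MvPolynomial.algebraMap_eq]
    exact MvPolynomial.totalDegree_C _
  rw [h1, zero_add]
  refine (MvPolynomial.totalDegree_finsetProd _ _).trans ?_
  have h2 : ∑ i ∈ d.support, ((![MvPolynomial.X 0 + MvPolynomial.C q.1,
      MvPolynomial.X 1 + MvPolynomial.C q.2] : Fin 2 → MvPolynomial (Fin 2) ℝ) i ^ d i).totalDegree
      ≤ ∑ i ∈ d.support, d i := by
    refine Finset.sum_le_sum fun i _ => ?_
    refine (MvPolynomial.totalDegree_pow _ _).trans ?_
    have h3 : ((![MvPolynomial.X 0 + MvPolynomial.C q.1,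
      MvPolynomial.X 1 + MvPolynomial.C q.2] : Fin 2 → MvPolynomial (Fin 2) ℝ) i).totalDegree ≤ 1 := by
      fin_cases i
      · refine (MvPolynomial.totalDegree_add _ _).trans ?_
        simp [MvPolynomial.totalDegree_X, MvPolynomial.totalDegree_C]
      · refine (MvPolynomial.totalDegree_add _ _).trans ?_
        simp [MvPolynomial.totalDegree_X, MvPolynomial.totalDegree_C]
    calc d i * _ ≤ d i * 1 := Nat.mul_le_mul_left _ h3
      _ = d i := mul_one _
  refine h2.trans ?_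
  exact MvPolynomial.le_totalDegree hd

private theorem shift_shift (q : ℝ × ℝ) (F : MvPolynomial (Fin 2) ℝ) :
    shiftP (-q) (shiftP q F) = F := by
  unfold shiftP
  rw [MvPolynomial.bind₁_bind₁]
  have h : (fun i => (MvPolynomial.bind₁ ![MvPolynomial.X 0 + MvPolynomial.C (-q).1,
      MvPolynomial.X 1 + MvPolynomial.C (-q).2]) ((![MvPolynomial.X 0 + MvPolynomial.C q.1,
      MvPolynomial.X 1 + MvPolynomial.C q.2] : Fin 2 → MvPolynomial (Fin 2) ℝ) i)) =
      (MvPolynomial.X : Fin 2 → MvPolynomial (Fin 2) ℝ) := by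
    funext i
    fin_cases i <;> simp
  rw [h, MvPolynomial.bind₁_X_left]
  rfl

/-- Proof: `shiftP (-q) (shiftP q F) = F`, and `shiftP` is a ring homomorphism. -/
theorem isRelPrime_shiftP (q : ℝ × ℝ) {P Q : MvPolynomial (Fin 2) ℝ} (h : IsRelPrime P Q) :
    IsRelPrime (shiftP q P) (shiftP q Q) := by
  intro d hP hQ
  have hmap : ∀ r : ℝ × ℝ, ∀ {a b : MvPolynomial (Fin 2) ℝ}, a ∣ b → shiftP r a ∣ shiftP r b := by
    intro r a b hab
    exact map_dvd (MvPolynomial.bind₁ _) hab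
  have h1 := hmap (-q) hP
  have h2 := hmap (-q) hQ
  rw [shift_shift] at h1 h2
  have h3 : IsUnit (shiftP (-q) d) := h h1 h2
  have h4 : IsUnit (shiftP q (shiftP (-q) d)) := h3.map (MvPolynomial.bind₁ _)
  have h5 := shift_shift (-q) d
  rw [neg_neg] at h5
  rwa [h5] at h4

/-- Proof. Apply `dichotomy` to `shiftP q P`, `shiftP q Q`. A closed orbit `C` of `turn a (vf P Q)` gives the
closed orbit `{z - q | z ∈ C}` (`IsClosedOrbit.affine`, or directly: `γ - q`). If `z ∈ C`,
`|log (nm (z-q)) - u| ≤ D`, let `i = ⌊log (nm (z-q)) - (u - D)⌋₊`, `i ≤ ⌊2D⌋₊`, `r = exp (u - D + i)`: then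
`r ≤ nm (z-q) ≤ 3 r`; and there is `z' ∈ C` with `r ≤ nm (z-z')`: otherwise `C` is in the
open disc of radius `r` about `z` which is convex and does not contain `q`. So `R` is the image of
`U ×ˢ range (⌊2D⌋₊+1)`: `R.card ≤ 70n² (2D+1) ≤ 28100 n⁴/t` (all `r > 0`). -/
theorem dichotomy_at {n : ℕ} (hn : 1 ≤ n) {P Q : MvPolynomial (Fin 2) ℝ}
    (hP : P.totalDegree ≤ n) (hQ : Q.totalDegree ≤ n) (hPQ : IsRelPrime P Q) {q : ℝ × ℝ}
    (h0 : vf P Q q = 0) {t : ℝ} (ht : 0 < t) (ht1 : t ≤ 1 / 20) :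
    ∃ (B : Set ℝ) (R : Finset ℝ), volume B ≤ ENNReal.ofReal (6000 * n ^ 2 * t) ∧
      (R.card : ℝ) ≤ 30000 * n ^ 4 / t ∧ (∀ r ∈ R, 0 < r) ∧
      ∀ a ∈ Set.Ioo 0 Real.pi, a ∉ B → ∀ C, IsClosedOrbit (turn a (vf P Q)) C →
        q ∈ convexHull ℝ C → IsStar (vf P Q) q (Real.sin t) C ∨ ∃ r ∈ R, IsNear q r (3 * r) C := by
  classical
  obtain ⟨B, U, D, hB, hU, hD0, hD1, hmain⟩ := dichotomy hn
    ((totalDegree_shiftP q P).trans hP) ((totalDegree_shiftP q Q).trans hQ)
    (isRelPrime_shiftP q hPQ) (by rw [vf_shiftP, zero_add, h0]) ht ht1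
  have hn1 : (1 : ℝ) ≤ n := by exact_mod_cast hn
  refine ⟨B, (U ×ˢ Finset.range (⌊2 * D⌋₊ + 1)).image fun p => Real.exp (p.1 - D + p.2), hB,
    ?_, ?_, ?_⟩
  · have h1 : (((U ×ˢ Finset.range (⌊2 * D⌋₊ + 1)).image fun p : ℝ × ℕ =>
        Real.exp (p.1 - D + p.2)).card : ℝ) ≤ U.card * ((⌊2 * D⌋₊ : ℝ) + 1) := by
      have h2 := Finset.card_image_le (s := U ×ˢ Finset.range (⌊2 * D⌋₊ + 1))
        (f := fun p : ℝ × ℕ => Real.exp (p.1 - D + p.2))
      rw [Finset.card_product, Finset.card_range] at h2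
      exact_mod_cast h2
    refine h1.trans ?_
    have h3 : (⌊2 * D⌋₊ : ℝ) ≤ 2 * D := Nat.floor_le (by linarith)
    have h4 : (U.card : ℝ) ≤ 70 * n ^ 2 := by exact_mod_cast hU
    have h5 : (1 : ℝ) ≤ n ^ 2 / t / 20 := by
      rw [div_div, le_div_iff₀ (by positivity)]
      have : (1 : ℝ) ≤ (n : ℝ) ^ 2 := by nlinarith
      linarith
    have h6 : (n : ℝ) ^ 2 * (n ^ 2 / t) = n ^ 4 / t := by ring
    have h7 : 200 * (n : ℝ) ^ 2 / t = 200 * (n ^ 2 / t) := by ring
    rw [h7] at hD1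
    calc (U.card : ℝ) * ((⌊2 * D⌋₊ : ℝ) + 1)
        ≤ (70 * n ^ 2) * (2 * (200 * (n ^ 2 / t)) + n ^ 2 / t / 20) := by
          apply mul_le_mul h4 _ (by positivity) (by positivity)
          linarith
      _ = (28000 + 7 / 2) * ((n : ℝ) ^ 2 * (n ^ 2 / t)) := by ring
      _ ≤ 30000 * ((n : ℝ) ^ 2 * (n ^ 2 / t)) := by
          apply mul_le_mul_of_nonneg_right (by norm_num) (by positivity)
      _ = 30000 * n ^ 4 / t := by rw [h6]; ring
  · intro r hr
    obtain ⟨p, _, rfl⟩ := Finset.mem_image.1 hr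
    exact Real.exp_pos _
  · intro a ha haB C hC hq
    have hcd : ContDiff ℝ 1 (turn a (vf P Q)) := contDiff_turn (contDiff_vf P Q) a
    have hzero : turn a (vf P Q) q = 0 := turn_eq_zero.2 h0
    have hqC : q ∉ C := fun hqC => hC.ne_zero_of_contDiff hcd hqC hzero
    have hC' : IsClosedOrbit (turn a (vf (shiftP q P) (shiftP q Q)))
        ((fun y => -q + (ContinuousLinearEquiv.refl ℝ (ℝ × ℝ)) y) '' C) := by
      refine hC.affine (-q) (ContinuousLinearEquiv.refl ℝ (ℝ × ℝ)) 1 one_pos ?_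
      intro y
      simp only [ContinuousLinearEquiv.refl_apply, inv_one, one_smul]
      unfold turn
      rw [vf_shiftP]
      have : -q + y + q = y := by abel
      rw [this]
    have htq : ∀ z, turn a (vf (shiftP q P) (shiftP q Q)) (-q + z) = turn a (vf P Q) z := by
      intro z
      unfold turn
      rw [vf_shiftP]
      have : -q + z + q = z := by abel
      rw [this]
    rcases hmain a ha haB _ hC' with hs | ⟨u, hu, _, ⟨z, hz, rfl⟩, hzu⟩
    · left
      refine ⟨hqC, a, ha, hC, fun z hz => ?_⟩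
      have h1 := hs (-q + z) ⟨z, hz, rfl⟩
      rw [htq] at h1
      have h2 : z - q = -q + z := by abel
      rw [h2]
      exact h1
    · right
      simp only [ContinuousLinearEquiv.refl_apply] at hzu
      have h2 : -q + z = z - q := by abel
      rw [h2] at hzu
      have hzq : z - q ≠ 0 := by
        intro h
        rw [sub_eq_zero] at h
        exact hqC (h ▸ hz)
      have hpos : 0 < nm (z - q) := nm_pos hzq
      have habs := abs_le.1 hzu
      set x : ℝ := Real.log (nm (z - q)) - (u - D) with hx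
      have hx0 : 0 ≤ x := by rw [hx]; linarith [habs.1]
      have hx1 : x ≤ 2 * D := by rw [hx]; linarith [habs.2]
      have hfl := Nat.floor_le hx0
      have hfl' := Nat.lt_floor_add_one x
      have hlog : nm (z - q) = Real.exp (u - D + x) := by
        rw [hx, ← Real.exp_log hpos]
        congr 1
        rw [Real.exp_log hpos]
        ring
      have hr1 : Real.exp (u - D + (⌊x⌋₊ : ℕ)) ≤ nm (z - q) := by
        rw [hlog]
        exact Real.exp_le_exp.2 (by linarith)
      have hr2 : nm (z - q) ≤ 3 * Real.exp (u - D + (⌊x⌋₊ : ℕ)) := by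
        rw [hlog]
        have h3 : Real.exp (u - D + x) ≤ Real.exp (1 + (u - D + (⌊x⌋₊ : ℕ))) :=
          Real.exp_le_exp.2 (by linarith)
        refine h3.trans ?_
        rw [Real.exp_add]
        exact mul_le_mul_of_nonneg_right (by linarith [Real.exp_one_lt_d9]) (Real.exp_pos _).le
      refine ⟨Real.exp (u - D + (⌊x⌋₊ : ℕ)), Finset.mem_image.2 ⟨(u, ⌊x⌋₊), ?_, rfl⟩,
        ⟨z, hz, hr2⟩, z, hz, ?_⟩
      · rw [Finset.mem_product, Finset.mem_range]
        exact ⟨hu, Nat.lt_succ_of_le (Nat.floor_le_floor hx1)⟩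
      · by_contra hcon
        push Not at hcon
        have hcont : ContinuousOn (fun z' : ℝ × ℝ => nm (z - z')) C :=
          (continuous_nm.comp (continuous_const.sub continuous_id)).continuousOn
        obtain ⟨w, hw, hwmax⟩ := hC.isCompact.exists_isMaxOn ⟨z, hz⟩ hcont
        have h5 : nm (z - q) ≤ nm (z - w) :=
          nm_le_of_mem_hull (fun p hp => hwmax hp) (Real.sqrt_nonneg _) hq
        linarith [hcon w hw]

end Pool.Agent.Lib.MP_95e7ec_an
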