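import Mathlib
import Pool.Agent.Lib.MP_95e7ec_an.Rq.Shift
import Pool.Agent.Lib.MP_95e7ec_an.Rq.NearMeas
import Pool.Agent.Lib.MP_95e7ec_an.Rb.StarAvg
import Pool.Agent.Lib.MP_95e7ec_an.Rb.NearAvg
import Pool.Agent.Lib.MP_95e7ec_an.FatGlue

/-!
# Rq, Centre: the closed orbits around one zero of the field
-/

set_option autoImplicit false

open Set Filter Topology MeasureTheory
open scoped ContDiff ENNReal

namespace Pool.Agent.Lib.MP_95e7ec_an

/-- the number of the closed orbits of the turned field with `q` in their convex hull -/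
noncomputable def hullN (v : ℝ × ℝ → ℝ × ℝ) (q : ℝ × ℝ) (a : ℝ) : ℝ≥0∞ :=
  (({C : Set (ℝ × ℝ) | IsClosedOrbit (turn a v) C ∧ q ∈ convexHull ℝ C}.encard : ℕ∞) : ℝ≥0∞)

theorem hullN_le_setSum {v : ℝ × ℝ → ℝ × ℝ} {q : ℝ × ℝ} {a κ : ℝ} {R : Finset ℝ}
    (h : ∀ C, IsClosedOrbit (turn a v) C → q ∈ convexHull ℝ C →
      IsStar v q κ C ∨ ∃ r ∈ R, IsNear q r (3 * r) C) :
    hullN v q a ≤ setSum (starInd v q κ) v Set.univ a +
      ∑ r ∈ R, setSum (nearInd q r (3 * r)) v Set.univ a := by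
  classical
  unfold hullN setSum
  set S : Set (Set (ℝ × ℝ)) := {C | IsClosedOrbit (turn a v) C ∧ q ∈ convexHull ℝ C} with hS
  set T : Set (Set (ℝ × ℝ)) := {C | IsClosedOrbit (turn a v) C ∧ C ⊆ univ} with hT
  have h1 : ((S.encard : ℕ∞) : ℝ≥0∞) = ∑' C, S.indicator (fun _ => (1 : ℝ≥0∞)) C := by
    rw [← tsum_subtype, ENNReal.tsum_set_one]
  have h2 : ∀ f : Set (ℝ × ℝ) → ℝ≥0∞,
      ∑' C : {C : Set (ℝ × ℝ) // IsClosedOrbit (turn a v) C ∧ C ⊆ Set.univ}, f C =
        ∑' C, T.indicator f C := fun f => tsum_subtype T f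
  have h3 : ∑ r ∈ R, ∑' C, T.indicator (nearInd q r (3 * r)) C =
      ∑' C, ∑ r ∈ R, T.indicator (nearInd q r (3 * r)) C :=
    (Summable.tsum_finsetSum fun _ _ => ENNReal.summable).symm
  simp only [h2]
  rw [h1, h3, ← ENNReal.tsum_add]
  refine ENNReal.tsum_le_tsum fun C => ?_
  by_cases hC : C ∈ S
  · have hCT : C ∈ T := ⟨hC.1, subset_univ _⟩
    rw [Set.indicator_of_mem hC, Set.indicator_of_mem hCT]
    rcases h C hC.1 hC.2 with h4 | ⟨r, hr, h4⟩
    · refine le_trans ?_ (le_add_right le_rfl)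
      rw [starInd, if_pos h4]
    · refine le_trans ?_ (le_add_left le_rfl)
      refine le_trans ?_ (Finset.single_le_sum (f := fun r => T.indicator (nearInd q r (3 * r)) C)
        (fun _ _ => zero_le) hr)
      simp only [Set.indicator_of_mem hCT]
      rw [nearInd, if_pos h4]
  · rw [Set.indicator_of_notMem hC]
    exact zero_le

/-- **One zero of the field.** -/
theorem centre_count {n : ℕ} (hn : 1 ≤ n) {P Q : MvPolynomial (Fin 2) ℝ}
    (hP : P.totalDegree ≤ n) (hQ : Q.totalDegree ≤ n) (hPQ : IsRelPrime P Q) {q : ℝ × ℝ}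
    (h0 : vf P Q q = 0) {t : ℝ} (ht : 0 < t) (ht1 : t ≤ 1 / 20) :
    ∃ (B : Set ℝ) (H : ℝ → ℝ≥0∞), volume B ≤ ENNReal.ofReal (6000 * n ^ 2 * t) ∧
      AEMeasurable H (volume.restrict (Set.Ioo 0 Real.pi)) ∧
      ∫⁻ a in Set.Ioo 0 Real.pi, H a ≤
        ENNReal.ofReal (30 * n / t ^ 2 + 63000000 * n ^ 5 / t) ∧
      ∀ a ∈ Set.Ioo 0 Real.pi, a ∉ B → hullN (vf P Q) q a ≤ H a := by
  obtain ⟨B, R, hB, hR, hRpos, hdi⟩ := dichotomy_at hn hP hQ hPQ h0 ht ht1
  have hn1 : (1 : ℝ) ≤ n := by exact_mod_cast hn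
  have hpi := Real.pi_pos
  have hpi4 := Real.pi_lt_d2
  have hvf : vf P Q = vfc (arr n P, arr n Q) := vf_eq_vfc hP hQ
  set μ : Pr n := (arr n P, arr n Q) with hμ
  have hκ : 0 < Real.sin t := Real.sin_pos_of_pos_of_lt_pi ht (by linarith [Real.pi_gt_three])
  set H : ℝ → ℝ≥0∞ := fun a => setSum (starInd (vfc μ) q (Real.sin t)) (vfc μ) Set.univ a +
      ∑ r ∈ R, setSum (nearInd q r (3 * r)) (vfc μ) Set.univ a with hH
  have hms : AEMeasurable (setSum (starInd (vfc μ) q (Real.sin t)) (vfc μ) Set.univ)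
      (volume.restrict (Set.Ioo 0 Real.pi)) :=
    setSum_aemeasurable μ isOpen_univ fun F => starInd_measurable q (Real.sin t) F
  have hmn : ∀ r : ℝ, AEMeasurable (setSum (nearInd q r (3 * r)) (vfc μ) Set.univ)
      (volume.restrict (Set.Ioo 0 Real.pi)) := fun r => aemeasurable_near μ q r (3 * r)
  have hmsum : AEMeasurable (fun a => ∑ r ∈ R, setSum (nearInd q r (3 * r)) (vfc μ) Set.univ a)
      (volume.restrict (Set.Ioo 0 Real.pi)) := by
    have := Finset.aemeasurable_sum (f := fun r => setSum (nearInd q r (3 * r)) (vfc μ) Set.univ)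
      R fun r _ => hmn r
    refine this.congr (Eventually.of_forall fun a => ?_)
    simp only [Finset.sum_apply]
  refine ⟨B, H, hB, hms.add hmsum, ?_, ?_⟩
  · rw [hH, lintegral_add_left' hms, lintegral_finset_sum' _ fun r _ => hmn r]
    have h1 := star_avg μ q hκ
    have h2 : ∀ r ∈ R, ∫⁻ a in Set.Ioo 0 Real.pi, setSum (nearInd q r (3 * r)) (vfc μ) Set.univ a ≤
        ENNReal.ofReal (2100 * n) := by
      intro r hr
      have hr0 := hRpos r hr
      refine (near_avg hn μ q (L := r) (R := 3 * r) hr0 (by linarith)).trans ?_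
      apply ENNReal.ofReal_le_ofReal
      rw [div_le_iff₀ hr0]
      nlinarith
    have h3 : Real.sin t ^ 2 ≥ (t / 2) ^ 2 := by
      have h4 : 2 / Real.pi * t ≤ Real.sin t :=
        Real.mul_le_sin ht.le (by linarith [Real.pi_gt_three])
      have h5 : t / 2 ≤ 2 / Real.pi * t := by
        rw [div_mul_eq_mul_div, div_le_div_iff₀ two_pos hpi]
        nlinarith
      exact pow_le_pow_left₀ (by positivity) (h5.trans h4) 2
    have h6 : 2 * Real.pi * n / Real.sin t ^ 2 ≤ 30 * n / t ^ 2 := by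
      calc 2 * Real.pi * n / Real.sin t ^ 2 ≤ 2 * Real.pi * n / (t / 2) ^ 2 := by gcongr
        _ = (8 * Real.pi) * n / t ^ 2 := by field_simp; ring
        _ ≤ 30 * n / t ^ 2 := by gcongr; linarith
    have h7 : (∑ r ∈ R, ∫⁻ a in Set.Ioo 0 Real.pi,
        setSum (nearInd q r (3 * r)) (vfc μ) Set.univ a) ≤
        ENNReal.ofReal (63000000 * n ^ 5 / t) := by
      refine (Finset.sum_le_sum h2).trans ?_
      rw [Finset.sum_const, nsmul_eq_mul, ← ENNReal.ofReal_natCast, ← ENNReal.ofReal_mul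
        (by positivity)]
      apply ENNReal.ofReal_le_ofReal
      calc (R.card : ℝ) * (2100 * n) ≤ (30000 * n ^ 4 / t) * (2100 * n) := by gcongr
        _ = 63000000 * n ^ 5 / t := by ring
    calc _ ≤ ENNReal.ofReal (30 * n / t ^ 2) + ENNReal.ofReal (63000000 * n ^ 5 / t) :=
          add_le_add (h1.trans (ENNReal.ofReal_le_ofReal h6)) h7
      _ = _ := (ENNReal.ofReal_add (by positivity) (by positivity)).symm
  · intro a ha haB
    rw [hH]
    have := hullN_le_setSum (v := vf P Q) (q := q) (a := a) (κ := Real.sin t) (R := R)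
      fun C hC hq => hdi a ha haB C hC hq
    rw [hvf] at this ⊢
    exact this

end Pool.Agent.Lib.MP_95e7ec_an
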