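import Mathlib
import Pool.Agent.Lib.MP_95e7ec_an.Rq.Defs
import Pool.Agent.Lib.MP_95e7ec_an.Rq.Arc

/-!
# Rq, Margin: the margin of the closed orbits in a zone
-/

set_option autoImplicit false

open Set Filter Topology MeasureTheory
open scoped ContDiff ENNReal

namespace Pool.Agent.Lib.MP_95e7ec_an

/-- the sine is at least `sin M` on `[M, π - M]` -/
private theorem rqm_sin {M w : ℝ} (hM : 0 ≤ M) (h1 : M ≤ w) (h2 : w ≤ Real.pi - M) :
    Real.sin M ≤ Real.sin w := by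
  have h := Real.sin_sub_sin w M
  have h3 : 0 ≤ Real.sin ((w - M) / 2) :=
    Real.sin_nonneg_of_nonneg_of_le_pi (by linarith) (by linarith [Real.pi_pos])
  have h4 : 0 ≤ Real.cos ((w + M) / 2) :=
    Real.cos_nonneg_of_mem_Icc ⟨by linarith [Real.pi_pos], by linarith⟩
  have h5 := mul_nonneg h3 h4
  linarith

/-- the level function at the angle `a + c` in the coordinates turned by `a` -/
private theorem rqm_add (Φ : ℝ × ℝ → ℝ × ℝ) (a c : ℝ) (p : ℝ × ℝ) :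
    (turn (a + c) Φ p).2 = Real.sin c * (turn a Φ p).1 + Real.cos c * (turn a Φ p).2 := by
  unfold turn
  simp only
  rw [Real.sin_add, Real.cos_add]
  ring

/-- from the left -/
private theorem rqm_left {t v : ℝ} (ht : 0 < t) (h1 : -Real.pi + 3 * t ≤ v)
    (h2 : -Real.sin (3 * t) < Real.sin v) : -(3 * t) < v := by
  by_contra hc
  have h3 : Real.sin (3 * t) ≤ Real.sin (-v) :=
    rqm_sin (by linarith) (by linarith) (by linarith)
  rw [Real.sin_neg] at h3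
  linarith

/-- from the right -/
private theorem rqm_right {t v : ℝ} (ht : 0 < t) (h1 : v ≤ 2 * Real.pi - 3 * t)
    (h2 : -Real.sin (3 * t) < Real.sin v) : v < Real.pi + 3 * t := by
  by_contra hc
  have h3 : Real.sin (3 * t) ≤ Real.sin (v - Real.pi) :=
    rqm_sin (by linarith) (by linarith) (by linarith)
  rw [Real.sin_sub_pi] at h3
  linarith

/-- the angle of a vector whose second component is more than `- sin (3t) r` -/
private theorem rqm_angle {t x y r : ℝ} (ht : 0 < t) (ht1 : t ≤ 1 / 20) (hr : 0 < r)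
    (hr2 : x ^ 2 + y ^ 2 = r ^ 2) (hy : -(Real.sin (3 * t) * r) < y) :
    ∃ w : ℝ, -(3 * t) ≤ w ∧ w ≤ Real.pi + 3 * t ∧ x = r * Real.cos w ∧ y = r * Real.sin w := by
  have hpi := Real.pi_gt_three
  let z : ℂ := ⟨x, y⟩
  have hz : ‖z‖ = r := by
    rw [Complex.norm_eq_sqrt_sq_add_sq]
    show Real.sqrt (x ^ 2 + y ^ 2) = r
    rw [hr2, Real.sqrt_sq hr.le]
  have hx : x = r * Real.cos z.arg := by
    rw [← hz]
    exact (Complex.norm_mul_cos_arg z).symm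
  have hy2 : y = r * Real.sin z.arg := by
    rw [← hz]
    exact (Complex.norm_mul_sin_arg z).symm
  have h1 := Complex.neg_pi_lt_arg z
  have h2 := Complex.arg_le_pi z
  have h3 : -Real.sin (3 * t) < Real.sin z.arg := by
    rw [hy2] at hy
    have h4 : r * (-Real.sin (3 * t)) < r * Real.sin z.arg := by linarith
    exact lt_of_mul_lt_mul_left h4 hr.le
  rcases le_or_gt (-(3 * t)) z.arg with h4 | h4
  · exact ⟨z.arg, h4, by linarith, hx, hy2⟩
  · have h5 : z.arg < -Real.pi + 3 * t := by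
      by_contra hc
      have := rqm_left ht (not_lt.1 hc) h3
      linarith
    refine ⟨z.arg + 2 * Real.pi, by linarith, by linarith, ?_, ?_⟩
    · rw [Real.cos_add_two_pi]
      exact hx
    · rw [Real.sin_add_two_pi]
      exact hy2

/-- Proof. Let `S` be the set of the `a ∈ (0,π)` with a closed orbit in the zone (`PosOrb Φ I a C`). If `S` is
empty take `lo = 0`, `hi = 0`. Otherwise `lo = sInf S`, `hi = sSup S`. Let `a ∈ S`, `6t < a < π - 6t`, `p` a point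
of the zone, `turn a Φ p = r (cos w, sin w)`, `r = nm (Φ p) > 0`, `w ∈ (-3t, π+3t)` (`zone_arc` for `a`: first choose
`w ∈ (-π, π]`, add `2π` if `w < -π+3t`). Take `a₀ ∈ S` with `a₀ < lo + t`. If `a ≤ a₀` then
`a - lo - 4t < 0`, nothing to prove for the lower side. If `a > a₀`, `Δ = a - a₀ < π - 6t`: `zone_arc` for `a₀`
says `sin (w - Δ) > - sin 3t`, and `w - Δ > -3t - Δ > -π + 3t`, `w - Δ < π + 3t`, so `w - Δ > -3t`,
`w > Δ - 3t ≥ a - lo - 4t ≥ M`. In the same way (with `a₁ ∈ S`, `a₁ > hi - t`) `w < π - M`. As `M ≤ π/2`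
(`2M ≤ hi - lo - 8t < π`) `sin w ≥ sin M`. -/
theorem zone_margin {Φ : ℝ × ℝ → ℝ × ℝ} (hΦ : ContDiff ℝ 2 Φ)
    (hper : ∀ p : ℝ × ℝ, Φ (p + (0, 2 * Real.pi)) = Φ p) {m t : ℝ} (ht : 0 < t)
    (ht1 : t ≤ 1 / 20) (hm : m ≤ Real.tan (2 * t)) {G I : Set ℝ}
    (hG : ∀ x : ℝ, ∃ c ∈ G, x ≤ c ∧ c ≤ x + t) (hZ : Zone Φ m G I) :
    ∃ lo hi : ℝ, lo ≤ hi ∧ hi ≤ lo + Real.pi ∧
      ∀ a ∈ Set.Ioo (6 * t) (Real.pi - 6 * t), ∀ C : Set (ℝ × ℝ), PosOrb Φ I a C →
      lo ≤ a ∧ a ≤ hi ∧ ∀ p : ℝ × ℝ, p.1 ∈ I → ∀ M : ℝ, 0 ≤ M → M ≤ a - lo - 4 * t →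
        M ≤ hi - a - 4 * t → Real.sin M * nm (Φ p) ≤ (turn a Φ p).2 := by
  have hpi := Real.pi_gt_three
  let S : Set ℝ := {a | a ∈ Set.Ioo (6 * t) (Real.pi - 6 * t) ∧ ∃ C : Set (ℝ × ℝ), PosOrb Φ I a C}
  rcases S.eq_empty_or_nonempty with hS | hS
  · refine ⟨0, 0, le_refl _, by linarith, fun a ha C hC => ?_⟩
    exfalso
    have h1 : a ∈ S := ⟨ha, C, hC⟩
    rw [hS] at h1
    exact h1
  have hbb : BddBelow S := ⟨6 * t, fun a ha => ha.1.1.le⟩
  have hba : BddAbove S := ⟨Real.pi - 6 * t, fun a ha => ha.1.2.le⟩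
  have hlo : 6 * t ≤ sInf S := le_csInf hS fun a ha => ha.1.1.le
  have hhi : sSup S ≤ Real.pi - 6 * t := csSup_le hS fun a ha => ha.1.2.le
  refine ⟨sInf S, sSup S, ?_, by linarith, fun a ha C hC => ?_⟩
  · obtain ⟨a, ha⟩ := hS
    exact (csInf_le hbb ha).trans (le_csSup hba ha)
  have haS : a ∈ S := ⟨ha, C, hC⟩
  refine ⟨csInf_le hbb haS, le_csSup hba haS, fun p hp M hM hM1 hM2 => ?_⟩
  obtain ⟨a₀, ha₀, h0⟩ := exists_lt_of_csInf_lt hS (show sInf S < sInf S + t by linarith)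
  obtain ⟨a₁, ha₁, h1⟩ := exists_lt_of_lt_csSup hS (show sSup S - t < sSup S by linarith)
  obtain ⟨⟨ha01, ha02⟩, C₀, hC₀⟩ := ha₀
  obtain ⟨⟨ha11, ha12⟩, C₁, hC₁⟩ := ha₁
  have hr : 0 < nm (Φ p) := nm_pos (hZ.ne p hp)
  have hr2 : (turn a Φ p).1 ^ 2 + (turn a Φ p).2 ^ 2 = nm (Φ p) ^ 2 := by
    rw [← nm_turn a Φ p, nm_sq]
  have e := zone_arc hΦ hper ht ht1 hm hG hZ hC hp
  have e0 := zone_arc hΦ hper ht ht1 hm hG hZ hC₀ hp
  have e1 := zone_arc hΦ hper ht ht1 hm hG hZ hC₁ hp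
  obtain ⟨w, hw1, hw2, hx, hy⟩ := rqm_angle ht ht1 hr hr2 e
  have f0 : (turn a₀ Φ p).2 = nm (Φ p) * Real.sin (w - (a - a₀)) := by
    have h2 : a₀ = a + (-(a - a₀)) := by ring
    conv_lhs => rw [h2]
    rw [rqm_add, hx, hy, Real.sin_neg, Real.cos_neg, Real.sin_sub w (a - a₀)]
    ring
  have f1 : (turn a₁ Φ p).2 = nm (Φ p) * Real.sin (w + (a₁ - a)) := by
    have h2 : a₁ = a + (a₁ - a) := by ring
    conv_lhs => rw [h2]
    rw [rqm_add, hx, hy, Real.sin_add w (a₁ - a)]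
    ring
  have g0 : -Real.sin (3 * t) < Real.sin (w - (a - a₀)) := by
    rw [f0] at e0
    have h4 : nm (Φ p) * (-Real.sin (3 * t)) < nm (Φ p) * Real.sin (w - (a - a₀)) := by linarith
    exact lt_of_mul_lt_mul_left h4 hr.le
  have g1 : -Real.sin (3 * t) < Real.sin (w + (a₁ - a)) := by
    rw [f1] at e1
    have h4 : nm (Φ p) * (-Real.sin (3 * t)) < nm (Φ p) * Real.sin (w + (a₁ - a)) := by linarith
    exact lt_of_mul_lt_mul_left h4 hr.le
  have ha1 := ha.1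
  have ha2 := ha.2
  have k0 := rqm_left ht (by linarith) g0
  have k1 := rqm_right ht (by linarith) g1
  have k2 : Real.sin M ≤ Real.sin w := rqm_sin hM (by linarith) (by linarith)
  rw [hy, mul_comm]
  exact mul_le_mul_of_nonneg_left k2 hr.le

end Pool.Agent.Lib.MP_95e7ec_an
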