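import Mathlib
import Pool.Agent.Lib.MP_95e7ec_an.Rq.Defs

/-!
# Rq, Windows: a geometric family of windows
-/

set_option autoImplicit false

open Set Filter Topology MeasureTheory
open scoped ContDiff ENNReal

namespace Pool.Agent.Lib.MP_95e7ec_an

/-- Proof. Let `N` with `t (5/4)^N ≥ π`; `W` is the set of the pairs
`(lo + t r^i, (2/π) t r^i)` and `(hi - t r^(i+1), (2/π) t r^i)`, `i < N`, `r = 5/4`. The sum of the
`1/w.2` is at most `2 ∑_i (π/2) r^(-i) / t ≤ 5π/t ≤ 16/t`. Let `x = a - lo`, `y = hi - a`. If `x ≤ y`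
take `i` with `t r^i ≤ x < t r^(i+1)` (`x ≤ π/2`): `x - t r^i ≤ t r^i / 4 ≤ t r^i / π`, and
`sin x ≥ sin (t r^i) ≥ (2/π) t r^i` (`Real.mul_le_sin`, monotonicity on `[0,π/2]`). If `y < x` take `i`
with `t r^i ≤ y < t r^(i+1)`. -/
theorem exists_windows (lo hi : ℝ) {t : ℝ} (ht : 0 < t) (h : hi ≤ lo + Real.pi) :
    ∃ W : Finset (ℝ × ℝ), (∀ w ∈ W, 0 < w.2) ∧ (∑ w ∈ W, 1 / w.2) ≤ 16 / t ∧
      ∀ a : ℝ, t ≤ a - lo → t ≤ hi - a → ∃ w ∈ W, w.1 ≤ a ∧ a ≤ w.1 + w.2 / 2 ∧
        w.2 ≤ Real.sin (min (a - lo) (hi - a)) := by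
  classical
  have hpi := Real.pi_pos
  have hpi3 := Real.pi_gt_three
  have hpi4 := Real.pi_lt_d2
  obtain ⟨N, hN⟩ := pow_unbounded_of_one_lt (Real.pi / t) (show (1 : ℝ) < 5 / 4 by norm_num)
  rw [div_lt_iff₀ ht] at hN
  let f : ℕ → ℝ × ℝ := fun i => (lo + t * (5 / 4) ^ i, 2 / Real.pi * (t * (5 / 4) ^ i))
  let g : ℕ → ℝ × ℝ := fun i => (hi - t * (5 / 4) ^ (i + 1), 2 / Real.pi * (t * (5 / 4) ^ i))
  have hpos : ∀ i : ℕ, 0 < 2 / Real.pi * (t * (5 / 4 : ℝ) ^ i) := fun i => by positivity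
  have hsum : ∑ i ∈ Finset.range N, 1 / (2 / Real.pi * (t * (5 / 4 : ℝ) ^ i)) ≤ 8 / t := by
    have h1 : ∀ i ∈ Finset.range N, 1 / (2 / Real.pi * (t * (5 / 4 : ℝ) ^ i)) =
        Real.pi / (2 * t) * (4 / 5 : ℝ) ^ i := by
      intro i _
      have h2 : (4 / 5 : ℝ) ^ i = ((5 / 4 : ℝ) ^ i)⁻¹ := by
        rw [← inv_pow]
        norm_num
      rw [h2]
      field_simp
    rw [Finset.sum_congr rfl h1, ← Finset.mul_sum, geom_sum_eq (by norm_num)]
    have h3 : ((4 / 5 : ℝ) ^ N - 1) / (4 / 5 - 1) ≤ 5 := by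
      have h4 : (0 : ℝ) < (4 / 5) ^ N := by positivity
      rw [div_le_iff_of_neg (by norm_num)]
      linarith
    calc Real.pi / (2 * t) * (((4 / 5 : ℝ) ^ N - 1) / (4 / 5 - 1)) ≤ Real.pi / (2 * t) * 5 := by
          apply mul_le_mul_of_nonneg_left h3 (by positivity)
      _ ≤ 8 / t := by
          rw [div_mul_eq_mul_div, div_le_div_iff₀ (by positivity) ht]
          nlinarith
  refine ⟨(Finset.range N).image f ∪ (Finset.range N).image g, ?_, ?_, ?_⟩
  · intro w hw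
    rcases Finset.mem_union.1 hw with hw | hw
    · obtain ⟨i, -, rfl⟩ := Finset.mem_image.1 hw
      exact hpos i
    · obtain ⟨i, -, rfl⟩ := Finset.mem_image.1 hw
      exact hpos i
  · have himg : ∀ h : ℕ → ℝ × ℝ, (∀ i, (h i).2 = 2 / Real.pi * (t * (5 / 4 : ℝ) ^ i)) →
        ∑ w ∈ (Finset.range N).image h, 1 / w.2 ≤ 8 / t := by
      intro h hh
      refine le_trans ?_ hsum
      have h5 : ∀ i, 0 ≤ 1 / (h i).2 := fun i => by
        rw [hh i]
        exact (one_div_pos.2 (hpos i)).le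
      have h6 := Finset.sum_image_le_of_nonneg (s := Finset.range N) (g := h)
        (f := fun w : ℝ × ℝ => 1 / w.2) (fun w hw => by
          obtain ⟨i, -, rfl⟩ := Finset.mem_image.1 hw
          exact h5 i)
      refine h6.trans (le_of_eq ?_)
      refine Finset.sum_congr rfl fun i _ => ?_
      show 1 / (h i).2 = _
      rw [hh i]
    have hu : ∑ w ∈ (Finset.range N).image f ∪ (Finset.range N).image g, 1 / w.2 ≤
        ∑ w ∈ (Finset.range N).image f, 1 / w.2 + ∑ w ∈ (Finset.range N).image g, 1 / w.2 := by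
      rw [← Finset.sum_union_inter]
      have h7 : 0 ≤ ∑ w ∈ (Finset.range N).image f ∩ (Finset.range N).image g, 1 / w.2 := by
        refine Finset.sum_nonneg fun w hw => ?_
        obtain ⟨i, -, rfl⟩ := Finset.mem_image.1 (Finset.mem_inter.1 hw).1
        exact (one_div_pos.2 (hpos i)).le
      linarith
    have h8 := himg f (fun i => rfl)
    have h9 := himg g (fun i => rfl)
    have h10 : (16 : ℝ) / t = 8 / t + 8 / t := by ring
    rw [h10]
    linarith
  · intro a hx hy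
    have key : ∀ x : ℝ, t ≤ x → x ≤ Real.pi / 2 → ∃ i ∈ Finset.range N,
        t * (5 / 4 : ℝ) ^ i ≤ x ∧ x < t * (5 / 4) ^ (i + 1) ∧
          2 / Real.pi * (t * (5 / 4 : ℝ) ^ i) ≤ Real.sin x := by
      intro x hx1 hx2
      obtain ⟨i, h1, h2⟩ := exists_nat_pow_near (show (1 : ℝ) ≤ x / t by
        rw [le_div_iff₀ ht]; linarith) (show (1 : ℝ) < 5 / 4 by norm_num)
      rw [le_div_iff₀ ht] at h1
      rw [div_lt_iff₀ ht] at h2
      have h1' : t * (5 / 4 : ℝ) ^ i ≤ x := by linarith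
      refine ⟨i, ?_, h1', by linarith, ?_⟩
      · rw [Finset.mem_range]
        by_contra hc
        have h3 : (5 / 4 : ℝ) ^ N ≤ (5 / 4) ^ i :=
          pow_le_pow_right₀ (by norm_num) (not_lt.1 hc)
        have h4 : (5 / 4 : ℝ) ^ N * t ≤ (5 / 4) ^ i * t := mul_le_mul_of_nonneg_right h3 ht.le
        linarith
      · have h5 := Real.mul_le_sin (show (0 : ℝ) ≤ x by linarith) hx2
        refine le_trans ?_ h5
        exact mul_le_mul_of_nonneg_left h1' (by positivity)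
    have hq : (1 : ℝ) / 4 ≤ 1 / Real.pi := by
      rw [div_le_div_iff₀ (by norm_num) hpi]
      linarith
    rcases le_or_gt (a - lo) (hi - a) with hxy | hxy
    · obtain ⟨i, hi1, h1, h2, h3⟩ := key (a - lo) hx (by linarith)
      refine ⟨f i, Finset.mem_union_left _ (Finset.mem_image_of_mem f hi1), ?_, ?_, ?_⟩
      · show lo + t * (5 / 4) ^ i ≤ a
        linarith
      · show a ≤ lo + t * (5 / 4) ^ i + 2 / Real.pi * (t * (5 / 4) ^ i) / 2
        have h4 : 2 / Real.pi * (t * (5 / 4 : ℝ) ^ i) / 2 = 1 / Real.pi * (t * (5 / 4) ^ i) := by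
          ring
        rw [h4]
        have h5 : (0 : ℝ) ≤ t * (5 / 4) ^ i := by positivity
        have h6 := mul_le_mul_of_nonneg_right hq h5
        rw [pow_succ] at h2
        linarith
      · rw [min_eq_left hxy]
        exact h3
    · obtain ⟨i, hi1, h1, h2, h3⟩ := key (hi - a) hy (by linarith)
      refine ⟨g i, Finset.mem_union_right _ (Finset.mem_image_of_mem g hi1), ?_, ?_, ?_⟩
      · show hi - t * (5 / 4) ^ (i + 1) ≤ a
        linarith
      · show a ≤ hi - t * (5 / 4) ^ (i + 1) + 2 / Real.pi * (t * (5 / 4) ^ i) / 2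
        have h4 : 2 / Real.pi * (t * (5 / 4 : ℝ) ^ i) / 2 = 1 / Real.pi * (t * (5 / 4) ^ i) := by
          ring
        rw [h4]
        have h5 : (0 : ℝ) ≤ t * (5 / 4) ^ i := by positivity
        have h6 := mul_le_mul_of_nonneg_right hq h5
        rw [pow_succ]
        linarith
      · rw [min_eq_right hxy.le]
        exact h3

end Pool.Agent.Lib.MP_95e7ec_an
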