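import Mathlib
import Pool.Agent.Lib.MP_95e7ec_an.Rq.Defs
import Pool.Agent.Lib.MP_95e7ec_an.Rq.Dicho
import Pool.Agent.Lib.MP_95e7ec_an.Rq.Margin
import Pool.Agent.Lib.MP_95e7ec_an.Rq.Windows
import Pool.Agent.Lib.MP_95e7ec_an.Rq.ZoneData2

/-!
# Rq, Dicho2: the dichotomy with windows
-/

set_option autoImplicit false

open Set Filter Topology MeasureTheory
open scoped ContDiff ENNReal

namespace Pool.Agent.Lib.MP_95e7ec_an

private theorem d2_det2 (a : ℝ) (v : ℝ × ℝ → ℝ × ℝ) (z : ℝ × ℝ) :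
    det2 z (turn a v z) = (turn a (wf v) z).2 := by
  unfold det2 turn wf
  simp only
  ring

private theorem d2_eq {v : ℝ × ℝ → ℝ × ℝ} {c₀ : ℝ}
    (h : ∀ z, (turn c₀ (wf v) z).2 = 0) (a : ℝ) (z : ℝ × ℝ) :
    |det2 z (turn a v z)| = |Real.sin (a - c₀)| * (nm z * nm (turn a v z)) := by
  have h2 : Real.sin c₀ * (wf v z).1 + Real.cos c₀ * (wf v z).2 = 0 := h z
  set r : ℝ := Real.cos c₀ * (wf v z).1 - Real.sin c₀ * (wf v z).2 with hr
  have h4 := Real.sin_sq_add_cos_sq c₀
  have e1 : (wf v z).1 = r * Real.cos c₀ := by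
    rw [hr]
    linear_combination (Real.sin c₀) * h2 - (wf v z).1 * h4
  have e2 : (wf v z).2 = -(r * Real.sin c₀) := by
    rw [hr]
    linear_combination (Real.cos c₀) * h2 - (wf v z).2 * h4
  have h5 : det2 z (turn a v z) = r * Real.sin (a - c₀) := by
    rw [d2_det2]
    have e3 : (turn a (wf v) z).2 = Real.sin a * (wf v z).1 + Real.cos a * (wf v z).2 := rfl
    rw [e3, e1, e2, Real.sin_sub]
    ring
  have h6 : nm z * nm (v z) = |r| := by
    rw [← nm_wf]
    unfold nm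
    rw [e1, e2, show (r * Real.cos c₀) ^ 2 + (-(r * Real.sin c₀)) ^ 2 = r ^ 2 by
      linear_combination r ^ 2 * h4, Real.sqrt_sq_eq_abs]
  rw [h5, abs_mul, nm_turn', h6, mul_comm]

private theorem d2_nm_nonneg (z : ℝ × ℝ) : 0 ≤ nm z := Real.sqrt_nonneg _

private theorem d2_sum_union {S T : Finset (ℝ × ℝ)} (hS : ∀ w ∈ S, 0 < w.2) :
    (∑ w ∈ S ∪ T, 1 / w.2) ≤ (∑ w ∈ S, 1 / w.2) + ∑ w ∈ T, 1 / w.2 := by
  have h := Finset.sum_union_inter (s₁ := S) (s₂ := T) (f := fun w : ℝ × ℝ => 1 / w.2)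
  have h2 : 0 ≤ ∑ w ∈ S ∩ T, 1 / w.2 := Finset.sum_nonneg fun w hw => by
    have := hS w (Finset.mem_inter.1 hw).1
    positivity
  linarith

private theorem d2_sum_biUnion {W : ℕ → Finset (ℝ × ℝ)} (hW : ∀ k, ∀ w ∈ W k, 0 < w.2) (N : ℕ)
    {b : ℝ} (hb : ∀ k, (∑ w ∈ W k, 1 / w.2) ≤ b) :
    (∑ w ∈ (Finset.range N).biUnion W, 1 / w.2) ≤ N * b := by
  induction N with
  | zero => simp
  | succ N ih =>
    rw [Finset.range_add_one, Finset.biUnion_insert]
    refine (d2_sum_union (hW N)).trans ?_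
    push_cast
    linarith [hb N]

private theorem d2_sin_min {x : ℝ} : Real.sin (min x (Real.pi - x)) = Real.sin x := by
  rcases min_choice x (Real.pi - x) with h | h
  · rw [h]
  · rw [h, Real.sin_pi_sub]

/-- The trivial case. `wf v z = r (cos c₀, -sin c₀)`, so `|det2 z (turn a v z)| = |sin (a - c₀)| nm z nm (v z)` (see
`dicho_trivial`). One may assume `c₀ ∈ [0,π)` (add a multiple of `π`: signs do not matter). Use
`exists_windows` for `(lo,hi) = (c₀, c₀+π)` and `(c₀-π, c₀)`: for `a ∈ (0,π)` with `t ≤ |a - c₀| ≤ π - t`, and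
`sin (min (a-lo) (hi-a)) = |sin (a - c₀)|`. `B = {a | |a-c₀| < t or > π - t}`: measure at most `10 t`. -/
theorem dicho_trivial2 {v : ℝ × ℝ → ℝ × ℝ} {c₀ : ℝ}
    (h : ∀ z, (turn c₀ (wf v) z).2 = 0) {t : ℝ} (ht : 0 < t) (ht1 : t ≤ 1 / 20) :
    ∃ (B : Set ℝ) (W : Finset (ℝ × ℝ)), volume B ≤ ENNReal.ofReal (10 * t) ∧ (∀ w ∈ W, 0 < w.2) ∧
      (∑ w ∈ W, 1 / w.2) ≤ 32 / t ∧ ∀ a ∈ Set.Ioo 0 Real.pi, a ∉ B →
      ∃ w ∈ W, w.1 ≤ a ∧ a ≤ w.1 + w.2 / 2 ∧
        ∀ z, w.2 * nm z * nm (turn a v z) ≤ |det2 z (turn a v z)| := by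
  have hpi := Real.pi_pos
  have hpi3 := Real.pi_gt_three
  set k : ℤ := ⌊c₀ / Real.pi⌋ with hk
  set c₁ : ℝ := c₀ - k * Real.pi with hc₁
  have h1 : 0 ≤ c₁ := by
    have := Int.floor_le (c₀ / Real.pi)
    rw [← hk, le_div_iff₀ hpi] at this
    rw [hc₁]
    linarith
  have h2 : c₁ < Real.pi := by
    have := Int.lt_floor_add_one (c₀ / Real.pi)
    rw [← hk, div_lt_iff₀ hpi] at this
    rw [hc₁]
    linarith
  obtain ⟨W₁, hp₁, hs₁, hw₁⟩ := exists_windows c₁ (c₁ + Real.pi) ht le_rfl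
  obtain ⟨W₂, hp₂, hs₂, hw₂⟩ := exists_windows (c₁ - Real.pi) c₁ ht (by linarith)
  refine ⟨Set.Ioo (c₁ - t) (c₁ + t) ∪ Set.Ioo (Real.pi - t) Real.pi ∪ Set.Ioo 0 t, W₁ ∪ W₂,
    ?_, ?_, ?_, ?_⟩
  · refine (measure_union_le _ _).trans ?_
    refine (add_le_add (measure_union_le _ _) le_rfl).trans ?_
    rw [Real.volume_Ioo, Real.volume_Ioo, Real.volume_Ioo, ← ENNReal.ofReal_add (by linarith)
      (by linarith), ← ENNReal.ofReal_add (by linarith) (by linarith)]
    exact ENNReal.ofReal_le_ofReal (by linarith)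
  · intro w hw
    rcases Finset.mem_union.1 hw with hw | hw
    · exact hp₁ w hw
    · exact hp₂ w hw
  · refine (d2_sum_union hp₁).trans ?_
    calc _ ≤ 16 / t + 16 / t := add_le_add hs₁ hs₂
      _ = 32 / t := by ring
  · intro a ha haB
    have hB1 : a ∉ Set.Ioo (c₁ - t) (c₁ + t) := fun h => haB (Or.inl (Or.inl h))
    have hB2 : a ∉ Set.Ioo (Real.pi - t) Real.pi := fun h => haB (Or.inl (Or.inr h))
    have hB3 : a ∉ Set.Ioo 0 t := fun h => haB (Or.inr h)
    have ha2 : a ≤ Real.pi - t := by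
      by_contra hcon
      exact hB2 ⟨not_le.1 hcon, ha.2⟩
    have ha3 : t ≤ a := by
      by_contra hcon
      exact hB3 ⟨ha.1, not_le.1 hcon⟩
    have hsin : |Real.sin (a - c₀)| = |Real.sin (a - c₁)| := by
      have e : a - c₁ = (a - c₀) + k * Real.pi := by rw [hc₁]; ring
      rw [e, Real.sin_add_int_mul_pi, abs_mul, abs_zpow, abs_neg, abs_one, one_zpow, one_mul]
    have hfin : ∀ w : ℝ × ℝ, w.2 ≤ |Real.sin (a - c₁)| → ∀ z, w.2 * nm z * nm (turn a v z) ≤
        |det2 z (turn a v z)| := by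
      intro w hw z
      rw [d2_eq h, hsin, mul_assoc]
      exact mul_le_mul_of_nonneg_right hw (mul_nonneg (d2_nm_nonneg _) (d2_nm_nonneg _))
    rcases le_total c₁ a with hca | hca
    · have h3 : t ≤ a - c₁ := by
        by_contra hcon
        exact hB1 ⟨by linarith, by linarith [not_le.1 hcon]⟩
      obtain ⟨w, hw, hwa, hwb, hwc⟩ := hw₁ a h3 (by linarith)
      refine ⟨w, Finset.mem_union_left _ hw, hwa, hwb, hfin w ?_⟩
      rw [show c₁ + Real.pi - a = Real.pi - (a - c₁) by ring, d2_sin_min] at hwc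
      exact hwc.trans (le_abs_self _)
    · have h3 : t ≤ c₁ - a := by
        by_contra hcon
        exact hB1 ⟨by linarith [not_le.1 hcon], by linarith⟩
      obtain ⟨w, hw, hwa, hwb, hwc⟩ := hw₂ a (by linarith) h3
      refine ⟨w, Finset.mem_union_right _ hw, hwa, hwb, hfin w ?_⟩
      rw [show a - (c₁ - Real.pi) = Real.pi - (c₁ - a) by ring, min_comm, d2_sin_min] at hwc
      rw [show a - c₁ = -(c₁ - a) by ring, Real.sin_neg, abs_neg]
      exact hwc.trans (le_abs_self _)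

/-- **The dichotomy with windows.** Proof. `zone_data2`. In the trivial case `dicho_trivial2` (`U = ∅`, `D = 0`).
Otherwise for every `k ≤ U.card` and both fields `Φ = cf (vf P Q)` and `-Φ` (`zone_zoneI`, `ZData.neg`) take
`lo, hi` from `zone_margin` and the windows `W_k` of `exists_windows` for `(lo + 4t, hi - 4t)`; `W` is the union:
`∑ 1/w.2 ≤ 2 (70n²+1) 16/t ≤ 2400 n²/t`. `B` is the union of `(0, 6t] ∪ [π-6t, π)` and of the sets
`{a | lo ≤ a ≤ hi, (a < lo + 5t or hi - 5t < a)}`, each of measure at most `10 t`: total at most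
`12 t + 2 (70n²+1) 10 t ≤ 1500 n² t`. If `a ∉ B` and `C` has no point with `|log (nm z) - u| ≤ D`, apply
`orbit_in_zone`; then `zone_margin` gives `lo ≤ a ≤ hi`, so `t ≤ a - lo - 4t`, `t ≤ hi - 4t - a`; take the window `w`
and `M = min (a-lo-4t) (hi-4t-a)`: `w.2 nm (Φ p) ≤ sin M nm (Φ p) ≤ (turn a Φ p).2` at the points `p` of the
lift, i.e. `w.2 nm z nm (turn a v z) ≤ |det2 z (turn a v z)|` at `z = cyl p` (as in `dichotomy`). -/
theorem dichotomy2 {n : ℕ} (hn : 1 ≤ n) {P Q : MvPolynomial (Fin 2) ℝ} (hP : P.totalDegree ≤ n)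
    (hQ : Q.totalDegree ≤ n) (hPQ : IsRelPrime P Q) (h0 : vf P Q 0 = 0) {t : ℝ} (ht : 0 < t)
    (ht4 : t * n ^ 4 ≤ 1 / 20) :
    ∃ (B : Set ℝ) (U : Finset ℝ) (D : ℝ) (W : Finset (ℝ × ℝ)),
      volume B ≤ ENNReal.ofReal (1500 * n ^ 2 * t) ∧
      U.card ≤ 70 * n ^ 2 ∧ 0 ≤ D ∧ D ≤ 200 / t ∧ (∀ w ∈ W, 0 < w.2) ∧
      (∑ w ∈ W, 1 / w.2) ≤ 2400 * n ^ 2 / t ∧
      ∀ a ∈ Set.Ioo 0 Real.pi, a ∉ B → ∀ C, IsClosedOrbit (turn a (vf P Q)) C →
        (∃ w ∈ W, w.1 ≤ a ∧ a ≤ w.1 + w.2 / 2 ∧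
          ∀ z ∈ C, w.2 * nm z * nm (turn a (vf P Q) z) ≤ |det2 z (turn a (vf P Q) z)|) ∨
          ∃ u ∈ U, ∃ z ∈ C, |Real.log (nm z) - u| ≤ D := by
  have hn1 : (1 : ℝ) ≤ n := by exact_mod_cast hn
  have hn2 : (1 : ℝ) ≤ (n : ℝ) ^ 2 := by nlinarith
  have hn4 : (1 : ℝ) ≤ (n : ℝ) ^ 4 := by nlinarith
  have ht1 : t ≤ 1 / 20 := by nlinarith
  rcases zone_data2 hn hP hQ hPQ ht ht4 with ⟨c₀, h⟩ | ⟨m, D, G, U, hZ, hD⟩
  · obtain ⟨B, W, hB, hW1, hW2, hW3⟩ := dicho_trivial2 h ht ht1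
    refine ⟨B, ∅, 0, W, hB.trans (ENNReal.ofReal_le_ofReal ?_), by simp, le_rfl, by positivity,
      hW1, hW2.trans ?_, fun a ha haB C _ => Or.inl ?_⟩
    · nlinarith
    · rw [div_le_div_iff_of_pos_right ht]
      linarith
    · obtain ⟨w, hw, hwa, hwb, hwc⟩ := hW3 a ha haB
      exact ⟨w, hw, hwa, hwb, fun z _ => hwc z⟩
  · set Φ : ℝ × ℝ → ℝ × ℝ := cf (vf P Q) with hΦ
    have hc2 : ContDiff ℝ 2 Φ := contDiff_cf P Q
    have hc2' : ContDiff ℝ 2 (fun p => -Φ p) := hc2.neg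
    have hper : ∀ p : ℝ × ℝ, Φ (p + (0, 2 * Real.pi)) = Φ p := fun p => cf_period _ p
    have hper' : ∀ p : ℝ × ℝ, (fun p => -Φ p) (p + (0, 2 * Real.pi)) = (fun p => -Φ p) p :=
      fun p => by simp only [hper p]
    choose lo hi hlh hhl hmar using fun k =>
      zone_margin hc2 hper ht ht1 hZ.m_le hZ.dense (zone_zoneI hZ k)
    choose lo' hi' hlh' hhl' hmar' using fun k =>
      zone_margin hc2' hper' ht ht1 hZ.m_le hZ.dense (zone_zoneI hZ.neg k)
    choose W hWp hWs hWw using fun k =>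
      exists_windows (lo k + 4 * t) (hi k - 4 * t) ht (by linarith [hhl k])
    choose W' hWp' hWs' hWw' using fun k =>
      exists_windows (lo' k + 4 * t) (hi' k - 4 * t) ht (by linarith [hhl' k])
    set Bk : ℕ → Set ℝ := fun k => (Set.Icc (lo k) (lo k + 5 * t) ∪ Set.Icc (hi k - 5 * t) (hi k)) ∪
      (Set.Icc (lo' k) (lo' k + 5 * t) ∪ Set.Icc (hi' k - 5 * t) (hi' k)) with hBk
    have hBkm : ∀ k, volume (Bk k) ≤ ENNReal.ofReal (20 * t) := by
      intro k
      refine (measure_union_le _ _).trans ?_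
      refine (add_le_add (measure_union_le _ _) (measure_union_le _ _)).trans ?_
      rw [Real.volume_Icc, Real.volume_Icc, Real.volume_Icc, Real.volume_Icc,
        ← ENNReal.ofReal_add (by linarith) (by linarith),
        ← ENNReal.ofReal_add (by linarith) (by linarith),
        ← ENNReal.ofReal_add (by linarith) (by linarith)]
      exact ENNReal.ofReal_le_ofReal (by linarith)
    have hcard : (U.card : ℝ) ≤ 70 * (n : ℝ) ^ 2 := by exact_mod_cast hZ.card
    refine ⟨(Set.Icc 0 (6 * t) ∪ Set.Icc (Real.pi - 6 * t) Real.pi) ∪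
      ⋃ k ∈ Finset.range (U.card + 1), Bk k, U, D,
      (Finset.range (U.card + 1)).biUnion (fun k => W k ∪ W' k), ?_, hZ.card, hZ.D_nonneg, hD,
      ?_, ?_, ?_⟩
    · have h1 : volume (⋃ k ∈ Finset.range (U.card + 1), Bk k) ≤
          ENNReal.ofReal (((U.card : ℝ) + 1) * (20 * t)) := by
        refine (measure_biUnion_finset_le _ _).trans ?_
        refine (Finset.sum_le_sum fun k _ => hBkm k).trans ?_
        rw [Finset.sum_const, Finset.card_range, nsmul_eq_mul, ← ENNReal.ofReal_natCast,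
          ← ENNReal.ofReal_mul (by positivity)]
        push_cast
        exact le_rfl
      refine (measure_union_le _ _).trans ?_
      refine (add_le_add (measure_union_le _ _) h1).trans ?_
      rw [Real.volume_Icc, Real.volume_Icc, ← ENNReal.ofReal_add (by linarith) (by linarith),
        ← ENNReal.ofReal_add (by linarith) (by positivity)]
      refine ENNReal.ofReal_le_ofReal ?_
      have h3 : ((U.card : ℝ) + 1) * 20 + 12 ≤ 1500 * (n : ℝ) ^ 2 := by linarith
      have h4 := mul_le_mul_of_nonneg_right h3 ht.le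
      linarith
    · intro w hw
      rw [Finset.mem_biUnion] at hw
      obtain ⟨k, -, hw⟩ := hw
      rcases Finset.mem_union.1 hw with hw | hw
      · exact hWp k w hw
      · exact hWp' k w hw
    · have h1 : ∀ k, (∑ w ∈ W k ∪ W' k, 1 / w.2) ≤ 32 / t := fun k =>
        (d2_sum_union (hWp k)).trans (by
          calc _ ≤ 16 / t + 16 / t := add_le_add (hWs k) (hWs' k)
            _ = 32 / t := by ring)
      have h2 : ∀ k, ∀ w ∈ W k ∪ W' k, 0 < w.2 := by
        intro k w hw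
        rcases Finset.mem_union.1 hw with hw | hw
        · exact hWp k w hw
        · exact hWp' k w hw
      refine (d2_sum_biUnion (W := fun k => W k ∪ W' k) h2 (U.card + 1) h1).trans ?_
      push_cast
      rw [mul_div_assoc', div_le_div_iff_of_pos_right ht]
      linarith
    · intro a ha haB C hC
      by_cases hout : ∀ z ∈ C, ∀ u ∈ U, D < |Real.log (nm z) - u|
      · left
        obtain ⟨k, hk, hpos⟩ := orbit_in_zone ((contDiff_vf P Q)) h0 (contDiff_cf P Q) hZ hC hout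
        have hkr : k ∈ Finset.range (U.card + 1) := Finset.mem_range.2 (by omega)
        have hBa : a ∉ Bk k := fun hcon => haB (Or.inr (Set.mem_biUnion hkr hcon))
        have ha6 : a ∈ Set.Ioo (6 * t) (Real.pi - 6 * t) := by
          constructor
          · by_contra hcon
            exact haB (Or.inl (Or.inl ⟨ha.1.le, not_lt.1 hcon⟩))
          · by_contra hcon
            exact haB (Or.inl (Or.inr ⟨not_lt.1 hcon, ha.2.le⟩))
        have key : ∀ p : ℝ × ℝ, (turn a Φ p).2 = det2 (cyl p) (turn a (vf P Q) (cyl p)) := by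
          intro p
          rw [d2_det2]
          rfl
        have key2 : ∀ p : ℝ × ℝ, nm (Φ p) = nm (cyl p) * nm (turn a (vf P Q) (cyl p)) := by
          intro p
          rw [nm_turn', ← nm_wf]
          rfl
        rcases hpos with hpos | hpos
        · obtain ⟨hla, hah, hM⟩ := hmar k a ha6 C hpos
          have h5 : lo k + 5 * t < a := by
            by_contra hcon
            exact hBa (Or.inl (Or.inl ⟨hla, not_lt.1 hcon⟩))
          have h6 : a < hi k - 5 * t := by
            by_contra hcon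
            exact hBa (Or.inl (Or.inr ⟨not_lt.1 hcon, hah⟩))
          obtain ⟨w, hw, hwa, hwb, hwc⟩ := hWw k a (by linarith) (by linarith)
          refine ⟨w, Finset.mem_biUnion.2 ⟨k, hkr, Finset.mem_union_left _ hw⟩, hwa, hwb, ?_⟩
          obtain ⟨σ, T, j, hj, hσ, hσI, hCσ⟩ := id hpos
          intro z hz
          rw [hCσ] at hz
          obtain ⟨s, rfl⟩ := hz
          have h7 := hM (σ s) (hσI s) (min (a - (lo k + 4 * t)) (hi k - 4 * t - a))
            (le_min (by linarith) (by linarith))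
            ((min_le_left _ _).trans (by linarith)) ((min_le_right _ _).trans (by linarith))
          rw [key, key2] at h7
          rw [mul_assoc]
          exact (mul_le_mul_of_nonneg_right hwc
            (mul_nonneg (d2_nm_nonneg _) (d2_nm_nonneg _))).trans (h7.trans (le_abs_self _))
        · obtain ⟨hla, hah, hM⟩ := hmar' k a ha6 C hpos
          have h5 : lo' k + 5 * t < a := by
            by_contra hcon
            exact hBa (Or.inr (Or.inl ⟨hla, not_lt.1 hcon⟩))
          have h6 : a < hi' k - 5 * t := by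
            by_contra hcon
            exact hBa (Or.inr (Or.inr ⟨not_lt.1 hcon, hah⟩))
          obtain ⟨w, hw, hwa, hwb, hwc⟩ := hWw' k a (by linarith) (by linarith)
          refine ⟨w, Finset.mem_biUnion.2 ⟨k, hkr, Finset.mem_union_right _ hw⟩, hwa, hwb, ?_⟩
          obtain ⟨σ, T, j, hj, hσ, hσI, hCσ⟩ := id hpos
          intro z hz
          rw [hCσ] at hz
          obtain ⟨s, rfl⟩ := hz
          have h7 := hM (σ s) (hσI s) (min (a - (lo' k + 4 * t)) (hi' k - 4 * t - a))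
            (le_min (by linarith) (by linarith))
            ((min_le_left _ _).trans (by linarith)) ((min_le_right _ _).trans (by linarith))
          have e1 : (turn a (fun p => -Φ p) (σ s)).2 = -(turn a Φ (σ s)).2 := by
            unfold turn
            simp only [Prod.fst_neg, Prod.snd_neg]
            ring
          have e2 : nm ((fun p => -Φ p) (σ s)) = nm (Φ (σ s)) := by
            unfold nm
            simp only [Prod.fst_neg, Prod.snd_neg, neg_sq]
          rw [e1, e2, key, key2] at h7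
          rw [mul_assoc]
          exact (mul_le_mul_of_nonneg_right hwc
            (mul_nonneg (d2_nm_nonneg _) (d2_nm_nonneg _))).trans (h7.trans (neg_le_abs _))
      · right
        push Not at hout
        obtain ⟨z, hz, u, hu, h⟩ := hout
        exact ⟨u, hu, z, hz, h⟩

end Pool.Agent.Lib.MP_95e7ec_an
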