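import Mathlib
import Pool.Agent.Lib.MP_95e7ec_an.Rq.Defs
import Pool.Agent.Lib.MP_95e7ec_an.Rb.Defs

/-!
# Rq, WDefs: definitions for the windowed star average
-/

set_option autoImplicit false

open Set Filter Topology MeasureTheory
open scoped ContDiff ENNReal

namespace Pool.Agent.Lib.MP_95e7ec_an

/-- `C` is a closed orbit of a turned field with the angle in the window `[a₀, a₀ + κ/2]`, does not
contain `q`, and is star-shaped about `q` with margin `κ` -/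
def IsStarW (v : ℝ × ℝ → ℝ × ℝ) (q : ℝ × ℝ) (κ a₀ : ℝ) (C : Set (ℝ × ℝ)) : Prop :=
  q ∉ C ∧ ∃ α ∈ Set.Ioo 0 Real.pi, a₀ ≤ α ∧ α ≤ a₀ + κ / 2 ∧ IsClosedOrbit (turn α v) C ∧
    ∀ z ∈ C, κ * nm (z - q) * nm (turn α v z) ≤ |det2 (z - q) (turn α v z)|

open scoped Classical in
/-- the indicator of `IsStarW` -/
noncomputable def starIndW (v : ℝ × ℝ → ℝ × ℝ) (q : ℝ × ℝ) (κ a₀ : ℝ) (C : Set (ℝ × ℝ)) : ℝ≥0∞ :=
  if IsStarW v q κ a₀ C then 1 else 0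

/-- the weight `|X|² |z-q|² / (κ² ⟨z-q, Y⟩² + det (z-q, Y)²)`, `Y = e^{i a₀} X` -/
noncomputable def wtW {D : ℕ} (μ : Pr D) (q : ℝ × ℝ) (κ a₀ : ℝ) (z : ℝ × ℝ) : ℝ :=
  (nm (vfc μ z) ^ 2 * nm (z - q) ^ 2) /
    (κ ^ 2 * ((z.1 - q.1) * (turn a₀ (vfc μ) z).1 + (z.2 - q.2) * (turn a₀ (vfc μ) z).2) ^ 2 +
      det2 (z - q) (turn a₀ (vfc μ) z) ^ 2)

end Pool.Agent.Lib.MP_95e7ec_an
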