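import Mathlib
import Pool.Agent.Lib.MP_95e7ec_an.Rq.Defs
import Pool.Agent.Lib.MP_95e7ec_an.Rq.Dicho2
import Pool.Agent.Lib.MP_95e7ec_an.Rq.Shift
import Pool.Agent.Lib.MP_95e7ec_an.Rq.WDefs

/-!
# Rq, Shift2: the dichotomy with windows about any zero of the field
-/

set_option autoImplicit false

open Set Filter Topology MeasureTheory
open scoped ContDiff ENNReal

namespace Pool.Agent.Lib.MP_95e7ec_an

/-- Proof: the same as `dichotomy_at` (Shift.lean), with `dichotomy2`. `R.card ≤ 70n² (2D+1) ≤ 70 n² · 401/t`. -/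
theorem dichotomy_at2 {n : ℕ} (hn : 1 ≤ n) {P Q : MvPolynomial (Fin 2) ℝ}
    (hP : P.totalDegree ≤ n) (hQ : Q.totalDegree ≤ n) (hPQ : IsRelPrime P Q) {q : ℝ × ℝ}
    (h0 : vf P Q q = 0) {t : ℝ} (ht : 0 < t) (ht4 : t * n ^ 4 ≤ 1 / 20) :
    ∃ (B : Set ℝ) (R : Finset ℝ) (W : Finset (ℝ × ℝ)),
      volume B ≤ ENNReal.ofReal (1500 * n ^ 2 * t) ∧
      (R.card : ℝ) ≤ 30000 * n ^ 2 / t ∧ (∀ r ∈ R, 0 < r) ∧ (∀ w ∈ W, 0 < w.2) ∧
      (∑ w ∈ W, 1 / w.2) ≤ 2400 * n ^ 2 / t ∧
      ∀ a ∈ Set.Ioo 0 Real.pi, a ∉ B → ∀ C, IsClosedOrbit (turn a (vf P Q)) C →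
        q ∈ convexHull ℝ C → (∃ w ∈ W, IsStarW (vf P Q) q w.2 w.1 C) ∨
          ∃ r ∈ R, IsNear q r (3 * r) C := by
  classical
  obtain ⟨B, U, D, W, hB, hU, hD0, hD1, hW0, hW1, hmain⟩ := dichotomy2 hn
    ((totalDegree_shiftP q P).trans hP) ((totalDegree_shiftP q Q).trans hQ)
    (isRelPrime_shiftP q hPQ) (by rw [vf_shiftP, zero_add, h0]) ht ht4
  have hn1 : (1 : ℝ) ≤ n := by exact_mod_cast hn
  have ht1 : t ≤ 1 := by
    have h1 : (1 : ℝ) ≤ (n : ℝ) ^ 4 := one_le_pow₀ hn1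
    nlinarith
  refine ⟨B, (U ×ˢ Finset.range (⌊2 * D⌋₊ + 1)).image fun p => Real.exp (p.1 - D + p.2), W, hB,
    ?_, ?_, hW0, hW1, ?_⟩
  · have h1 : (((U ×ˢ Finset.range (⌊2 * D⌋₊ + 1)).image fun p : ℝ × ℕ =>
        Real.exp (p.1 - D + p.2)).card : ℝ) ≤ U.card * ((⌊2 * D⌋₊ : ℝ) + 1) := by
      have h2 := Finset.card_image_le (s := U ×ˢ Finset.range (⌊2 * D⌋₊ + 1))
        (f := fun p : ℝ × ℕ => Real.exp (p.1 - D + p.2))
      rw [Finset.card_product, Finset.card_range] at h2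
      exact_mod_cast h2
    refine h1.trans ?_
    have h3 : (⌊2 * D⌋₊ : ℝ) ≤ 2 * D := Nat.floor_le (by linarith)
    have h4 : (U.card : ℝ) ≤ 70 * n ^ 2 := by exact_mod_cast hU
    have h5 : (1 : ℝ) ≤ 1 / t := by rw [le_div_iff₀ ht]; linarith
    have h7 : 200 / t = 200 * (1 / t) := by ring
    rw [h7] at hD1
    calc (U.card : ℝ) * ((⌊2 * D⌋₊ : ℝ) + 1)
        ≤ (70 * n ^ 2) * (2 * (200 * (1 / t)) + 1 / t) := by
          apply mul_le_mul h4 _ (by positivity) (by positivity)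
          linarith
      _ = 28070 * ((n : ℝ) ^ 2 * (1 / t)) := by ring
      _ ≤ 30000 * ((n : ℝ) ^ 2 * (1 / t)) := by
          apply mul_le_mul_of_nonneg_right (by norm_num) (by positivity)
      _ = 30000 * n ^ 2 / t := by ring
  · intro r hr
    obtain ⟨p, _, rfl⟩ := Finset.mem_image.1 hr
    exact Real.exp_pos _
  · intro a ha haB C hC hq
    have hcd : ContDiff ℝ 1 (turn a (vf P Q)) := contDiff_turn (contDiff_vf P Q) a
    have hzero : turn a (vf P Q) q = 0 := turn_eq_zero.2 h0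
    have hqC : q ∉ C := fun hqC => hC.ne_zero_of_contDiff hcd hqC hzero
    have hC' : IsClosedOrbit (turn a (vf (shiftP q P) (shiftP q Q)))
        ((fun y => -q + (ContinuousLinearEquiv.refl ℝ (ℝ × ℝ)) y) '' C) := by
      refine hC.affine (-q) (ContinuousLinearEquiv.refl ℝ (ℝ × ℝ)) 1 one_pos ?_
      intro y
      simp only [ContinuousLinearEquiv.refl_apply, inv_one, one_smul]
      unfold turn
      rw [vf_shiftP]
      have : -q + y + q = y := by abel
      rw [this]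
    have htq : ∀ z, turn a (vf (shiftP q P) (shiftP q Q)) (-q + z) = turn a (vf P Q) z := by
      intro z
      unfold turn
      rw [vf_shiftP]
      have : -q + z + q = z := by abel
      rw [this]
    rcases hmain a ha haB _ hC' with ⟨w, hw, hwa, hwa', hs⟩ | ⟨u, hu, _, ⟨z, hz, rfl⟩, hzu⟩
    · left
      refine ⟨w, hw, hqC, a, ha, hwa, hwa', hC, fun z hz => ?_⟩
      have h1 := hs (-q + z) ⟨z, hz, rfl⟩
      rw [htq] at h1
      have h2 : z - q = -q + z := by abel
      rw [h2]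
      exact h1
    · right
      simp only [ContinuousLinearEquiv.refl_apply] at hzu
      have h2 : -q + z = z - q := by abel
      rw [h2] at hzu
      have hzq : z - q ≠ 0 := by
        intro h
        rw [sub_eq_zero] at h
        exact hqC (h ▸ hz)
      have hpos : 0 < nm (z - q) := nm_pos hzq
      have habs := abs_le.1 hzu
      set x : ℝ := Real.log (nm (z - q)) - (u - D) with hx
      have hx0 : 0 ≤ x := by rw [hx]; linarith [habs.1]
      have hx1 : x ≤ 2 * D := by rw [hx]; linarith [habs.2]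
      have hfl := Nat.floor_le hx0
      have hfl' := Nat.lt_floor_add_one x
      have hlog : nm (z - q) = Real.exp (u - D + x) := by
        rw [hx, ← Real.exp_log hpos]
        congr 1
        rw [Real.exp_log hpos]
        ring
      have hr1 : Real.exp (u - D + (⌊x⌋₊ : ℕ)) ≤ nm (z - q) := by
        rw [hlog]
        exact Real.exp_le_exp.2 (by linarith)
      have hr2 : nm (z - q) ≤ 3 * Real.exp (u - D + (⌊x⌋₊ : ℕ)) := by
        rw [hlog]
        have h3 : Real.exp (u - D + x) ≤ Real.exp (1 + (u - D + (⌊x⌋₊ : ℕ))) :=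
          Real.exp_le_exp.2 (by linarith)
        refine h3.trans ?_
        rw [Real.exp_add]
        exact mul_le_mul_of_nonneg_right (by linarith [Real.exp_one_lt_d9]) (Real.exp_pos _).le
      refine ⟨Real.exp (u - D + (⌊x⌋₊ : ℕ)), Finset.mem_image.2 ⟨(u, ⌊x⌋₊), ?_, rfl⟩,
        ⟨z, hz, hr2⟩, z, hz, ?_⟩
      · rw [Finset.mem_product, Finset.mem_range]
        exact ⟨hu, Nat.lt_succ_of_le (Nat.floor_le_floor hx1)⟩
      · by_contra hcon
        push Not at hcon
        have hcont : ContinuousOn (fun z' : ℝ × ℝ => nm (z - z')) C :=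
          (continuous_nm.comp (continuous_const.sub continuous_id)).continuousOn
        obtain ⟨w, hw, hwmax⟩ := hC.isCompact.exists_isMaxOn ⟨z, hz⟩ hcont
        have h5 : nm (z - q) ≤ nm (z - w) :=
          nm_le_of_mem_hull (fun p hp => hwmax hp) (Real.sqrt_nonneg _) hq
        linarith [hcon w hw]

end Pool.Agent.Lib.MP_95e7ec_an
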