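import Mathlib
import Pool.Agent.Lib.MP_95e7ec_an.Rq.Defs
import Pool.Agent.Lib.MP_95e7ec_an.Rq.WDefs
import Pool.Agent.Lib.MP_95e7ec_an.Rb.RadInt

/-!
# Rq, RayW: the weighted radial variation of the argument
-/

set_option autoImplicit false

open Set Filter Topology MeasureTheory
open scoped ContDiff ENNReal

namespace Pool.Agent.Lib.MP_95e7ec_an

/-- the restriction of an array to the ray from `q` in the direction `(u, v)` -/
private noncomputable def radW_pol {n : ℕ} (c : Co n) (q : ℝ × ℝ) (u v : ℝ) : Polynomial ℝ :=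
  ∑ a : Fin (n + 1), ∑ b : Fin (n + 1), Polynomial.C (c a b) *
    ((Polynomial.C q.1 + Polynomial.C u * Polynomial.X) ^ (a : ℕ) *
      (Polynomial.C q.2 + Polynomial.C v * Polynomial.X) ^ (b : ℕ))

private theorem radW_eval {n : ℕ} (c : Co n) (q : ℝ × ℝ) (u v r : ℝ) :
    (radW_pol c q u v).eval r = pe c (q.1 + u * r) (q.2 + v * r) := by
  simp only [radW_pol, pe, Polynomial.eval_finsetSum, Polynomial.eval_mul, Polynomial.eval_C,
    Polynomial.eval_pow, Polynomial.eval_X, Polynomial.eval_add, smul_eq_mul]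

private theorem radW_eval' {n : ℕ} (c : Co n) (q : ℝ × ℝ) (u v r : ℝ) :
    (radW_pol c q u v).derivative.eval r =
      pex c (q.1 + u * r) (q.2 + v * r) * u + pey c (q.1 + u * r) (q.2 + v * r) * v := by
  simp only [radW_pol, pex, pey, Polynomial.derivative_sum, Polynomial.eval_finsetSum,
    Polynomial.derivative_mul, Polynomial.derivative_C, zero_mul, zero_add,
    Polynomial.derivative_pow, Polynomial.derivative_add, Polynomial.derivative_X,
    Polynomial.eval_mul, Polynomial.eval_C, Polynomial.eval_add,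
    Polynomial.eval_pow, Polynomial.eval_X, smul_eq_mul, mul_one]
  rw [Finset.sum_mul, Finset.sum_mul, ← Finset.sum_add_distrib]
  refine Finset.sum_congr rfl fun a _ => ?_
  rw [Finset.sum_mul, Finset.sum_mul, ← Finset.sum_add_distrib]
  refine Finset.sum_congr rfl fun b _ => ?_
  ring

private theorem radW_deg {n : ℕ} (c : Co n) (q : ℝ × ℝ) (u v : ℝ) :
    (radW_pol c q u v).natDegree ≤ 2 * n := by
  have h1 : ∀ s t : ℝ, (Polynomial.C s + Polynomial.C t * Polynomial.X).natDegree ≤ 1 := by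
    intro s t
    refine (Polynomial.natDegree_add_le _ _).trans (max_le ?_ ?_)
    · simp
    · simpa using Polynomial.natDegree_C_mul_X_pow_le t 1
  apply Polynomial.natDegree_sum_le_of_forall_le
  intro a _
  apply Polynomial.natDegree_sum_le_of_forall_le
  intro b _
  refine (Polynomial.natDegree_C_mul_le _ _).trans ?_
  refine Polynomial.natDegree_mul_le.trans ?_
  have ha : ((Polynomial.C q.1 + Polynomial.C u * Polynomial.X) ^ (a : ℕ)).natDegree ≤ n := by
    refine Polynomial.natDegree_pow_le.trans ?_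
    have := h1 q.1 u
    calc (a : ℕ) * _ ≤ (a : ℕ) * 1 := Nat.mul_le_mul_left _ this
      _ ≤ n := by omega
  have hb : ((Polynomial.C q.2 + Polynomial.C v * Polynomial.X) ^ (b : ℕ)).natDegree ≤ n := by
    refine Polynomial.natDegree_pow_le.trans ?_
    have := h1 q.2 v
    calc (b : ℕ) * _ ≤ (b : ℕ) * 1 := Nat.mul_le_mul_left _ this
      _ ≤ n := by omega
  omega

/-- linear combination of the two polynomials -/
private noncomputable def radW_lin {n : ℕ} (μ : Pr n) (q : ℝ × ℝ) (φ s t : ℝ) : Polynomial ℝ :=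
  Polynomial.C s * radW_pol μ.1 q (Real.cos φ) (Real.sin φ) +
    Polynomial.C t * radW_pol μ.2 q (Real.cos φ) (Real.sin φ)

private theorem radW_lin_deg {n : ℕ} (μ : Pr n) (q : ℝ × ℝ) (φ s t : ℝ) :
    (radW_lin μ q φ s t).natDegree ≤ 2 * n :=
  (Polynomial.natDegree_add_le _ _).trans (max_le
    ((Polynomial.natDegree_C_mul_le _ _).trans (radW_deg _ _ _ _))
    ((Polynomial.natDegree_C_mul_le _ _).trans (radW_deg _ _ _ _)))

private noncomputable def radW_f {n : ℕ} (c : Co n) (q : ℝ × ℝ) (r φ : ℝ) : ℝ :=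
  pe c (q.1 + Real.cos φ * r) (q.2 + Real.sin φ * r)

private noncomputable def radW_f' {n : ℕ} (c : Co n) (q : ℝ × ℝ) (r φ : ℝ) : ℝ :=
  pex c (q.1 + Real.cos φ * r) (q.2 + Real.sin φ * r) * Real.cos φ +
    pey c (q.1 + Real.cos φ * r) (q.2 + Real.sin φ * r) * Real.sin φ

private theorem radW_lin_eval {n : ℕ} (μ : Pr n) (q : ℝ × ℝ) (φ s t r : ℝ) :
    (radW_lin μ q φ s t).eval r = s * radW_f μ.1 q r φ + t * radW_f μ.2 q r φ := by
  rw [radW_lin, Polynomial.eval_add, Polynomial.eval_mul, Polynomial.eval_mul, Polynomial.eval_C,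
    Polynomial.eval_C, radW_eval, radW_eval]
  rfl

private theorem radW_lin_eval' {n : ℕ} (μ : Pr n) (q : ℝ × ℝ) (φ s t r : ℝ) :
    (radW_lin μ q φ s t).derivative.eval r = s * radW_f' μ.1 q r φ + t * radW_f' μ.2 q r φ := by
  rw [radW_lin, Polynomial.derivative_add, Polynomial.derivative_C_mul,
    Polynomial.derivative_C_mul, Polynomial.eval_add, Polynomial.eval_mul, Polynomial.eval_mul,
    Polynomial.eval_C, Polynomial.eval_C, radW_eval', radW_eval']
  rfl

/-- the weighted variation density along the ray -/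
private noncomputable def radW_G {n : ℕ} (μ : Pr n) (q : ℝ × ℝ) (s t s' t' r φ : ℝ) : ℝ :=
  |(s * radW_f μ.1 q r φ + t * radW_f μ.2 q r φ) *
      (s' * radW_f' μ.1 q r φ + t' * radW_f' μ.2 q r φ) -
    (s' * radW_f μ.1 q r φ + t' * radW_f μ.2 q r φ) *
      (s * radW_f' μ.1 q r φ + t * radW_f' μ.2 q r φ)| /
    ((s * radW_f μ.1 q r φ + t * radW_f μ.2 q r φ) ^ 2 +
      (s' * radW_f μ.1 q r φ + t' * radW_f μ.2 q r φ) ^ 2)

private theorem radW_line {n : ℕ} (μ : Pr n) (q : ℝ × ℝ) (s t s' t' φ : ℝ) :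
    ∫⁻ r : ℝ, ENNReal.ofReal (radW_G μ q s t s' t' r φ) ≤ ENNReal.ofReal (2 * n * Real.pi) := by
  by_cases h : radW_lin μ q φ s t ≠ 0 ∨ radW_lin μ q φ s' t' ≠ 0
  · have := lintegral_line (n := 2 * n) _ _ (radW_lin_deg _ _ _ _ _) (radW_lin_deg _ _ _ _ _) h
    push_cast at this
    simpa only [radW_lin_eval, radW_lin_eval', radW_G] using this
  · push Not at h
    have h0 : ∀ r, radW_G μ q s t s' t' r φ = 0 := by
      intro r
      have e1 : s * radW_f μ.1 q r φ + t * radW_f μ.2 q r φ = 0 := by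
        rw [← radW_lin_eval, h.1, Polynomial.eval_zero]
      have e2 : s' * radW_f μ.1 q r φ + t' * radW_f μ.2 q r φ = 0 := by
        rw [← radW_lin_eval, h.2, Polynomial.eval_zero]
      simp [radW_G, e1, e2]
    simp only [h0, ENNReal.ofReal_zero, lintegral_const, zero_mul]
    simp

private theorem radW_cont {n : ℕ} (c : Co n) (q : ℝ × ℝ) :
    (Continuous fun p : ℝ × ℝ => radW_f c q p.1 p.2) ∧
      Continuous fun p : ℝ × ℝ => radW_f' c q p.1 p.2 := by
  have h1 : Continuous fun p : ℝ × ℝ =>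
      pe c (q.1 + Real.cos p.2 * p.1) (q.2 + Real.sin p.2 * p.1) := by
    unfold pe; fun_prop
  have h2 : Continuous fun p : ℝ × ℝ =>
      pex c (q.1 + Real.cos p.2 * p.1) (q.2 + Real.sin p.2 * p.1) := by
    unfold pex; fun_prop
  have h3 : Continuous fun p : ℝ × ℝ =>
      pey c (q.1 + Real.cos p.2 * p.1) (q.2 + Real.sin p.2 * p.1) := by
    unfold pey; fun_prop
  have hc : Continuous fun p : ℝ × ℝ => Real.cos p.2 := by fun_prop
  have hs : Continuous fun p : ℝ × ℝ => Real.sin p.2 := by fun_prop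
  exact ⟨h1, (h2.mul hc).add (h3.mul hs)⟩

private theorem radW_meas {n : ℕ} (μ : Pr n) (q : ℝ × ℝ) (s t s' t' : ℝ → ℝ)
    (hs : Continuous s) (ht : Continuous t) (hs' : Continuous s') (ht' : Continuous t') :
    Measurable fun p : ℝ × ℝ => radW_G μ q (s p.2) (t p.2) (s' p.2) (t' p.2) p.1 p.2 := by
  obtain ⟨a1, a2⟩ := radW_cont μ.1 q
  obtain ⟨b1, b2⟩ := radW_cont μ.2 q
  have c1 := hs.comp (continuous_snd (X := ℝ) (Y := ℝ))
  have c2 := ht.comp (continuous_snd (X := ℝ) (Y := ℝ))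
  have c3 := hs'.comp (continuous_snd (X := ℝ) (Y := ℝ))
  have c4 := ht'.comp (continuous_snd (X := ℝ) (Y := ℝ))
  unfold radW_G
  apply Measurable.div
  · exact ((((c1.mul a1).add (c2.mul b1)).mul ((c3.mul a2).add (c4.mul b2))).sub
      (((c3.mul a1).add (c4.mul b1)).mul ((c1.mul a2).add (c2.mul b2)))).abs.measurable
  · exact ((((c1.mul a1).add (c2.mul b1)).pow 2).add
      (((c3.mul a1).add (c4.mul b1)).pow 2)).measurable

private theorem radW_eq {n : ℕ} (μ : Pr n) (q : ℝ × ℝ) {κ : ℝ} (hκ : 0 < κ) (a₀ : ℝ) {r : ℝ}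
    (hr : 0 < r) (φ : ℝ) :
    r * (radG μ q ((r * Real.cos φ, r * Real.sin φ) + q) *
      wtW μ q κ a₀ ((r * Real.cos φ, r * Real.sin φ) + q)) =
      κ⁻¹ * radW_G μ q (κ * (Real.cos φ * Real.cos a₀ + Real.sin φ * Real.sin a₀))
        (κ * (Real.sin φ * Real.cos a₀ - Real.cos φ * Real.sin a₀))
        (-(Real.sin φ * Real.cos a₀ - Real.cos φ * Real.sin a₀))
        (Real.cos φ * Real.cos a₀ + Real.sin φ * Real.sin a₀) r φ := by
  have e1 : ((r * Real.cos φ, r * Real.sin φ) + q).1 = q.1 + Real.cos φ * r := by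
    simp only [Prod.fst_add]; ring
  have e2 : ((r * Real.cos φ, r * Real.sin φ) + q).2 = q.2 + Real.sin φ * r := by
    simp only [Prod.snd_add]; ring
  have e3 : nm ((r * Real.cos φ, r * Real.sin φ) + q - q) ^ 2 = r ^ 2 := by
    rw [add_sub_cancel_right, nm, Real.sq_sqrt (by positivity)]
    have := Real.sin_sq_add_cos_sq φ
    simp only
    linear_combination r ^ 2 * this
  have e4 : q.1 + Real.cos φ * r - q.1 = Real.cos φ * r := by ring
  have e5 : q.2 + Real.sin φ * r - q.2 = Real.sin φ * r := by ring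
  have e6 : nm (vfc μ ((r * Real.cos φ, r * Real.sin φ) + q)) ^ 2 =
      radW_f μ.1 q r φ ^ 2 + radW_f μ.2 q r φ ^ 2 := by
    rw [nm, Real.sq_sqrt (by positivity), vfc, e1, e2]
    rfl
  have e7 : det2 ((r * Real.cos φ, r * Real.sin φ) + q - q)
      (turn a₀ (vfc μ) ((r * Real.cos φ, r * Real.sin φ) + q)) =
      r * (-(Real.sin φ * Real.cos a₀ - Real.cos φ * Real.sin a₀) * radW_f μ.1 q r φ +
        (Real.cos φ * Real.cos a₀ + Real.sin φ * Real.sin a₀) * radW_f μ.2 q r φ) := by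
    rw [add_sub_cancel_right, det2, turn, vfc, e1, e2, radW_f, radW_f]
    ring
  have e8 : Real.cos φ * r * (turn a₀ (vfc μ) ((r * Real.cos φ, r * Real.sin φ) + q)).1 +
      Real.sin φ * r * (turn a₀ (vfc μ) ((r * Real.cos φ, r * Real.sin φ) + q)).2 =
      r * ((Real.cos φ * Real.cos a₀ + Real.sin φ * Real.sin a₀) * radW_f μ.1 q r φ +
        (Real.sin φ * Real.cos a₀ - Real.cos φ * Real.sin a₀) * radW_f μ.2 q r φ) := by
    rw [turn, vfc, e1, e2, radW_f, radW_f]
    ring
  have hAB : (Real.cos φ * Real.cos a₀ + Real.sin φ * Real.sin a₀) ^ 2 +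
      (Real.sin φ * Real.cos a₀ - Real.cos φ * Real.sin a₀) ^ 2 = 1 := by
    have h1 := Real.sin_sq_add_cos_sq φ
    have h2 := Real.sin_sq_add_cos_sq a₀
    linear_combination (Real.sin a₀ ^ 2 + Real.cos a₀ ^ 2) * h1 + h2
  have e9 : radG μ q ((r * Real.cos φ, r * Real.sin φ) + q) =
      |radW_f μ.1 q r φ * radW_f' μ.2 q r φ - radW_f μ.2 q r φ * radW_f' μ.1 q r φ| /
        ((radW_f μ.1 q r φ ^ 2 + radW_f μ.2 q r φ ^ 2) * r) := by
    unfold radG radW_f radW_f'
    rw [e3, e1, e2, e4, e5]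
    set a := pe μ.1 (q.1 + Real.cos φ * r) (q.2 + Real.sin φ * r)
    set b := pe μ.2 (q.1 + Real.cos φ * r) (q.2 + Real.sin φ * r)
    have e6 : ∀ x y x' y' : ℝ, a * (x * (Real.cos φ * r) + y * (Real.sin φ * r)) -
        b * (x' * (Real.cos φ * r) + y' * (Real.sin φ * r)) =
        r * (a * (x * Real.cos φ + y * Real.sin φ) -
          b * (x' * Real.cos φ + y' * Real.sin φ)) := by
      intro x y x' y'; ring
    rw [e6, abs_mul, abs_of_pos hr]
    by_cases h : a ^ 2 + b ^ 2 = 0
    · rw [h]; simp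
    · field_simp
  rw [e9]
  unfold wtW radW_G
  rw [e3, e6, e1, e2, e4, e5, e8, e7]
  generalize Real.cos φ * Real.cos a₀ + Real.sin φ * Real.sin a₀ = A at *
  generalize Real.sin φ * Real.cos a₀ - Real.cos φ * Real.sin a₀ = B at *
  generalize radW_f μ.1 q r φ = a at *
  generalize radW_f μ.2 q r φ = b at *
  generalize radW_f' μ.1 q r φ = a' at *
  generalize radW_f' μ.2 q r φ = b' at *
  have e10 : (κ * A * a + κ * B * b) * (-B * a' + A * b') -
      (-B * a + A * b) * (κ * A * a' + κ * B * b') = κ * (a * b' - b * a') := by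
    linear_combination (κ * (a * b' - b * a')) * hAB
  rw [e10, abs_mul, abs_of_pos hκ]
  by_cases h : a ^ 2 + b ^ 2 = 0
  · have ha2 : a ^ 2 = 0 := le_antisymm (by linarith [sq_nonneg b]) (sq_nonneg a)
    have hb2 : b ^ 2 = 0 := le_antisymm (by linarith [sq_nonneg a]) (sq_nonneg b)
    have ha : a = 0 := pow_eq_zero_iff (two_ne_zero) |>.1 ha2
    have hb : b = 0 := pow_eq_zero_iff (two_ne_zero) |>.1 hb2
    rw [ha, hb]
    simp
  · have e11 : κ ^ 2 * (r * (A * a + B * b)) ^ 2 + (r * (-B * a + A * b)) ^ 2 =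
        r ^ 2 * ((κ * A * a + κ * B * b) ^ 2 + (-B * a + A * b) ^ 2) := by ring
    rw [e11]
    have h2 : (κ * A * a + κ * B * b) ^ 2 + (-B * a + A * b) ^ 2 ≠ 0 := by
      intro hc
      have h3 : (κ * A * a + κ * B * b) ^ 2 = 0 :=
        le_antisymm (by linarith [sq_nonneg (-B * a + A * b)]) (sq_nonneg _)
      have h4 : (-B * a + A * b) ^ 2 = 0 :=
        le_antisymm (by linarith [sq_nonneg (κ * A * a + κ * B * b)]) (sq_nonneg _)
      have h5 : κ ^ 2 * (A * a + B * b) ^ 2 = 0 := by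
        rw [← h3]
        ring
      have h6 : (A * a + B * b) ^ 2 = 0 :=
        (mul_eq_zero.1 h5).resolve_left (pow_ne_zero 2 hκ.ne')
      apply h
      have h7 : a ^ 2 + b ^ 2 = (A * a + B * b) ^ 2 + (-B * a + A * b) ^ 2 := by
        linear_combination (-(a ^ 2 + b ^ 2)) * hAB
      rw [h7, h4, h6, add_zero]
    have hr' := hr.ne'
    have hκ' := hκ.ne'
    clear e9 e8 e7 e6 e5 e4 e3 e2 e1 e10 e11 hAB
    generalize (κ * A * a + κ * B * b) ^ 2 + (-B * a + A * b) ^ 2 = D at *
    generalize |a * b' - b * a'| = M at *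
    generalize a ^ 2 + b ^ 2 = S at *
    calc r * (M / (S * r) * (S * r ^ 2 / (r ^ 2 * D))) =
          (r / r) * (S / S) * ((r ^ 2) / (r ^ 2)) * (M / D) := by
            field_simp
      _ = M / D := by
            rw [div_self hr', div_self h, div_self (pow_ne_zero 2 hr'), one_mul, one_mul, one_mul]
      _ = κ⁻¹ * (κ * M / D) := by
            rw [mul_div_assoc, ← mul_assoc, inv_mul_cancel₀ hκ', one_mul]

/-- Proof: as `lintegral_radG` (Rb/RadInt.lean: copy the private lemmas; polar coordinates about `q`). On the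
ray of direction `dirv φ` put `u r = ` real part, `v r = ` imaginary part of
`e^{i a₀} X(q + r e^{iφ}) e^{-iφ}` (linear combinations with constant coefficients of the two
polynomials `radInt_pol μ.1`, `radInt_pol μ.2` of degree `≤ 2n` in `r`). Then
`r radG(z) = |u v' - v u'| / (u² + v²)` (invariance under turning) and the weight is
`wtW = (u² + v²) / (κ² u² + v²)` (the factor `r²` cancels), so the product is
`κ⁻¹ |(κu) v' - v (κu)'| / ((κu)² + v²)`, and `lintegral_line` (for `κ u` and `v`) gives at most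
`κ⁻¹ 2n π` for each `φ`. -/
theorem lintegral_radW {n : ℕ} (μ : Pr n) (q : ℝ × ℝ) {κ : ℝ} (hκ : 0 < κ) (a₀ : ℝ) :
    ∫⁻ z : ℝ × ℝ, ENNReal.ofReal (radG μ q z * wtW μ q κ a₀ z) ≤
      ENNReal.ofReal (4 * Real.pi ^ 2 * n / κ) := by
  have hpi := Real.pi_pos
  have hi : 0 ≤ κ⁻¹ := inv_nonneg.2 hκ.le
  rw [← lintegral_add_right_eq_self
    (fun z : ℝ × ℝ => ENNReal.ofReal (radG μ q z * wtW μ q κ a₀ z)) q,
    ← lintegral_comp_polarCoord_symm]
  have hm : MeasurableSet polarCoord.target := by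
    rw [polarCoord_target]
    exact measurableSet_Ioi.prod measurableSet_Ioo
  set G : ℝ → ℝ → ℝ := fun r φ =>
    radW_G μ q (κ * (Real.cos φ * Real.cos a₀ + Real.sin φ * Real.sin a₀))
        (κ * (Real.sin φ * Real.cos a₀ - Real.cos φ * Real.sin a₀))
        (-(Real.sin φ * Real.cos a₀ - Real.cos φ * Real.sin a₀))
        (Real.cos φ * Real.cos a₀ + Real.sin φ * Real.sin a₀) r φ with hG
  have hGm : Measurable fun p : ℝ × ℝ => G p.1 p.2 :=
    radW_meas μ q (fun φ => κ * (Real.cos φ * Real.cos a₀ + Real.sin φ * Real.sin a₀))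
      (fun φ => κ * (Real.sin φ * Real.cos a₀ - Real.cos φ * Real.sin a₀))
      (fun φ => -(Real.sin φ * Real.cos a₀ - Real.cos φ * Real.sin a₀))
      (fun φ => Real.cos φ * Real.cos a₀ + Real.sin φ * Real.sin a₀)
      (by fun_prop) (by fun_prop) (by fun_prop) (by fun_prop)
  calc ∫⁻ p : ℝ × ℝ in polarCoord.target,
        ENNReal.ofReal p.1 • ENNReal.ofReal (radG μ q (polarCoord.symm p + q) *
          wtW μ q κ a₀ (polarCoord.symm p + q))
      = ∫⁻ p : ℝ × ℝ in polarCoord.target, ENNReal.ofReal (κ⁻¹ * G p.1 p.2) := by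
        apply setLIntegral_congr_fun hm
        rintro ⟨r, φ⟩ hp
        rw [polarCoord_target] at hp
        have hr : 0 < r := hp.1
        simp only [smul_eq_mul, polarCoord_symm_apply]
        rw [← ENNReal.ofReal_mul hr.le, radW_eq μ q hκ a₀ hr φ]
    _ ≤ ∫⁻ p : ℝ × ℝ in Set.univ ×ˢ Set.Ioo (-Real.pi) Real.pi,
          ENNReal.ofReal (κ⁻¹ * G p.1 p.2) := by
        apply lintegral_mono_set
        rw [polarCoord_target]
        exact Set.prod_mono (Set.subset_univ _) subset_rfl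
    _ = ∫⁻ φ in Set.Ioo (-Real.pi) Real.pi, ∫⁻ r in Set.univ,
          ENNReal.ofReal (κ⁻¹ * G r φ) := by
        rw [Measure.volume_eq_prod]
        exact setLIntegral_prod_symm _ (hGm.const_mul κ⁻¹).ennreal_ofReal.aemeasurable
    _ ≤ ∫⁻ φ in Set.Ioo (-Real.pi) Real.pi,
          ENNReal.ofReal κ⁻¹ * ENNReal.ofReal (2 * n * Real.pi) := by
        apply lintegral_mono
        intro φ
        rw [Measure.restrict_univ]
        simp only [ENNReal.ofReal_mul hi]
        rw [lintegral_const_mul']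
        · exact mul_le_mul_right (radW_line μ q _ _ _ _ φ) _
        · exact ENNReal.ofReal_ne_top
    _ = ENNReal.ofReal (4 * Real.pi ^ 2 * n / κ) := by
        rw [setLIntegral_const, Real.volume_Ioo, mul_comm, ← ENNReal.ofReal_mul hi,
          ← ENNReal.ofReal_mul (by linarith)]
        congr 1
        field_simp
        ring

theorem measurable_radW {D : ℕ} (μ : Pr D) (q : ℝ × ℝ) (κ a₀ : ℝ) :
    Measurable fun z => radG μ q z * wtW μ q κ a₀ z := by
  have h1 : ∀ c : Co D, Continuous fun z : ℝ × ℝ => pe c z.1 z.2 := fun c => by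
    unfold pe; fun_prop
  have h2 : ∀ c : Co D, Continuous fun z : ℝ × ℝ => pex c z.1 z.2 := fun c => by
    unfold pex; fun_prop
  have h3 : ∀ c : Co D, Continuous fun z : ℝ × ℝ => pey c z.1 z.2 := fun c => by
    unfold pey; fun_prop
  have hx : Continuous fun z : ℝ × ℝ => z.1 - q.1 := by fun_prop
  have hy : Continuous fun z : ℝ × ℝ => z.2 - q.2 := by fun_prop
  have hn : Continuous fun z : ℝ × ℝ => nm (z - q) := by
    unfold nm; fun_prop
  have p1 := h1 μ.1
  have p2 := h1 μ.2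
  have hv : Continuous fun z : ℝ × ℝ => nm (vfc μ z) := by
    unfold nm vfc
    exact ((p1.pow 2).add (p2.pow 2)).sqrt
  have t1 : Continuous fun z : ℝ × ℝ => (turn a₀ (vfc μ) z).1 := by
    unfold turn vfc
    exact (continuous_const.mul p1).sub (continuous_const.mul p2)
  have t2 : Continuous fun z : ℝ × ℝ => (turn a₀ (vfc μ) z).2 := by
    unfold turn vfc
    exact (continuous_const.mul p1).add (continuous_const.mul p2)
  apply Measurable.mul
  · unfold radG
    apply Measurable.div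
    · exact ((p1.mul (((h2 _).mul hx).add ((h3 _).mul hy))).sub
        (p2.mul (((h2 _).mul hx).add ((h3 _).mul hy)))).abs.measurable
    · exact (((p1.pow 2).add (p2.pow 2)).mul (hn.pow 2)).measurable
  · unfold wtW det2
    apply Measurable.div
    · exact ((hv.pow 2).mul (hn.pow 2)).measurable
    · exact ((continuous_const.mul (((hx.mul t1).add (hy.mul t2)).pow 2)).add
        (((hx.mul t2).sub (hy.mul t1)).pow 2)).measurable

end Pool.Agent.Lib.MP_95e7ec_an
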