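import Mathlib
import Pool.Agent.Lib.MP_95e7ec_an.Rq.Defs
import Pool.Agent.Lib.MP_95e7ec_an.Rq.WDefs
import Pool.Agent.Lib.MP_95e7ec_an.Rb.StarIneq

/-!
# Rq, StarIneqW: the weighted area inequality for star-shaped closed orbits
-/

set_option autoImplicit false

open Set Filter Topology MeasureTheory
open scoped ContDiff ENNReal

namespace Pool.Agent.Lib.MP_95e7ec_an

private theorem starIneq_alg (P Q px py qx qy u v : ℝ) :
    (px + qy) * (u * Q - v * P) - (u * (qx * P + qy * Q) - v * (px * P + py * Q)) =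
      (px * u + py * v) * Q - (qx * u + qy * v) * P := by
  ring

private theorem starIneq_im (u v a b : ℝ) :
    ((⟨a, b⟩ : ℂ) / (⟨u, v⟩ : ℂ)).im = (u * b - v * a) / (u ^ 2 + v ^ 2) := by
  rw [Complex.div_im, Complex.normSq_mk]
  simp only [sq]
  rw [← sub_div]
  congr 1
  ring

/-- the total change of the angle of a closed path is a multiple of `2π` -/
private theorem starIneq_wind {u v u' v' : ℝ → ℝ} (hu : Continuous u) (hv : Continuous v)
    (hu' : Continuous u') (hv' : Continuous v')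
    (du : ∀ t ∈ Set.Ioo (0 : ℝ) 1, HasDerivAt u (u' t) t)
    (dv : ∀ t ∈ Set.Ioo (0 : ℝ) 1, HasDerivAt v (v' t) t)
    (h0 : ∀ t, 0 < u t ^ 2 + v t ^ 2) (hu1 : u 1 = u 0) (hv1 : v 1 = v 0) :
    ∃ m : ℤ, ∫ t in (0 : ℝ)..1, (u t * v' t - v t * u' t) / (u t ^ 2 + v t ^ 2) =
      m * (2 * Real.pi) := by
  set f : ℝ → ℂ := fun t => ((u t : ℂ) + (v t : ℂ) * Complex.I) with hf
  set f' : ℝ → ℂ := fun t => ((u' t : ℂ) + (v' t : ℂ) * Complex.I) with hf'
  have hmk : ∀ a b : ℝ, ((a : ℂ) + (b : ℂ) * Complex.I) = (⟨a, b⟩ : ℂ) := by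
    intro a b
    exact (Complex.mk_eq_add_mul_I a b).symm
  have hfne : ∀ t, f t ≠ 0 := by
    intro t h
    rw [hf] at h
    simp only at h
    rw [hmk] at h
    have h1 := congrArg Complex.re h
    have h2 := congrArg Complex.im h
    simp only [Complex.zero_re, Complex.zero_im] at h1 h2
    have h3 := h0 t
    rw [h1, h2] at h3
    simp at h3
  have hfd : ∀ t ∈ Set.Ioo (0 : ℝ) 1, HasDerivAt f (f' t) t := by
    intro t ht
    exact (du t ht).ofReal_comp.add ((dv t ht).ofReal_comp.mul_const Complex.I)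
  have hfc : Continuous f := by
    rw [hf]
    fun_prop
  have hfc' : Continuous f' := by
    rw [hf']
    fun_prop
  have hqc : Continuous fun t => f' t / f t := hfc'.div hfc hfne
  set J : ℝ → ℂ := fun t => ∫ s in (0 : ℝ)..t, f' s / f s with hJ
  have hJd : ∀ t, HasDerivAt J (f' t / f t) t := by
    intro t
    exact intervalIntegral.integral_hasDerivAt_right (hqc.intervalIntegrable _ _)
      (hqc.stronglyMeasurableAtFilter _ _) hqc.continuousAt
  have hJc : Continuous J := continuous_iff_continuousAt.2 fun t => (hJd t).continuousAt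
  have hg : ∀ t ∈ Set.Ioo (0 : ℝ) 1,
      HasDerivAt (fun t => f t * Complex.exp (-J t)) 0 t := by
    intro t ht
    have h1 := (hfd t ht).mul ((hJd t).neg.cexp)
    have h2 : f' t * Complex.exp ((-J) t) + f t * (Complex.exp ((-J) t) * -(f' t / f t)) = 0 := by
      have h3 := hfne t
      field_simp
      ring
    rw [h2] at h1
    exact h1
  have hFTC := intervalIntegral.integral_eq_sub_of_hasDerivAt_of_le (zero_le_one' ℝ)
    (f := fun t => f t * Complex.exp (-J t)) (f' := fun _ => 0)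
    ((hfc.mul (Complex.continuous_exp.comp hJc.neg)).continuousOn) hg
    (continuous_const.intervalIntegrable _ _)
  rw [intervalIntegral.integral_zero] at hFTC
  have hconst : f 1 * Complex.exp (-J 1) = f 0 * Complex.exp (-J 0) := by
    have := sub_eq_zero.1 hFTC.symm
    exact this
  have hJ0 : J 0 = 0 := by simp [hJ]
  have hfT : f 1 = f 0 := by
    simp only [hf, hu1, hv1]
  rw [hfT, hJ0, neg_zero, Complex.exp_zero] at hconst
  have hexp : Complex.exp (-J 1) = 1 := mul_left_cancel₀ (hfne 0) hconst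
  rw [Complex.exp_eq_one_iff] at hexp
  obtain ⟨m, hm⟩ := hexp
  have him : (J 1).im =
      ∫ t in (0 : ℝ)..1, (u t * v' t - v t * u' t) / (u t ^ 2 + v t ^ 2) := by
    have h1 : (J 1).im = ∫ t in (0 : ℝ)..1, (f' t / f t).im := by
      have := (Complex.imCLM.intervalIntegral_comp_comm
        (hqc.intervalIntegrable (μ := volume) 0 1))
      simpa using this.symm
    rw [h1]
    apply intervalIntegral.integral_congr
    intro t _
    simp only [hf, hf']
    rw [hmk, hmk, starIneq_im]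
  refine ⟨-m, ?_⟩
  rw [← him]
  have h3 : J 1 = -(m * (2 * Real.pi * Complex.I)) := by
    rw [← hm, neg_neg]
  rw [h3]
  have h4 : (-((m : ℂ) * (2 * (Real.pi : ℂ) * Complex.I))).im = -(m * (2 * Real.pi)) := by
    have : ((m : ℂ) * (2 * (Real.pi : ℂ) * Complex.I)) =
        ((m * (2 * Real.pi) : ℝ) : ℂ) * Complex.I := by
      push_cast
      ring
    rw [this, Complex.neg_im, Complex.im_ofReal_mul, Complex.I_im, mul_one]
  rw [h4]
  push_cast
  ring

/-- The same as `star_le_of` (Rb/StarIneq.lean: copy the whole proof), with `1/κ²` replaced by a continuous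
weight `g ≥ 0` along the path, such that `|X|² |z-q|² ≤ g det (z-q, X)²` (in the old proof `g = 1/κ²`;
here only the last step changes; `hE0 : E t ≠ 0` is now the hypothesis `hs0`). -/
theorem star_le_w {D : ℕ} (μ : Pr D) (τ τ' a' : ℝ) (hτ : 0 < τ) (x y0 : ℝ × ℝ) (z y : A × A)
    (hz : Sol μ τ x z) (hz1 : at' z 1 = x) (hy0 : at' y 0 = y0) (hy1 : at' y 1 = y0)
    (hne : ∀ t, vfc μ (at' z t) ≠ 0)
    (l1 : y.1 = ContinuousMap.const _ y0.1 + τ' • prim (pe μ.1 z.1 z.2) +
      τ • prim (pex μ.1 z.1 z.2 * y.1 + pey μ.1 z.1 z.2 * y.2 + a' • pe (rot μ).1 z.1 z.2))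
    (l2 : y.2 = ContinuousMap.const _ y0.2 + τ' • prim (pe μ.2 z.1 z.2) +
      τ • prim (pex μ.2 z.1 z.2 * y.1 + pey μ.2 z.1 z.2 * y.2 + a' • pe (rot μ).2 z.1 z.2))
    {q : ℝ × ℝ} (hq : ∀ t, at' z t ≠ q) (hs0 : ∀ t, det2 (at' z t - q) (vfc μ (at' z t)) ≠ 0)
    {g : ℝ → ℝ} (hg : Continuous g)
    (hs : ∀ t : ℝ, nm (vfc μ (pth z t)) ^ 2 * nm (pth z t - q) ^ 2 ≤
      g t * det2 (pth z t - q) (vfc μ (pth z t)) ^ 2) :
    |a'| * (2 * Real.pi) ≤
      ∫ t in (0 : ℝ)..1, τ * |det2 (vfc μ (pth z t)) (pth y t)| * radG μ q (pth z t) * g t := by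
  have hz0 : at' z 0 = x := by
    obtain ⟨h1, h2⟩ := hz
    have e : ∀ g : A, (prim g) 0 = 0 := fun g => by
      change ∫ s in (0 : ℝ)..((0 : unitInterval) : ℝ), Set.IccExtend (zero_le_one' ℝ) g s = 0
      simp
    ext
    · change z.1 0 = x.1
      rw [h1]
      simp [e]
    · change z.2 0 = x.2
      rw [h2]
      simp [e]
  have hpc := jp_pth_continuous z
  have hpyc := jp_pth_continuous y
  -- abbreviations
  set P : ℝ → ℝ := fun t => pe μ.1 (pth z t).1 (pth z t).2 with hP
  set Q : ℝ → ℝ := fun t => pe μ.2 (pth z t).1 (pth z t).2 with hQ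
  set px : ℝ → ℝ := fun t => pex μ.1 (pth z t).1 (pth z t).2 with hpx
  set py : ℝ → ℝ := fun t => pey μ.1 (pth z t).1 (pth z t).2 with hpy
  set qx : ℝ → ℝ := fun t => pex μ.2 (pth z t).1 (pth z t).2 with hqx
  set qy : ℝ → ℝ := fun t => pey μ.2 (pth z t).1 (pth z t).2 with hqy
  set Jt : ℝ → ℝ := fun t => det2 (vfc μ (pth z t)) (pth y t) with hJt
  set u : ℝ → ℝ := fun t => (pth z t).1 - q.1 with hu
  set v : ℝ → ℝ := fun t => (pth z t).2 - q.2 with hv
  set E : ℝ → ℝ := fun t => u t * Q t - v t * P t with hE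
  set W : ℝ → ℝ := fun t => (px t * u t + py t * v t) * Q t - (qx t * u t + qy t * v t) * P t
    with hW
  have cP : Continuous P := (jp_pe_continuous μ.1).comp hpc
  have cQ : Continuous Q := (jp_pe_continuous μ.2).comp hpc
  have cpx : Continuous px := (jp_pex_continuous μ.1).comp hpc
  have cpy : Continuous py := (jp_pey_continuous μ.1).comp hpc
  have cqx : Continuous qx := (jp_pex_continuous μ.2).comp hpc
  have cqy : Continuous qy := (jp_pey_continuous μ.2).comp hpc
  have cu : Continuous u := (continuous_fst.comp hpc).sub continuous_const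
  have cv : Continuous v := (continuous_snd.comp hpc).sub continuous_const
  have cJ : Continuous Jt :=
    (cP.mul (continuous_snd.comp hpyc)).sub (cQ.mul (continuous_fst.comp hpyc))
  have cE : Continuous E := (cu.mul cQ).sub (cv.mul cP)
  have cW : Continuous W :=
    (((cpx.mul cu).add (cpy.mul cv)).mul cQ).sub (((cqx.mul cu).add (cqy.mul cv)).mul cP)
  have hN : ∀ t, 0 < P t ^ 2 + Q t ^ 2 := by
    intro t
    have h := hne (Set.projIcc 0 1 (zero_le_one' ℝ) t)
    rw [← jp_pth_proj] at h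
    by_contra hcon
    push Not at hcon
    have h1 : P t = 0 := by nlinarith [sq_nonneg (P t), sq_nonneg (Q t)]
    have h2 : Q t = 0 := by nlinarith [sq_nonneg (P t), sq_nonneg (Q t)]
    exact h (Prod.ext h1 h2)
  have hS : ∀ t, 0 < u t ^ 2 + v t ^ 2 := by
    intro t
    have h := hq (Set.projIcc 0 1 (zero_le_one' ℝ) t)
    rw [← jp_pth_proj] at h
    by_contra hcon
    push Not at hcon
    have h1 : u t = 0 := by nlinarith [sq_nonneg (u t), sq_nonneg (v t)]
    have h2 : v t = 0 := by nlinarith [sq_nonneg (u t), sq_nonneg (v t)]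
    exact h (Prod.ext (sub_eq_zero.1 h1) (sub_eq_zero.1 h2))
  -- the weighted star condition
  have hstar : ∀ t, (P t ^ 2 + Q t ^ 2) * (u t ^ 2 + v t ^ 2) ≤ g t * E t ^ 2 := by
    intro t
    have h := hs t
    have e1 : nm (pth z t - q) = Real.sqrt (u t ^ 2 + v t ^ 2) := rfl
    have e2 : nm (vfc μ (pth z t)) = Real.sqrt (P t ^ 2 + Q t ^ 2) := rfl
    have e3 : det2 (pth z t - q) (vfc μ (pth z t)) = E t := rfl
    rw [e1, e2, e3, Real.sq_sqrt (hS t).le, Real.sq_sqrt (hN t).le] at h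
    exact h
  have hE0 : ∀ t, E t ≠ 0 := by
    intro t
    have h := hs0 (Set.projIcc 0 1 (zero_le_one' ℝ) t)
    rw [← jp_pth_proj] at h
    exact h
  -- constant sign
  obtain ⟨σ, hσ, hσE⟩ : ∃ σ : ℝ, |σ| = 1 ∧ ∀ t, |E t| = σ * E t := by
    rcases lt_or_gt_of_ne (hE0 0) with h | h
    · refine ⟨-1, by simp, fun t => ?_⟩
      have h1 : E t < 0 := by
        by_contra hc
        push Not at hc
        obtain ⟨c, hc'⟩ := mem_range_of_exists_le_of_exists_ge cE ⟨0, h.le⟩ ⟨t, hc⟩
        exact hE0 c hc'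
      rw [abs_of_neg h1]
      ring
    · refine ⟨1, by simp, fun t => ?_⟩
      have h1 : 0 < E t := by
        by_contra hc
        push Not at hc
        obtain ⟨c, hc'⟩ := mem_range_of_exists_le_of_exists_ge cE ⟨t, hc⟩ ⟨0, h.le⟩
        exact hE0 c hc'
      rw [abs_of_pos h1]
      ring
  have hEpos : ∀ t, 0 < |E t| := fun t => abs_pos.2 (hE0 t)
  have e1 : pth z 1 = pth z 0 := by
    have a1 : pth z 1 = at' z 1 := jp_pth_coe z 1
    have a2 : pth z 0 = at' z 0 := jp_pth_coe z 0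
    rw [a1, a2, hz0, hz1]
  have e2 : pth y 1 = pth y 0 := by
    have a1 : pth y 1 = at' y 1 := jp_pth_coe y 1
    have a2 : pth y 0 = at' y 0 := jp_pth_coe y 0
    rw [a1, a2, hy0, hy1]
  -- velocities
  have du : ∀ t ∈ Set.Ioo (0 : ℝ) 1, HasDerivAt u (τ * P t) t := by
    intro t ht
    have h := jp_hasDerivAt' hz.1 ht
    rw [jp_pe_ext] at h
    exact h.sub_const q.1
  have dv : ∀ t ∈ Set.Ioo (0 : ℝ) 1, HasDerivAt v (τ * Q t) t := by
    intro t ht
    have h := jp_hasDerivAt' hz.2 ht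
    rw [jp_pe_ext] at h
    exact h.sub_const q.2
  -- the derivative of `j / D`
  have hw : ∀ t ∈ Set.Ioo (0 : ℝ) 1, HasDerivAt (fun s => Jt s / E s)
      (τ * (Jt t * W t / E t ^ 2) + a' * (τ * ((P t ^ 2 + Q t ^ 2) / E t))) t := by
    intro t ht
    have d1 : HasDerivAt P (τ * (px t * P t + py t * Q t)) t := jp_vel1 hz ht
    have d2 : HasDerivAt Q (τ * (qx t * P t + qy t * Q t)) t := jp_vel2 hz ht
    have d3 : HasDerivAt Jt (τ * (px t + qy t) * Jt t + τ * a' * (P t ^ 2 + Q t ^ 2)) t :=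
      jp_det hz l1 l2 ht
    have d4 : HasDerivAt E (τ * P t * Q t + u t * (τ * (qx t * P t + qy t * Q t)) -
        (τ * Q t * P t + v t * (τ * (px t * P t + py t * Q t)))) t :=
      ((du t ht).mul d2).sub ((dv t ht).mul d1)
    refine (d3.div d4 (hE0 t)).congr_deriv ?_
    have hE0' := hE0 t
    have hal := starIneq_alg (P t) (Q t) (px t) (py t) (qx t) (qy t) (u t) (v t)
    have hEt : E t = u t * Q t - v t * P t := rfl
    have hWt : W t = (px t * u t + py t * v t) * Q t - (qx t * u t + qy t * v t) * P t := rfl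
    rw [← hEt, ← hWt] at hal
    rw [div_eq_iff (pow_ne_zero 2 hE0')]
    have h5 : (τ * (Jt t * W t / E t ^ 2) + a' * (τ * ((P t ^ 2 + Q t ^ 2) / E t))) * E t ^ 2 =
        τ * (Jt t * W t) + a' * τ * (P t ^ 2 + Q t ^ 2) * E t := by
      field_simp
    rw [h5, ← hal]
    ring
  have cN2 : Continuous fun t => P t ^ 2 + Q t ^ 2 := (cP.pow 2).add (cQ.pow 2)
  have cS2 : Continuous fun t => u t ^ 2 + v t ^ 2 := (cu.pow 2).add (cv.pow 2)
  have c1 : Continuous fun t => Jt t * W t / E t ^ 2 :=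
    (cJ.mul cW).div (cE.pow 2) fun t => pow_ne_zero 2 (hE0 t)
  have c2 : Continuous fun t => (P t ^ 2 + Q t ^ 2) / E t := cN2.div cE hE0
  have hFTC := intervalIntegral.integral_eq_sub_of_hasDerivAt_of_le (zero_le_one' ℝ)
    (f := fun s => Jt s / E s) ((cJ.div cE hE0).continuousOn) hw
    (Continuous.intervalIntegrable (by fun_prop) _ _)
  have h01 : Jt 1 / E 1 = Jt 0 / E 0 := by
    simp only [hJt, hE, hP, hQ, hu, hv]
    rw [e1, e2]
  rw [h01, sub_self, intervalIntegral.integral_add (Continuous.intervalIntegrable (by fun_prop) _ _)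
    (Continuous.intervalIntegrable (by fun_prop) _ _), intervalIntegral.integral_const_mul a']
    at hFTC
  -- the winding
  obtain ⟨m, hm⟩ := starIneq_wind cu cv (cP.const_mul τ |>.congr fun _ => rfl)
    (cQ.const_mul τ |>.congr fun _ => rfl) du dv hS
    (by simp only [hu]; rw [e1]) (by simp only [hv]; rw [e1])
  have hm1 : ∫ t in (0 : ℝ)..1, τ * (|E t| / (u t ^ 2 + v t ^ 2)) = σ * (m * (2 * Real.pi)) := by
    rw [← hm, ← intervalIntegral.integral_const_mul]
    apply intervalIntegral.integral_congr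
    intro t _
    simp only
    rw [hσE]
    have hEt : E t = u t * Q t - v t * P t := rfl
    rw [hEt]
    ring
  have c3 : Continuous fun t => |E t| / (u t ^ 2 + v t ^ 2) :=
    (continuous_abs.comp cE).div cS2 fun t => (hS t).ne'
  have hpos : 0 < ∫ t in (0 : ℝ)..1, τ * (|E t| / (u t ^ 2 + v t ^ 2)) := by
    apply intervalIntegral.intervalIntegral_pos_of_pos_on
      (Continuous.intervalIntegrable (by fun_prop) _ _)
    · intro t _
      have := hEpos t
      have := hS t
      positivity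
    · exact zero_lt_one
  have h2pi : 2 * Real.pi ≤ ∫ t in (0 : ℝ)..1, τ * (|E t| / (u t ^ 2 + v t ^ 2)) := by
    have h1 : (1 : ℝ) ≤ |(m : ℝ)| := by
      have : m ≠ 0 := by
        rintro rfl
        rw [hm1] at hpos
        simp at hpos
      exact_mod_cast Int.one_le_abs this
    have h2 : |∫ t in (0 : ℝ)..1, τ * (|E t| / (u t ^ 2 + v t ^ 2))| = |(m : ℝ)| * (2 * Real.pi) := by
      rw [hm1, abs_mul, hσ, one_mul, abs_mul, abs_of_pos (by positivity : 0 < 2 * Real.pi)]
    rw [abs_of_pos hpos] at h2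
    rw [h2]
    nlinarith [Real.pi_pos]
  -- the left side
  have c4 : Continuous fun t => (P t ^ 2 + Q t ^ 2) / |E t| :=
    cN2.div (continuous_abs.comp cE) fun t => (hEpos t).ne'
  have hle1 : ∫ t in (0 : ℝ)..1, τ * (|E t| / (u t ^ 2 + v t ^ 2)) ≤
      ∫ t in (0 : ℝ)..1, τ * ((P t ^ 2 + Q t ^ 2) / |E t|) := by
    apply intervalIntegral.integral_mono_on zero_le_one
      (Continuous.intervalIntegrable (by fun_prop) _ _)
      (Continuous.intervalIntegrable (by fun_prop) _ _)
    intro t _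
    apply mul_le_mul_of_nonneg_left _ hτ.le
    rw [div_le_div_iff₀ (hS t) (hEpos t), ← sq, sq_abs]
    have hEt : E t = u t * Q t - v t * P t := rfl
    rw [hEt]
    nlinarith [sq_nonneg (u t * P t + v t * Q t)]
  have hlhs : ∫ t in (0 : ℝ)..1, τ * ((P t ^ 2 + Q t ^ 2) / |E t|) =
      |∫ t in (0 : ℝ)..1, τ * ((P t ^ 2 + Q t ^ 2) / E t)| := by
    have h1 : ∫ t in (0 : ℝ)..1, τ * ((P t ^ 2 + Q t ^ 2) / E t) =
        σ * ∫ t in (0 : ℝ)..1, τ * ((P t ^ 2 + Q t ^ 2) / |E t|) := by
      rw [← intervalIntegral.integral_const_mul]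
      apply intervalIntegral.integral_congr
      intro t _
      simp only
      have hσ2 : σ * σ = 1 := by
        rw [← abs_mul_abs_self, hσ, one_mul]
      have hσ0 : σ ≠ 0 := by
        rintro rfl
        simp at hσ2
      have h2 := hE0 t
      rw [hσE]
      field_simp
    rw [h1, abs_mul, hσ, one_mul, abs_of_nonneg]
    exact h2pi.trans hle1 |>.trans' (by positivity)
  have hkey : |a'| * (∫ t in (0 : ℝ)..1, τ * ((P t ^ 2 + Q t ^ 2) / |E t|)) =
      |∫ t in (0 : ℝ)..1, τ * (Jt t * W t / E t ^ 2)| := by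
    rw [hlhs, ← abs_mul, ← abs_neg (∫ t in (0 : ℝ)..1, τ * (Jt t * W t / E t ^ 2))]
    congr 1
    linarith
  have hfin : |∫ t in (0 : ℝ)..1, τ * (Jt t * W t / E t ^ 2)| ≤
      ∫ t in (0 : ℝ)..1, τ * |det2 (vfc μ (pth z t)) (pth y t)| * radG μ q (pth z t) * g t := by
    refine (intervalIntegral.abs_integral_le_integral_abs zero_le_one).trans ?_
    have hR : ∀ t, radG μ q (pth z t) =
        |P t * (qx t * u t + qy t * v t) - Q t * (px t * u t + py t * v t)| /
          ((P t ^ 2 + Q t ^ 2) * (u t ^ 2 + v t ^ 2)) := by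
      intro t
      have h1 : nm (pth z t - q) ^ 2 = u t ^ 2 + v t ^ 2 := nm_sq _
      rw [radG, h1]
    have cR : Continuous fun t => radG μ q (pth z t) := by
      have : (fun t => radG μ q (pth z t)) = fun t =>
          |P t * (qx t * u t + qy t * v t) - Q t * (px t * u t + py t * v t)| /
            ((P t ^ 2 + Q t ^ 2) * (u t ^ 2 + v t ^ 2)) := funext hR
      rw [this]
      apply Continuous.div _ (by fun_prop) (fun t => (mul_pos (hN t) (hS t)).ne')
      exact continuous_abs.comp ((cP.mul ((cqx.mul cu).add (cqy.mul cv))).sub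
        (cQ.mul ((cpx.mul cu).add (cpy.mul cv))))
    apply intervalIntegral.integral_mono_on zero_le_one
      (Continuous.intervalIntegrable (by fun_prop) _ _)
      (Continuous.intervalIntegrable
        (((continuous_const.mul (continuous_abs.comp cJ)).mul cR).mul hg) _ _)
    intro t _
    change |τ * (Jt t * W t / E t ^ 2)| ≤ τ * |Jt t| * radG μ q (pth z t) * g t
    rw [hR]
    have h1 := hstar t
    have h2 := hN t
    have h3 := hS t
    have hE2 : 0 < E t ^ 2 := by
      have := hE0 t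
      positivity
    rw [abs_mul, abs_of_pos hτ, abs_div, abs_mul, abs_of_pos hE2]
    have h4 : |W t| = |P t * (qx t * u t + qy t * v t) - Q t * (px t * u t + py t * v t)| := by
      rw [← abs_neg]
      congr 1
      simp only [hW]
      ring
    rw [← h4]
    have h5 : |W t| / E t ^ 2 ≤
        (|W t| / ((P t ^ 2 + Q t ^ 2) * (u t ^ 2 + v t ^ 2))) * g t := by
      rw [div_mul_eq_mul_div, div_le_div_iff₀ hE2 (mul_pos h2 h3)]
      calc |W t| * ((P t ^ 2 + Q t ^ 2) * (u t ^ 2 + v t ^ 2)) ≤ |W t| * (g t * E t ^ 2) :=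
            mul_le_mul_of_nonneg_left h1 (abs_nonneg _)
        _ = |W t| * g t * E t ^ 2 := by ring
    calc τ * (|Jt t| * |W t| / E t ^ 2) = (τ * |Jt t|) * (|W t| / E t ^ 2) := by ring
      _ ≤ (τ * |Jt t|) *
          ((|W t| / ((P t ^ 2 + Q t ^ 2) * (u t ^ 2 + v t ^ 2))) * g t) :=
          mul_le_mul_of_nonneg_left h5 (by positivity)
      _ = _ := by ring
  calc |a'| * (2 * Real.pi) ≤ |a'| * (∫ t in (0 : ℝ)..1, τ * ((P t ^ 2 + Q t ^ 2) / |E t|)) :=
        mul_le_mul_of_nonneg_left (h2pi.trans hle1) (abs_nonneg _)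
    _ = _ := hkey
    _ ≤ _ := hfin

end Pool.Agent.Lib.MP_95e7ec_an
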