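import Mathlib
import Pool.Agent.Lib.MP_95e7ec_an.Rq.Defs
import Pool.Agent.Lib.MP_95e7ec_an.Rq.StarIneqW
import Pool.Agent.Lib.MP_95e7ec_an.Rq.RayW
import Pool.Agent.Lib.MP_95e7ec_an.Rb.StarAvg

/-!
# Rq, StarAvgW: the mean number of the star-shaped closed orbits, angles in a window
-/

set_option autoImplicit false

open Set Filter Topology MeasureTheory
open scoped ContDiff ENNReal

namespace Pool.Agent.Lib.MP_95e7ec_an

/-- `IsStarW` for the orbits of a family, as `isStar_orb_iff` (Rb/StarFam.lean) -/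
theorem isStarW_orb_iff {D : ℕ} {μ : Pr D} (F : Fam μ Set.univ) {s : ℝ} (hs : s ∈ F.J)
    (q : ℝ × ℝ) (κ a₀ : ℝ) : IsStarW (vfc μ) q κ a₀ (F.orb s) ↔
      q ∉ F.orb s ∧ a₀ ≤ F.a s ∧ F.a s ≤ a₀ + κ / 2 ∧ ∀ z ∈ F.orb s,
      κ * nm (z - q) * nm (vfc (rotA μ (F.a s)) z) ≤
        |det2 (z - q) (vfc (rotA μ (F.a s)) z)| := by
  constructor
  · rintro ⟨hq, α, hα, h1, h2, hC, h⟩
    rw [← vfc_rotA] at hC
    have hm := (orbit_eq_of_meet (F.a_mem s hs) hα (F.isClosedOrbit hs) hC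
      (z := at' (F.Z s) 0) ⟨0, rfl⟩ ⟨0, rfl⟩).1
    refine ⟨hq, hm ▸ h1, hm ▸ h2, ?_⟩
    rw [vfc_rotA, hm]
    exact h
  · rintro ⟨hq, h1, h2, h⟩
    have hC := F.isClosedOrbit hs
    rw [vfc_rotA] at hC h
    exact ⟨hq, F.a s, F.a_mem s hs, h1, h2, hC, h⟩

private theorem starFamW_open {D : ℕ} {μ : Pr D} {Ω : Set (ℝ × ℝ)} (F : Fam μ Ω)
    {U : Set (ℝ × ℝ)} (hU : IsOpen U) : IsOpen {s | s ∈ F.J ∧ F.orb s ⊆ U} := by
  rw [isOpen_iff_mem_nhds]
  rintro s ⟨hs, hsub⟩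
  have h1 : ContinuousAt F.Z s := (F.deriv_Z s hs).continuousAt
  filter_upwards [F.isOpen_J.mem_nhds hs, h1.eventually (eventually_range_subset hU hsub)]
    with s' hs' hm
  exact ⟨hs', hm⟩

/-- the set of the parameters where the margin fails is open -/
private theorem starFamW_open_fail {D : ℕ} {μ : Pr D} {Ω : Set (ℝ × ℝ)} (F : Fam μ Ω)
    (q : ℝ × ℝ) (κ : ℝ) : IsOpen {s | s ∈ F.J ∧ ∃ z ∈ F.orb s,
      |det2 (z - q) (vfc (rotA μ (F.a s)) z)| <
        κ * nm (z - q) * nm (vfc (rotA μ (F.a s)) z)} := by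
  have heq : {s | s ∈ F.J ∧ ∃ z ∈ F.orb s,
      |det2 (z - q) (vfc (rotA μ (F.a s)) z)| <
        κ * nm (z - q) * nm (vfc (rotA μ (F.a s)) z)} =
      ⋃ t : unitInterval, F.J ∩ (fun s =>
        κ * nm (at' (F.Z s) t - q) * nm (vfc (rotA μ (F.a s)) (at' (F.Z s) t)) -
        |det2 (at' (F.Z s) t - q) (vfc (rotA μ (F.a s)) (at' (F.Z s) t))|) ⁻¹' Set.Ioi 0 := by
    ext s
    simp only [mem_ofPred_eq, mem_iUnion, mem_inter_iff, mem_preimage, mem_Ioi, sub_pos]
    constructor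
    · rintro ⟨hs, _, ⟨t, rfl⟩, h⟩
      exact ⟨t, hs, h⟩
    · rintro ⟨t, hs, h⟩
      exact ⟨hs, _, ⟨t, rfl⟩, h⟩
  rw [heq]
  refine isOpen_iUnion fun t => ?_
  apply ContinuousOn.isOpen_inter_preimage _ F.isOpen_J isOpen_Ioi
  have hZ : ContinuousOn (fun s => at' (F.Z s) t) F.J := by
    have h1 : Continuous fun z : A × A => at' z t := by
      unfold at'
      fun_prop
    exact h1.comp_continuousOn F.Z_cont
  have ha : ContinuousOn F.a F.J := fun s hs => (F.deriv_a s hs).continuousAt.continuousWithinAt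
  have hv : ContinuousOn (fun s => vfc μ (at' (F.Z s) t)) F.J :=
    (continuous_vfc_AS μ).comp_continuousOn hZ
  have hT : ContinuousOn (fun s => vfc (rotA μ (F.a s)) (at' (F.Z s) t)) F.J := by
    simp only [vfc_rotA, turn]
    have h1 := hv.fst
    have h2 := hv.snd
    have hc : ContinuousOn (fun s => Real.cos (F.a s)) F.J := Real.continuous_cos.comp_continuousOn ha
    have hsn : ContinuousOn (fun s => Real.sin (F.a s)) F.J := Real.continuous_sin.comp_continuousOn ha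
    exact ((hc.mul h1).sub (hsn.mul h2)).prodMk ((hsn.mul h1).add (hc.mul h2))
  have hZq : ContinuousOn (fun s => at' (F.Z s) t - q) F.J := hZ.sub continuousOn_const
  have hn1 : ContinuousOn (fun s => nm (at' (F.Z s) t - q)) F.J :=
    continuous_nm.comp_continuousOn hZq
  have hn2 : ContinuousOn (fun s => nm (vfc (rotA μ (F.a s)) (at' (F.Z s) t))) F.J :=
    continuous_nm.comp_continuousOn hT
  have hd : ContinuousOn (fun s => |det2 (at' (F.Z s) t - q)
      (vfc (rotA μ (F.a s)) (at' (F.Z s) t))|) F.J := by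
    unfold det2
    exact ((hZq.fst.mul hT.snd).sub (hZq.snd.mul hT.fst)).abs
  exact ((continuousOn_const.mul hn1).mul hn2).sub hd

/-- as `starInd_measurable` (Rb/StarFam.lean); the condition on `F.a s` is relatively closed in `F.J` -/
theorem starIndW_measurable {D : ℕ} {μ : Pr D} (q : ℝ × ℝ) (κ a₀ : ℝ) (F : Fam μ Set.univ) :
    ∃ L : ℝ → ℝ≥0∞, Measurable L ∧ ∀ s ∈ F.J, starIndW (vfc μ) q κ a₀ (F.orb s) = L s := by
  classical
  have ha : ContinuousOn F.a F.J := fun s hs => (F.deriv_a s hs).continuousAt.continuousWithinAt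
  have hW1 : MeasurableSet (F.J ∩ F.a ⁻¹' Set.Iio a₀) :=
    (ha.isOpen_inter_preimage F.isOpen_J isOpen_Iio).measurableSet
  have hW2 : MeasurableSet (F.J ∩ F.a ⁻¹' Set.Ioi (a₀ + κ / 2)) :=
    (ha.isOpen_inter_preimage F.isOpen_J isOpen_Ioi).measurableSet
  set S : Set ℝ := (({s | s ∈ F.J ∧ F.orb s ⊆ {q}ᶜ} \ {s | s ∈ F.J ∧ ∃ z ∈ F.orb s,
      |det2 (z - q) (vfc (rotA μ (F.a s)) z)| <
        κ * nm (z - q) * nm (vfc (rotA μ (F.a s)) z)}) \ (F.J ∩ F.a ⁻¹' Set.Iio a₀)) \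
        (F.J ∩ F.a ⁻¹' Set.Ioi (a₀ + κ / 2)) with hS
  have hSm : MeasurableSet S :=
    (((starFamW_open F isOpen_compl_singleton).measurableSet.diff
      (starFamW_open_fail F q κ).measurableSet).diff hW1).diff hW2
  refine ⟨S.indicator fun _ => 1, measurable_const.indicator hSm, fun s hs => ?_⟩
  have h3 : s ∈ S ↔ IsStarW (vfc μ) q κ a₀ (F.orb s) := by
    rw [isStarW_orb_iff F hs q κ a₀, hS]
    simp only [Set.mem_sdiff, mem_ofPred_eq, not_and, not_exists, not_lt, mem_inter_iff,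
      mem_preimage, mem_Iio, mem_Ioi]
    constructor
    · rintro ⟨⟨⟨⟨_, h4⟩, h5⟩, h6⟩, h7⟩
      exact ⟨fun h8 => h4 h8 rfl, h6 hs, h7 hs, h5 hs⟩
    · rintro ⟨h4, h6, h7, h5⟩
      exact ⟨⟨⟨⟨hs, fun z hz h8 => h4 (h8 ▸ hz)⟩, fun _ => h5⟩, fun _ => h6⟩, fun _ => h7⟩
  unfold starIndW
  by_cases h : s ∈ S
  · rw [if_pos (h3.1 h), Set.indicator_of_mem h]
  · rw [if_neg (fun h4 => h (h3.2 h4)), Set.indicator_of_notMem h]

private theorem sfw_continuousAt_radG {D : ℕ} (μ : Pr D) {q z : ℝ × ℝ} (hz : vfc μ z ≠ 0)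
    (hq : z ≠ q) : ContinuousAt (radG μ q) z := by
  unfold radG
  have h1 := (avb_continuous_pe μ.1).continuousAt (x := z)
  have h2 := (avb_continuous_pe μ.2).continuousAt (x := z)
  have h3 := (avb_continuous_pex μ.1).continuousAt (x := z)
  have h4 := (avb_continuous_pex μ.2).continuousAt (x := z)
  have h5 := (avb_continuous_pey μ.1).continuousAt (x := z)
  have h6 := (avb_continuous_pey μ.2).continuousAt (x := z)
  have h7 : ContinuousAt (fun z : ℝ × ℝ => z.1 - q.1) z :=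
    (continuous_fst.sub continuous_const).continuousAt
  have h8 : ContinuousAt (fun z : ℝ × ℝ => z.2 - q.2) z :=
    (continuous_snd.sub continuous_const).continuousAt
  have h9 : ContinuousAt (fun z : ℝ × ℝ => nm (z - q)) z :=
    (continuous_nm.comp (continuous_id.sub continuous_const)).continuousAt
  have hne : (pe μ.1 z.1 z.2 ^ 2 + pe μ.2 z.1 z.2 ^ 2) * nm (z - q) ^ 2 ≠ 0 := by
    have e1 := nm_pos hz
    have e2 := nm_sq (vfc μ z)
    have e3 : (vfc μ z).1 ^ 2 + (vfc μ z).2 ^ 2 = pe μ.1 z.1 z.2 ^ 2 + pe μ.2 z.1 z.2 ^ 2 := rfl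
    have e4 := nm_pos (sub_ne_zero.2 hq)
    rw [← e3, ← e2]
    positivity
  exact ((h1.mul ((h4.mul h7).add (h6.mul h8))).sub
    (h2.mul ((h3.mul h7).add (h5.mul h8)))).abs.div
    (((h1.pow 2).add (h2.pow 2)).mul (h9.pow 2)) hne

private theorem sfw_radG_nonneg {D : ℕ} (μ : Pr D) (q z : ℝ × ℝ) : 0 ≤ radG μ q z := by
  unfold radG
  positivity

private theorem sfw_wtW_nonneg {D : ℕ} (μ : Pr D) (q : ℝ × ℝ) (κ a₀ : ℝ) (z : ℝ × ℝ) :
    0 ≤ wtW μ q κ a₀ z := by
  unfold wtW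
  positivity

/-- the key inequality: numbers `u v` (radial and cross product with the field `W` turned by `α`) -/
private theorem sfw_alg {κ δ u v : ℝ} (hκ : 0 < κ) (hδ : |δ| ≤ κ / 2)
    (hst : κ ^ 2 * (u ^ 2 + v ^ 2) ≤ v ^ 2) :
    κ ^ 2 * (Real.cos δ * u + Real.sin δ * v) ^ 2 + (Real.cos δ * v - Real.sin δ * u) ^ 2 ≤
      13 / 4 * v ^ 2 := by
  have h1 := Real.sin_sq_add_cos_sq δ
  have hN : 0 ≤ u ^ 2 + v ^ 2 := by positivity
  have h2 : (Real.cos δ * u + Real.sin δ * v) ^ 2 ≤ u ^ 2 + v ^ 2 := by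
    nlinarith [sq_nonneg (Real.cos δ * v - Real.sin δ * u)]
  have h3 : κ ^ 2 * (Real.cos δ * u + Real.sin δ * v) ^ 2 ≤ v ^ 2 :=
    (mul_le_mul_of_nonneg_left h2 (sq_nonneg κ)).trans hst
  have h4 : |Real.sin δ| ≤ κ / 2 := Real.abs_sin_le_abs.trans hδ
  have h5 : Real.sin δ ^ 2 ≤ κ ^ 2 / 4 := by
    rw [← sq_abs]
    nlinarith [abs_nonneg (Real.sin δ)]
  have h6 : Real.sin δ ^ 2 * u ^ 2 ≤ v ^ 2 / 4 := by
    have : Real.sin δ ^ 2 * u ^ 2 ≤ κ ^ 2 / 4 * (u ^ 2 + v ^ 2) := by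
      apply mul_le_mul h5 _ (sq_nonneg _) (by positivity)
      nlinarith [sq_nonneg v]
    linarith
  have h7 : Real.cos δ ^ 2 * v ^ 2 ≤ v ^ 2 := by
    nlinarith [sq_nonneg (Real.sin δ), sq_nonneg v, mul_nonneg (sq_nonneg (Real.sin δ)) (sq_nonneg v)]
  -- `(p - r)² ≤ (|p| + |r|)² ≤ (3/2)² v²` with `p = cos δ v`, `r = sin δ u`, `|p| ≤ |v|`, `|r| ≤ |v|/2`
  have h8 : |Real.cos δ * v| ≤ |v| := by
    apply sq_le_sq.1
    calc (Real.cos δ * v) ^ 2 = Real.cos δ ^ 2 * v ^ 2 := by ring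
      _ ≤ v ^ 2 := h7
  have h9 : |Real.sin δ * u| ≤ |v| / 2 := by
    have : |Real.sin δ * u| ≤ |v / 2| := by
      apply sq_le_sq.1
      calc (Real.sin δ * u) ^ 2 = Real.sin δ ^ 2 * u ^ 2 := by ring
        _ ≤ v ^ 2 / 4 := h6
        _ = (v / 2) ^ 2 := by ring
    rwa [abs_div, abs_of_pos (by norm_num : (0 : ℝ) < 2)] at this
  have h10 : |Real.cos δ * v - Real.sin δ * u| ≤ 3 / 2 * |v| := by
    refine (abs_sub _ _).trans ?_
    linarith
  have h11 : (Real.cos δ * v - Real.sin δ * u) ^ 2 ≤ 9 / 4 * v ^ 2 := by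
    rw [← sq_abs, ← sq_abs v]
    nlinarith [abs_nonneg (Real.cos δ * v - Real.sin δ * u), abs_nonneg v]
  linarith

/-- Proof. As `Fam.star_le` (Rb/StarFam.lean), from `star_le_w` for the field `rotA μ (F.a s)` with
`g t = 3.25 * wtW μ q κ a₀ (pth (F.Z s) t)`: put `N = nm (z-q) nm (X z)`, `S = |det2 (z-q) (turn α X z)| ≥ κ N`,
`α = F.a s ∈ [a₀, a₀+κ/2]`. Then `|det2 (z-q) (turn a₀ X z)| ≤ S + |α - a₀| N ≤ 1.5 S`,
`κ |⟨z-q, turn a₀ X z⟩| ≤ κ N ≤ S`, so the denominator of `wtW` is at most `3.25 S²`. The denominator does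
not vanish on the path (`N > 0`), so `wtW` is continuous along it. -/
theorem Fam.star_le_w {D : ℕ} {μ : Pr D} (F : Fam μ Set.univ) {q : ℝ × ℝ} {κ : ℝ} (hκ : 0 < κ)
    (a₀ : ℝ) {s : ℝ} (hs : s ∈ F.J) :
    ENNReal.ofReal |F.a' s| * starIndW (vfc μ) q κ a₀ (F.orb s) ≤
      ∫⁻ t in Set.Ioo (0 : ℝ) 1, ENNReal.ofReal (F.jac s t) *
        (ENNReal.ofReal (13 / (8 * Real.pi)) *
          ENNReal.ofReal (radG μ q (pth (F.Z s) t) * wtW μ q κ a₀ (pth (F.Z s) t))) := by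
  classical
  by_cases hst : IsStarW (vfc μ) q κ a₀ (F.orb s)
  swap
  · rw [starIndW, if_neg hst, mul_zero]
    exact bot_le
  rw [starIndW, if_pos hst, mul_one]
  obtain ⟨hq0, hw1, hw2, hstar⟩ := (isStarW_orb_iff F hs q κ a₀).1 hst
  have hne : ∀ t, vfc (rotA μ (F.a s)) (at' (F.Z s) t) ≠ 0 := by
    intro t h0
    have := F.jac_pos s hs t
    rw [h0] at this
    simp [det2] at this
  have hneμ : ∀ t, vfc μ (at' (F.Z s) t) ≠ 0 := by
    intro t h0
    apply hne t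
    rw [vfc_rotA]
    exact turn_eq_zero.2 h0
  have hqt : ∀ t, at' (F.Z s) t ≠ q := by
    intro t h0
    exact hq0 ⟨t, h0⟩
  have hsd : ∀ t, det2 (at' (F.Z s) t - q) (vfc (rotA μ (F.a s)) (at' (F.Z s) t)) ≠ 0 := by
    intro t h0
    have h1 := hstar _ ⟨t, rfl⟩
    rw [h0, abs_zero] at h1
    have h2 := nm_pos (sub_ne_zero.2 (hqt t))
    have h3 := nm_pos (hne t)
    have : 0 < κ * nm (at' (F.Z s) t - q) * nm (vfc (rotA μ (F.a s)) (at' (F.Z s) t)) := by
      positivity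
    linarith
  have hproj : ∀ (t : ℝ) (z : A × A), pth z t = at' z (Set.projIcc 0 1 (zero_le_one' ℝ) t) :=
    fun t z => rfl
  -- the denominator
  set den : ℝ × ℝ → ℝ := fun z =>
    κ ^ 2 * ((z.1 - q.1) * (turn a₀ (vfc μ) z).1 + (z.2 - q.2) * (turn a₀ (vfc μ) z).2) ^ 2 +
      det2 (z - q) (turn a₀ (vfc μ) z) ^ 2 with hden
  have hdpos : ∀ t, 0 < den (at' (F.Z s) t) := by
    intro t
    set z := at' (F.Z s) t with hz
    have hN : 0 < nm (z - q) ^ 2 * nm (vfc μ z) ^ 2 := by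
      have h2 := nm_pos (sub_ne_zero.2 (hqt t))
      have h3 := nm_pos (hneμ t)
      positivity
    rw [nm_sq, nm_sq] at hN
    have h1 := Real.sin_sq_add_cos_sq a₀
    have hid : ((z.1 - q.1) * (turn a₀ (vfc μ) z).1 + (z.2 - q.2) * (turn a₀ (vfc μ) z).2) ^ 2 +
      det2 (z - q) (turn a₀ (vfc μ) z) ^ 2 = ((z - q).1 ^ 2 + (z - q).2 ^ 2) *
        ((vfc μ z).1 ^ 2 + (vfc μ z).2 ^ 2) := by
      simp only [turn, det2, Prod.fst_sub, Prod.snd_sub]
      linear_combination (((z.1 - q.1) ^ 2 + (z.2 - q.2) ^ 2) *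
        ((vfc μ z).1 ^ 2 + (vfc μ z).2 ^ 2)) * h1
    rw [← hid] at hN
    simp only [hden]
    rcases eq_or_ne ((z.1 - q.1) * (turn a₀ (vfc μ) z).1 +
      (z.2 - q.2) * (turn a₀ (vfc μ) z).2) 0 with h0 | h0
    · rw [h0] at hN ⊢
      simpa using hN
    · have := sq_nonneg (det2 (z - q) (turn a₀ (vfc μ) z))
      have h2 := sq_pos_of_ne_zero h0
      have := mul_pos (pow_pos hκ 2) h2
      linarith
  have hcden : Continuous den := by
    have h1 := continuous_vfc_AS μ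
    have h2 := h1.fst
    have h3 := h1.snd
    simp only [hden, turn, det2]
    fun_prop
  have hwt : ∀ z, wtW μ q κ a₀ z = (nm (vfc μ z) ^ 2 * nm (z - q) ^ 2) / den z := fun z => rfl
  have hcw : Continuous fun t => wtW μ q κ a₀ (pth (F.Z s) t) := by
    simp only [hwt]
    apply Continuous.div
    · exact ((continuous_nm.comp ((continuous_vfc_AS μ).comp (continuous_pth _))).pow 2).mul
        ((continuous_nm.comp ((continuous_pth _).sub continuous_const)).pow 2)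
    · exact hcden.comp (continuous_pth _)
    · intro t
      rw [hproj]
      exact (hdpos _).ne'
  have hkey : ∀ t : ℝ, nm (vfc (rotA μ (F.a s)) (pth (F.Z s) t)) ^ 2 *
      nm (pth (F.Z s) t - q) ^ 2 ≤ (13 / 4 * wtW μ q κ a₀ (pth (F.Z s) t)) *
      det2 (pth (F.Z s) t - q) (vfc (rotA μ (F.a s)) (pth (F.Z s) t)) ^ 2 := by
    intro t
    rw [hproj]
    set t' := Set.projIcc 0 1 (zero_le_one' ℝ) t
    have hst1 := hstar _ ⟨t', rfl⟩
    set z := at' (F.Z s) t' with hz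
    have hd := hdpos t'
    rw [hwt]
    rw [← hz] at hd
    rw [vfc_rotA] at hst1 ⊢
    rw [nm_turn] at hst1 ⊢
    set W := turn (F.a s) (vfc μ) z with hW
    set δ := F.a s - a₀ with hδ
    have hδ2 : |δ| ≤ κ / 2 := by
      rw [abs_of_nonneg (by linarith)]
      linarith
    set u := (z.1 - q.1) * W.1 + (z.2 - q.2) * W.2 with hu
    set v := det2 (z - q) W with hv
    have hY1 : (turn a₀ (vfc μ) z).1 = Real.cos δ * W.1 + Real.sin δ * W.2 := by
      have : a₀ = F.a s - δ := by ring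
      rw [this]
      simp only [turn, hW, Real.cos_sub, Real.sin_sub]
      ring
    have hY2 : (turn a₀ (vfc μ) z).2 = -(Real.sin δ * W.1) + Real.cos δ * W.2 := by
      have : a₀ = F.a s - δ := by ring
      rw [this]
      simp only [turn, hW, Real.cos_sub, Real.sin_sub]
      ring
    have hdz : den z = κ ^ 2 * (Real.cos δ * u + Real.sin δ * v) ^ 2 +
        (Real.cos δ * v - Real.sin δ * u) ^ 2 := by
      simp only [hden, hY1, hY2, det2, hu, hv, Prod.fst_sub, Prod.snd_sub]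
      ring
    have huv : u ^ 2 + v ^ 2 = nm (vfc μ z) ^ 2 * nm (z - q) ^ 2 := by
      rw [nm_sq, nm_sq]
      have h1 := Real.sin_sq_add_cos_sq (F.a s)
      simp only [hu, hv, hW, turn, det2, Prod.fst_sub, Prod.snd_sub]
      linear_combination (((z.1 - q.1) ^ 2 + (z.2 - q.2) ^ 2) *
        ((vfc μ z).1 ^ 2 + (vfc μ z).2 ^ 2)) * h1
    have hst2 : κ ^ 2 * (u ^ 2 + v ^ 2) ≤ v ^ 2 := by
      rw [huv, ← sq_abs v]
      have h0 : 0 ≤ κ * nm (z - q) * nm (vfc μ z) :=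
        mul_nonneg (mul_nonneg hκ.le (Real.sqrt_nonneg _)) (Real.sqrt_nonneg _)
      calc κ ^ 2 * (nm (vfc μ z) ^ 2 * nm (z - q) ^ 2) = (κ * nm (z - q) * nm (vfc μ z)) ^ 2 := by
            ring
        _ ≤ |v| ^ 2 := pow_le_pow_left₀ h0 hst1 2
    have h1 := sfw_alg hκ hδ2 hst2
    rw [← hdz] at h1
    have hN0 : 0 ≤ nm (vfc μ z) ^ 2 * nm (z - q) ^ 2 := by positivity
    calc nm (vfc μ z) ^ 2 * nm (z - q) ^ 2 =
        (nm (vfc μ z) ^ 2 * nm (z - q) ^ 2) / den z * den z := by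
          rw [div_mul_cancel₀ _ hd.ne']
      _ ≤ (nm (vfc μ z) ^ 2 * nm (z - q) ^ 2) / den z * (13 / 4 * v ^ 2) := by
          apply mul_le_mul_of_nonneg_left h1
          positivity
      _ = _ := by ring
  have key := _root_.Pool.Agent.Lib.MP_95e7ec_an.star_le_w (rotA μ (F.a s)) (F.τ s) (F.τ' s) (F.a' s) (F.tau_pos s hs)
    (at' (F.Z s) 0) (at' (F.Y s) 0) (F.Z s) (F.Y s) (F.sol s hs) (F.closed s hs) rfl
    (F.closedY s hs) hne (F.lin1 s hs) (F.lin2 s hs) hqt hsd (hcw.const_mul (13 / 4)) hkey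
  have hpth : ∀ (t : ℝ) (ht : t ∈ Set.Icc (0 : ℝ) 1) (z : A × A),
      pth z t = at' z ⟨t, ht.1, ht.2⟩ := by
    intro t ht z
    have := pth_coe z ⟨t, ht.1, ht.2⟩
    exact this
  set R : ℝ → ℝ := fun t => radG μ q (pth (F.Z s) t) * wtW μ q κ a₀ (pth (F.Z s) t) with hR
  have hRnn : ∀ t, 0 ≤ R t := fun t => mul_nonneg (sfw_radG_nonneg _ _ _) (sfw_wtW_nonneg _ _ _ _ _)
  have hjac : ∀ t ∈ Set.Icc (0 : ℝ) 1,
      F.τ s * |det2 (vfc (rotA μ (F.a s)) (pth (F.Z s) t)) (pth (F.Y s) t)| *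
        radG (rotA μ (F.a s)) q (pth (F.Z s) t) * (13 / 4 * wtW μ q κ a₀ (pth (F.Z s) t)) =
      13 / 4 * (F.jac s t * R t) := by
    intro t ht
    have hpos := F.jac_pos s hs ⟨t, ht.1, ht.2⟩
    rw [radG_rotA, Fam.jac]
    simp only [hR]
    rw [hpth t ht, hpth t ht, abs_of_pos hpos]
    ring
  have hcont : ContinuousOn (fun t => F.jac s t * R t) (Set.Icc 0 1) := by
    apply ContinuousOn.mul
    · unfold Fam.jac det2
      have h1 := continuous_pth (F.Z s)
      have h2 := continuous_pth (F.Y s)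
      have h3 := (continuous_vfc_AS (rotA μ (F.a s))).comp h1
      apply Continuous.continuousOn
      have h31 := continuous_fst.comp h3
      have h32 := continuous_snd.comp h3
      have h21 := continuous_fst.comp h2
      have h22 := continuous_snd.comp h2
      exact continuous_const.mul ((h31.mul h22).sub (h32.mul h21))
    · apply ContinuousOn.mul _ hcw.continuousOn
      intro t ht
      have h1 := (continuous_pth (F.Z s)).continuousAt (x := t)
      have h2 : ContinuousAt (radG μ q) (pth (F.Z s) t) := by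
        rw [hpth t ht]
        exact sfw_continuousAt_radG μ (hneμ _) (hqt _)
      exact (ContinuousAt.comp (f := pth (F.Z s)) h2 h1).continuousWithinAt
  have hnn : ∀ t ∈ Set.Icc (0 : ℝ) 1, 0 ≤ F.jac s t * R t := by
    intro t ht
    have hpos := F.jac_pos s hs ⟨t, ht.1, ht.2⟩
    apply mul_nonneg _ (hRnn t)
    rw [Fam.jac, hpth t ht, hpth t ht]
    exact mul_nonneg (F.tau_pos s hs).le hpos.le
  have hI : (∫ t in (0 : ℝ)..1,
      F.τ s * |det2 (vfc (rotA μ (F.a s)) (pth (F.Z s) t)) (pth (F.Y s) t)| *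
        radG (rotA μ (F.a s)) q (pth (F.Z s) t) * (13 / 4 * wtW μ q κ a₀ (pth (F.Z s) t))) =
      13 / 4 * ∫ t in Set.Ioo (0 : ℝ) 1, F.jac s t * R t := by
    rw [intervalIntegral.integral_of_le zero_le_one, integral_Ioc_eq_integral_Ioo,
      ← integral_const_mul]
    apply setIntegral_congr_fun measurableSet_Ioo
    intro t ht
    exact hjac t (Ioo_subset_Icc_self ht)
  rw [hI] at key
  have hpi := Real.pi_pos
  have key2 : |F.a' s| ≤ 13 / (8 * Real.pi) *
      ∫ t in Set.Ioo (0 : ℝ) 1, F.jac s t * R t := by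
    have h1 : 13 / (8 * Real.pi) *
        (∫ t in Set.Ioo (0 : ℝ) 1, F.jac s t * R t) =
        (13 / 4 * ∫ t in Set.Ioo (0 : ℝ) 1, F.jac s t * R t) /
          (2 * Real.pi) := by
      field_simp
      ring
    rw [h1, le_div_iff₀ (by positivity)]
    exact key
  refine (ENNReal.ofReal_le_ofReal key2).trans ?_
  rw [ENNReal.ofReal_mul (by positivity)]
  rw [ofReal_integral_eq_lintegral_ofReal]
  · have hm : Measurable fun t => ENNReal.ofReal (F.jac s t * R t) := by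
      apply Measurable.ennreal_ofReal
      apply Measurable.mul
      · unfold Fam.jac det2
        have h1 := continuous_pth (F.Z s)
        have h2 := continuous_pth (F.Y s)
        have h3 := (continuous_vfc_AS (rotA μ (F.a s))).comp h1
        have h31 := continuous_fst.comp h3
        have h32 := continuous_snd.comp h3
        have h21 := continuous_fst.comp h2
        have h22 := continuous_snd.comp h2
        exact (continuous_const.mul ((h31.mul h22).sub (h32.mul h21))).measurable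
      · exact ((measurable_radG μ q).comp (continuous_pth (F.Z s)).measurable).mul hcw.measurable
    rw [← lintegral_const_mul _ hm]
    apply le_of_eq
    apply setLIntegral_congr_fun measurableSet_Ioo
    intro t ht
    have ht' := Ioo_subset_Icc_self ht
    have hpos := F.jac_pos s hs ⟨t, ht'.1, ht'.2⟩
    simp only
    rw [ENNReal.ofReal_mul]
    · simp only [hR]
      ring
    · rw [Fam.jac, hpth t ht', hpth t ht']
      exact mul_nonneg (F.tau_pos s hs).le hpos.le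
  · exact (hcont.integrableOn_Icc).mono_set Ioo_subset_Icc_self
  · rw [Filter.EventuallyLE, ae_restrict_iff' measurableSet_Ioo]
    exact Eventually.of_forall fun t ht => hnn t (Ioo_subset_Icc_self ht)

/-- Proof: as `star_avg` (Rb/StarAvg.lean), with `Fam.star_le_w` and `lintegral_radW`:
`13/(8π) * 4π² n/κ = 6.5 π n / κ ≤ 21 n / κ`. -/
theorem star_avg_w {n : ℕ} (μ : Pr n) (q : ℝ × ℝ) {κ : ℝ} (hκ : 0 < κ) (a₀ : ℝ) :
    ∫⁻ α in Set.Ioo 0 Real.pi, setSum (starIndW (vfc μ) q κ a₀) (vfc μ) Set.univ α ≤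
      ENNReal.ofReal (21 * n / κ) := by
  have hpi := Real.pi_pos
  have hm : Measurable fun z : ℝ × ℝ => ENNReal.ofReal (radG μ q z * wtW μ q κ a₀ z) :=
    (measurable_radW μ q κ a₀).ennreal_ofReal
  refine (setSum_le μ isOpen_univ (fun F => starIndW_measurable q κ a₀ F)
    (g := fun z => ENNReal.ofReal (13 / (8 * Real.pi)) *
      ENNReal.ofReal (radG μ q z * wtW μ q κ a₀ z))
    (hm.const_mul _) (fun F s hs => F.star_le_w hκ a₀ hs)).trans ?_
  rw [Measure.restrict_univ, lintegral_const_mul _ hm]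
  calc _ ≤ ENNReal.ofReal (13 / (8 * Real.pi)) *
        ENNReal.ofReal (4 * Real.pi ^ 2 * n / κ) := by
        gcongr
        exact lintegral_radW μ q hκ a₀
    _ = ENNReal.ofReal (13 / (8 * Real.pi) * (4 * Real.pi ^ 2 * n / κ)) := by
        rw [← ENNReal.ofReal_mul (by positivity)]
    _ ≤ ENNReal.ofReal (21 * n / κ) := by
        apply ENNReal.ofReal_le_ofReal
        have h1 : 13 / (8 * Real.pi) * (4 * Real.pi ^ 2 * n / κ) = 13 / 2 * Real.pi * (n / κ) := by
          field_simp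
          ring
        have h2 : Real.pi < 3.15 := Real.pi_lt_d2
        have h3 : 0 ≤ (n : ℝ) / κ := by positivity
        rw [h1, mul_div_assoc]
        apply mul_le_mul_of_nonneg_right _ h3
        linarith

end Pool.Agent.Lib.MP_95e7ec_an
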