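import Mathlib
import Pool.Agent.Lib.MP_95e7ec_an.Rq.Shift2
import Pool.Agent.Lib.MP_95e7ec_an.Rq.StarAvgW
import Pool.Agent.Lib.MP_95e7ec_an.Rq.Centre

/-!
# Rq, Centre2: the closed orbits around one zero of the field, better bound
-/

set_option autoImplicit false

open Set Filter Topology MeasureTheory
open scoped ContDiff ENNReal

namespace Pool.Agent.Lib.MP_95e7ec_an

theorem hullN_le_setSum2 {v : ℝ × ℝ → ℝ × ℝ} {q : ℝ × ℝ} {a : ℝ} {R : Finset ℝ}
    {W : Finset (ℝ × ℝ)}
    (h : ∀ C, IsClosedOrbit (turn a v) C → q ∈ convexHull ℝ C →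
      (∃ w ∈ W, IsStarW v q w.2 w.1 C) ∨ ∃ r ∈ R, IsNear q r (3 * r) C) :
    hullN v q a ≤ ∑ w ∈ W, setSum (starIndW v q w.2 w.1) v Set.univ a +
      ∑ r ∈ R, setSum (nearInd q r (3 * r)) v Set.univ a := by
  classical
  unfold hullN setSum
  set S : Set (Set (ℝ × ℝ)) := {C | IsClosedOrbit (turn a v) C ∧ q ∈ convexHull ℝ C} with hS
  set T : Set (Set (ℝ × ℝ)) := {C | IsClosedOrbit (turn a v) C ∧ C ⊆ univ} with hT
  have h1 : ((S.encard : ℕ∞) : ℝ≥0∞) = ∑' C, S.indicator (fun _ => (1 : ℝ≥0∞)) C := by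
    rw [← tsum_subtype, ENNReal.tsum_set_one]
  have h2 : ∀ f : Set (ℝ × ℝ) → ℝ≥0∞,
      ∑' C : {C : Set (ℝ × ℝ) // IsClosedOrbit (turn a v) C ∧ C ⊆ Set.univ}, f C =
        ∑' C, T.indicator f C := fun f => tsum_subtype T f
  have h3 : ∑ r ∈ R, ∑' C, T.indicator (nearInd q r (3 * r)) C =
      ∑' C, ∑ r ∈ R, T.indicator (nearInd q r (3 * r)) C :=
    (Summable.tsum_finsetSum fun _ _ => ENNReal.summable).symm
  have h3' : ∑ w ∈ W, ∑' C, T.indicator (starIndW v q w.2 w.1) C =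
      ∑' C, ∑ w ∈ W, T.indicator (starIndW v q w.2 w.1) C :=
    (Summable.tsum_finsetSum fun _ _ => ENNReal.summable).symm
  simp only [h2]
  rw [h1, h3, h3', ← ENNReal.tsum_add]
  refine ENNReal.tsum_le_tsum fun C => ?_
  by_cases hC : C ∈ S
  · have hCT : C ∈ T := ⟨hC.1, subset_univ _⟩
    rw [Set.indicator_of_mem hC]
    rcases h C hC.1 hC.2 with ⟨w, hw, h4⟩ | ⟨r, hr, h4⟩
    · refine le_trans ?_ (le_add_right le_rfl)
      refine le_trans ?_ (Finset.single_le_sum
        (f := fun w : ℝ × ℝ => T.indicator (starIndW v q w.2 w.1) C) (fun _ _ => zero_le) hw)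
      simp only [Set.indicator_of_mem hCT]
      rw [starIndW, if_pos h4]
    · refine le_trans ?_ (le_add_left le_rfl)
      refine le_trans ?_ (Finset.single_le_sum (f := fun r => T.indicator (nearInd q r (3 * r)) C)
        (fun _ _ => zero_le) hr)
      simp only [Set.indicator_of_mem hCT]
      rw [nearInd, if_pos h4]
  · rw [Set.indicator_of_notMem hC]
    exact zero_le

/-- **One zero of the field, better bound.** -/
theorem centre_count2 {n : ℕ} (hn : 1 ≤ n) {P Q : MvPolynomial (Fin 2) ℝ}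
    (hP : P.totalDegree ≤ n) (hQ : Q.totalDegree ≤ n) (hPQ : IsRelPrime P Q) {q : ℝ × ℝ}
    (h0 : vf P Q q = 0) {t : ℝ} (ht : 0 < t) (ht4 : t * n ^ 4 ≤ 1 / 20) :
    ∃ (B : Set ℝ) (H : ℝ → ℝ≥0∞), volume B ≤ ENNReal.ofReal (1500 * n ^ 2 * t) ∧
      AEMeasurable H (volume.restrict (Set.Ioo 0 Real.pi)) ∧
      ∫⁻ a in Set.Ioo 0 Real.pi, H a ≤ ENNReal.ofReal (64000000 * n ^ 3 / t) ∧
      ∀ a ∈ Set.Ioo 0 Real.pi, a ∉ B → hullN (vf P Q) q a ≤ H a := by
  obtain ⟨B, R, W, hB, hR, hRpos, hWpos, hW, hdi⟩ := dichotomy_at2 hn hP hQ hPQ h0 ht ht4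
  have hn1 : (1 : ℝ) ≤ n := by exact_mod_cast hn
  have hvf : vf P Q = vfc (arr n P, arr n Q) := vf_eq_vfc hP hQ
  set μ : Pr n := (arr n P, arr n Q) with hμ
  set H : ℝ → ℝ≥0∞ := fun a => ∑ w ∈ W, setSum (starIndW (vfc μ) q w.2 w.1) (vfc μ) Set.univ a +
      ∑ r ∈ R, setSum (nearInd q r (3 * r)) (vfc μ) Set.univ a with hH
  have hms : ∀ w : ℝ × ℝ, AEMeasurable (setSum (starIndW (vfc μ) q w.2 w.1) (vfc μ) Set.univ)
      (volume.restrict (Set.Ioo 0 Real.pi)) := fun w =>
    setSum_aemeasurable μ isOpen_univ fun F => starIndW_measurable q w.2 w.1 F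
  have hmn : ∀ r : ℝ, AEMeasurable (setSum (nearInd q r (3 * r)) (vfc μ) Set.univ)
      (volume.restrict (Set.Ioo 0 Real.pi)) := fun r => aemeasurable_near μ q r (3 * r)
  have hmsum : AEMeasurable (fun a => ∑ r ∈ R, setSum (nearInd q r (3 * r)) (vfc μ) Set.univ a)
      (volume.restrict (Set.Ioo 0 Real.pi)) := by
    have := Finset.aemeasurable_sum (f := fun r => setSum (nearInd q r (3 * r)) (vfc μ) Set.univ)
      R fun r _ => hmn r
    refine this.congr (Eventually.of_forall fun a => ?_)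
    simp only [Finset.sum_apply]
  have hmsumW : AEMeasurable
      (fun a => ∑ w ∈ W, setSum (starIndW (vfc μ) q w.2 w.1) (vfc μ) Set.univ a)
      (volume.restrict (Set.Ioo 0 Real.pi)) := by
    have := Finset.aemeasurable_sum
      (f := fun w : ℝ × ℝ => setSum (starIndW (vfc μ) q w.2 w.1) (vfc μ) Set.univ)
      W fun w _ => hms w
    refine this.congr (Eventually.of_forall fun a => ?_)
    simp only [Finset.sum_apply]
  refine ⟨B, H, hB, hmsumW.add hmsum, ?_, ?_⟩
  · rw [hH, lintegral_add_left' hmsumW, lintegral_finset_sum' _ fun r _ => hmn r,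
      lintegral_finset_sum' _ fun w _ => hms w]
    have h2 : ∀ r ∈ R, ∫⁻ a in Set.Ioo 0 Real.pi, setSum (nearInd q r (3 * r)) (vfc μ) Set.univ a ≤
        ENNReal.ofReal (2100 * n) := by
      intro r hr
      have hr0 := hRpos r hr
      refine (near_avg hn μ q (L := r) (R := 3 * r) hr0 (by linarith)).trans ?_
      apply ENNReal.ofReal_le_ofReal
      rw [div_le_iff₀ hr0]
      nlinarith
    have h7 : (∑ r ∈ R, ∫⁻ a in Set.Ioo 0 Real.pi,
        setSum (nearInd q r (3 * r)) (vfc μ) Set.univ a) ≤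
        ENNReal.ofReal (63000000 * n ^ 3 / t) := by
      refine (Finset.sum_le_sum h2).trans ?_
      rw [Finset.sum_const, nsmul_eq_mul, ← ENNReal.ofReal_natCast, ← ENNReal.ofReal_mul
        (by positivity)]
      apply ENNReal.ofReal_le_ofReal
      calc (R.card : ℝ) * (2100 * n) ≤ (30000 * n ^ 2 / t) * (2100 * n) := by gcongr
        _ = 63000000 * n ^ 3 / t := by ring
    have h8 : (∑ w ∈ W, ∫⁻ a in Set.Ioo 0 Real.pi,
        setSum (starIndW (vfc μ) q w.2 w.1) (vfc μ) Set.univ a) ≤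
        ENNReal.ofReal (1000000 * n ^ 3 / t) := by
      calc _ ≤ ∑ w ∈ W, ENNReal.ofReal (21 * n * (1 / w.2)) := by
            refine Finset.sum_le_sum fun w hw => ?_
            refine (star_avg_w μ q (hWpos w hw) w.1).trans (le_of_eq ?_)
            congr 1
            ring
        _ = ENNReal.ofReal (21 * n * ∑ w ∈ W, 1 / w.2) := by
            rw [Finset.mul_sum, ENNReal.ofReal_sum_of_nonneg]
            intro w hw
            have := hWpos w hw
            positivity
        _ ≤ ENNReal.ofReal (1000000 * n ^ 3 / t) := by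
            apply ENNReal.ofReal_le_ofReal
            calc 21 * (n : ℝ) * ∑ w ∈ W, 1 / w.2 ≤ 21 * n * (2400 * n ^ 2 / t) := by gcongr
              _ = 50400 * n ^ 3 / t := by ring
              _ ≤ 1000000 * n ^ 3 / t := by gcongr; norm_num
    calc _ ≤ ENNReal.ofReal (1000000 * n ^ 3 / t) + ENNReal.ofReal (63000000 * n ^ 3 / t) :=
          add_le_add h8 h7
      _ = _ := by
          rw [← ENNReal.ofReal_add (by positivity) (by positivity)]
          congr 1
          ring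
  · intro a ha haB
    rw [hH]
    have := hullN_le_setSum2 (v := vf P Q) (q := q) (a := a) (R := R) (W := W)
      fun C hC hq => hdi a ha haB C hC hq
    rw [hvf] at this ⊢
    exact this

end Pool.Agent.Lib.MP_95e7ec_an
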