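import Mathlib
import Pool.Agent.Lib.MP_95e7ec_an.Rq.Centre2
import Pool.Agent.Lib.MP_95e7ec_an.Rq.Final

/-!
# Rq, Final2: the number of all closed orbits of most of the turned fields, better exponents
-/

set_option autoImplicit false

open Set Filter Topology MeasureTheory
open scoped ContDiff ENNReal

namespace Pool.Agent.Lib.MP_95e7ec_an

theorem most_coprime2 {n : ℕ} (hn : 1 ≤ n) {P Q : MvPolynomial (Fin 2) ℝ}
    (hP : P.totalDegree ≤ n) (hQ : Q.totalDegree ≤ n) (hPQ : IsRelPrime P Q) {ε : ℝ}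
    (hε : 0 < ε) (hε1 : ε ≤ 1) :
    volume {a : ℝ | a ∈ Set.Ioo 0 Real.pi ∧
      ENNReal.ofReal (10 ^ 13 * n ^ 9 / ε ^ 2) < allN (turn a (vf P Q))} ≤
      ENNReal.ofReal (ε / 2) := by
  classical
  have hn1 : (1 : ℝ) ≤ n := by exact_mod_cast hn
  have hn0 : (0 : ℝ) < n := by linarith
  set t : ℝ := ε / (6000 * n ^ 4) with ht
  have hn4 : (1 : ℝ) ≤ (n : ℝ) ^ 4 := one_le_pow₀ hn1
  have ht0 : 0 < t := by positivity
  have ht1 : t * n ^ 4 ≤ 1 / 20 := by
    have e0 : t * n ^ 4 = ε / 6000 := by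
      rw [ht]; field_simp
    rw [e0]
    linarith
  obtain ⟨Z, hZc, hZ⟩ := exists_finset_zeros P Q hPQ hP hQ
  choose! B H hB hHm hHi hBH using fun (q : ℝ × ℝ) (hq : q ∈ Z) =>
    centre_count2 hn hP hQ hPQ ((hZ q).2 hq) ht0 ht1
  set BB : Set ℝ := ⋃ q ∈ Z, B q with hBB
  set HH : ℝ → ℝ≥0∞ := fun a => ∑ q ∈ Z, H q a with hHH
  have hZr : (Z.card : ℝ) ≤ (n : ℝ) ^ 2 := by exact_mod_cast hZc
  have hBBv : volume BB ≤ ENNReal.ofReal (ε / 4) := by
    calc volume BB ≤ ∑ q ∈ Z, volume (B q) := measure_biUnion_finset_le _ _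
      _ ≤ ∑ q ∈ Z, ENNReal.ofReal (1500 * n ^ 2 * t) := Finset.sum_le_sum hB
      _ = ENNReal.ofReal (Z.card * (1500 * n ^ 2 * t)) := by
        rw [Finset.sum_const, nsmul_eq_mul, ← ENNReal.ofReal_natCast,
          ← ENNReal.ofReal_mul (by positivity)]
      _ ≤ ENNReal.ofReal (ε / 4) := by
        apply ENNReal.ofReal_le_ofReal
        calc (Z.card : ℝ) * (1500 * n ^ 2 * t) ≤ n ^ 2 * (1500 * n ^ 2 * t) := by gcongr
          _ = ε / 4 := by rw [ht]; field_simp; ring
  have hHHm : AEMeasurable HH (volume.restrict (Set.Ioo 0 Real.pi)) := by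
    have := Finset.aemeasurable_sum (f := fun q => H q) Z fun q hq => hHm q hq
    refine this.congr (Eventually.of_forall fun a => ?_)
    simp only [Finset.sum_apply, hHH]
  have hHHi : ∫⁻ a in Set.Ioo 0 Real.pi, HH a ≤ ENNReal.ofReal (10 ^ 12 * n ^ 9 / ε) := by
    rw [hHH, lintegral_finset_sum' _ fun q hq => hHm q hq]
    calc _ ≤ ∑ q ∈ Z, ENNReal.ofReal (64000000 * n ^ 3 / t) := Finset.sum_le_sum hHi
      _ = ENNReal.ofReal (Z.card * (64000000 * n ^ 3 / t)) := by
        rw [Finset.sum_const, nsmul_eq_mul, ← ENNReal.ofReal_natCast,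
          ← ENNReal.ofReal_mul (by positivity)]
      _ ≤ _ := by
        apply ENNReal.ofReal_le_ofReal
        have e1 : (n : ℝ) ^ 2 * (64000000 * n ^ 3 / t) = 64000000 * 6000 * n ^ 9 / ε := by
          rw [ht]; field_simp
        calc (Z.card : ℝ) * (64000000 * n ^ 3 / t)
            ≤ n ^ 2 * (64000000 * n ^ 3 / t) := by gcongr
          _ = 64000000 * 6000 * n ^ 9 / ε := e1
          _ ≤ 10 ^ 12 * n ^ 9 / ε := by gcongr; norm_num
  set lam : ℝ := 10 ^ 13 * n ^ 9 / ε ^ 2 with hlam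
  have hlam0 : 0 < lam := by positivity
  have hmark : volume {a : ℝ | a ∈ Set.Ioo 0 Real.pi ∧ ENNReal.ofReal lam ≤ HH a} ≤
      ENNReal.ofReal (ε / 4) := by
    have h1 := mul_meas_ge_le_lintegral₀ hHHm (ENNReal.ofReal lam)
    have h2 : volume {a : ℝ | a ∈ Set.Ioo 0 Real.pi ∧ ENNReal.ofReal lam ≤ HH a} ≤
        (volume.restrict (Set.Ioo 0 Real.pi)) {a | ENNReal.ofReal lam ≤ HH a} := by
      refine le_trans (measure_mono ?_) (Measure.le_restrict_apply _ _)
      rintro a ⟨h3, h4⟩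
      exact ⟨h4, h3⟩
    have h5 : ENNReal.ofReal lam ≠ 0 := (ENNReal.ofReal_pos.2 hlam0).ne'
    have h6 : (volume.restrict (Set.Ioo 0 Real.pi)) {a | ENNReal.ofReal lam ≤ HH a} ≤
        ENNReal.ofReal (10 ^ 12 * n ^ 9 / ε) / ENNReal.ofReal lam := by
      rw [ENNReal.le_div_iff_mul_le (Or.inl h5) (Or.inl ENNReal.ofReal_ne_top), mul_comm]
      exact h1.trans hHHi
    refine (h2.trans h6).trans ?_
    rw [← ENNReal.ofReal_div_of_pos hlam0]
    apply ENNReal.ofReal_le_ofReal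
    rw [hlam, div_le_iff₀ (by positivity)]
    have : (0 : ℝ) < (n : ℝ) ^ 9 := by positivity
    have e3 : ε / 4 * (10 ^ 13 * n ^ 9 / ε ^ 2) = (10 ^ 13 / 4) * n ^ 9 / ε := by
      field_simp
    rw [e3]
    gcongr
    norm_num
  have hsub : {a : ℝ | a ∈ Set.Ioo 0 Real.pi ∧ ENNReal.ofReal lam < allN (turn a (vf P Q))} ⊆
      BB ∪ {a : ℝ | a ∈ Set.Ioo 0 Real.pi ∧ ENNReal.ofReal lam ≤ HH a} := by
    rintro a ⟨ha, hN⟩
    by_cases hb : a ∈ BB
    · exact Or.inl hb
    · refine Or.inr ⟨ha, hN.le.trans ?_⟩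
      have hcont : ContDiff ℝ 1 (turn a (vf P Q)) := by
        have h7 : ContDiff ℝ 1 (vf P Q) := contDiff_vf P Q
        unfold turn
        exact ((contDiff_const.mul h7.fst).sub (contDiff_const.mul h7.snd)).prodMk
          ((contDiff_const.mul h7.fst).add (contDiff_const.mul h7.snd))
      have h8 : {C : Set (ℝ × ℝ) | IsClosedOrbit (turn a (vf P Q)) C} ⊆
          ⋃ q ∈ Z, {C : Set (ℝ × ℝ) | IsClosedOrbit (turn a (vf P Q)) C ∧
            q ∈ convexHull ℝ C} := by
        intro C hC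
        obtain ⟨q, hq, hq0⟩ := exists_zero_in_hull hcont hC
        have hq1 : vf P Q q = 0 := by
          have h9 : turn a (vf P Q) q = 0 := hq0
          have h10 := congrArg Prod.fst h9
          have h11 := congrArg Prod.snd h9
          simp only [turn, Prod.fst_zero, Prod.snd_zero] at h10 h11
          have h12 := Real.sin_sq_add_cos_sq a
          ext
          · simp only [Prod.fst_zero]
            linear_combination Real.cos a * h10 + Real.sin a * h11 - (vf P Q q).1 * h12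
          · simp only [Prod.snd_zero]
            linear_combination Real.cos a * h11 - Real.sin a * h10 - (vf P Q q).2 * h12
        exact Set.mem_biUnion (by exact_mod_cast (hZ q).1 hq1) ⟨hC, hq⟩
      refine (encard_le_sum_of_subset Z _ _ h8).trans ?_
      rw [hHH]
      refine Finset.sum_le_sum fun q hq => ?_
      exact hBH q hq a ha fun hbq => hb (Set.mem_biUnion (by exact_mod_cast hq) hbq)
  calc _ ≤ volume (BB ∪ {a : ℝ | a ∈ Set.Ioo 0 Real.pi ∧ ENNReal.ofReal lam ≤ HH a}) :=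
        measure_mono hsub
    _ ≤ volume BB + volume {a : ℝ | a ∈ Set.Ioo 0 Real.pi ∧ ENNReal.ofReal lam ≤ HH a} :=
        measure_union_le _ _
    _ ≤ ENNReal.ofReal (ε / 4) + ENNReal.ofReal (ε / 4) := add_le_add hBBv hmark
    _ = ENNReal.ofReal (ε / 2) := by
        rw [← ENNReal.ofReal_add (by positivity) (by positivity)]
        congr 1
        ring

/-- **Main theorem, better exponents.** -/
theorem most_angles2 {n : ℕ} (hn : 1 ≤ n) {P Q : MvPolynomial (Fin 2) ℝ}
    (hP : P.totalDegree ≤ n) (hQ : Q.totalDegree ≤ n) {ε : ℝ} (hε : 0 < ε) (hε1 : ε ≤ 1) :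
    volume {a : ℝ | a ∈ Set.Icc 0 (2 * Real.pi) ∧
      ENNReal.ofReal (10 ^ 13 * n ^ 9 / ε ^ 2) < allN (turn a (vf P Q))} ≤
      ENNReal.ofReal ε := by
  classical
  let _ : NormalizedGCDMonoid (MvPolynomial (Fin 2) ℝ) := Nonempty.some inferInstance
  have hv : ContDiff ℝ 1 (vf P Q) := contDiff_vf P Q
  by_cases hPQ : P = 0 ∧ Q = 0
  · -- the zero field has no closed orbit
    have h0 : ∀ a : ℝ, allN (turn a (vf P Q)) = 0 := by
      intro a
      have h1 : {C : Set (ℝ × ℝ) | IsClosedOrbit (turn a (vf P Q)) C} = ∅ := by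
        rw [Set.eq_empty_iff_forall_notMem]
        intro C hC
        have hz : turn a (vf P Q) = fun _ => (0 : ℝ × ℝ) := by
          funext z
          simp [turn, vf, hPQ.1, hPQ.2]
        have hC' : IsClosedOrbit (fun _ : ℝ × ℝ => (0 : ℝ × ℝ)) C := by
          rw [← hz]; exact hC
        obtain ⟨z, hz⟩ := hC'.nonempty
        exact hC'.ne_zero_of_contDiff contDiff_const hz rfl
      unfold allN
      rw [h1]
      simp
    have h2 : {a : ℝ | a ∈ Set.Icc 0 (2 * Real.pi) ∧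
        ENNReal.ofReal (10 ^ 13 * n ^ 9 / ε ^ 2) < allN (turn a (vf P Q))} = ∅ := by
      rw [Set.eq_empty_iff_forall_notMem]
      rintro a ⟨-, h3⟩
      rw [h0 a] at h3
      exact not_lt_zero h3
    rw [h2]
    simp
  have hPQ' : P ≠ 0 ∨ Q ≠ 0 := by
    by_contra hcon
    push Not at hcon
    exact hPQ hcon
  obtain ⟨P₁, Q₁, hP₁, hQ₁, hu⟩ := extract_gcd P Q
  set g := gcd P Q with hg
  have hg0 : g ≠ 0 := by
    intro h0
    rw [hg, gcd_eq_zero_iff] at h0
    rcases hPQ' with h | h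
    · exact h h0.1
    · exact h h0.2
  have hrel : IsRelPrime P₁ Q₁ := gcd_isUnit_iff_isRelPrime.1 hu
  have hdeg : ∀ (A B : MvPolynomial (Fin 2) ℝ), A = g * B → A.totalDegree ≤ n →
      B.totalDegree ≤ n := by
    intro A B hAB hA
    rcases eq_or_ne B 0 with h0 | h0
    · simp [h0]
    · have := MvPolynomial.totalDegree_mul_of_isDomain hg0 h0
      rw [← hAB] at this
      omega
  have hP₁d := hdeg P P₁ hP₁ hP
  have hQ₁d := hdeg Q Q₁ hQ₁ hQ
  have hsm : ∀ z, vf P Q z = (MvPolynomial.eval ![z.1, z.2] g) • vf P₁ Q₁ z := by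
    intro z
    unfold vf
    conv_lhs => rw [hP₁, hQ₁]
    simp only [map_mul, Prod.smul_mk, smul_eq_mul]
  have hgc : Continuous fun z : ℝ × ℝ => MvPolynomial.eval ![z.1, z.2] g :=
    (contDiff_eval g (k := 0)).continuous
  have hcd : ∀ a : ℝ, ContDiff ℝ 1 (turn a (vf P Q)) := by
    intro a
    unfold turn
    exact ((contDiff_const.mul hv.fst).sub (contDiff_const.mul hv.snd)).prodMk
      ((contDiff_const.mul hv.fst).add (contDiff_const.mul hv.snd))
  have hle : ∀ a : ℝ, allN (turn a (vf P Q)) ≤ allN (turn a (vf P₁ Q₁)) := by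
    intro a
    refine allN_mono fun C hC => ?_
    refine IsClosedOrbit.of_smul_field hgc (hcd a) (Y := turn a (vf P₁ Q₁)) (fun z => ?_) hC
    exact congrFun (turn_smul_field hsm a) z
  have hpi : ∀ a : ℝ, allN (turn (a + Real.pi) (vf P₁ Q₁)) ≤ allN (turn a (vf P₁ Q₁)) := by
    intro a
    refine allN_mono fun C hC => ?_
    rw [turn_add_pi] at hC
    simpa using hC.neg
  have key := most_coprime2 hn hP₁d hQ₁d hrel hε hε1
  set lam : ℝ := 10 ^ 13 * n ^ 9 / ε ^ 2 with hlam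
  set E : Set ℝ := {a : ℝ | a ∈ Set.Ioo 0 Real.pi ∧
      ENNReal.ofReal lam < allN (turn a (vf P₁ Q₁))} with hE
  have hsub : {a : ℝ | a ∈ Set.Icc 0 (2 * Real.pi) ∧
      ENNReal.ofReal lam < allN (turn a (vf P Q))} ⊆
      (E ∪ (fun a => a - Real.pi) ⁻¹' E) ∪ {0, Real.pi, 2 * Real.pi} := by
    rintro a ⟨ha, hN⟩
    have hN' := hN.trans_le (hle a)
    by_cases h1 : a = 0
    · exact Or.inr (by simp [h1])
    by_cases h2 : a = Real.pi
    · exact Or.inr (by simp [h2])
    by_cases h3 : a = 2 * Real.pi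
    · exact Or.inr (by simp [h3])
    left
    rcases lt_or_gt_of_ne h2 with h4 | h4
    · exact Or.inl ⟨⟨lt_of_le_of_ne ha.1 (Ne.symm h1), h4⟩, hN'⟩
    · refine Or.inr ⟨⟨?_, ?_⟩, ?_⟩
      · show 0 < a - Real.pi
        linarith
      · show a - Real.pi < Real.pi
        have := lt_of_le_of_ne ha.2 h3
        linarith
      · have h5 := hpi (a - Real.pi)
        rw [sub_add_cancel] at h5
        exact hN'.trans_le h5
  have hpre : volume ((fun a => a - Real.pi) ⁻¹' E) = volume E := by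
    simpa only [sub_eq_add_neg] using measure_preimage_add_right volume (-Real.pi) E
  have hfin : volume ({0, Real.pi, 2 * Real.pi} : Set ℝ) = 0 :=
    (Set.toFinite _).measure_zero volume
  calc _ ≤ volume ((E ∪ (fun a => a - Real.pi) ⁻¹' E) ∪ {0, Real.pi, 2 * Real.pi}) :=
        measure_mono hsub
    _ ≤ volume (E ∪ (fun a => a - Real.pi) ⁻¹' E) + volume ({0, Real.pi, 2 * Real.pi} : Set ℝ) :=
        measure_union_le _ _
    _ ≤ (volume E + volume ((fun a => a - Real.pi) ⁻¹' E)) + 0 := by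
        rw [hfin]
        gcongr
        exact measure_union_le _ _
    _ ≤ (ENNReal.ofReal (ε / 2) + ENNReal.ofReal (ε / 2)) + 0 := by
        rw [hpre]
        gcongr
    _ = ENNReal.ofReal ε := by
        rw [add_zero, ← ENNReal.ofReal_add (by positivity) (by positivity)]
        congr 1
        ring

end Pool.Agent.Lib.MP_95e7ec_an
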